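import Pool.Agent.Helper38.RE.Cx

/-! Project RE2 (MP_cc4a3b_co, extension to all k), piece RE2-BDL. The proof is in
RE/St/BDL.lean. -/

set_option autoImplicit false

namespace Pool.Agent.Helper38.RE

open Finset

variable {V : Type*} [Fintype V] [DecidableEq V]

section defs

variable (F : SimpleGraph V) [DecidableRel F.Adj] (U D : Finset V)

/-- the elements of `T2` without neighbour in `Z` -/
def bdlB : Finset V := (tT2 F U D).filter fun v => N F v ∩ tZ F U D = ∅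

/-- low elements -/
def bdlLow (w : V) : Prop := w ∉ D ∧ (N F w ∩ tK F U D).card + (N F w ∩ tZ F U D).card ≤ 2

instance (w : V) : Decidable (bdlLow F U D w) :=
  inferInstanceAs (Decidable (_ ∧ _))

/-- the elements of `bdlB` with two low neighbours -/
def bdlL : Finset V := (bdlB F U D).filter fun v => ∀ x ∈ N F v, bdlLow F U D x

/-- the neighbours of `bdlL` -/
def bdlL1 : Finset V := (tK F U D \ tZ F U D).filter fun w => (N F w ∩ bdlL F U D).Nonempty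

/-- the contribution of `w` -/
def bdlg (w : V) : ℤ :=
  (dg F w : ℤ) + ((N F w ∩ tZ F U D).card : ℤ) - 3 - if w ∈ D then 2 else 0

/-- the reduced contribution of `w` -/
def bdlf (w : V) : ℤ :=
  2 * bdlg F U D w - 2 * ((tZ F U D).card - 2 : ℤ) * (if w ∈ D then 1 else 0)
    - if bdlLow F U D w then ((N F w ∩ bdlL F U D).card : ℤ)
      else 2 * ((N F w ∩ bdlB F U D).card : ℤ)

end defs

theorem bdl_split {X A B : Finset V} (h : A ⊆ B) :
    (X ∩ B).card = (X ∩ A).card + (X ∩ (B \ A)).card := by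
  rw [← card_union_of_disjoint, ← inter_union_distrib_left, union_sdiff_of_subset h]
  rw [disjoint_left]
  intro x hx hx'
  exact (mem_sdiff.1 (mem_inter.1 hx').2).2 (mem_inter.1 hx).2

variable {F : SimpleGraph V} [DecidableRel F.Adj] {U D : Finset V}

theorem bdl_B_T2 {v : V} (hv : v ∈ bdlB F U D) : v ∈ tT2 F U D := (mem_filter.1 hv).1

theorem bdl_B_T {v : V} (hv : v ∈ bdlB F U D) : v ∈ tT F U D := Cx.T2_sub (bdl_B_T2 hv)

theorem bdl_nbr {v : V} (hv : v ∈ bdlB F U D) : N F v ⊆ tK F U D \ tZ F U D := by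
  obtain ⟨h2, hz⟩ := mem_filter.1 hv
  have hT := Cx.T2_sub h2
  have hc : (N F v ∩ tK F U D).card = 2 := (mem_filter.1 h2).2
  have hd : (N F v).card = 2 := (Cx.mem_T.1 hT).2.2
  have he : N F v ∩ tK F U D = N F v := eq_of_subset_of_card_le inter_subset_left (by omega)
  intro x hx
  rw [mem_sdiff]
  constructor
  · rw [← he] at hx
    exact (mem_inter.1 hx).2
  · intro hxz
    have : x ∈ N F v ∩ tZ F U D := mem_inter.2 ⟨hx, hxz⟩
    rw [hz] at this
    exact notMem_empty _ this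

theorem bdl_L_B {v : V} (hv : v ∈ bdlL F U D) : v ∈ bdlB F U D := (mem_filter.1 hv).1

/-- the charging of the elements of `bdlB` -/
theorem bdl_charge :
    2 * ((bdlB F U D).card : ℤ) ≤ ∑ w ∈ tK F U D \ tZ F U D,
      if bdlLow F U D w then ((N F w ∩ bdlL F U D).card : ℤ)
        else 2 * ((N F w ∩ bdlB F U D).card : ℤ) := by
  rw [sum_ite, ← mul_sum]
  set A := (tK F U D \ tZ F U D).filter fun w => bdlLow F U D w with hA
  set B := (tK F U D \ tZ F U D).filter fun w => ¬ bdlLow F U D w with hB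
  have h1 : ∑ w ∈ A, (N F w ∩ bdlL F U D).card = 2 * (bdlL F U D).card := by
    rw [sum_inter_comm, mul_comm, ← smul_eq_mul, ← sum_const]
    refine sum_congr rfl fun v hv => ?_
    have hvB := bdl_L_B hv
    have hsub : N F v ⊆ A := by
      intro x hx
      exact mem_filter.2 ⟨bdl_nbr hvB hx, (mem_filter.1 hv).2 x hx⟩
    rw [inter_eq_left.2 hsub]
    exact (Cx.mem_T.1 (bdl_B_T hvB)).2.2
  have h2 : (bdlB F U D \ bdlL F U D).card ≤ ∑ w ∈ B, (N F w ∩ bdlB F U D).card := by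
    rw [sum_inter_comm]
    refine le_trans ?_ (sum_le_sum_of_subset (sdiff_subset (t := bdlL F U D)))
    rw [card_eq_sum_ones]
    refine sum_le_sum fun v hv => ?_
    obtain ⟨hvB, hvL⟩ := mem_sdiff.1 hv
    have h3 : ¬ ∀ x ∈ N F v, bdlLow F U D x := fun h => hvL (mem_filter.2 ⟨hvB, h⟩)
    push Not at h3
    obtain ⟨x, hx, hxl⟩ := h3
    exact card_pos.2 ⟨x, mem_inter.2 ⟨hx, mem_filter.2 ⟨bdl_nbr hvB hx, hxl⟩⟩⟩
  have h3 : (bdlB F U D).card = (bdlL F U D).card + (bdlB F U D \ bdlL F U D).card := by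
    have : bdlL F U D ⊆ bdlB F U D := filter_subset _ _
    have := card_sdiff_add_card_eq_card this
    omega
  have h4 : ∑ w ∈ A, ((N F w ∩ bdlL F U D).card : ℤ) = 2 * ((bdlL F U D).card : ℤ) := by
    exact_mod_cast h1
  have h5 : ((bdlB F U D \ bdlL F U D).card : ℤ) ≤ ∑ w ∈ B, ((N F w ∩ bdlB F U D).card : ℤ) := by
    exact_mod_cast h2
  rw [h4]
  have h6 : ((bdlB F U D).card : ℤ) = (bdlL F U D).card + (bdlB F U D \ bdlL F U D).card := by
    exact_mod_cast h3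
  linarith

theorem bdl_sum (C : Cx F U D) :
    ∑ w ∈ tK F U D \ tZ F U D, bdlf F U D w ≤
      2 * ∑ w ∈ tK F U D \ tZ F U D, bdlg F U D w
        - 2 * ((tZ F U D).card - 2 : ℤ) * ((D \ tZ F U D).card : ℤ)
        - 2 * ((bdlB F U D).card : ℤ) := by
  have h1 := bdl_charge (F := F) (U := U) (D := D)
  have h2 : ∑ w ∈ tK F U D \ tZ F U D, (if w ∈ D then 1 else 0 : ℤ) =
      ((D \ tZ F U D).card : ℤ) := by
    rw [← sum_filter, sum_const, nsmul_eq_mul, mul_one]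
    congr 2
    ext x
    simp only [mem_filter, mem_sdiff]
    constructor
    · rintro ⟨⟨-, h1⟩, h2⟩
      exact ⟨h2, h1⟩
    · rintro ⟨h1, h2⟩
      exact ⟨⟨C.D_sub_K h1, h2⟩, h1⟩
  simp only [bdlf, sum_sub_distrib, ← mul_sum]
  rw [h2]
  linarith

/-- elements of `D` -/
theorem bdl_fD (C : Cx F U D) (hd : 3 ≤ D.card) {w : V} (hw : w ∈ D) (hwZ : w ∉ tZ F U D) :
    (N F w ∩ tZ F U D).card = (tZ F U D).card ∧
    2 * (((N F w ∩ tK F U D).card : ℤ) - 3) ≤ bdlf F U D w := by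
  have h1 : N F w ∩ tZ F U D = tZ F U D := by
    rw [inter_eq_right]
    intro z hz
    have := C.Z_adj hz hw (fun h => hwZ (h ▸ hz))
    exact Cx.N_comm.1 this
  have h2 := C.dg_notZ hd (C.D_sub_K hw) hwZ
  have h3 : (N F w ∩ bdlB F U D).card ≤ (N F w ∩ tT2 F U D).card :=
    card_le_card (inter_subset_inter_left (filter_subset _ _))
  have h4 : ¬ bdlLow F U D w := fun h => h.1 hw
  refine ⟨by rw [h1], ?_⟩
  unfold bdlf bdlg
  rw [if_pos hw, if_pos hw, if_neg h4, h1, h2]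
  push_cast
  have h5 : ((N F w ∩ bdlB F U D).card : ℤ) ≤ (N F w ∩ tT2 F U D).card := by exact_mod_cast h3
  linarith

theorem bdl_fD0 (C : Cx F U D) (hd : 3 ≤ D.card) (hh : 2 ≤ (tZ F U D).card) {w : V}
    (hw : w ∈ D) (hwZ : w ∉ tZ F U D) : 0 ≤ bdlf F U D w := by
  obtain ⟨h1, h2⟩ := bdl_fD C hd hw hwZ
  rcases (N F w ∩ bdlB F U D).eq_empty_or_nonempty with h | ⟨v, hv⟩
  · have h4 : ¬ bdlLow F U D w := fun h => h.1 hw
    have h5 := C.h3 w hw
    unfold bdlf bdlg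
    rw [if_pos hw, if_pos hw, if_neg h4, h, h1, card_empty]
    push_cast
    have h6 : (3 : ℤ) ≤ (dg F w : ℤ) := by exact_mod_cast h5
    linarith
  · obtain ⟨hvw, hvB⟩ := mem_inter.1 hv
    have hvT := bdl_B_T hvB
    obtain ⟨b, hbw, hNv⟩ := Cx.T_pair hvT (Cx.N_comm.1 hvw)
    obtain ⟨x, hx, hxw⟩ := C.com hw (Cx.T_sub hvT) (fun h => (Cx.mem_T.1 hvT).2.1 (h ▸ hw))
    have hxb : x = b := by
      rw [hNv, mem_insert, mem_singleton] at hx
      rcases hx with rfl | rfl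
      · exact absurd hxw Cx.not_self
      · rfl
    subst hxb
    have hbK : x ∈ tK F U D \ tZ F U D := bdl_nbr hvB (by rw [hNv]; simp)
    obtain ⟨hbK1, hbK2⟩ := mem_sdiff.1 hbK
    have h5 : (insert x (N F w ∩ tZ F U D)).card ≤ (N F w ∩ tK F U D).card := by
      refine card_le_card ?_
      intro y hy
      rw [mem_insert] at hy
      rcases hy with rfl | hy
      · exact mem_inter.2 ⟨hxw, hbK1⟩
      · exact mem_inter.2 ⟨(mem_inter.1 hy).1, Cx.Z_sub (mem_inter.1 hy).2⟩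
    rw [card_insert_of_notMem (fun h => hbK2 (mem_inter.1 h).2), h1] at h5
    have h6 : (3 : ℤ) ≤ ((N F w ∩ tK F U D).card : ℤ) := by
      exact_mod_cast (by omega : 3 ≤ (N F w ∩ tK F U D).card)
    linarith

/-- strong elements outside `D` -/
theorem bdl_fs (C : Cx F U D) (hd : 3 ≤ D.card) {w : V} (hw : w ∈ tK F U D \ tZ F U D)
    (hwD : w ∉ D) (hl : ¬ bdlLow F U D w) : 0 ≤ bdlf F U D w := by
  have h2 := C.dg_notZ hd (mem_sdiff.1 hw).1 (mem_sdiff.1 hw).2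
  have h3 : (N F w ∩ bdlB F U D).card ≤ (N F w ∩ tT2 F U D).card :=
    card_le_card (inter_subset_inter_left (filter_subset _ _))
  have h4 : 3 ≤ (N F w ∩ tK F U D).card + (N F w ∩ tZ F U D).card := by
    by_contra h
    exact hl ⟨hwD, by omega⟩
  unfold bdlf bdlg
  rw [if_neg hwD, if_neg hwD, if_neg hl, h2]
  push_cast
  have h5 : ((N F w ∩ bdlB F U D).card : ℤ) ≤ (N F w ∩ tT2 F U D).card := by exact_mod_cast h3
  have h6 : (3 : ℤ) ≤ (N F w ∩ tK F U D).card + (N F w ∩ tZ F U D).card := by exact_mod_cast h4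
  linarith

/-- low elements -/
theorem bdl_fl (C : Cx F U D) (hd : 3 ≤ D.card) {w : V} (hw : w ∈ tK F U D \ tZ F U D)
    (hl : bdlLow F U D w) :
    bdlf F U D w = 2 * (((N F w ∩ tK F U D).card : ℤ) + (N F w ∩ tZ F U D).card - 3)
      + 2 * ((N F w ∩ tT2 F U D).card : ℤ) - ((N F w ∩ bdlL F U D).card : ℤ) := by
  have h2 := C.dg_notZ hd (mem_sdiff.1 hw).1 (mem_sdiff.1 hw).2
  unfold bdlf bdlg
  rw [if_neg hl.1, if_neg hl.1, if_pos hl, h2]
  push_cast
  ring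

theorem bdl_fl0 (C : Cx F U D) (hd : 3 ≤ D.card) {w : V} (hw : w ∈ tK F U D \ tZ F U D)
    (hl : bdlLow F U D w) (h0 : N F w ∩ bdlL F U D = ∅) : 0 ≤ bdlf F U D w := by
  have h2 := C.dg_notZ hd (mem_sdiff.1 hw).1 (mem_sdiff.1 hw).2
  have h3 := C.dg_K (mem_sdiff.1 hw).1
  rw [bdl_fl C hd hw hl, h0, card_empty]
  have h4 : (3 : ℤ) ≤ (N F w ∩ tK F U D).card + (N F w ∩ tT2 F U D).card := by
    exact_mod_cast (by omega : 3 ≤ (N F w ∩ tK F U D).card + (N F w ∩ tT2 F U D).card)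
  have h5 : (0 : ℤ) ≤ (N F w ∩ tZ F U D).card := by positivity
  push_cast
  linarith

theorem bdl_L1_KZ {w : V} (hw : w ∈ bdlL1 F U D) : w ∈ tK F U D \ tZ F U D :=
  (mem_filter.1 hw).1

theorem bdl_L1_low {w : V} (hw : w ∈ bdlL1 F U D) : bdlLow F U D w := by
  obtain ⟨v, hv⟩ := (mem_filter.1 hw).2
  obtain ⟨h1, h2⟩ := mem_inter.1 hv
  exact (mem_filter.1 h2).2 w (Cx.N_comm.1 h1)

theorem bdl_f0 (C : Cx F U D) (hd : 3 ≤ D.card) (hh : 2 ≤ (tZ F U D).card) {w : V}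
    (hw : w ∈ tK F U D \ tZ F U D) (h1 : w ∉ bdlL1 F U D) : 0 ≤ bdlf F U D w := by
  by_cases hD : w ∈ D
  · exact bdl_fD0 C hd hh hD (mem_sdiff.1 hw).2
  · by_cases hl : bdlLow F U D w
    · refine bdl_fl0 C hd hw hl ?_
      by_contra h
      exact h1 (mem_filter.2 ⟨hw, nonempty_iff_ne_empty.2 h⟩)
    · exact bdl_fs C hd hw hD hl

/-- `D` is covered by the neighbourhoods of the two neighbours of an element of `T` -/
theorem bdl_cov (C : Cx F U D) {v w b : V} (hv : v ∈ tT F U D) (hN : N F v = {w, b})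
    {A : Finset V} (hA : A ⊆ D) : A.card ≤ (N F w ∩ A).card + (N F b ∩ A).card := by
  have hsub : A ⊆ (N F w ∩ A) ∪ (N F b ∩ A) := by
    intro y hyA
    have hy := hA hyA
    have hvy : v ≠ y := fun h => (Cx.mem_T.1 hv).2.1 (h ▸ hy)
    obtain ⟨x, hx, hxy⟩ := C.com hy (Cx.T_sub hv) hvy
    rw [hN, mem_insert, mem_singleton] at hx
    rcases hx with rfl | rfl
    · exact mem_union_left _ (mem_inter.2 ⟨Cx.N_comm.1 hxy, hyA⟩)
    · exact mem_union_right _ (mem_inter.2 ⟨Cx.N_comm.1 hxy, hyA⟩)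
  exact (card_le_card hsub).trans (card_union_le _ _)

/-- neighbours in `D` of low elements -/
theorem bdl_low_D (C : Cx F U D) (w : V) :
    (N F w ∩ (D \ tZ F U D)).card + (N F w ∩ (D ∩ tZ F U D)).card ≤ (N F w ∩ tK F U D).card ∧
    (N F w ∩ (D ∩ tZ F U D)).card ≤ (N F w ∩ tZ F U D).card := by
  constructor
  · have h1 := bdl_split (X := N F w) (A := D ∩ tZ F U D) (B := D) inter_subset_left
    have h2 : D \ (D ∩ tZ F U D) = D \ tZ F U D := by
      ext x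
      simp only [mem_sdiff, mem_inter]
      tauto
    rw [h2] at h1
    have h3 : (N F w ∩ D).card ≤ (N F w ∩ tK F U D).card :=
      card_le_card (inter_subset_inter_left C.D_sub_K)
    omega
  · exact card_le_card (inter_subset_inter_left inter_subset_right)

/-- the numbers attached to an element of `bdlL1` -/
theorem bdl_num (C : Cx F U D) (hd : 3 ≤ D.card) {w : V} (hw : w ∈ bdlL1 F U D) :
    bdlf F U D w = 2 * (((N F w ∩ tK F U D).card : ℤ) + (N F w ∩ tZ F U D).card - 3)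
      + 2 * ((N F w ∩ (tT2 F U D \ bdlL F U D)).card : ℤ) + ((N F w ∩ bdlL F U D).card : ℤ) ∧
    3 ≤ (N F w ∩ tK F U D).card + (N F w ∩ (tT2 F U D \ bdlL F U D)).card
      + (N F w ∩ bdlL F U D).card ∧ 1 ≤ (N F w ∩ bdlL F U D).card ∧
    (N F w ∩ tK F U D).card + (N F w ∩ tZ F U D).card ≤ 2 ∧
    (N F w ∩ (D \ tZ F U D)).card + (N F w ∩ (D ∩ tZ F U D)).card ≤ (N F w ∩ tK F U D).card ∧
    (N F w ∩ (D ∩ tZ F U D)).card ≤ (N F w ∩ tZ F U D).card := by
  have hKZ := bdl_L1_KZ hw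
  have hl := bdl_L1_low hw
  have h1 := bdl_fl C hd hKZ hl
  have h2 := C.dg_notZ hd (mem_sdiff.1 hKZ).1 (mem_sdiff.1 hKZ).2
  have h3 := C.dg_K (mem_sdiff.1 hKZ).1
  have h4 := bdl_split (X := N F w) (A := bdlL F U D) (B := tT2 F U D)
    (fun x hx => bdl_B_T2 (bdl_L_B hx))
  have h5 : 1 ≤ (N F w ∩ bdlL F U D).card := card_pos.2 (mem_filter.1 hw).2
  obtain ⟨h6, h7⟩ := bdl_low_D C w
  refine ⟨?_, by omega, h5, hl.2, h6, h7⟩
  rw [h1, h4]
  push_cast
  ring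

theorem bdl_size (C : Cx F U D) :
    D.card = (D \ tZ F U D).card + (D ∩ tZ F U D).card := by
  have := card_sdiff_add_card_inter D (tZ F U D)
  omega

/-- the partner of an element of `bdlL1` -/
theorem bdl_partner (C : Cx F U D) {v w b : V} (hv : v ∈ bdlL F U D)
    (hN : N F v = {w, b}) :
    (D \ tZ F U D).card ≤ (N F w ∩ (D \ tZ F U D)).card + (N F b ∩ (D \ tZ F U D)).card ∧
    (D ∩ tZ F U D).card ≤ (N F w ∩ (D ∩ tZ F U D)).card + (N F b ∩ (D ∩ tZ F U D)).card :=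
  ⟨bdl_cov C (bdl_B_T (bdl_L_B hv)) hN sdiff_subset,
    bdl_cov C (bdl_B_T (bdl_L_B hv)) hN inter_subset_left⟩

theorem bdl_mem_L1 {v w : V} (hv : v ∈ bdlL F U D) (hw : w ∈ N F v) : w ∈ bdlL1 F U D :=
  mem_filter.2 ⟨bdl_nbr (bdl_L_B hv) hw, ⟨v, mem_inter.2 ⟨Cx.N_comm.1 hw, hv⟩⟩⟩

/-- the contribution of an element of `bdlL1` -/
theorem bdl_q (C : Cx F U D) (hd : 3 ≤ D.card) {w : V} (hw : w ∈ bdlL1 F U D) :
    0 ≤ bdlf F U D w + 2 * ((N F w ∩ (D \ tZ F U D)).card : ℤ) ∧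
    ((D \ tZ F U D).card = 4 → 3 ≤ bdlf F U D w + 2 * ((N F w ∩ (D \ tZ F U D)).card : ℤ)) ∧
    (D \ tZ F U D).card + 2 * (D ∩ tZ F U D).card ≤ 4 ∧
    ((N F w ∩ (D \ tZ F U D)).card = 2 → (N F w ∩ tK F U D).card = 2 ∧
      (N F w ∩ (D ∩ tZ F U D)).card = 0 ∧
      bdlf F U D w + 2 * ((N F w ∩ (D \ tZ F U D)).card : ℤ) =
        2 + 2 * ((N F w ∩ (tT2 F U D \ bdlL F U D)).card : ℤ)
          + ((N F w ∩ bdlL F U D).card : ℤ)) := by
  obtain ⟨e1, e2, e3, e4, e5, e6⟩ := bdl_num C hd hw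
  obtain ⟨v, hv⟩ := (mem_filter.1 hw).2
  obtain ⟨hv1, hvL⟩ := mem_inter.1 hv
  obtain ⟨b, hbw, hNv⟩ := Cx.T_pair (bdl_B_T (bdl_L_B hvL)) (Cx.N_comm.1 hv1)
  have hb : b ∈ bdlL1 F U D := bdl_mem_L1 hvL (by rw [hNv]; simp)
  obtain ⟨-, -, -, f4, f5, f6⟩ := bdl_num C hd hb
  obtain ⟨g1, g2⟩ := bdl_partner C hvL hNv
  have hs := bdl_size C
  rw [e1]
  refine ⟨?_, ?_, ?_, ?_⟩
  · omega
  · omega
  · omega
  · omega

/-- an element of `bdlL1` with two neighbours in `D` -/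
theorem bdl_star (C : Cx F U D) (hd : 3 ≤ D.card) {v : V} (hv : v ∈ bdlL F U D) :
    ∃ w b, w ∈ bdlL1 F U D ∧ b ∈ bdlL1 F U D ∧ w ≠ b ∧
      (N F w ∩ (D \ tZ F U D)).card = 2 := by
  obtain ⟨w, b, hwb, hNv⟩ := card_eq_two.1 (Cx.mem_T.1 (bdl_B_T (bdl_L_B hv))).2.2
  have hw : w ∈ bdlL1 F U D := bdl_mem_L1 hv (by rw [hNv]; simp)
  have hb : b ∈ bdlL1 F U D := bdl_mem_L1 hv (by rw [hNv]; simp)
  obtain ⟨-, -, -, e4, e5, e6⟩ := bdl_num C hd hw
  obtain ⟨-, -, -, f4, f5, f6⟩ := bdl_num C hd hb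
  obtain ⟨g1, g2⟩ := bdl_partner C hv hNv
  have hs := bdl_size C
  by_cases h : (N F w ∩ (D \ tZ F U D)).card = 2
  · exact ⟨w, b, hw, hb, hwb, h⟩
  · exact ⟨b, w, hb, hw, hwb.symm, by omega⟩

/-- lower bound for the total -/
theorem bdl_total (C : Cx F U D) (hd : 3 ≤ D.card) (hh : 2 ≤ (tZ F U D).card) :
    2 * ((tZ F U D).card - 3 : ℤ) * ((D \ tZ F U D).card : ℤ)
      + 2 * ∑ y ∈ D \ tZ F U D,
        ((N F y ∩ ((tK F U D \ tZ F U D) \ bdlL1 F U D)).card : ℤ)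
      + ∑ w ∈ bdlL1 F U D, (bdlf F U D w + 2 * ((N F w ∩ (D \ tZ F U D)).card : ℤ)) ≤
    ∑ w ∈ tK F U D \ tZ F U D, bdlf F U D w := by
  have hsub : (D \ tZ F U D) ∪ bdlL1 F U D ⊆ tK F U D \ tZ F U D := by
    refine union_subset ?_ (filter_subset _ _)
    intro x hx
    exact mem_sdiff.2 ⟨C.D_sub_K (mem_sdiff.1 hx).1, (mem_sdiff.1 hx).2⟩
  have hdis : Disjoint (D \ tZ F U D) (bdlL1 F U D) := by
    rw [disjoint_left]
    intro x hx hx'
    exact (bdl_L1_low hx').1 (mem_sdiff.1 hx).1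
  have h1 : ∑ w ∈ (D \ tZ F U D) ∪ bdlL1 F U D, bdlf F U D w ≤
      ∑ w ∈ tK F U D \ tZ F U D, bdlf F U D w := by
    refine sum_le_sum_of_subset_of_nonneg hsub fun w hw hw' => ?_
    exact bdl_f0 C hd hh hw (fun h => hw' (mem_union_right _ h))
  rw [sum_union hdis] at h1
  have h2 : ∑ y ∈ D \ tZ F U D, (2 * ((tZ F U D).card - 3 : ℤ)
      + 2 * ((N F y ∩ ((tK F U D \ tZ F U D) \ bdlL1 F U D)).card : ℤ)
      + 2 * ((N F y ∩ bdlL1 F U D).card : ℤ)) ≤ ∑ y ∈ D \ tZ F U D, bdlf F U D y := by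
    refine sum_le_sum fun y hy => ?_
    obtain ⟨hyD, hyZ⟩ := mem_sdiff.1 hy
    obtain ⟨a1, a2⟩ := bdl_fD C hd hyD hyZ
    have a3 := bdl_split (X := N F y) (A := tZ F U D) (B := tK F U D) Cx.Z_sub
    have a4 := bdl_split (X := N F y) (A := bdlL1 F U D) (B := tK F U D \ tZ F U D)
      (filter_subset _ _)
    have a5 : ((N F y ∩ tK F U D).card : ℤ) = (tZ F U D).card + ((N F y ∩ bdlL1 F U D).card
        + (N F y ∩ ((tK F U D \ tZ F U D) \ bdlL1 F U D)).card) := by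
      exact_mod_cast (by omega : (N F y ∩ tK F U D).card = (tZ F U D).card
        + ((N F y ∩ bdlL1 F U D).card
        + (N F y ∩ ((tK F U D \ tZ F U D) \ bdlL1 F U D)).card))
    linarith
  rw [sum_add_distrib, sum_add_distrib, sum_const, ← mul_sum, ← mul_sum, nsmul_eq_mul] at h2
  have h3 : ∑ y ∈ D \ tZ F U D, ((N F y ∩ bdlL1 F U D).card : ℤ) =
      ∑ w ∈ bdlL1 F U D, ((N F w ∩ (D \ tZ F U D)).card : ℤ) := by
    exact_mod_cast sum_inter_comm F (D \ tZ F U D) (bdlL1 F U D)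
  rw [h3] at h2
  rw [sum_add_distrib, ← mul_sum]
  linarith

/-- the final count -/
theorem bdl_final (C : Cx F U D) (hd : 3 ≤ D.card) (hh : 2 ≤ (tZ F U D).card) :
    -1 ≤ ∑ w ∈ tK F U D \ tZ F U D, bdlf F U D w := by
  rcases (bdlL F U D).eq_empty_or_nonempty with h0 | ⟨v, hv⟩
  · have : 0 ≤ ∑ w ∈ tK F U D \ tZ F U D, bdlf F U D w := by
      refine sum_nonneg fun w hw => bdl_f0 C hd hh hw ?_
      intro h
      obtain ⟨x, hx⟩ := (mem_filter.1 h).2
      rw [h0, inter_empty] at hx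
      exact notMem_empty _ hx
    linarith
  obtain ⟨w, b, hw, hb, hwb, ha⟩ := bdl_star C hd hv
  have htot := bdl_total C hd hh
  set m := (D \ tZ F U D).card with hm
  set p := (D ∩ tZ F U D).card with hp
  have hs := bdl_size C
  rw [← hm, ← hp] at hs
  obtain ⟨q1, q2, q3, q4⟩ := bdl_q C hd hw
  obtain ⟨k2, c0, q5⟩ := q4 ha
  obtain ⟨r1, r2, -, -⟩ := bdl_q C hd hb
  obtain ⟨-, -, l1, -, -, -⟩ := bdl_num C hd hw
  rw [← hm] at q2 q3 r2
  rw [← hp] at q3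
  set q : V → ℤ := fun w => bdlf F U D w + 2 * ((N F w ∩ (D \ tZ F U D)).card : ℤ) with hq
  set e : V → ℤ := fun y => ((N F y ∩ ((tK F U D \ tZ F U D) \ bdlL1 F U D)).card : ℤ) with he
  have hq0 : ∀ x ∈ bdlL1 F U D, 0 ≤ q x := fun x hx => (bdl_q C hd hx).1
  have he0 : ∀ y ∈ D \ tZ F U D, 0 ≤ e y := fun y _ => by positivity
  have hsq : q w ≤ ∑ x ∈ bdlL1 F U D, q x := single_le_sum hq0 hw
  have hsq2 : q w + q b ≤ ∑ x ∈ bdlL1 F U D, q x := by
    have h1 : ({w, b} : Finset V) ⊆ bdlL1 F U D := by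
      intro x hx
      rw [mem_insert, mem_singleton] at hx
      rcases hx with rfl | rfl
      · exact hw
      · exact hb
    have h2 := sum_le_sum_of_subset_of_nonneg (f := q) h1 (fun x hx _ => hq0 x hx)
    rwa [sum_pair hwb] at h2
  have hse : 0 ≤ ∑ y ∈ D \ tZ F U D, e y := sum_nonneg he0
  have hqw : (3 : ℤ) ≤ q w := by
    have : q w = _ := q5
    rw [this]
    have : (1 : ℤ) ≤ (N F w ∩ bdlL F U D).card := by exact_mod_cast l1
    have : (0 : ℤ) ≤ (N F w ∩ (tT2 F U D \ bdlL F U D)).card := by positivity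
    linarith
  have htot' : 2 * ((tZ F U D).card - 3 : ℤ) * (m : ℤ) + 2 * ∑ y ∈ D \ tZ F U D, e y
      + ∑ x ∈ bdlL1 F U D, q x ≤ ∑ w ∈ tK F U D \ tZ F U D, bdlf F U D w := htot
  rcases Nat.lt_or_ge (tZ F U D).card 3 with h3 | h3
  swap
  · have h4 : (0 : ℤ) ≤ 2 * ((tZ F U D).card - 3 : ℤ) * (m : ℤ) := by
      have : (3 : ℤ) ≤ (tZ F U D).card := by exact_mod_cast h3
      have : (0 : ℤ) ≤ m := by positivity
      have : (0 : ℤ) ≤ (tZ F U D).card - 3 := by linarith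
      positivity
    linarith
  have hh2 : ((tZ F U D).card : ℤ) = 2 := by
    exact_mod_cast (by omega : (tZ F U D).card = 2)
  rw [hh2] at htot'
  have hmm : m = 2 ∨ (m = 3 ∧ p = 0) ∨ (m = 4 ∧ p = 0) := by omega
  rcases hmm with h2m | hmm
  · rw [h2m] at htot'
    push_cast at htot'
    linarith
  have hp0 : p = 0 := by omega
  have hm3 : m = 3 ∨ m = 4 := by omega
  have hDZ : D \ tZ F U D = D := by
    have h0 : D ∩ tZ F U D = ∅ := card_eq_zero.1 hp0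
    ext u
    refine ⟨fun h => (mem_sdiff.1 h).1, fun h => mem_sdiff.2 ⟨h, fun hz => ?_⟩⟩
    have h1 : u ∈ D ∩ tZ F U D := mem_inter.2 ⟨h, hz⟩
    rw [h0] at h1
    exact absurd h1 (notMem_empty u)
  -- an element of `D` not adjacent to `w`
  obtain ⟨y, hyD, hyw⟩ : ∃ y ∈ D, y ∉ N F w := by
    by_contra hcon
    push Not at hcon
    have h1 : N F w ∩ D = D := inter_eq_right.2 hcon
    rw [hDZ, h1] at ha
    omega
  have hwD : w ∉ D := (bdl_L1_low hw).1
  have hwK := bdl_L1_KZ hw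
  have hwU := Cx.K_sub (mem_sdiff.1 hwK).1
  obtain ⟨x, hxw, hxy⟩ := C.com hyD hwU (fun h => hwD (h ▸ hyD))
  by_cases hxK : x ∈ tK F U D
  · -- `x` is an element of `D`
    have hxD : x ∈ D := by
      have h1 : N F w ∩ (D \ tZ F U D) ⊆ N F w ∩ tK F U D := by
        refine inter_subset_inter_left ?_
        rw [hDZ]
        exact C.D_sub_K
      have h2 := eq_of_subset_of_card_le h1 (by omega)
      have h3 : x ∈ N F w ∩ tK F U D := mem_inter.2 ⟨hxw, hxK⟩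
      rw [← h2, hDZ] at h3
      exact (mem_inter.1 h3).2
    have hxney : x ≠ y := fun h => Cx.not_self (h ▸ hxy)
    have hmemD : ∀ u ∈ D, u ∈ (tK F U D \ tZ F U D) \ bdlL1 F U D := by
      intro u hu
      refine mem_sdiff.2 ⟨mem_sdiff.2 ⟨C.D_sub_K hu, ?_⟩, fun h => (bdl_L1_low h).1 hu⟩
      rw [← hDZ] at hu
      exact (mem_sdiff.1 hu).2
    have ex : (1 : ℤ) ≤ e x := by
      have h0 : 1 ≤ (N F x ∩ ((tK F U D \ tZ F U D) \ bdlL1 F U D)).card :=
        card_pos.2 ⟨y, mem_inter.2 ⟨Cx.N_comm.1 hxy, hmemD y hyD⟩⟩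
      have h1 : (1 : ℤ) ≤ ((N F x ∩ ((tK F U D \ tZ F U D) \ bdlL1 F U D)).card : ℤ) := by
        exact_mod_cast h0
      exact h1
    have ey : (1 : ℤ) ≤ e y := by
      have h0 : 1 ≤ (N F y ∩ ((tK F U D \ tZ F U D) \ bdlL1 F U D)).card :=
        card_pos.2 ⟨x, mem_inter.2 ⟨hxy, hmemD x hxD⟩⟩
      have h1 : (1 : ℤ) ≤ ((N F y ∩ ((tK F U D \ tZ F U D) \ bdlL1 F U D)).card : ℤ) := by
        exact_mod_cast h0
      exact h1
    have hsxy : e x + e y ≤ ∑ y ∈ D \ tZ F U D, e y := by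
      have h1 : ({x, y} : Finset V) ⊆ D \ tZ F U D := by
        rw [hDZ]
        intro u hu
        rw [mem_insert, mem_singleton] at hu
        rcases hu with rfl | rfl
        · exact hxD
        · exact hyD
      have h2 := sum_le_sum_of_subset_of_nonneg (f := e) h1 (fun x hx _ => he0 x hx)
      rwa [sum_pair hxney] at h2
    rcases hm3 with h | h
    · rw [h] at htot'
      push_cast at htot'
      linarith
    · have := r2 h
      have hqb : (3 : ℤ) ≤ q b := this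
      rw [h] at htot'
      push_cast at htot'
      linarith
  · -- `x` is an element of `T2`
    have hxU : x ∈ U := C.hU w hwU hxw
    have hxT : x ∈ tT F U D := by
      by_contra h
      exact hxK (Cx.notT_K hxU h)
    have hxT2 : x ∈ tT2 F U D := by
      rcases C.T1_or_T2 hd hxT with h | h
      · exact absurd (mem_filter.2 ⟨(mem_sdiff.1 hwK).1, x, h, Cx.N_comm.1 hxw⟩)
          (mem_sdiff.1 hwK).2
      · exact h
    have hxL : x ∉ bdlL F U D := by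
      intro h
      exact ((mem_filter.1 h).2 y (Cx.N_comm.1 hxy)).1 hyD
    have hnb : (1 : ℤ) ≤ ((N F w ∩ (tT2 F U D \ bdlL F U D)).card : ℤ) := by
      have : 1 ≤ (N F w ∩ (tT2 F U D \ bdlL F U D)).card :=
        card_pos.2 ⟨x, mem_inter.2 ⟨hxw, mem_sdiff.2 ⟨hxT2, hxL⟩⟩⟩
      exact_mod_cast this
    have hqw5 : (5 : ℤ) ≤ q w := by
      have : q w = _ := q5
      rw [this]
      have : (1 : ℤ) ≤ (N F w ∩ bdlL F U D).card := by exact_mod_cast l1
      linarith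
    rcases hm3 with h | h
    · rw [h] at htot'
      push_cast at htot'
      linarith
    · have := r2 h
      have hqb : (3 : ℤ) ≤ q b := this
      rw [h] at htot'
      push_cast at htot'
      linarith

theorem bdl {F : SimpleGraph V} [DecidableRel F.Adj] {U D : Finset V} (C : Cx F U D)
    (hd : 3 ≤ D.card) (hh : 2 ≤ (tZ F U D).card) :
    (((tT2 F U D).filter fun v => N F v ∩ tZ F U D = ∅).card : ℤ)
      + ((tZ F U D).card - 2 : ℤ) * ((D \ tZ F U D).card : ℤ)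
      ≤ ∑ w ∈ tK F U D \ tZ F U D,
        ((dg F w : ℤ) + ((N F w ∩ tZ F U D).card : ℤ) - 3 - if w ∈ D then 2 else 0) := by
  have h1 := bdl_final C hd hh
  have h2 := bdl_sum C
  have h3 : (((tT2 F U D).filter fun v => N F v ∩ tZ F U D = ∅).card : ℤ) =
      ((bdlB F U D).card : ℤ) := rfl
  have h4 : ∑ w ∈ tK F U D \ tZ F U D,
        ((dg F w : ℤ) + ((N F w ∩ tZ F U D).card : ℤ) - 3 - if w ∈ D then 2 else 0) =
      ∑ w ∈ tK F U D \ tZ F U D, bdlg F U D w := rfl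
  rw [h3, h4]
  set X : ℤ := ((tZ F U D).card - 2 : ℤ) * ((D \ tZ F U D).card : ℤ) with hX
  have h5 : 2 * ((tZ F U D).card - 2 : ℤ) * ((D \ tZ F U D).card : ℤ) = 2 * X := by
    rw [hX]
    ring
  rw [h5] at h2
  omega

end Pool.Agent.Helper38.RE
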