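import Mathlib

/-! Project RE (MP_cc4a3b_co): basic definitions and counting identities.

`H` is the complement of the graph of the problem. `N H v` is the neighbourhood of `v` in `H` as a
finset, `dg H v` its size, `miss H S v` the set of the elements of `S` (other than `v`) not
adjacent to `v` in `H`. `del H S` is the graph `H` without the edges at `S`. -/

set_option autoImplicit false
set_option linter.unusedSectionVars false

namespace Pool.Agent.Helper38.RE

open Finset

variable {V : Type*} [Fintype V] [DecidableEq V]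

/-- neighbourhood as a finset -/
abbrev N (H : SimpleGraph V) [DecidableRel H.Adj] (v : V) : Finset V := H.neighborFinset v

/-- degree -/
abbrev dg (H : SimpleGraph V) [DecidableRel H.Adj] (v : V) : ℕ := (N H v).card

/-- elements of `S` other than `v` which are not adjacent to `v` -/
def miss (H : SimpleGraph V) [DecidableRel H.Adj] (S : Finset V) (v : V) : Finset V :=
  (S \ N H v).erase v

/-- the vertices outside `S` which miss an element of `S` -/
def bad (H : SimpleGraph V) [DecidableRel H.Adj] (S : Finset V) : Finset V :=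
  (Sᶜ).filter fun v => (miss H S v).Nonempty

/-- the graph `H` without the edges at `S` -/
def del (H : SimpleGraph V) (S : Finset V) : SimpleGraph V where
  Adj u v := H.Adj u v ∧ u ∉ S ∧ v ∉ S
  symm := ⟨fun _ _ h => ⟨h.1.symm, h.2.2, h.2.1⟩⟩
  loopless := ⟨fun v h => H.loopless.irrefl v h.1⟩

instance (H : SimpleGraph V) [DecidableRel H.Adj] (S : Finset V) : DecidableRel (del H S).Adj :=
  fun u v => inferInstanceAs (Decidable (H.Adj u v ∧ u ∉ S ∧ v ∉ S))

/-- the three properties of the complement which are used -/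
structure Hyp (H : SimpleGraph V) [DecidableRel H.Adj] (j : ℕ) : Prop where
  P1 : ∀ v, j + 2 ≤ dg H v
  P2 : ∀ u v, u ≠ v → j ≤ (N H u ∩ N H v).card
  P5 : ∀ X : Finset V, X.Nonempty → X ≠ univ → ∃ x ∈ X, ∃ y ∉ X, ¬ H.Adj x y

/-- the degree sum is at least `(2 * j + 3) * n - (j ^ 2 + 4 * j + 6 + 2 * (j / 2))` -/
def Good (H : SimpleGraph V) [DecidableRel H.Adj] (j : ℕ) : Prop :=
  (2 * j + 3 : ℤ) * Fintype.card V - (j ^ 2 + 4 * j + 6 + 2 * ((j / 2 : ℕ) : ℤ))
    ≤ ∑ v, (dg H v : ℤ)

section lemmas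

variable (H : SimpleGraph V) [DecidableRel H.Adj]

theorem mem_N {u v : V} : u ∈ N H v ↔ H.Adj v u := by simp [N]

theorem mem_N' {u v : V} : u ∈ N H v ↔ H.Adj u v := by simp [N, SimpleGraph.adj_comm]

theorem mem_miss {S : Finset V} {u v : V} : u ∈ miss H S v ↔ u ≠ v ∧ u ∈ S ∧ ¬ H.Adj v u := by
  simp [miss, N]

theorem mem_bad {S : Finset V} {v : V} : v ∈ bad H S ↔ v ∉ S ∧ (miss H S v).Nonempty := by
  simp [bad]

theorem del_adj {S : Finset V} {u v : V} :
    (del H S).Adj u v ↔ H.Adj u v ∧ u ∉ S ∧ v ∉ S := Iff.rfl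

theorem N_del_of_notMem {S : Finset V} {v : V} (hv : v ∉ S) : N (del H S) v = N H v \ S := by
  ext u
  simp only [mem_N, mem_sdiff, del_adj]
  tauto

theorem N_del_of_mem {S : Finset V} {v : V} (hv : v ∈ S) : N (del H S) v = ∅ := by
  ext u
  simp only [mem_N, del_adj, Finset.notMem_empty, iff_false]
  tauto

theorem N_del_subset {S : Finset V} {v : V} : N (del H S) v ⊆ Sᶜ := by
  intro u hu
  simp only [mem_N, del_adj] at hu
  simp [hu.2.2]

/-- double counting of the pairs `(v, w)` with `v ∈ A`, `w ∈ B`, `v` adjacent to `w` -/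
theorem sum_inter_comm (A B : Finset V) :
    ∑ v ∈ A, (N H v ∩ B).card = ∑ w ∈ B, (N H w ∩ A).card := by
  have h1 : ∀ A B : Finset V, ∑ v ∈ A, (N H v ∩ B).card
      = ∑ v ∈ A, ∑ w ∈ B, if H.Adj v w then 1 else 0 := by
    intro A B
    refine sum_congr rfl fun v _ => ?_
    rw [← card_filter]
    congr 1
    ext w
    simp [N, and_comm]
  rw [h1, h1, sum_comm]
  simp only [SimpleGraph.adj_comm]

/-- accounting: for `X ⊆ U` with all neighbours of `X` in `U` -/
theorem acc {U X : Finset V} (hX : X ⊆ U) (hN : ∀ v ∈ X, N H v ⊆ U) :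
    ∑ v ∈ U, dg H v = ∑ v ∈ U \ X, (dg H v + (N H v ∩ X).card) + ∑ v ∈ X, (N H v ∩ X).card := by
  have h1 : ∑ v ∈ U, dg H v = ∑ v ∈ U \ X, dg H v + ∑ v ∈ X, dg H v :=
    (sum_sdiff hX).symm
  have h2 : ∑ v ∈ X, dg H v
      = ∑ v ∈ X, (N H v ∩ (U \ X)).card + ∑ v ∈ X, (N H v ∩ X).card := by
    rw [← sum_add_distrib]
    refine sum_congr rfl fun v hv => ?_
    have hs : N H v = (N H v ∩ (U \ X)) ∪ (N H v ∩ X) := by
      ext u
      have : u ∈ N H v → u ∈ U := fun h => hN v hv h
      simp only [mem_union, mem_inter, mem_sdiff]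
      tauto
    have hd : Disjoint (N H v ∩ (U \ X)) (N H v ∩ X) := by
      rw [disjoint_left]
      intro u hu hu'
      simp only [mem_inter, mem_sdiff] at hu hu'
      exact hu.2.2 hu'.2
    conv_lhs => rw [dg, hs, card_union_of_disjoint hd]
  rw [h1, h2, sum_add_distrib, sum_inter_comm H X (U \ X)]
  ring

/-- `∑ deg x` over the neighbours `x` of `y` -/
theorem sum_codeg (y : V) {U : Finset V} (hU : ∀ x ∈ N H y, N H x ⊆ U) :
    ∑ x ∈ N H y, dg H x = ∑ v ∈ U, (N H v ∩ N H y).card := by
  rw [sum_inter_comm]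
  refine sum_congr rfl fun x hx => ?_
  rw [inter_eq_left.2 (hU x hx)]

/-- the number of ordered adjacent pairs in `S` is even -/
theorem even_inner (S : Finset V) : Even (∑ s ∈ S, (N H s ∩ S).card) := by
  classical
  have h := (del H Sᶜ).sum_degrees_eq_twice_card_edges
  have h2 : ∑ v, (del H Sᶜ).degree v = ∑ s ∈ S, (N H s ∩ S).card := by
    rw [← sum_subset (subset_univ S)]
    · refine sum_congr rfl fun s hs => ?_
      rw [← SimpleGraph.card_neighborFinset_eq_degree]
      have : N (del H Sᶜ) s = N H s \ Sᶜ := N_del_of_notMem H (by simpa using hs)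
      rw [show (del H Sᶜ).neighborFinset s = N H s \ Sᶜ from this]
      congr 1
      ext u
      simp
    · intro v _ hv
      rw [← SimpleGraph.card_neighborFinset_eq_degree]
      have : N (del H Sᶜ) v = ∅ := N_del_of_mem H (by simpa using hv)
      rw [show (del H Sᶜ).neighborFinset v = ∅ from this, card_empty]
  rw [← h2, h]
  exact even_two_mul _

/-- number of elements of `S` adjacent to `v ∉ S` -/
theorem card_inter_notMem {S : Finset V} {v : V} (hv : v ∉ S) :
    (N H v ∩ S).card + (miss H S v).card = S.card := by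
  have : miss H S v = S \ N H v := by
    ext u
    simp only [mem_miss, mem_sdiff, mem_N]
    constructor
    · rintro ⟨-, h1, h2⟩; exact ⟨h1, h2⟩
    · rintro ⟨h1, h2⟩; exact ⟨fun h => hv (h ▸ h1), h1, h2⟩
  rw [this, inter_comm]
  exact card_inter_add_card_sdiff S (N H v)

/-- number of elements of `S` adjacent to `v ∈ S` -/
theorem card_inter_mem {S : Finset V} {v : V} (hv : v ∈ S) :
    (N H v ∩ S).card + (miss H S v).card + 1 = S.card := by
  have h1 : (S \ N H v).card = (miss H S v).card + 1 := by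
    rw [miss, card_erase_add_one]
    simp [N, hv]
  rw [add_assoc, ← h1, inter_comm]
  exact card_inter_add_card_sdiff S (N H v)

/-- degree outside `S` -/
theorem dg_notMem {S : Finset V} {v : V} (hv : v ∉ S) :
    dg H v + (miss H S v).card = dg (del H S) v + S.card := by
  have h1 := card_inter_notMem H hv
  have h2 : (N H v ∩ S).card + (N H v \ S).card = dg H v := card_inter_add_card_sdiff _ _
  have h3 : dg (del H S) v = (N H v \ S).card := by rw [dg, N_del_of_notMem H hv]
  omega

/-- the degree sum in terms of the graph `del H S` -/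
theorem sum_dg (S : Finset V) :
    ∑ v, (dg H v : ℤ) = ∑ v ∈ Sᶜ, (dg (del H S) v : ℤ)
      + 2 * S.card * (Fintype.card V - S.card) - 2 * ∑ v ∈ Sᶜ, ((miss H S v).card : ℤ)
      + S.card * (S.card - 1) - ∑ s ∈ S, ((miss H S s).card : ℤ) := by
  have h1 := acc H (subset_univ S) (fun v _ => subset_univ _)
  have h2 : ∑ v ∈ univ \ S, (dg H v + (N H v ∩ S).card : ℤ)
      = ∑ v ∈ Sᶜ, ((dg (del H S) v : ℤ) + 2 * S.card - 2 * (miss H S v).card) := by
    rw [← compl_eq_univ_sdiff]
    refine sum_congr rfl fun v hv => ?_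
    have hv' : v ∉ S := by simpa using hv
    have := dg_notMem H hv'
    have := card_inter_notMem H hv'
    omega
  have h3 : ∑ v ∈ S, ((N H v ∩ S).card : ℤ) = ∑ s ∈ S, ((S.card : ℤ) - 1 - (miss H S s).card) := by
    refine sum_congr rfl fun v hv => ?_
    have := card_inter_mem H hv
    omega
  have h4 : ((Sᶜ).card : ℤ) = Fintype.card V - S.card := by
    rw [card_compl, Nat.cast_sub (card_le_univ S)]
  have h5 : (∑ v, (dg H v : ℤ)) = ((∑ v, dg H v : ℕ) : ℤ) := by push_cast; rfl
  rw [h5, h1]
  push_cast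
  rw [h2, h3]
  simp only [sum_add_distrib, sum_sub_distrib, sum_const, nsmul_eq_mul, ← mul_sum]
  rw [h4]
  ring

/-- common neighbours outside `S` of two vertices outside `S` -/
theorem codeg_del {j : ℕ} (P2 : ∀ u v, u ≠ v → j ≤ (N H u ∩ N H v).card) {S : Finset V}
    {u v : V} (hu : u ∉ S) (hv : v ∉ S) (huv : u ≠ v) :
    j + (miss H S u ∪ miss H S v).card ≤ (N (del H S) u ∩ N (del H S) v).card + S.card := by
  have h := P2 u v huv
  have h1 : N H u ∩ N H v = (N (del H S) u ∩ N (del H S) v)
      ∪ (S \ (miss H S u ∪ miss H S v)) := by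
    ext x
    rw [N_del_of_notMem H hu, N_del_of_notMem H hv]
    have e1 : x ∈ S → x ≠ u := fun h e => hu (e ▸ h)
    have e2 : x ∈ S → x ≠ v := fun h e => hv (e ▸ h)
    simp only [mem_inter, mem_union, mem_sdiff, mem_N, mem_miss]
    tauto
  have h2 : (N H u ∩ N H v).card ≤ (N (del H S) u ∩ N (del H S) v).card
      + (S \ (miss H S u ∪ miss H S v)).card := by
    rw [h1]; exact card_union_le _ _
  have h3 : miss H S u ∪ miss H S v ⊆ S := by
    intro x
    simp only [mem_union, mem_miss]
    tauto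
  have h4 := card_sdiff_add_card_eq_card h3
  omega

/-- common neighbours outside `S` of `s ∈ S` and `v ∉ S` -/
theorem codeg_mem {j : ℕ} (P2 : ∀ u v, u ≠ v → j ≤ (N H u ∩ N H v).card) {S : Finset V}
    {s v : V} (hs : s ∈ S) (hv : v ∉ S) :
    j + (miss H S s ∪ (miss H S v).erase s).card + 1
      ≤ (N (del H S) v ∩ N H s).card + S.card := by
  have h := P2 s v (fun h => hv (h ▸ hs))
  have h1 : N H s ∩ N H v ⊆ (N (del H S) v ∩ N H s)
      ∪ (S \ (insert s (miss H S s ∪ (miss H S v).erase s))) := by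
    intro x
    rw [N_del_of_notMem H hv]
    have e1 : H.Adj s x → x ≠ s := fun h e => H.loopless.irrefl s (e ▸ h)
    have e2 : x ∈ S → x ≠ v := fun h e => hv (e ▸ h)
    simp only [mem_inter, mem_union, mem_sdiff, mem_N, mem_miss, mem_insert, mem_erase]
    tauto
  have h2 := (card_le_card h1).trans (card_union_le _ _)
  have h3 : insert s (miss H S s ∪ (miss H S v).erase s) ⊆ S := by
    intro x
    simp only [mem_union, mem_miss, mem_insert, mem_erase]
    rintro (rfl | h | h)
    · exact hs
    · exact h.2.1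
    · exact h.2.2.1
  have h4 := card_sdiff_add_card_eq_card h3
  have h5 : s ∉ miss H S s ∪ (miss H S v).erase s := by
    simp [mem_miss]
  rw [card_insert_of_notMem h5] at h4
  omega

end lemmas

end Pool.Agent.Helper38.RE
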