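import Pool.Agent.Helper38.RE.Roman

/-! Project RE (MP_cc4a3b_co): the extremal graph is connected and every vertex has a Roman
dominating function of weight `m + 2` which is not `0` there. -/

set_option autoImplicit false

namespace Pool.Agent.Helper38.RE

open Finset

theorem c1_cls_lt {m c t : ℕ} (hm : 2 ≤ m) : cls m c t < m := by
  unfold cls
  split_ifs
  · omega
  · exact Nat.mod_lt _ (by omega)

/-- core vertices -/
theorem c1_core {m n : ℕ} {v w : Fin n} (hv : m ≤ (v : ℕ)) (hw : m ≤ (w : ℕ))
    (h : ¬ part (n - m) (v - m) (w - m)) : (cG m n).Adj v w := by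
  rw [cG_adj]
  refine ⟨?_, Or.inr (Or.inr (Or.inr ⟨hv, hw, h⟩))⟩
  intro e
  apply h
  left
  rw [e]

/-- Any two core vertices are joined by a path, and every outside vertex is adjacent to a core
vertex. -/
theorem cG_connected {m n : ℕ} (hm : 2 ≤ m) (hn : 4 * m + 20 ≤ n) : (cG m n).Connected := by
  rw [SimpleGraph.connected_iff_exists_forall_reachable]
  refine ⟨⟨m + 4, by omega⟩, ?_⟩
  have h1 : ∀ w : Fin n, m ≤ (w : ℕ) → ((w : ℕ) - m) / 2 ≠ 2 →
      (cG m n).Reachable ⟨m + 4, by omega⟩ w := by
    intro w hw h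
    apply SimpleGraph.Adj.reachable
    apply c1_core _ hw
    · unfold part
      simp only
      omega
    · simp
  have h2 : ∀ w : Fin n, m ≤ (w : ℕ) → (cG m n).Reachable ⟨m + 4, by omega⟩ w := by
    intro w hw
    by_cases h : ((w : ℕ) - m) / 2 = 2
    · refine (h1 ⟨m + 6, by omega⟩ (by simp) (by simp)).trans ?_
      apply SimpleGraph.Adj.reachable
      apply c1_core _ hw
      · unfold part
        simp only
        omega
      · simp
    · exact h1 w hw h
  intro w
  by_cases hw : m ≤ (w : ℕ)
  · exact h2 w hw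
  · push Not at hw
    refine (h2 ⟨m + 2 * (w : ℕ), by omega⟩ (by simp)).trans ?_
    apply SimpleGraph.Adj.reachable
    rw [cG_adj]
    refine ⟨by simp only; omega, Or.inr (Or.inr (Or.inl ⟨by simp, hw, ?_⟩))⟩
    simp only
    have e1 : m + 2 * (w : ℕ) - m = 2 * (w : ℕ) := by omega
    rw [e1]
    unfold cls
    rw [if_neg (by omega)]
    have e2 : 2 * (w : ℕ) / 2 = w := by omega
    rw [e2, Nat.mod_eq_of_lt hw]

/-- a core vertex with exactly one other core vertex which is not adjacent to it -/
theorem c1_rdf {m n t t' : ℕ} (hm : 2 ≤ m) (hn : 4 * m + 20 ≤ n) (ht : m + t < n)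
    (ht' : m + t' < n) (htt : t ≠ t')
    (hp : ∀ s, m + s < n → part (n - m) t s → s = t ∨ s = t') :
    ∃ f : Fin n → ℕ, IsRDF (cG m n) f ∧ ∑ v, f v = m + 2 ∧ (∀ v : Fin n, (v : ℕ) = m + t → f v = 2) ∧
      (∀ v : Fin n, (v : ℕ) = m + t' → f v = 1) ∧
      ∀ v : Fin n, (v : ℕ) < m → (v : ℕ) ≠ cls m (n - m) t → f v = 1 := by
  have hc := c1_cls_lt (m := m) (c := n - m) (t := t) hm
  let g : ℕ → ℕ := fun i => if i = m + t then 2 else if i = m + t' then 1 else
    if i < m ∧ i ≠ cls m (n - m) t then 1 else 0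
  refine ⟨fun v => g v, ⟨?_, ?_⟩, ?_, ?_, ?_, ?_⟩
  · intro v
    simp only [g]
    split_ifs <;> omega
  · intro v hv
    refine ⟨⟨m + t, ht⟩, ?_, by simp [g]⟩
    simp only [g] at hv
    split_ifs at hv with h1 h2 h3
    by_cases hvm : (v : ℕ) < m
    · have h4 : (v : ℕ) = cls m (n - m) t := by
        by_contra h
        exact h3 ⟨hvm, h⟩
      rw [cG_adj]
      refine ⟨by simp only; omega, Or.inr (Or.inl ⟨hvm, by simp, ?_⟩)⟩
      simp only
      rw [Nat.add_sub_cancel_left]
      exact h4.symm
    · push Not at hvm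
      apply SimpleGraph.Adj.symm
      apply c1_core (by simp) hvm
      simp only
      rw [Nat.add_sub_cancel_left]
      intro h
      have h4 := hp ((v : ℕ) - m) (by omega) h
      omega
  · rw [Fin.sum_univ_eq_sum_range g n]
    have h1 : ∑ i ∈ range n, (g i + if i = cls m (n - m) t then 1 else 0) =
        ∑ i ∈ range n, ((if i = m + t then 2 else 0) + (if i = m + t' then 1 else 0) +
          if i < m then 1 else 0) := by
      refine sum_congr rfl fun i _ => ?_
      simp only [g]
      split_ifs <;> omega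
    rw [sum_add_distrib, sum_add_distrib, sum_add_distrib, sum_ite_eq', sum_ite_eq', sum_ite_eq',
      if_pos (mem_range.2 (by omega)), if_pos (mem_range.2 ht), if_pos (mem_range.2 ht')] at h1
    have h2 : ∑ i ∈ range n, (if i < m then 1 else 0) = m := by
      rw [← card_filter]
      have : (range n).filter (fun i => i < m) = range m := by
        ext i
        simp only [mem_filter, mem_range]
        omega
      rw [this, card_range]
    rw [h2] at h1
    omega
  · intro v hv
    simp [g, hv]
  · intro v hv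
    simp only [g, hv]
    rw [if_neg (by omega), if_pos trivial]
  · intro v hv hv'
    simp only [g]
    rw [if_neg (by omega), if_neg (by omega), if_pos ⟨hv, hv'⟩]

theorem c1_one {m n : ℕ} (hm : 2 ≤ m) (hn : 4 * m + 20 ≤ n) :
    ∀ s, m + s < n → part (n - m) 1 s → s = 1 ∨ s = 0 := by
  intro s hs h
  unfold part at h
  omega

theorem cG_rdf {m n : ℕ} (hm : 2 ≤ m) (hn : 4 * m + 20 ≤ n) (x : Fin n) :
    ∃ f, IsRDF (cG m n) f ∧ ∑ v, f v = m + 2 ∧ f x ≠ 0 := by
  have hx := x.2
  obtain ⟨f1, a1, a2, a3, a4, a5⟩ := c1_rdf (t := 1) (t' := 0) hm hn (by omega) (by omega)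
    (by omega) (c1_one hm hn)
  by_cases hxm : (x : ℕ) < m
  · by_cases hx0 : (x : ℕ) = 0
    · obtain ⟨f, b1, b2, b3, b4, b5⟩ := c1_rdf (t := 3) (t' := 2) hm hn (by omega) (by omega)
        (by omega) (by
          intro s hs h
          unfold part at h
          omega)
      refine ⟨f, b1, b2, ?_⟩
      rw [b5 x hxm (by
        unfold cls
        rw [if_neg (by omega), Nat.mod_eq_of_lt (by omega)]
        omega)]
      norm_num
    · refine ⟨f1, a1, a2, ?_⟩
      rw [a5 x hxm (by
        unfold cls
        rw [if_neg (by omega)]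
        simpa using hx0)]
      norm_num
  · push Not at hxm
    by_cases hx0 : (x : ℕ) = m
    · refine ⟨f1, a1, a2, ?_⟩
      rw [a4 x (by omega)]
      norm_num
    · -- the other non neighbour
      obtain ⟨t', h1, h2, h3⟩ : ∃ t', m + t' < n ∧ (x : ℕ) - m ≠ t' ∧
          ∀ s, m + s < n → part (n - m) ((x : ℕ) - m) s → s = (x : ℕ) - m ∨ s = t' := by
        by_cases hc : (n - m) % 2 = 1 ∧ ((x : ℕ) - m) + 1 = n - m
        · refine ⟨0, by omega, by omega, ?_⟩
          intro s hs h
          unfold part at h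
          omega
        · by_cases he : ((x : ℕ) - m) % 2 = 0
          · refine ⟨(x : ℕ) - m + 1, by omega, by omega, ?_⟩
            intro s hs h
            unfold part at h
            omega
          · refine ⟨(x : ℕ) - m - 1, by omega, by omega, ?_⟩
            intro s hs h
            unfold part at h
            omega
      obtain ⟨f, b1, b2, b3, b4, b5⟩ := c1_rdf (t := (x : ℕ) - m) (t' := t') hm hn (by omega) h1
        h2 h3
      refine ⟨f, b1, b2, ?_⟩
      rw [b3 x (by omega)]
      norm_num

end Pool.Agent.Helper38.RE
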