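import Mathlib

/-! Project RE (MP_cc4a3b_co): Roman domination, the class of the problem and the extremal
graph. -/

set_option autoImplicit false

namespace Pool.Agent.Helper38.RE

open Finset

/-- `f` is a Roman dominating function of `G`: values in `{0, 1, 2}`, and every vertex of value
`0` has a neighbour of value `2` -/
def IsRDF {V : Type*} (G : SimpleGraph V) (f : V → ℕ) : Prop :=
  (∀ v, f v ≤ 2) ∧ ∀ v, f v = 0 → ∃ u, G.Adj v u ∧ f u = 2

/-- `k` is the Roman domination number of `G` -/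
def IsRoman {V : Type*} [Fintype V] (G : SimpleGraph V) (k : ℕ) : Prop :=
  IsLeast {w : ℕ | ∃ f, IsRDF G f ∧ ∑ v, f v = w} k

/-- `G` is excellent: every vertex `x` has a Roman dominating function of minimum weight which is
not `0` at `x` -/
def Excellent {V : Type*} [Fintype V] (G : SimpleGraph V) : Prop :=
  ∀ x, ∃ h, IsRDF G h ∧ (∀ f, IsRDF G f → ∑ v, h v ≤ ∑ v, f v) ∧ h x ≠ 0

/-- the numbers of edges of the graphs of the class `G_{n,k}` -/
def sizes (n k : ℕ) : Set ℕ :=
  {e | ∃ G : SimpleGraph (Fin n), G.Connected ∧ Excellent G ∧ IsRoman G k ∧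
    G.edgeSet.ncard = e}

/-! ### the extremal graph

The vertices `i < m` are outside, the others `m + t` (`t < c = n - m`) form the core. Two core
vertices are adjacent unless `t / 2 = t' / 2`, or `c` is odd and `{t, t'} = {0, c - 1}`. The core
vertex `m + t` is adjacent to exactly one outside vertex, `cls m c t`. Two outside vertices are
adjacent if `i / 2 = i' / 2`. -/

/-- non adjacent core vertices -/
def part (c t t' : ℕ) : Prop :=
  t / 2 = t' / 2 ∨ (c % 2 = 1 ∧ ((t = 0 ∧ t' + 1 = c) ∨ (t' = 0 ∧ t + 1 = c)))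

/-- the outside neighbour of the core vertex `m + t` -/
def cls (m c t : ℕ) : ℕ := if c % 2 = 1 ∧ t + 1 = c then 0 else (t / 2) % m

/-- adjacency of the extremal graph -/
def cAdj (m n i i' : ℕ) : Prop :=
  i ≠ i' ∧ ((i < m ∧ i' < m ∧ i / 2 = i' / 2) ∨ (i < m ∧ m ≤ i' ∧ cls m (n - m) (i' - m) = i) ∨
    (m ≤ i ∧ i' < m ∧ cls m (n - m) (i - m) = i') ∨
    (m ≤ i ∧ m ≤ i' ∧ ¬ part (n - m) (i - m) (i' - m)))

instance (c t t' : ℕ) : Decidable (part c t t') := by unfold part; infer_instance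

instance (m n i i' : ℕ) : Decidable (cAdj m n i i') := by unfold cAdj; infer_instance

theorem cAdj_symm {m n i i' : ℕ} (h : cAdj m n i i') : cAdj m n i' i := by
  unfold cAdj part at *
  obtain ⟨h1, h2⟩ := h
  refine ⟨h1.symm, ?_⟩
  rcases h2 with h | h | h | h
  · exact Or.inl ⟨h.2.1, h.1, h.2.2.symm⟩
  · exact Or.inr (Or.inr (Or.inl ⟨h.2.1, h.1, h.2.2⟩))
  · exact Or.inr (Or.inl ⟨h.2.1, h.1, h.2.2⟩)
  · refine Or.inr (Or.inr (Or.inr ⟨h.2.1, h.1, ?_⟩))
    have := h.2.2
    tauto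

/-- the extremal graph -/
def cG (m n : ℕ) : SimpleGraph (Fin n) where
  Adj i i' := cAdj m n i i'
  symm := ⟨fun _ _ h => cAdj_symm h⟩
  loopless := ⟨fun _ h => h.1 rfl⟩

instance (m n : ℕ) : DecidableRel (cG m n).Adj :=
  fun i i' => inferInstanceAs (Decidable (cAdj m n i i'))

theorem cG_adj {m n : ℕ} {i i' : Fin n} : (cG m n).Adj i i' ↔ cAdj m n i i' := Iff.rfl

end Pool.Agent.Helper38.RE
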