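import Pool.Agent.Helper38.RE.Basic
import Pool.Agent.Helper38.RE.Roman

/-! Project RE (MP_cc4a3b_co): the number of edges of the extremal graph. -/

set_option autoImplicit false
set_option linter.unusedSectionVars false
set_option linter.unusedVariables false

namespace Pool.Agent.Helper38.RE

open Finset

section c2

variable {m n : ℕ}

private def c2O (m n : ℕ) : Finset (Fin n) := univ.filter fun i => (i : ℕ) < m

private def c2C (m n : ℕ) : Finset (Fin n) := univ.filter fun i => m ≤ (i : ℕ)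

private theorem c2_cardC : (c2C m n).card = n - m := by
  rw [← Nat.card_Ico, ← card_image_of_injective (c2C m n) Fin.val_injective]
  congr 1
  ext x
  simp only [c2C, mem_image, mem_filter, mem_univ, true_and, mem_Ico]
  constructor
  · rintro ⟨a, ha, rfl⟩
    exact ⟨ha, a.2⟩
  · rintro ⟨h1, h2⟩
    exact ⟨⟨x, h2⟩, h1, rfl⟩

private theorem c2_split (i : Fin n) :
    dg (cG m n) i = (N (cG m n) i ∩ c2C m n).card + (N (cG m n) i ∩ c2O m n).card := by
  have h1 : N (cG m n) i = (N (cG m n) i ∩ c2C m n) ∪ (N (cG m n) i ∩ c2O m n) := by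
    ext x
    simp only [c2C, c2O, mem_union, mem_inter, mem_filter, mem_univ, true_and]
    have := le_or_gt m (x : ℕ)
    tauto
  have h2 : Disjoint (N (cG m n) i ∩ c2C m n) (N (cG m n) i ∩ c2O m n) := by
    rw [disjoint_left]
    intro x hx hx'
    simp only [c2C, c2O, mem_inter, mem_filter, mem_univ, true_and] at hx hx'
    omega
  conv_lhs => rw [dg, h1, card_union_of_disjoint h2]

/-- a core vertex is adjacent to almost all core vertices -/
private theorem c2_core {i : Fin n} (hi : m ≤ (i : ℕ)) (l : ℕ) (P : Finset ℕ) (hP : P.card ≤ l)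
    (h : ∀ i' : Fin n, m ≤ (i' : ℕ) → ¬ cAdj m n i i' → (i' : ℕ) ∈ P) :
    n - m ≤ (N (cG m n) i ∩ c2C m n).card + l := by
  have h1 : ((c2C m n) \ N (cG m n) i).card ≤ P.card := by
    rw [← card_image_of_injective _ Fin.val_injective]
    apply card_le_card
    intro x hx
    simp only [mem_image, mem_sdiff, c2C, mem_filter, mem_univ, true_and, mem_N, cG_adj] at hx
    obtain ⟨a, ⟨ha, ha'⟩, rfl⟩ := hx
    exact h a ha ha'
  have h2 : ((c2C m n) \ N (cG m n) i).card + (c2C m n ∩ N (cG m n) i).card = (c2C m n).card :=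
    card_sdiff_add_card_inter _ _
  rw [inter_comm] at h2
  rw [c2_cardC] at h2
  omega

private theorem c2_core1 {i : Fin n} (hi : m < (i : ℕ)) (hn : m + 2 ≤ n) :
    n - m ≤ (N (cG m n) i ∩ c2C m n).card + 2 := by
  have hin := i.2
  by_cases h1 : (n - m) % 2 = 1 ∧ (i : ℕ) + 1 = n
  · refine c2_core hi.le 2 {(i : ℕ), m} (by exact card_le_two) ?_
    intro i' hi' h
    have hin' := i'.2
    simp only [mem_insert, mem_singleton]
    unfold cAdj part at h
    have h2 : ¬ (i : ℕ) ≠ i' ∨ (i : ℕ) ≠ i' := by tauto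
    rcases h2 with h2 | h2
    · left; omega
    · right
      have h3 : ((i : ℕ) - m) / 2 = ((i' : ℕ) - m) / 2 ∨ ((n - m) % 2 = 1 ∧
        (((i : ℕ) - m = 0 ∧ (i' : ℕ) - m + 1 = n - m) ∨
          ((i' : ℕ) - m = 0 ∧ (i : ℕ) - m + 1 = n - m))) := by
        by_contra h4
        exact h ⟨h2, Or.inr (Or.inr (Or.inr ⟨hi.le, hi', h4⟩))⟩
      omega
  · refine c2_core hi.le 2 {m + 2 * (((i : ℕ) - m) / 2), m + 2 * (((i : ℕ) - m) / 2) + 1}
      (by exact card_le_two) ?_
    intro i' hi' h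
    have hin' := i'.2
    simp only [mem_insert, mem_singleton]
    unfold cAdj part at h
    by_cases h2 : (i : ℕ) = i'
    · omega
    · have h3 : ((i : ℕ) - m) / 2 = ((i' : ℕ) - m) / 2 ∨ ((n - m) % 2 = 1 ∧
        (((i : ℕ) - m = 0 ∧ (i' : ℕ) - m + 1 = n - m) ∨
          ((i' : ℕ) - m = 0 ∧ (i : ℕ) - m + 1 = n - m))) := by
        by_contra h4
        exact h ⟨h2, Or.inr (Or.inr (Or.inr ⟨hi.le, hi', h4⟩))⟩
      omega

private theorem c2_core0 {i : Fin n} (hi : (i : ℕ) = m) (hn : m + 2 ≤ n) :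
    n - m ≤ (N (cG m n) i ∩ c2C m n).card + 3 := by
  refine c2_core hi.ge 3 {m, m + 1, n - 1} (by exact card_le_three) ?_
  intro i' hi' h
  have hin' := i'.2
  simp only [mem_insert, mem_singleton]
  unfold cAdj part at h
  by_cases h2 : (i : ℕ) = i'
  · omega
  · have h3 : ((i : ℕ) - m) / 2 = ((i' : ℕ) - m) / 2 ∨ ((n - m) % 2 = 1 ∧
      (((i : ℕ) - m = 0 ∧ (i' : ℕ) - m + 1 = n - m) ∨
        ((i' : ℕ) - m = 0 ∧ (i : ℕ) - m + 1 = n - m))) := by
      by_contra h4
      exact h ⟨h2, Or.inr (Or.inr (Or.inr ⟨hi.ge, hi', h4⟩))⟩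
    omega

private theorem c2_cls (hm : 2 ≤ m) (c t : ℕ) : cls m c t < m := by
  unfold cls
  split_ifs
  · omega
  · exact Nat.mod_lt _ (by omega)

private theorem c2_out (hm : 2 ≤ m) (hn : m ≤ n) {i : Fin n} (hi : m ≤ (i : ℕ)) :
    1 ≤ (N (cG m n) i ∩ c2O m n).card := by
  have h1 := c2_cls hm (n - m) ((i : ℕ) - m)
  refine card_pos.2 ⟨⟨cls m (n - m) ((i : ℕ) - m), by omega⟩, ?_⟩
  simp only [mem_inter, mem_N, cG_adj, c2O, mem_filter, mem_univ, true_and]
  refine ⟨⟨by simp; omega, Or.inr (Or.inr (Or.inl ⟨hi, h1, rfl⟩))⟩, h1⟩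

private theorem c2_oo (hn : m ≤ n) {i : Fin n} (hi : (i : ℕ) < 2 * (m / 2)) :
    1 ≤ (N (cG m n) i ∩ c2O m n).card := by
  by_cases h : (i : ℕ) % 2 = 0
  · refine card_pos.2 ⟨⟨(i : ℕ) + 1, by omega⟩, ?_⟩
    simp only [mem_inter, mem_N, cG_adj, c2O, mem_filter, mem_univ, true_and]
    exact ⟨⟨by omega, Or.inl ⟨by omega, by omega, by omega⟩⟩, by omega⟩
  · refine card_pos.2 ⟨⟨(i : ℕ) - 1, by omega⟩, ?_⟩
    simp only [mem_inter, mem_N, cG_adj, c2O, mem_filter, mem_univ, true_and]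
    exact ⟨⟨by omega, Or.inl ⟨by omega, by omega, by omega⟩⟩, by omega⟩

theorem cG_size {m n : ℕ} (hm : 2 ≤ m) (hn : 4 * m + 20 ≤ n) :
    (n - m) ^ 2 + 2 * (m / 2) ≤ 2 * (cG m n).edgeSet.ncard + 1 := by
  have hcard : (cG m n).edgeSet.ncard = (cG m n).edgeFinset.card := by
    rw [Set.ncard_eq_toFinset_card', SimpleGraph.edgeFinset]
  have hsum : 2 * (cG m n).edgeSet.ncard = ∑ i, dg (cG m n) i := by
    rw [hcard, ← (cG m n).sum_degrees_eq_twice_card_edges]
    rfl
  rw [hsum]
  have hOC : (univ : Finset (Fin n)) = c2C m n ∪ c2O m n := by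
    ext x
    simp only [c2C, c2O, mem_union, mem_filter, mem_univ, true_and, true_iff]
    exact le_or_gt _ _
  have hdis : Disjoint (c2C m n) (c2O m n) := by
    rw [disjoint_left]
    intro x hx hx'
    simp only [c2C, c2O, mem_filter, mem_univ, true_and] at hx hx'
    omega
  rw [hOC, sum_union hdis, sum_congr rfl fun i _ => c2_split (m := m) i,
    sum_congr (s₁ := c2O m n) rfl fun i _ => c2_split (m := m) i, sum_add_distrib,
    sum_add_distrib]
  have e1 : n - m ≤ ∑ i ∈ c2C m n, (N (cG m n) i ∩ c2O m n).card := by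
    rw [← c2_cardC (m := m) (n := n), card_eq_sum_ones]
    refine sum_le_sum fun i hi => c2_out hm (by omega) ?_
    simpa [c2C] using hi
  have e2 : ∑ i ∈ c2O m n, (N (cG m n) i ∩ c2C m n).card
      = ∑ i ∈ c2C m n, (N (cG m n) i ∩ c2O m n).card := sum_inter_comm _ _ _
  have e3 : 2 * (m / 2) ≤ ∑ i ∈ c2O m n, (N (cG m n) i ∩ c2O m n).card := by
    have h1 : (univ.filter fun i : Fin n => (i : ℕ) < 2 * (m / 2)).card = 2 * (m / 2) := by
      rw [← card_image_of_injective _ Fin.val_injective]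
      conv_rhs => rw [← card_range (2 * (m / 2))]
      congr 1
      ext x
      simp only [mem_image, mem_filter, mem_univ, true_and, mem_range]
      constructor
      · rintro ⟨a, ha, rfl⟩
        exact ha
      · intro h
        exact ⟨⟨x, by omega⟩, h, rfl⟩
    calc 2 * (m / 2) = ∑ i ∈ univ.filter fun i : Fin n => (i : ℕ) < 2 * (m / 2), 1 := by
          rw [← card_eq_sum_ones, h1]
      _ ≤ ∑ i ∈ univ.filter fun i : Fin n => (i : ℕ) < 2 * (m / 2),
            (N (cG m n) i ∩ c2O m n).card := by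
          refine sum_le_sum fun i hi => c2_oo (by omega) ?_
          simpa using hi
      _ ≤ _ := by
          refine sum_le_sum_of_subset ?_
          intro i hi
          simp only [c2O, mem_filter, mem_univ, true_and] at hi ⊢
          omega
  have e4 : (n - m) * (n - m - 2) ≤ ∑ i ∈ c2C m n, (N (cG m n) i ∩ c2C m n).card + 1 := by
    have hm0 : (⟨m, by omega⟩ : Fin n) ∈ c2C m n := by simp [c2C]
    rw [← sum_erase_add _ _ hm0]
    have h0 := c2_core0 (m := m) (n := n) (i := ⟨m, by omega⟩) rfl (by omega)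
    have h1 : ((c2C m n).erase ⟨m, by omega⟩).card * (n - m - 2)
        ≤ ∑ i ∈ (c2C m n).erase ⟨m, by omega⟩, (N (cG m n) i ∩ c2C m n).card := by
      rw [← smul_eq_mul]
      refine card_nsmul_le_sum _ _ _ fun i hi => ?_
      rw [mem_erase] at hi
      have h2 : m ≤ (i : ℕ) := by simpa [c2C] using hi.2
      have h3 : (i : ℕ) ≠ m := fun h => hi.1 (Fin.ext h)
      have := c2_core1 (m := m) (i := i) (by omega) (by omega)
      omega
    have h2 := card_erase_add_one hm0
    rw [c2_cardC] at h2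
    have h3 : (n - m) * (n - m - 2)
        = ((c2C m n).erase ⟨m, by omega⟩).card * (n - m - 2) + (n - m - 2) := by
      rw [← h2]; ring
    omega
  have e5 : (n - m) ^ 2 = (n - m) * (n - m - 2) + 2 * (n - m) := by
    obtain ⟨c, hc⟩ : ∃ c, n - m = c + 2 := ⟨n - m - 2, by omega⟩
    rw [hc]
    simp only [Nat.add_sub_cancel]
    ring
  rw [e2, e5]
  omega

end c2

end Pool.Agent.Helper38.RE
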