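import Pool.Agent.Helper38.RE.Roman

/-! Project RE (MP_cc4a3b_co), piece C3: the Roman domination number of the extremal graph is at
least `m + 2`. -/

set_option autoImplicit false

namespace Pool.Agent.Helper38.RE

open Finset

private theorem c3_partner {m c t : ℕ} (hc : 20 ≤ c) (ht : t < c) :
    ∃ t' < c, t' ≠ t ∧ part c t' t ∧ cls m c t' = cls m c t := by
  by_cases h1 : t % 2 = 1
  · refine ⟨t - 1, by omega, by omega, Or.inl (by omega), ?_⟩
    unfold cls
    have e : (t - 1) / 2 = t / 2 := by omega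
    rw [if_neg (by omega), if_neg (by omega), e]
  · by_cases h2 : t + 1 < c
    · refine ⟨t + 1, by omega, by omega, Or.inl (by omega), ?_⟩
      unfold cls
      have e : (t + 1) / 2 = t / 2 := by omega
      rw [if_neg (by omega), if_neg (by omega), e]
    · refine ⟨0, by omega, by omega, Or.inr ⟨by omega, Or.inl ⟨rfl, by omega⟩⟩, ?_⟩
      unfold cls
      rw [if_neg (by omega), if_pos (by omega)]
      simp

private theorem c3_card {m n : ℕ} (h : m ≤ n) :
    (univ.filter fun i : Fin n => (i : ℕ) < m).card = m := by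
  have e : (univ.filter fun i : Fin n => (i : ℕ) < m) =
      (univ : Finset (Fin m)).map (Fin.castLEEmb h) := by
    ext i
    simp only [mem_filter, mem_univ, true_and, mem_map, Fin.castLEEmb_apply]
    constructor
    · intro hi
      exact ⟨⟨i, hi⟩, Fin.ext rfl⟩
    · rintro ⟨j, rfl⟩
      exact j.2
  rw [e, card_map, card_univ, Fintype.card_fin]

/-- RE-C3 (file C3.lean). -/
theorem cG_ge {m n : ℕ} (hm : 2 ≤ m) (hn : 2 * m * (m + 2) + m + 20 ≤ n) {f : Fin n → ℕ}
    (hf : IsRDF (cG m n) f) : m + 2 ≤ ∑ v, f v := by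
  classical
  obtain ⟨hf2, hf0⟩ := hf
  have hmn : m ≤ n := by nlinarith
  have hc : 20 ≤ n - m := by
    have : 0 ≤ 2 * m * (m + 2) := by positivity
    omega
  set O : Finset (Fin n) := univ.filter fun i => (i : ℕ) < m with hO
  set C : Finset (Fin n) := univ.filter fun i => ¬ (i : ℕ) < m with hC
  set A : Finset (Fin n) := O.filter fun i => f i = 2 with hA
  set B : Finset (Fin n) := C.filter fun i => f i = 2 with hB
  set P : Finset (Fin n) := O.filter fun i => ∃ u ∈ A, (u : ℕ) ≠ i ∧ (u : ℕ) / 2 = i / 2 with hP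
  set Q : Finset (Fin n) := O.filter fun i => ∃ v ∈ B, cls m (n - m) (v - m) = (i : ℕ) with hQ
  have mO : ∀ i, i ∈ O ↔ (i : ℕ) < m := fun i => by simp [hO]
  have mC : ∀ i, i ∈ C ↔ m ≤ (i : ℕ) := fun i => by simp [hC]
  have mA : ∀ i, i ∈ A ↔ (i : ℕ) < m ∧ f i = 2 := fun i => by simp [hA, mO]
  have mB : ∀ i, i ∈ B ↔ m ≤ (i : ℕ) ∧ f i = 2 := fun i => by simp [hB, mC]
  have hsplit : ∑ v, f v = ∑ v ∈ O, f v + ∑ v ∈ C, f v :=
    (sum_filter_add_sum_filter_not univ (fun i : Fin n => (i : ℕ) < m) f).symm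
  have hcardO : O.card = m := c3_card hmn
  have hPA : P.card ≤ A.card := by
    have h1 : ∀ i : Fin n, ∃ u : Fin n, i ∈ P → u ∈ A ∧ (u : ℕ) ≠ i ∧ (u : ℕ) / 2 = i / 2 := by
      intro i
      by_cases hi : i ∈ P
      · obtain ⟨-, u, hu, h⟩ := mem_filter.1 hi
        exact ⟨u, fun _ => ⟨hu, h⟩⟩
      · exact ⟨i, fun h => absurd h hi⟩
    choose g hg using h1
    refine card_le_card_of_injOn g (fun i hi => (hg i hi).1) ?_
    intro i hi j hj hij
    have a1 := (hg i hi).2
    have a2 := (hg j hj).2
    rw [← hij] at a2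
    apply Fin.ext
    omega
  have hQB : Q.card ≤ B.card := by
    have h1 : ∀ i : Fin n, ∃ u : Fin n, i ∈ Q → u ∈ B ∧ cls m (n - m) (u - m) = (i : ℕ) := by
      intro i
      by_cases hi : i ∈ Q
      · obtain ⟨-, u, hu, h⟩ := mem_filter.1 hi
        exact ⟨u, fun _ => ⟨hu, h⟩⟩
      · exact ⟨i, fun h => absurd h hi⟩
    choose g hg using h1
    refine card_le_card_of_injOn g (fun i hi => (hg i hi).1) ?_
    intro i hi j hj hij
    have a1 := (hg i hi).2
    have a2 := (hg j hj).2
    rw [← hij] at a2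
    apply Fin.ext
    rw [← a1, ← a2]
  -- the pointwise inequality
  have hpt : ∀ i ∈ O, 1 + (if i ∈ A then 1 else 0) ≤
      f i + (if i ∈ P then 1 else 0) + (if i ∈ Q then 1 else 0) := by
    intro i hi
    have hi' := (mO i).1 hi
    by_cases h2 : f i = 2
    · rw [if_pos ((mA i).2 ⟨hi', h2⟩), h2]
      omega
    · rw [if_neg (fun h => h2 ((mA i).1 h).2)]
      by_cases h0 : f i = 0
      · obtain ⟨u, hu, hu2⟩ := hf0 i h0
        rw [cG_adj] at hu
        obtain ⟨hne, h | h | h | h⟩ := hu
        · have : i ∈ P := mem_filter.2 ⟨hi, u, (mA u).2 ⟨h.2.1, hu2⟩, hne.symm, h.2.2.symm⟩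
          rw [if_pos this]
          omega
        · have : i ∈ Q := mem_filter.2 ⟨hi, u, (mB u).2 ⟨h.2.1, hu2⟩, h.2.2⟩
          rw [if_pos this]
          omega
        · omega
        · omega
      · omega
  have hcA : ∑ i ∈ O, (if i ∈ A then 1 else 0) = A.card := by
    rw [sum_ite_mem, inter_eq_right.2 (filter_subset _ _), sum_const, smul_eq_mul, mul_one]
  have hcP : ∑ i ∈ O, (if i ∈ P then 1 else 0) = P.card := by
    rw [sum_ite_mem, inter_eq_right.2 (filter_subset _ _), sum_const, smul_eq_mul, mul_one]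
  have hcQ : ∑ i ∈ O, (if i ∈ Q then 1 else 0) = Q.card := by
    rw [sum_ite_mem, inter_eq_right.2 (filter_subset _ _), sum_const, smul_eq_mul, mul_one]
  have hs1 := sum_le_sum hpt
  rw [sum_add_distrib, sum_add_distrib, sum_add_distrib, hcA, hcP, hcQ, sum_const, smul_eq_mul,
    mul_one, hcardO] at hs1
  have hCB : 2 * B.card ≤ ∑ v ∈ C, f v := by
    calc 2 * B.card = ∑ v ∈ B, f v := by
          rw [sum_congr rfl fun v hv => ((mB v).1 hv).2, sum_const, smul_eq_mul, mul_comm]
      _ ≤ ∑ v ∈ C, f v := sum_le_sum_of_subset (filter_subset _ _)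
  rw [hsplit]
  by_cases hb2 : 2 ≤ B.card
  · omega
  by_cases hb1 : B.card = 1
  · obtain ⟨v, hv⟩ := card_eq_one.1 hb1
    have hvB : v ∈ B := by rw [hv]; exact mem_singleton_self v
    obtain ⟨hvm, hv2⟩ := (mB v).1 hvB
    obtain ⟨t', ht'c, ht'ne, hpart, hcls⟩ := c3_partner (m := m) (c := n - m) (t := v - m) hc
      (by have := v.2; omega)
    set v' : Fin n := ⟨m + t', by omega⟩ with hv'
    have hv'C : v' ∈ C := (mC v').2 (by simp [hv'])
    have hne : v ≠ v' := by
      intro h
      apply ht'ne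
      rw [h, hv']
      simp
    have hsum2 : f v + f v' ≤ ∑ v ∈ C, f v := by
      rw [← sum_pair hne]
      apply sum_le_sum_of_subset
      intro x hx
      rcases mem_insert.1 hx with h | h
      · rw [h]; exact (filter_subset _ _) hvB
      · rw [mem_singleton.1 h]; exact hv'C
    by_cases h0 : f v' = 0
    · obtain ⟨u, hu, hu2⟩ := hf0 v' h0
      rw [cG_adj] at hu
      have hv'val : (v' : ℕ) = m + t' := rfl
      obtain ⟨hne', h | h | h | h⟩ := hu
      · omega
      · omega
      · have huA : u ∈ A := (mA u).2 ⟨h.2.1, hu2⟩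
        have huO : u ∈ O := (mO u).2 h.2.1
        have huQ : u ∈ Q := by
          refine mem_filter.2 ⟨huO, v, hvB, ?_⟩
          rw [← hcls, ← h.2.2, hv'val, Nat.add_sub_cancel_left]
        have hs2 := sum_lt_sum hpt ⟨u, huO, by
          rw [if_pos huA, if_pos huQ, hu2]
          omega⟩
        rw [sum_add_distrib, sum_add_distrib, sum_add_distrib, hcA, hcP, hcQ, sum_const,
          smul_eq_mul, mul_one, hcardO] at hs2
        omega
      · exfalso
        have huB : u ∈ B := (mB u).2 ⟨h.2.1, hu2⟩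
        rw [hv, mem_singleton] at huB
        apply h.2.2
        rw [huB, hv'val, Nat.add_sub_cancel_left]
        exact hpart
    · omega
  · have hb0 : B = ∅ := card_eq_zero.1 (by omega)
    by_cases hall : ∀ i ∈ O, f i = 2
    · have : ∑ v ∈ O, f v = 2 * m := by
        rw [sum_congr rfl hall, sum_const, smul_eq_mul, hcardO, mul_comm]
      omega
    · push Not at hall
      obtain ⟨i, hiO, hi2⟩ := hall
      have him := (mO i).1 hiO
      have hlt : ∀ l < m + 2, 2 * ((i : ℕ) + m * l) + 1 < n - m := by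
        intro l hl
        have h1 : m * l ≤ m * (m + 1) := Nat.mul_le_mul_left m (by omega)
        have h2 : 2 * m * (m + 2) = 2 * (m * (m + 1)) + 2 * m := by ring
        omega
      let g : Fin (m + 2) → Fin n := fun l =>
        ⟨m + 2 * ((i : ℕ) + m * l), by have := hlt l l.2; omega⟩
      have hginj : Function.Injective g := by
        intro l l' h
        have h1 : m + 2 * ((i : ℕ) + m * l) = m + 2 * ((i : ℕ) + m * l') := congrArg Fin.val h
        have h2 : m * (l : ℕ) = m * (l' : ℕ) := by omega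
        exact Fin.ext (Nat.eq_of_mul_eq_mul_left (by omega) h2)
      have hg1 : ∀ l, 1 ≤ f (g l) := by
        intro l
        by_contra h
        have h0 : f (g l) = 0 := by omega
        obtain ⟨u, hu, hu2⟩ := hf0 _ h0
        rw [cG_adj] at hu
        have hval : (g l : ℕ) = m + 2 * ((i : ℕ) + m * l) := rfl
        obtain ⟨hne', h | h | h | h⟩ := hu
        · omega
        · omega
        · have h3 := h.2.2
          rw [hval, Nat.add_sub_cancel_left] at h3
          unfold cls at h3
          have h4 := hlt l l.2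
          rw [if_neg (by omega), Nat.mul_div_cancel_left _ (by norm_num : 0 < 2),
            Nat.add_mul_mod_self_left, Nat.mod_eq_of_lt him] at h3
          have : u = i := Fin.ext h3.symm
          rw [this] at hu2
          exact hi2 hu2
        · have : u ∈ B := (mB u).2 ⟨h.2.1, hu2⟩
          rw [hb0] at this
          exact absurd this (notMem_empty _)
      rw [← hsplit]
      calc m + 2 = ∑ _l : Fin (m + 2), 1 := by simp
        _ ≤ ∑ l : Fin (m + 2), f (g l) := sum_le_sum fun l _ => hg1 l
        _ = ∑ v ∈ univ.image g, f v := (sum_image fun a _ b _ h => hginj h).symm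
        _ ≤ ∑ v, f v := sum_le_sum_of_subset (subset_univ _)

end Pool.Agent.Helper38.RE
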