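import Pool.Agent.Helper38.RE.Basic

/-! Project RE (MP_cc4a3b_co), counting lemmas and the components of the complement inside a set.
-/

set_option autoImplicit false
set_option linter.unusedSectionVars false

namespace Pool.Agent.Helper38.RE

open Finset

variable {V : Type*} [Fintype V] [DecidableEq V]

/-- identity for the degree sum seen from `y` -/
theorem ex_id (R : SimpleGraph V) [DecidableRel R.Adj] {U : Finset V}
    (hU : ∀ v ∈ U, N R v ⊆ U) {y : V} (hy : y ∈ U) :
    ∑ v ∈ U, dg R v = 2 * dg R y + ∑ v ∈ U.erase y, (N R v ∩ N R y).card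
      + ∑ v ∈ (U.erase y) \ N R y, dg R v := by
  have h1 : N R y ⊆ U.erase y := by
    intro x hx
    refine mem_erase.2 ⟨?_, hU y hy hx⟩
    rintro rfl
    exact R.loopless.irrefl _ ((mem_N R).1 hx)
  have h2 : ∑ v ∈ U, dg R v = ∑ v ∈ U.erase y, dg R v + dg R y := (sum_erase_add _ _ hy).symm
  have h3 : ∑ v ∈ U.erase y, dg R v = ∑ v ∈ (U.erase y) \ N R y, dg R v + ∑ v ∈ N R y, dg R v :=
    (sum_sdiff h1).symm
  have h4 := sum_codeg R y (U := U) (fun x hx => hU x (hU y hy hx))
  have h5 : ∑ v ∈ U, (N R v ∩ N R y).card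
      = ∑ v ∈ U.erase y, (N R v ∩ N R y).card + dg R y := by
    rw [← sum_erase_add _ _ hy, inter_self]
  rw [h2, h3, h4, h5]
  ring

/-- linear surplus -/
theorem surplus (R : SimpleGraph V) [DecidableRel R.Adj] {U : Finset V}
    (hU : ∀ v ∈ U, N R v ⊆ U) (h1 : ∀ v ∈ U, 1 ≤ dg R v) {y : V} (hy : y ∈ U)
    (hc : ∀ v ∈ U, v ≠ y → 1 ≤ (N R v ∩ N R y).card) :
    2 * U.card ≤ ∑ v ∈ U, dg R v + 2 := by
  have h := ex_id R hU hy
  have h2 : (U.erase y).card ≤ ∑ v ∈ U.erase y, (N R v ∩ N R y).card := by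
    rw [card_eq_sum_ones]
    exact sum_le_sum fun v hv => hc v (mem_of_mem_erase hv) (ne_of_mem_erase hv)
  have h3 : ((U.erase y) \ N R y).card ≤ ∑ v ∈ (U.erase y) \ N R y, dg R v := by
    rw [card_eq_sum_ones]
    exact sum_le_sum fun v hv => h1 v (mem_of_mem_erase (mem_sdiff.1 hv).1)
  have h4 : (U.erase y).card ≤ ((U.erase y) \ N R y).card + dg R y := by
    exact card_le_card_sdiff_add_card
  have h5 : (U.erase y).card + 1 = U.card := card_erase_add_one hy
  omega

section comp

variable (H : SimpleGraph V) [DecidableRel H.Adj]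

theorem miss_symm {S : Finset V} {u v : V} (hu : u ∈ S) (hv : v ∈ S) :
    u ∈ miss H S v ↔ v ∈ miss H S u := by
  simp only [mem_miss, hu, hv, true_and, H.adj_comm u v, ne_comm (a := u)]

/-- the component of `w ∈ S` in the complement, when it is a matching on `S` -/
def cmp (S : Finset V) (w : V) : Finset V := insert w (miss H S w)

/-- the group of a vertex `v` -/
def grp (S : Finset V) (v : V) : Finset V := (miss H S v).biUnion (cmp H S)

theorem cmp_eq {S : Finset V} (hm : ∀ w ∈ S, (miss H S w).card ≤ 1) {w x : V} (hw : w ∈ S)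
    (hx : x ∈ cmp H S w) : cmp H S x = cmp H S w := by
  rw [cmp, mem_insert] at hx
  rcases hx with rfl | hx
  · rfl
  · have hxS : x ∈ S := ((mem_miss H).1 hx).2.1
    have h1 : miss H S w = {x} :=
      eq_singleton_iff_unique_mem.2 ⟨hx, fun z hz => card_le_one.1 (hm w hw) z hz x hx⟩
    have hx' : w ∈ miss H S x := (miss_symm H hxS hw).1 hx
    have h2 : miss H S x = {w} :=
      eq_singleton_iff_unique_mem.2 ⟨hx', fun z hz => card_le_one.1 (hm x hxS) z hz w hx'⟩
    rw [cmp, cmp, h1, h2, pair_comm]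

theorem card_cmp_le {S : Finset V} (hm : ∀ w ∈ S, (miss H S w).card ≤ 1) {w : V} (hw : w ∈ S) :
    (cmp H S w).card ≤ 2 := by
  have := hm w hw
  have := card_insert_le w (miss H S w)
  rw [cmp]
  omega

theorem grp_eq {S : Finset V} {v w : V} (h : miss H S v = {w}) : grp H S v = cmp H S w := by
  rw [grp, h, singleton_biUnion]

/-- every element of `S` is in the group of a bad vertex -/
theorem exists_grp {j : ℕ} (hH : Hyp H j) {S : Finset V} (hS : (Sᶜ).Nonempty)
    (hm : ∀ w ∈ S, (miss H S w).card ≤ 1) {w : V} (hw : w ∈ S) :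
    ∃ v ∈ bad H S, w ∈ grp H S v := by
  have hsub : cmp H S w ⊆ S := by
    intro x hx
    rw [cmp, mem_insert] at hx
    rcases hx with rfl | hx
    · exact hw
    · exact ((mem_miss H).1 hx).2.1
  have hne : cmp H S w ≠ univ := by
    intro h
    obtain ⟨z, hz⟩ := hS
    exact (mem_compl.1 hz) (hsub (h ▸ mem_univ z))
  obtain ⟨x, hx, y, hy, hxy⟩ := hH.P5 (cmp H S w) ⟨w, mem_insert_self _ _⟩ hne
  have hxS := hsub hx
  have hyS : y ∉ S := by
    intro hyS
    apply hy
    rw [← cmp_eq H hm hw hx, cmp, mem_insert]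
    by_cases h : y = x
    · exact Or.inl h
    · exact Or.inr ((mem_miss H).2 ⟨h, hyS, hxy⟩)
  have hxy' : x ∈ miss H S y :=
    (mem_miss H).2 ⟨fun h => hyS (h ▸ hxS), hxS, fun h => hxy h.symm⟩
  refine ⟨y, (mem_bad H).2 ⟨hyS, x, hxy'⟩, ?_⟩
  rw [grp, mem_biUnion]
  refine ⟨x, hxy', ?_⟩
  rw [cmp_eq H hm hw hx]
  exact mem_insert_self _ _

/-- many bad vertices outside of a group -/
theorem card_grp_ne {j : ℕ} (hH : Hyp H j) {S : Finset V} (hS : (Sᶜ).Nonempty)
    (hm : ∀ w ∈ S, (miss H S w).card ≤ 1) (h1 : ∀ v ∈ bad H S, (miss H S v).card = 1) {u : V}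
    (hu : u ∈ bad H S) :
    S.card ≤ 2 * ((bad H S).filter fun v => grp H S v ≠ grp H S u).card + (grp H S u).card := by
  have hg : ∀ v ∈ bad H S, (grp H S v).card ≤ 2 := by
    intro v hv
    obtain ⟨w, hw⟩ := card_eq_one.1 (h1 v hv)
    rw [grp_eq H hw]
    refine card_cmp_le H hm ?_
    have : w ∈ miss H S v := by rw [hw]; exact mem_singleton_self w
    exact ((mem_miss H).1 this).2.1
  have hsub : S ⊆ grp H S u ∪
      ((bad H S).filter fun v => grp H S v ≠ grp H S u).biUnion (grp H S) := by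
    intro w hw
    by_cases hwu : w ∈ grp H S u
    · exact mem_union_left _ hwu
    · obtain ⟨v, hv, hwv⟩ := exists_grp H hH hS hm hw
      refine mem_union_right _ (mem_biUnion.2 ⟨v, mem_filter.2 ⟨hv, ?_⟩, hwv⟩)
      intro h
      exact hwu (h ▸ hwv)
  have h2 : (((bad H S).filter fun v => grp H S v ≠ grp H S u).biUnion (grp H S)).card
      ≤ ((bad H S).filter fun v => grp H S v ≠ grp H S u).card * 2 :=
    card_biUnion_le_card_mul _ _ _ fun v hv => hg v (mem_filter.1 hv).1
  have h3 := (card_le_card hsub).trans (card_union_le _ _)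
  omega

theorem card_grp_le {S : Finset V} (hm : ∀ w ∈ S, (miss H S w).card ≤ 1) {v : V}
    (h1 : (miss H S v).card = 1) : (grp H S v).card ≤ 2 := by
  obtain ⟨w, hw⟩ := card_eq_one.1 h1
  rw [grp_eq H hw]
  refine card_cmp_le H hm ?_
  have : w ∈ miss H S v := by rw [hw]; exact mem_singleton_self w
  exact ((mem_miss H).1 this).2.1

/-- the number of missing pairs inside `S` is even -/
theorem even_miss (S : Finset V) : Even (∑ s ∈ S, (miss H S s).card) := by
  have h1 : ∑ s ∈ S, (N H s ∩ S).card + ∑ s ∈ S, (miss H S s).card + S.card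
      = S.card * S.card := by
    rw [← sum_add_distrib, card_eq_sum_ones, ← sum_add_distrib, sum_mul]
    refine sum_congr rfl fun s hs => ?_
    rw [one_mul, ← card_eq_sum_ones]
    exact card_inter_mem H hs
  have h2 := even_inner H S
  have h3 : Even (S.card * S.card + S.card) := by
    have := Nat.even_mul_succ_self S.card
    rwa [mul_add, mul_one] at this
  have h4 : Even (∑ s ∈ S, (N H s ∩ S).card + ∑ s ∈ S, (miss H S s).card + 2 * S.card) := by
    have : ∑ s ∈ S, (N H s ∩ S).card + ∑ s ∈ S, (miss H S s).card + 2 * S.card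
        = S.card * S.card + S.card := by omega
    rw [this]; exact h3
  rw [Nat.even_add, Nat.even_add] at h4
  simp only [h2, true_iff, even_two_mul, iff_true] at h4
  exact h4

end comp

end Pool.Agent.Helper38.RE
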