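import Pool.Agent.Helper38.RE.LemR

/-! Project RE2 (MP_cc4a3b_co): the counting step with a centre. -/

set_option autoImplicit false
set_option linter.unusedSectionVars false
set_option linter.unusedVariables false

namespace Pool.Agent.Helper38.RE

open Finset

variable {V : Type*} [Fintype V] [DecidableEq V]

/-- accounting, as an identity -/
theorem acc2 (R : SimpleGraph V) [DecidableRel R.Adj] {U D X : Finset V} (hDU : D ⊆ U)
    (hU : ∀ v ∈ U, N R v ⊆ U) (hX : X ⊆ U) :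
    ∑ v ∈ U, ((dg R v : ℤ) - 1) - 2 * (D.card : ℤ) =
      ∑ v ∈ X, (((N R v ∩ X).card : ℤ) - 1 - if v ∈ D then 2 else 0) +
      ∑ v ∈ U \ X, ((dg R v : ℤ) + ((N R v ∩ X).card : ℤ) - 1 - if v ∈ D then 2 else 0) := by
  have ha := acc R hX (fun v hv => hU v (hX hv))
  have ha' : (∑ v ∈ U, (dg R v : ℤ)) =
      ∑ v ∈ U \ X, ((dg R v : ℤ) + ((N R v ∩ X).card : ℤ)) + ∑ v ∈ X, ((N R v ∩ X).card : ℤ) := by
    exact_mod_cast ha
  have hD : ∑ v ∈ U, (if v ∈ D then (2 : ℤ) else 0) = 2 * (D.card : ℤ) := by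
    rw [← sum_filter, sum_const, nsmul_eq_mul, filter_mem_eq_inter, inter_eq_right.2 hDU]
    ring
  have hD2 : ∑ v ∈ U, (if v ∈ D then (2 : ℤ) else 0)
      = ∑ v ∈ U \ X, (if v ∈ D then (2 : ℤ) else 0) + ∑ v ∈ X, (if v ∈ D then (2 : ℤ) else 0) :=
    (sum_sdiff hX).symm
  have hc : (U.card : ℤ) = ((U \ X).card : ℤ) + (X.card : ℤ) := by
    have := card_sdiff_add_card_eq_card hX
    omega
  rw [← hD, hD2, sum_sub_distrib, ha', sum_sub_distrib, sum_sub_distrib, sum_sub_distrib,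
    sum_sub_distrib, sum_const, sum_const, sum_const, nsmul_eq_mul, nsmul_eq_mul, nsmul_eq_mul,
    sum_add_distrib, hc]
  ring

section ctr

variable {R : SimpleGraph V} [DecidableRel R.Adj] {U D : Finset V}

/-- the cheap elements which are not adjacent to `q` -/
def cheapN (R : SimpleGraph V) [DecidableRel R.Adj] (D : Finset V) (q : V) : Finset V :=
  D.filter fun x => dg R x = 2 ∧ x ∉ N R q

theorem mem_cheapN {q x : V} : x ∈ cheapN R D q ↔ x ∈ D ∧ dg R x = 2 ∧ x ∉ N R q := by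
  rw [cheapN, mem_filter]

theorem ctr_sum (hDU : D ⊆ U) (hU : ∀ v ∈ U, N R v ⊆ U) (h1 : ∀ v ∈ U, 1 ≤ dg R v)
    (h2 : ∀ v ∈ D, 2 ≤ dg R v) {q : V} (hq : q ∈ D) (hq3 : 3 ≤ dg R q)
    (hcov : ∀ x ∈ cheapN R D q, ∃ m ∈ N R q, x ∈ N R m) :
    -3 + ∑ m ∈ N R q, ((dg R m : ℤ) - (if m ∈ D then 2 else 0)
      - ((N R m ∩ cheapN R D q).card : ℤ)) ≤
    ∑ v ∈ U, ((dg R v : ℤ) - 1) - 2 * (D.card : ℤ) := by
  have hqU := hDU hq
  have hNU := hU q hqU
  have hqN : q ∉ N R q := by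
    rw [mem_N]; exact fun h => R.loopless.irrefl q h
  rw [acc2 R hDU hU (X := {q}) (by simpa using hqU), sum_singleton, if_pos hq]
  have e0 : (N R q ∩ {q}).card = 0 := by
    rw [card_eq_zero, inter_singleton_of_notMem hqN]
  rw [e0]
  have hsub : N R q ⊆ U \ {q} := by
    intro x hx
    rw [mem_sdiff, mem_singleton]
    exact ⟨hNU hx, fun h => hqN (h ▸ hx)⟩
  have hCsub : cheapN R D q ⊆ (U \ {q}) \ N R q := by
    intro x hx
    rw [mem_cheapN] at hx
    rw [mem_sdiff, mem_sdiff, mem_singleton]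
    refine ⟨⟨hDU hx.1, ?_⟩, hx.2.2⟩
    rintro rfl
    omega
  rw [← sum_sdiff hsub, ← sum_sdiff hCsub]
  have f1 : ∑ m ∈ N R q, ((dg R m : ℤ) - (if m ∈ D then 2 else 0))
      ≤ ∑ v ∈ N R q, ((dg R v : ℤ) + ((N R v ∩ {q}).card : ℤ) - 1 - if v ∈ D then 2 else 0) := by
    refine sum_le_sum fun v hv => ?_
    have : q ∈ N R v := by rw [mem_N]; exact ((mem_N R).1 hv).symm
    rw [inter_singleton_of_mem this, card_singleton]
    push_cast
    linarith
  have f2 : -((cheapN R D q).card : ℤ) ≤ ∑ v ∈ cheapN R D q,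
      ((dg R v : ℤ) + ((N R v ∩ {q}).card : ℤ) - 1 - if v ∈ D then 2 else 0) := by
    rw [← mul_neg_one, ← nsmul_eq_mul]
    refine card_nsmul_le_sum _ _ _ fun v hv => ?_
    rw [mem_cheapN] at hv
    rw [if_pos hv.1, hv.2.1]
    have := Int.natCast_nonneg (N R v ∩ {q}).card
    push_cast
    linarith
  have f3 : 0 ≤ ∑ v ∈ ((U \ {q}) \ N R q) \ cheapN R D q,
      ((dg R v : ℤ) + ((N R v ∩ {q}).card : ℤ) - 1 - if v ∈ D then 2 else 0) := by
    refine sum_nonneg fun v hv => ?_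
    rw [mem_sdiff, mem_sdiff, mem_sdiff, mem_cheapN] at hv
    obtain ⟨⟨⟨hvU, hvq⟩, hvN⟩, hvC⟩ := hv
    have g1 := h1 v hvU
    have g3 := Int.natCast_nonneg (N R v ∩ {q}).card
    split_ifs with hvD
    · have g2 := h2 v hvD
      have : dg R v ≠ 2 := fun h => hvC ⟨hvD, h, hvN⟩
      have : (3 : ℤ) ≤ dg R v := by exact_mod_cast (by omega : 3 ≤ dg R v)
      linarith
    · have : (1 : ℤ) ≤ dg R v := by exact_mod_cast g1
      linarith
  have f4 : (cheapN R D q).card ≤ ∑ m ∈ N R q, (N R m ∩ cheapN R D q).card := by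
    calc (cheapN R D q).card ≤ ((N R q).biUnion fun m => N R m ∩ cheapN R D q).card := by
          apply card_le_card
          intro x hx
          obtain ⟨m, hm, hxm⟩ := hcov x hx
          exact mem_biUnion.2 ⟨m, hm, mem_inter.2 ⟨hxm, hx⟩⟩
      _ ≤ _ := card_biUnion_le
  have f4' : ((cheapN R D q).card : ℤ) ≤ ∑ m ∈ N R q, ((N R m ∩ cheapN R D q).card : ℤ) := by
    exact_mod_cast f4
  rw [sum_sub_distrib]
  push_cast
  linarith

variable {ι : Type*} {cls : V → ι}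

/-- `m` is deficient for the centre `q` -/
def Defi (R : SimpleGraph V) [DecidableRel R.Adj] (D : Finset V) (q m : V) : Prop :=
  m ∈ D ∧ m ∈ N R q ∧ ∀ x ∈ N R m, x = q ∨ x ∈ cheapN R D q

theorem ctr_nd {q m : V} (hq3 : 3 ≤ dg R q) (hm : m ∈ N R q) :
    (-1 : ℤ) ≤ (dg R m : ℤ) - (if m ∈ D then 2 else 0) - ((N R m ∩ cheapN R D q).card : ℤ) ∧
    (¬ Defi R D q m →
      (0 : ℤ) ≤ (dg R m : ℤ) - (if m ∈ D then 2 else 0) - ((N R m ∩ cheapN R D q).card : ℤ)) := by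
  have hqm : q ∈ N R m := by rw [mem_N]; exact ((mem_N R).1 hm).symm
  have hqC : q ∉ N R m ∩ cheapN R D q := by
    rw [mem_inter, mem_cheapN]
    rintro ⟨-, -, h, -⟩
    omega
  have h1 : (insert q (N R m ∩ cheapN R D q)).card ≤ dg R m :=
    card_le_card (insert_subset hqm inter_subset_left)
  rw [card_insert_of_notMem hqC] at h1
  constructor
  · split_ifs <;> omega
  · intro hnd
    split_ifs with hmD
    · have : ∃ x ∈ N R m, x ≠ q ∧ x ∉ cheapN R D q := by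
        by_contra hno
        push Not at hno
        apply hnd
        refine ⟨hmD, hm, fun x hx => ?_⟩
        by_cases hxq : x = q
        · exact Or.inl hxq
        · exact Or.inr (hno x hx hxq)
      obtain ⟨x, hx, hxq, hxC⟩ := this
      have h2 : (insert x (insert q (N R m ∩ cheapN R D q))).card ≤ dg R m :=
        card_le_card (insert_subset hx (insert_subset hqm inter_subset_left))
      rw [card_insert_of_notMem (by
        rw [mem_insert, mem_inter]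
        rintro (h | h)
        · exact hxq h
        · exact hxC h.2), card_insert_of_notMem hqC] at h2
      omega
    · omega

/-- no deficient vertex -/
theorem ctr_three (hDU : D ⊆ U) (hU : ∀ v ∈ U, N R v ⊆ U) (h1 : ∀ v ∈ U, 1 ≤ dg R v)
    (h2 : ∀ v ∈ D, 2 ≤ dg R v) {q : V} (hq : q ∈ D) (hq3 : 3 ≤ dg R q)
    (hcov : ∀ x ∈ cheapN R D q, ∃ m ∈ N R q, x ∈ N R m) (hno : ∀ m, ¬ Defi R D q m) :
    -3 ≤ ∑ v ∈ U, ((dg R v : ℤ) - 1) - 2 * (D.card : ℤ) := by
  have h := ctr_sum hDU hU h1 h2 hq hq3 hcov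
  have h0 : 0 ≤ ∑ m ∈ N R q, ((dg R m : ℤ) - (if m ∈ D then 2 else 0)
      - ((N R m ∩ cheapN R D q).card : ℤ)) :=
    sum_nonneg fun m hm => (ctr_nd hq3 hm).2 (hno m)
  linarith

/-- one deficient vertex -/
theorem ctr_four (hDU : D ⊆ U) (hU : ∀ v ∈ U, N R v ⊆ U) (h1 : ∀ v ∈ U, 1 ≤ dg R v)
    (h2 : ∀ v ∈ D, 2 ≤ dg R v) {q : V} (hq : q ∈ D) (hq3 : 3 ≤ dg R q)
    (hcov : ∀ x ∈ cheapN R D q, ∃ m ∈ N R q, x ∈ N R m) {m0 : V}
    (hno : ∀ m, Defi R D q m → m = m0) :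
    -4 ≤ ∑ v ∈ U, ((dg R v : ℤ) - 1) - 2 * (D.card : ℤ) := by
  have h := ctr_sum hDU hU h1 h2 hq hq3 hcov
  have h0 : -1 ≤ ∑ m ∈ N R q, ((dg R m : ℤ) - (if m ∈ D then 2 else 0)
      - ((N R m ∩ cheapN R D q).card : ℤ)) := by
    by_cases hm0 : m0 ∈ N R q
    · rw [← sum_erase_add _ _ hm0]
      have e1 : 0 ≤ ∑ m ∈ (N R q).erase m0, ((dg R m : ℤ) - (if m ∈ D then 2 else 0)
          - ((N R m ∩ cheapN R D q).card : ℤ)) := by
        refine sum_nonneg fun m hm => ?_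
        rw [mem_erase] at hm
        exact (ctr_nd hq3 hm.2).2 fun hd => hm.1 (hno m hd)
      have e2 := (ctr_nd (D := D) hq3 hm0).1
      linarith
    · have : 0 ≤ ∑ m ∈ N R q, ((dg R m : ℤ) - (if m ∈ D then 2 else 0)
          - ((N R m ∩ cheapN R D q).card : ℤ)) := by
        refine sum_nonneg fun m hm => ?_
        exact (ctr_nd hq3 hm).2 fun hd => hm0 (hno m hd ▸ hm)
      linarith
  linarith

/-- the structure around a deficient vertex -/
theorem defi_str (h2 : ∀ v ∈ D, 2 ≤ dg R v)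
    (hc : ∀ u ∈ D, ∀ v ∈ D, cls u ≠ cls v → ∃ x, R.Adj u x ∧ R.Adj v x) {c0 : ι}
    (hc0 : ∀ y ∈ D, dg R y = 2 → cls y = c0) {q m : V} (hq : q ∈ D) (hqc : cls q ≠ c0)
    (hm : Defi R D q m) :
    cls m = cls q ∧ (∀ v ∈ D, cls v ≠ c0 → v = q ∨ v = m) ∧
      ∃ x x', x ∈ D ∧ dg R x = 2 ∧ cls x = c0 ∧ N R x = {m, x'} ∧ m ∈ N R x ∧
        x' ∈ D ∧ cls x' = c0 := by
  obtain ⟨hmD, hmq, hN⟩ := hm
  have hmc : cls m = cls q := by
    by_contra hne
    obtain ⟨x, hx1, hx2⟩ := hc m hmD q hq hne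
    have hx := hN x ((mem_N R).2 hx1)
    rcases hx with rfl | hx
    · exact R.loopless.irrefl _ hx2
    · exact (mem_cheapN.1 hx).2.2 ((mem_N R).2 hx2)
  have hm3 : 3 ≤ dg R m := by
    have h1 := h2 m hmD
    have : dg R m ≠ 2 := fun h => hqc (hmc ▸ hc0 m hmD h)
    omega
  -- a cheap neighbour of `m`
  obtain ⟨x, hx, hxq⟩ : ∃ x ∈ N R m, x ≠ q := by
    by_contra hno
    push Not at hno
    have : N R m ⊆ {q} := fun x hx => mem_singleton.2 (hno x hx)
    have := card_le_card this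
    rw [card_singleton] at this
    have h3 : dg R m = (N R m).card := rfl
    omega
  have hxC := (hN x hx).resolve_left hxq
  rw [mem_cheapN] at hxC
  obtain ⟨hxD, hx2, hxN⟩ := hxC
  have hxc := hc0 x hxD hx2
  have hxm : R.Adj x m := ((mem_N R).1 hx).symm
  obtain ⟨x', hx'm, hNx, hxx'⟩ := lemR_pair R hx2 hxm
  have hmc0 : cls m ≠ c0 := by rw [hmc]; exact hqc
  -- the second neighbour of `x` is adjacent to `m`
  have hmx' : R.Adj m x' := by
    obtain ⟨z, hz1, hz2⟩ := hc x hxD m hmD (by rw [hxc]; exact hmc0.symm)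
    have : z ∈ N R x := (mem_N R).2 hz1
    rw [hNx, mem_insert, mem_singleton] at this
    rcases this with rfl | rfl
    · exact absurd hz2 (R.loopless.irrefl _)
    · exact hz2
  have hx'q : x' ≠ q := by
    rintro rfl
    exact hxN ((mem_N R).2 hxx'.symm)
  have hx'C := (hN x' ((mem_N R).2 hmx')).resolve_left hx'q
  rw [mem_cheapN] at hx'C
  obtain ⟨hx'D, hx'2, hx'N⟩ := hx'C
  have hx'c := hc0 x' hx'D hx'2
  refine ⟨hmc, ?_, x, x', hxD, hx2, hxc, hNx, (mem_N R).2 hxm, hx'D, hx'c⟩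
  intro v hvD hvc
  by_contra hno
  push Not at hno
  obtain ⟨z, hz1, hz2⟩ := hc v hvD x hxD (by rw [hxc]; exact hvc)
  have hzx : z ∈ N R x := (mem_N R).2 hz2
  rw [hNx, mem_insert, mem_singleton] at hzx
  rcases hzx with rfl | rfl
  · rcases hN v ((mem_N R).2 hz1.symm) with h | h
    · exact hno.1 h
    · rw [mem_cheapN] at h
      exact hvc (hc0 v h.1 h.2.1)
  · -- `N x' = {m, x}`
    obtain ⟨w, hw, hNx', -⟩ := lemR_pair R hx'2 hmx'.symm
    have hxw : x = w := by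
      have : x ∈ N R z := (mem_N R).2 hxx'.symm
      rw [hNx', mem_insert, mem_singleton] at this
      rcases this with h | h
      · exact absurd (h ▸ hxm) (R.loopless.irrefl _)
      · exact h
    have hv : v ∈ N R z := (mem_N R).2 hz1.symm
    rw [hNx', mem_insert, mem_singleton] at hv
    rcases hv with h | h
    · exact hno.2 h
    · exact hvc (by rw [h, ← hxw, hxc])

end ctr

end Pool.Agent.Helper38.RE
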