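import Pool.Agent.Helper38.RE.Comp

/-! Project RE (MP_cc4a3b_co): counting in the graph `F = H - S` (all degrees at least `2`, every
vertex has a common neighbour with every element of `D`). `T` is the set of the vertices of
degree `2` outside `D`, `K` the rest, `T1`, `T2` the elements of `T` with one, two neighbours in
`K`, `Zs` the set of the neighbours in `K` of the elements of `T1`. -/

set_option autoImplicit false
set_option linter.unusedSectionVars false
set_option linter.unusedVariables false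

namespace Pool.Agent.Helper38.RE

open Finset

variable {V : Type*} [Fintype V] [DecidableEq V]

structure Cx (F : SimpleGraph V) [DecidableRel F.Adj] (U D : Finset V) : Prop where
  hU : ∀ v ∈ U, N F v ⊆ U
  hD : D ⊆ U
  h2 : ∀ v ∈ U, 2 ≤ dg F v
  h3 : ∀ v ∈ D, 3 ≤ dg F v
  hc : ∀ y ∈ D, ∀ v ∈ U, v ≠ y → 1 ≤ (N F v ∩ N F y).card

section defs

variable (F : SimpleGraph V) [DecidableRel F.Adj] (U D : Finset V)

def tT : Finset V := U.filter fun v => v ∉ D ∧ dg F v = 2

def tK : Finset V := U \ tT F U D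

def tT1 : Finset V := (tT F U D).filter fun v => (N F v ∩ tK F U D).card = 1

def tT2 : Finset V := (tT F U D).filter fun v => (N F v ∩ tK F U D).card = 2

def tZ : Finset V := (tK F U D).filter fun z => ∃ v ∈ tT1 F U D, z ∈ N F v

end defs

namespace Cx

variable {F : SimpleGraph V} [DecidableRel F.Adj] {U D : Finset V}

theorem mem_T {v : V} : v ∈ tT F U D ↔ v ∈ U ∧ v ∉ D ∧ dg F v = 2 := by
  rw [tT, mem_filter]

theorem mem_K {v : V} : v ∈ tK F U D ↔ v ∈ U ∧ v ∉ tT F U D := by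
  rw [tK, mem_sdiff]

theorem T_sub : tT F U D ⊆ U := filter_subset _ _

theorem K_sub : tK F U D ⊆ U := sdiff_subset

theorem T2_sub : tT2 F U D ⊆ tT F U D := filter_subset _ _

theorem T1_sub : tT1 F U D ⊆ tT F U D := filter_subset _ _

theorem Z_sub : tZ F U D ⊆ tK F U D := filter_subset _ _

theorem notT_K {v : V} (hv : v ∈ U) (h : v ∉ tT F U D) : v ∈ tK F U D := mem_K.2 ⟨hv, h⟩

theorem D_sub_K (C : Cx F U D) : D ⊆ tK F U D := fun v hv =>
  mem_K.2 ⟨C.hD hv, fun h => (mem_T.1 h).2.1 hv⟩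

theorem not_self {v : V} : v ∉ N F v := by simp [N]

theorem T_pair {v x : V} (hv : v ∈ tT F U D) (hx : x ∈ N F v) :
    ∃ a, a ≠ x ∧ N F v = {x, a} := by
  have h := (mem_T.1 hv).2.2
  obtain ⟨p, q, hpq, h2⟩ := card_eq_two.1 h
  rw [h2, mem_insert, mem_singleton] at hx
  rcases hx with rfl | rfl
  · exact ⟨q, hpq.symm, h2⟩
  · exact ⟨p, hpq, by rw [h2, pair_comm]⟩

/-- a common neighbour -/
theorem com (C : Cx F U D) {y v : V} (hy : y ∈ D) (hv : v ∈ U) (h : v ≠ y) :
    ∃ x, x ∈ N F v ∧ x ∈ N F y := by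
  obtain ⟨x, hx⟩ := card_pos.1 (C.hc y hy v hv h)
  exact ⟨x, mem_inter.1 hx⟩

theorem N_comm {u v : V} : u ∈ N F v ↔ v ∈ N F u := by
  simp [N, SimpleGraph.adj_comm]

/-- every element of `T` has a neighbour in `K` -/
theorem K_nbr (C : Cx F U D) (hd : 3 ≤ D.card) {v : V} (hv : v ∈ tT F U D) :
    1 ≤ (N F v ∩ tK F U D).card := by
  by_contra h0
  have h0 : N F v ∩ tK F U D = ∅ := by
    rw [← card_eq_zero]; omega
  have hvU := T_sub hv
  have hT : ∀ x ∈ N F v, x ∈ tT F U D := by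
    intro x hx
    by_contra hxT
    have : x ∈ N F v ∩ tK F U D := mem_inter.2 ⟨hx, notT_K (C.hU v hvU hx) hxT⟩
    rw [h0] at this
    exact notMem_empty _ this
  obtain ⟨a, b, hab, hNv⟩ := card_eq_two.1 (mem_T.1 hv).2.2
  have ha : a ∈ N F v := by rw [hNv]; simp
  have hb : b ∈ N F v := by rw [hNv]; simp
  obtain ⟨a', ha', hNa⟩ := T_pair (hT a ha) (N_comm.1 ha)
  obtain ⟨b', hb', hNb⟩ := T_pair (hT b hb) (N_comm.1 hb)
  have hsub : D ⊆ {a', b'} := by
    intro y hy
    have hvy : v ≠ y := fun h => (mem_T.1 hv).2.1 (h ▸ hy)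
    obtain ⟨x, hx, hxy⟩ := C.com hy hvU hvy
    rw [hNv, mem_insert, mem_singleton] at hx
    rw [N_comm] at hxy
    rcases hx with rfl | rfl
    · rw [hNa, mem_insert, mem_singleton] at hxy
      rcases hxy with h | h
      · exact absurd h.symm hvy
      · simp [h]
    · rw [hNb, mem_insert, mem_singleton] at hxy
      rcases hxy with h | h
      · exact absurd h.symm hvy
      · simp [h]
  have := (card_le_card hsub).trans card_le_two
  omega

theorem T1_or_T2 (C : Cx F U D) (hd : 3 ≤ D.card) {v : V} (hv : v ∈ tT F U D) :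
    v ∈ tT1 F U D ∨ v ∈ tT2 F U D := by
  have h1 := C.K_nbr hd hv
  have h2 : (N F v ∩ tK F U D).card ≤ 2 := by
    have := card_le_card (inter_subset_left : N F v ∩ tK F U D ⊆ N F v)
    have h3 : (N F v).card = 2 := (mem_T.1 hv).2.2
    omega
  simp only [tT1, tT2, mem_filter, hv, true_and]
  omega

/-- the degree sum -/
theorem sum_eq (C : Cx F U D) (hd : 3 ≤ D.card) :
    ∑ v ∈ U, dg F v = 3 * (tT F U D).card + (tT2 F U D).card
      + ∑ w ∈ tK F U D, (N F w ∩ tK F U D).card := by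
  rw [acc F (K_sub (F := F) (D := D)) (fun v hv => C.hU v (K_sub hv))]
  have hUK : U \ tK F U D = tT F U D := by
    ext v
    simp only [mem_sdiff, mem_K]
    constructor
    · rintro ⟨h1, h2⟩
      by_contra h3
      exact h2 ⟨h1, h3⟩
    · intro h
      exact ⟨T_sub h, fun h2 => h2.2 h⟩
  rw [hUK]
  congr 1
  have h1 : ∀ v ∈ tT F U D, dg F v + (N F v ∩ tK F U D).card
      = 3 + if v ∈ tT2 F U D then 1 else 0 := by
    intro v hv
    have hdv := (mem_T.1 hv).2.2
    have h1 := C.K_nbr hd hv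
    have h2 : (N F v ∩ tK F U D).card ≤ 2 := by
      have := card_le_card (inter_subset_left : N F v ∩ tK F U D ⊆ N F v)
      have h3 : (N F v).card = 2 := hdv
      omega
    have h3 : v ∈ tT2 F U D ↔ (N F v ∩ tK F U D).card = 2 := by
      simp [tT2, hv]
    by_cases h : (N F v ∩ tK F U D).card = 2
    · rw [if_pos (h3.2 h), h, hdv]
    · rw [if_neg (fun h' => h (h3.1 h')), hdv]
      omega
  rw [sum_congr rfl h1, sum_add_distrib, sum_const, smul_eq_mul, ← card_filter,
    filter_mem_eq_inter, inter_eq_right.2 T2_sub]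
  ring

/-- the elements of `Zs` are adjacent to all other elements of `D` -/
theorem Z_adj (C : Cx F U D) {z y : V} (hz : z ∈ tZ F U D) (hy : y ∈ D) (hyz : y ≠ z) :
    y ∈ N F z := by
  obtain ⟨hzK, v, hv1, hzv⟩ := mem_filter.1 hz
  have hvT := T1_sub hv1
  have hvU := T_sub hvT
  have hK1 : (N F v ∩ tK F U D).card = 1 := (mem_filter.1 hv1).2
  have hNK : ∀ x, x ∈ N F v → x ∈ tK F U D → x = z := by
    intro x hx hxK
    exact card_le_one.1 hK1.le x (mem_inter.2 ⟨hx, hxK⟩) z (mem_inter.2 ⟨hzv, hzK⟩)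
  obtain ⟨a, haz, hNv⟩ := T_pair hvT hzv
  have hav : a ∈ N F v := by rw [hNv]; simp
  have haT : a ∈ tT F U D := by
    by_contra h
    exact haz (hNK a hav (notT_K (C.hU v hvU hav) h))
  have hvy : v ≠ y := fun h => (mem_T.1 hvT).2.1 (h ▸ hy)
  obtain ⟨x, hx, hxy⟩ := C.com hy hvU hvy
  rw [hNv, mem_insert, mem_singleton] at hx
  rcases hx with rfl | rfl
  · exact N_comm.1 hxy
  · exfalso
    have hay : x ≠ y := fun h => (mem_T.1 haT).2.1 (h ▸ hy)
    obtain ⟨a', ha', hNa⟩ := T_pair haT (N_comm.1 hav)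
    have hya : y ∈ N F x := N_comm.1 hxy
    have hya' : y = a' := by
      rw [hNa, mem_insert, mem_singleton] at hya
      rcases hya with h | h
      · exact absurd h.symm hvy
      · exact h
    subst hya'
    obtain ⟨t, ht, hty⟩ := C.com hy (T_sub haT) hay
    rw [hNa, mem_insert, mem_singleton] at ht
    rcases ht with rfl | rfl
    · exact hyz (hNK y (N_comm.1 hty) (C.D_sub_K hy))
    · exact not_self hty

/-- double vertices: the degrees of the two neighbours inside `K` -/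
theorem T2_sum (C : Cx F U D) {v w b : V} (hv : v ∈ tT F U D) (hN : N F v = {w, b}) :
    D.card ≤ (N F w ∩ tK F U D).card + (N F b ∩ tK F U D).card := by
  have hsub : D ⊆ (N F w ∩ tK F U D) ∪ (N F b ∩ tK F U D) := by
    intro y hy
    have hvy : v ≠ y := fun h => (mem_T.1 hv).2.1 (h ▸ hy)
    obtain ⟨x, hx, hxy⟩ := C.com hy (T_sub hv) hvy
    rw [hN, mem_insert, mem_singleton] at hx
    have hyK := C.D_sub_K hy
    rcases hx with rfl | rfl
    · exact mem_union_left _ (mem_inter.2 ⟨N_comm.1 hxy, hyK⟩)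
    · exact mem_union_right _ (mem_inter.2 ⟨N_comm.1 hxy, hyK⟩)
  exact (card_le_card hsub).trans (card_union_le _ _)

theorem dg_K (C : Cx F U D) {w : V} (hw : w ∈ tK F U D) : 3 ≤ dg F w := by
  by_cases hD : w ∈ D
  · exact C.h3 w hD
  · have h1 := C.h2 w (K_sub hw)
    have h2 : dg F w ≠ 2 := fun h => (mem_K.1 hw).2 (mem_T.2 ⟨K_sub hw, hD, h⟩)
    omega

/-- the degree of `w ∈ K` outside `Zs` -/
theorem dg_notZ (C : Cx F U D) (hd : 3 ≤ D.card) {w : V} (hw : w ∈ tK F U D)
    (hwZ : w ∉ tZ F U D) :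
    dg F w = (N F w ∩ tK F U D).card + (N F w ∩ tT2 F U D).card := by
  have h1 : N F w = (N F w ∩ tK F U D) ∪ (N F w ∩ tT2 F U D) := by
    ext x
    simp only [mem_union, mem_inter]
    constructor
    · intro hx
      by_cases hxT : x ∈ tT F U D
      · rcases C.T1_or_T2 hd hxT with h | h
        · exact absurd (mem_filter.2 ⟨hw, x, h, N_comm.1 hx⟩) hwZ
        · exact Or.inr ⟨hx, h⟩
      · exact Or.inl ⟨hx, notT_K (C.hU w (K_sub hw) hx) hxT⟩
    · rintro (h | h) <;> exact h.1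
  have h2 : Disjoint (N F w ∩ tK F U D) (N F w ∩ tT2 F U D) := by
    rw [disjoint_left]
    intro x hx hx'
    exact (mem_K.1 (mem_inter.1 hx).2).2 (T2_sub (mem_inter.1 hx').2)
  conv_lhs => rw [dg, h1, card_union_of_disjoint h2]

/-- charging -/
theorem charge (C : Cx F U D) {l : ℕ} (hd : 3 ≤ D.card) (hl : 2 * l + 1 ≤ D.card) (μ : V → ℤ)
    (hμ : ∀ w ∈ tK F U D \ tZ F U D, μ w ≤ ((N F w ∩ tK F U D).card : ℤ) ∨
      (μ w ≤ (dg F w : ℤ) ∧ μ w ≤ (l : ℤ) + 1)) :
    ∑ w ∈ tK F U D \ tZ F U D, μ w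
      ≤ ∑ w ∈ tK F U D \ tZ F U D, ((N F w ∩ tK F U D).card : ℤ) + ((tT2 F U D).card : ℤ) := by
  set Lo := (tK F U D \ tZ F U D).filter fun w => (N F w ∩ tK F U D).card ≤ l with hLo
  have h1 : ∑ w ∈ Lo, (N F w ∩ tT2 F U D).card ≤ (tT2 F U D).card := by
    rw [sum_inter_comm, card_eq_sum_ones]
    refine sum_le_sum fun v hv => ?_
    by_contra hgt
    push Not at hgt
    obtain ⟨w, hw, b, hb, hwb⟩ := one_lt_card.1 hgt
    have hvT := T2_sub hv
    have hNv : N F v = {w, b} := by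
      symm
      refine eq_of_subset_of_card_le ?_ ?_
      · intro x hx
        rw [mem_insert, mem_singleton] at hx
        rcases hx with rfl | rfl
        · exact (mem_inter.1 hw).1
        · exact (mem_inter.1 hb).1
      · rw [card_pair hwb]
        exact (mem_T.1 hvT).2.2.le
    have h2 := C.T2_sum hvT hNv
    have h3 := (mem_filter.1 (mem_inter.1 hw).2).2
    have h4 := (mem_filter.1 (mem_inter.1 hb).2).2
    omega
  have h2 : ∀ w ∈ tK F U D \ tZ F U D, μ w ≤ ((N F w ∩ tK F U D).card : ℤ)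
      + if (N F w ∩ tK F U D).card ≤ l then ((N F w ∩ tT2 F U D).card : ℤ) else 0 := by
    intro w hw
    have h3 := C.dg_notZ hd (mem_sdiff.1 hw).1 (mem_sdiff.1 hw).2
    have h4 := hμ w hw
    split_ifs with h5
    · rcases h4 with h | h
      · omega
      · have := h.1
        rw [h3] at this
        push_cast at this
        exact this
    · push Not at h5
      rcases h4 with h | h <;> omega
  refine (sum_le_sum h2).trans ?_
  rw [sum_add_distrib, ← sum_filter, ← hLo]
  have h3 : (∑ w ∈ Lo, ((N F w ∩ tT2 F U D).card : ℤ)) ≤ ((tT2 F U D).card : ℤ) := by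
    exact_mod_cast h1
  linarith

/-- the exceptional degrees seen from `y ∈ D` -/
theorem exb (C : Cx F U D) {y y' : V} (hy : y ∈ D) (hy' : y' ∈ U) (hyy : y' ≠ y) :
    (N F y' ∩ N F y).card + (((U.erase y) \ N F y).filter fun v => 3 ≤ dg F v).card
      + 3 * U.card ≤ ∑ v ∈ U, dg F v + 4 := by
  have hyU := C.hD hy
  rw [ex_id F C.hU hyU]
  have h1 : (N F y' ∩ N F y).card + (U.erase y).card
      ≤ ∑ v ∈ U.erase y, (N F v ∩ N F y).card + 1 := by
    have hmem : y' ∈ U.erase y := mem_erase.2 ⟨hyy, hy'⟩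
    rw [← sum_erase_add _ _ hmem]
    have h2 : ((U.erase y).erase y').card ≤ ∑ v ∈ (U.erase y).erase y', (N F v ∩ N F y).card := by
      rw [card_eq_sum_ones]
      refine sum_le_sum fun v hv => C.hc y hy v ?_ ?_
      · exact mem_of_mem_erase (mem_of_mem_erase hv)
      · exact ne_of_mem_erase (mem_of_mem_erase hv)
    have h3 := card_erase_add_one hmem
    omega
  have h2 : (((U.erase y) \ N F y).filter fun v => 3 ≤ dg F v).card
      + 2 * ((U.erase y) \ N F y).card ≤ ∑ v ∈ (U.erase y) \ N F y, dg F v := by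
    rw [card_filter, card_eq_sum_ones, mul_sum, ← sum_add_distrib]
    refine sum_le_sum fun v hv => ?_
    have := C.h2 v (mem_of_mem_erase (mem_sdiff.1 hv).1)
    split_ifs <;> omega
  have h3 : (U.erase y).card ≤ ((U.erase y) \ N F y).card + dg F y :=
    card_le_card_sdiff_add_card
  have h4 : (U.erase y).card + 1 = U.card := card_erase_add_one hyU
  omega

/-- the size of `K` -/
theorem card_K (C : Cx F U D) {y y' : V} (hy : y ∈ D) (hy' : y' ∈ D) (hyy : y' ≠ y) :
    (tK F U D).card + 6 * U.card ≤ D.card + 2 * ∑ v ∈ U, dg F v + 8 := by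
  have e1 := C.exb hy (C.hD hy') hyy
  have e2 := C.exb hy' (C.hD hy) hyy.symm
  have hsub : tK F U D ⊆ D ∪ ((((U.erase y) \ N F y).filter fun v => 3 ≤ dg F v) ∪
      ((((U.erase y') \ N F y').filter fun v => 3 ≤ dg F v) ∪ (N F y' ∩ N F y))) := by
    intro v hv
    have hvU := K_sub hv
    have h3 := C.dg_K hv
    by_cases hvD : v ∈ D
    · exact mem_union_left _ hvD
    · have hvy : v ≠ y := fun h => hvD (h ▸ hy)
      have hvy' : v ≠ y' := fun h => hvD (h ▸ hy')
      simp only [mem_union, mem_filter, mem_sdiff, mem_erase, mem_inter]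
      tauto
  have h4 := card_le_card hsub
  have h5 := card_union_le D ((((U.erase y) \ N F y).filter fun v => 3 ≤ dg F v) ∪
      ((((U.erase y') \ N F y').filter fun v => 3 ≤ dg F v) ∪ (N F y' ∩ N F y)))
  have h6 := card_union_le (((U.erase y) \ N F y).filter fun v => 3 ≤ dg F v)
      ((((U.erase y') \ N F y').filter fun v => 3 ≤ dg F v) ∪ (N F y' ∩ N F y))
  have h7 := card_union_le (((U.erase y') \ N F y').filter fun v => 3 ≤ dg F v)
    (N F y' ∩ N F y)
  omega

end Cx

end Pool.Agent.Helper38.RE
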