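import Pool.Agent.Helper38.RE.Roman

/-! Project RE2 (MP_cc4a3b_co), piece K4: the extremal graphs for `k = 4` (complements of
cycles). -/

set_option autoImplicit false

namespace Pool.Agent.Helper38.RE

open Finset

/-- adjacency in the cycle of length `n` -/
private def k4c (n a b : ℕ) : Prop :=
  a + 1 = b ∨ b + 1 = a ∨ (a = 0 ∧ b + 1 = n) ∨ (b = 0 ∧ a + 1 = n)

/-- the complement of the cycle -/
private def k4G (n : ℕ) : SimpleGraph (Fin n) where
  Adj i i' := i.val ≠ i'.val ∧ ¬ k4c n i i'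
  symm := ⟨fun i i' h => by
    refine ⟨fun e => h.1 e.symm, fun e => h.2 ?_⟩
    unfold k4c at *
    omega⟩
  loopless := ⟨fun _ h => h.1 rfl⟩

private theorem k4_adj {n : ℕ} {i i' : Fin n} :
    (k4G n).Adj i i' ↔ i.val ≠ i'.val ∧ ¬ k4c n i i' := Iff.rfl

/-- the two non neighbours -/
private def k4nx {n : ℕ} (hn : 5 ≤ n) (v : Fin n) : Fin n :=
  ⟨if v.val + 1 = n then 0 else v.val + 1, by have := v.isLt; split_ifs <;> omega⟩

private def k4pv {n : ℕ} (hn : 5 ≤ n) (v : Fin n) : Fin n :=
  ⟨if v.val = 0 then n - 1 else v.val - 1, by have := v.isLt; split_ifs <;> omega⟩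

private theorem k4_nadj {n : ℕ} (hn : 5 ≤ n) (v x : Fin n) :
    ¬ (k4G n).Adj v x ↔ x = v ∨ x = k4nx hn v ∨ x = k4pv hn v := by
  have h1 := v.isLt
  have h2 := x.isLt
  simp only [k4_adj, k4c, Fin.ext_iff, k4nx, k4pv]
  split_ifs <;> omega

private theorem k4_ne {n : ℕ} (hn : 5 ≤ n) (v : Fin n) :
    v ≠ k4nx hn v ∧ v ≠ k4pv hn v ∧ k4nx hn v ≠ k4pv hn v := by
  have h1 := v.isLt
  simp only [ne_eq, Fin.ext_iff, k4nx, k4pv]
  split_ifs <;> omega

/-- the optimal function -/
private def k4f {n : ℕ} (hn : 5 ≤ n) (v x : Fin n) : ℕ :=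
  (if x = v then 2 else 0) + ((if x = k4nx hn v then 1 else 0) + (if x = k4pv hn v then 1 else 0))

private theorem k4f_rdf {n : ℕ} (hn : 5 ≤ n) (v : Fin n) : IsRDF (k4G n) (k4f hn v) := by
  obtain ⟨h1, h2, h3⟩ := k4_ne hn v
  refine ⟨fun x => ?_, fun x hx => ⟨v, ?_, ?_⟩⟩
  · unfold k4f
    by_cases e1 : x = v
    · subst e1
      rw [if_pos rfl, if_neg h1, if_neg h2]
    · rw [if_neg e1]
      split_ifs <;> omega
  · by_contra hc
    rw [SimpleGraph.adj_comm, k4_nadj hn] at hc
    unfold k4f at hx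
    rcases hc with e | e | e
    · rw [if_pos e] at hx; omega
    · rw [if_pos e] at hx; omega
    · have h4 : (if x = k4pv hn v then 1 else 0) = 1 := if_pos e
      rw [h4] at hx; omega
  · unfold k4f
    rw [if_pos rfl, if_neg h1, if_neg h2]

private theorem k4f_sum {n : ℕ} (hn : 5 ≤ n) (v : Fin n) : ∑ x, k4f hn v x = 4 := by
  unfold k4f
  rw [sum_add_distrib, sum_add_distrib, sum_ite_eq', sum_ite_eq', sum_ite_eq',
    if_pos (mem_univ _), if_pos (mem_univ _), if_pos (mem_univ _)]
  norm_num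

private theorem k4_lower {n : ℕ} (hn : 5 ≤ n) {f : Fin n → ℕ} (hf : IsRDF (k4G n) f) :
    4 ≤ ∑ x, f x := by
  by_cases h : ∃ v, f v = 2
  · obtain ⟨v, hv⟩ := h
    by_cases h0 : ∃ x, x ≠ v ∧ ¬ (k4G n).Adj x v ∧ f x = 0
    · obtain ⟨x, hx, hxv, hx0⟩ := h0
      obtain ⟨u, hu, hu2⟩ := hf.2 x hx0
      have huv : u ≠ v := by
        rintro rfl
        exact hxv hu
      have h4 : ∑ y ∈ {u, v}, f y ≤ ∑ y, f y :=
        sum_le_sum_of_subset (subset_univ _)
      rw [sum_pair huv] at h4
      omega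
    · push Not at h0
      obtain ⟨h1, h2, h3⟩ := k4_ne hn v
      have e1 := h0 (k4nx hn v) h1.symm (by
        rw [SimpleGraph.adj_comm, k4_nadj hn]; exact Or.inr (Or.inl rfl))
      have e2 := h0 (k4pv hn v) h2.symm (by
        rw [SimpleGraph.adj_comm, k4_nadj hn]; exact Or.inr (Or.inr rfl))
      have h4 : ∑ y ∈ {v, k4nx hn v, k4pv hn v}, f y ≤ ∑ y, f y :=
        sum_le_sum_of_subset (subset_univ _)
      rw [sum_insert (by simp [h1, h2]), sum_pair h3] at h4
      omega
  · have h1 : ∀ v, 1 ≤ f v := by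
      intro v
      by_contra h0
      obtain ⟨u, -, hu⟩ := hf.2 v (by omega)
      exact h ⟨u, hu⟩
    have h2 : ∑ _x : Fin n, 1 ≤ ∑ x, f x := sum_le_sum fun x _ => h1 x
    rw [sum_const, card_univ, Fintype.card_fin, smul_eq_mul, mul_one] at h2
    omega

private theorem k4_conn {n : ℕ} (hn : 5 ≤ n) : (k4G n).Connected := by
  have : Nonempty (Fin n) := ⟨⟨0, by omega⟩⟩
  have key : ∀ u v : Fin n, v = k4nx hn u → (k4G n).Reachable u v := by
    intro u v h
    have h1 := u.isLt
    have h2 := v.isLt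
    let w : Fin n := ⟨if u.val + 3 < n then u.val + 3 else u.val + 3 - n, by split_ifs <;> omega⟩
    have hw : w.val = if u.val + 3 < n then u.val + 3 else u.val + 3 - n := rfl
    simp only [Fin.ext_iff, k4nx] at h
    have e1 : (k4G n).Adj u w := by
      rw [k4_adj, k4c, hw]
      split_ifs <;> omega
    have e2 : (k4G n).Adj w v := by
      rw [k4_adj, k4c, hw]
      split_ifs at h ⊢ <;> omega
    exact e1.reachable.trans e2.reachable
  refine SimpleGraph.Connected.mk fun u v => ?_
  by_cases h : (k4G n).Adj u v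
  · exact h.reachable
  · rw [k4_nadj hn] at h
    rcases h with h | h | h
    · rw [h]
    · exact key u v h
    · have : u = k4nx hn v := by
        have h1 := u.isLt
        have h2 := v.isLt
        simp only [Fin.ext_iff, k4nx, k4pv] at h ⊢
        split_ifs at h ⊢ <;> omega
      exact (key v u this).symm

/-- RE2-K4 (file K4.lean) -/
theorem k4_mem {n : ℕ} (hn : 5 ≤ n) : ∃ G : SimpleGraph (Fin n),
    G.Connected ∧ Excellent G ∧ IsRoman G 4 ∧ n * (n - 3) ≤ 2 * G.edgeSet.ncard := by
  classical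
  refine ⟨k4G n, k4_conn hn, fun x => ⟨k4f hn x, k4f_rdf hn x, fun f hf => ?_, ?_⟩, ⟨?_, ?_⟩, ?_⟩
  · rw [k4f_sum]
    exact k4_lower hn hf
  · obtain ⟨h1, h2, h3⟩ := k4_ne hn x
    unfold k4f
    rw [if_pos rfl]
    omega
  · exact ⟨k4f hn ⟨0, by omega⟩, k4f_rdf hn _, k4f_sum hn _⟩
  · rintro w ⟨f, hf, rfl⟩
    exact k4_lower hn hf
  · have hdeg : ∀ v, (k4G n).degree v = n - 3 := by
      intro v
      obtain ⟨h1, h2, h3⟩ := k4_ne hn v
      rw [← SimpleGraph.card_neighborFinset_eq_degree]
      have : (k4G n).neighborFinset v = ({v, k4nx hn v, k4pv hn v} : Finset (Fin n))ᶜ := by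
        ext x
        rw [SimpleGraph.mem_neighborFinset, mem_compl, mem_insert, mem_insert, mem_singleton,
          ← k4_nadj hn, not_not]
      rw [this, card_compl, Fintype.card_fin, card_insert_of_notMem (by simp [h1, h2]),
        card_pair h3]
    have h1 := (k4G n).sum_degrees_eq_twice_card_edges
    rw [sum_congr rfl fun v _ => hdeg v, sum_const, card_univ, Fintype.card_fin,
      smul_eq_mul] at h1
    have hcard : (k4G n).edgeSet.ncard = (k4G n).edgeFinset.card := by
      rw [Set.ncard_eq_toFinset_card', SimpleGraph.edgeFinset]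
    rw [hcard, ← h1]

/-- RE2-K4 (file K4.lean) -/
theorem k4_upper {n : ℕ} (hn : 5 ≤ n) (G : SimpleGraph (Fin n))
    (hr : ∀ f, IsRDF G f → 4 ≤ ∑ v, f v) : 2 * G.edgeSet.ncard ≤ n * (n - 3) := by
  classical
  have hdeg : ∀ v, G.degree v ≤ n - 3 := by
    intro v
    rw [← SimpleGraph.card_neighborFinset_eq_degree]
    set M : Finset (Fin n) := (G.neighborFinset v)ᶜ.erase v with hM
    have hv : v ∉ G.neighborFinset v := by simp
    have hc : M.card + 1 + (G.neighborFinset v).card = n := by
      rw [hM, card_erase_add_one (mem_compl.2 hv), card_compl, Fintype.card_fin]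
      have : (G.neighborFinset v).card ≤ n := by
        have := card_le_univ (G.neighborFinset v)
        rwa [Fintype.card_fin] at this
      omega
    have h := hr (fun x => (if x = v then 2 else 0) + (if x ∈ M then 1 else 0)) (by
      refine ⟨fun x => ?_, fun x hx => ⟨v, ?_, ?_⟩⟩
      · beta_reduce
        by_cases h : x = v
        · subst h
          rw [if_pos rfl, if_neg (by simp [hM])]
        · rw [if_neg h]
          split_ifs <;> omega
      · beta_reduce at hx
        have h1 : x ≠ v := by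
          rintro rfl
          rw [if_pos rfl] at hx
          omega
        have h2 : x ∉ M := by
          intro h
          rw [if_pos h] at hx
          omega
        rw [hM, mem_erase, mem_compl, SimpleGraph.mem_neighborFinset] at h2
        push Not at h2
        exact (h2 h1).symm
      · beta_reduce
        rw [if_pos rfl, if_neg (by simp [hM])])
    rw [sum_add_distrib, sum_ite_eq' univ v, if_pos (mem_univ v), ← card_filter,
      filter_mem_eq_inter, univ_inter] at h
    omega
  have h1 := G.sum_degrees_eq_twice_card_edges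
  have h2 : ∑ v, G.degree v ≤ n * (n - 3) := by
    have : ∑ v, G.degree v ≤ ∑ _v : Fin n, (n - 3) := sum_le_sum fun v _ => hdeg v
    rwa [sum_const, card_univ, Fintype.card_fin, smul_eq_mul] at this
  have hcard : G.edgeSet.ncard = G.edgeFinset.card := by
    rw [Set.ncard_eq_toFinset_card', SimpleGraph.edgeFinset]
  rw [hcard, ← h1]
  exact h2

end Pool.Agent.Helper38.RE
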