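import Pool.Agent.Helper38.RE.Roman

/-! Project RE2 (MP_cc4a3b_co), piece RE2-K5: the extremal graph for `k = 5`. -/

set_option autoImplicit false

namespace Pool.Agent.Helper38.RE

open Finset

/-- pairs `i < j` which are adjacent in the complement -/
def k5_lt (n i j : ℕ) : Prop :=
  (i = 0 ∧ (j = 2 ∨ j = 3 ∨ 8 ≤ j)) ∨ (i = 1 ∧ 4 ≤ j) ∨ (i = 2 ∧ (j = 3 ∨ j = 4 ∨ j = 5)) ∨
  (i = 3 ∧ (j = 6 ∨ j = 7)) ∨ (i = 4 ∧ j = 5) ∨ (i = 6 ∧ j = 7) ∨
  (8 ≤ i ∧ i % 2 = 0 ∧ j = i + 1) ∨ (n % 2 = 1 ∧ i + 2 = n ∧ j + 1 = n)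

/-- adjacency in the complement -/
def k5_adj (n i j : ℕ) : Prop := k5_lt n i j ∨ k5_lt n j i

theorem k5_adj_symm {n i j : ℕ} (h : k5_adj n i j) : k5_adj n j i := h.symm

/-- the extremal graph -/
def k5_G (n : ℕ) : SimpleGraph (Fin n) where
  Adj i j := i ≠ j ∧ ¬ k5_adj n i j
  symm := ⟨fun _ _ h => ⟨h.1.symm, fun h' => h.2 (k5_adj_symm h')⟩⟩
  loopless := ⟨fun _ h => h.1 rfl⟩

theorem k5_G_adj {n : ℕ} {i j : Fin n} : (k5_G n).Adj i j ↔ i ≠ j ∧ ¬ k5_adj n i j := Iff.rfl

theorem k5_a0 {n j : ℕ} (h : j = 2 ∨ j = 3 ∨ 8 ≤ j) : k5_adj n 0 j := Or.inl (Or.inl ⟨rfl, h⟩)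

theorem k5_a1 {n j : ℕ} (h : 4 ≤ j) : k5_adj n 1 j := Or.inl (Or.inr (Or.inl ⟨rfl, h⟩))

theorem k5_a2 {n j : ℕ} (h : j = 3 ∨ j = 4 ∨ j = 5) : k5_adj n 2 j :=
  Or.inl (Or.inr (Or.inr (Or.inl ⟨rfl, h⟩)))

theorem k5_a3 {n j : ℕ} (h : j = 6 ∨ j = 7) : k5_adj n 3 j :=
  Or.inl (Or.inr (Or.inr (Or.inr (Or.inl ⟨rfl, h⟩))))

theorem k5_a4 {n : ℕ} : k5_adj n 4 5 :=
  Or.inl (Or.inr (Or.inr (Or.inr (Or.inr (Or.inl ⟨rfl, rfl⟩)))))

theorem k5_a6 {n : ℕ} : k5_adj n 6 7 :=
  Or.inl (Or.inr (Or.inr (Or.inr (Or.inr (Or.inr (Or.inl ⟨rfl, rfl⟩))))))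

theorem k5_at {n i : ℕ} (h : 8 ≤ i) (h2 : i % 2 = 0) : k5_adj n i (i + 1) :=
  Or.inl (Or.inr (Or.inr (Or.inr (Or.inr (Or.inr (Or.inr (Or.inl ⟨h, h2, rfl⟩)))))))

theorem k5_al {n i j : ℕ} (h : n % 2 = 1) (hi : i + 2 = n) (hj : j + 1 = n) : k5_adj n i j :=
  Or.inl (Or.inr (Or.inr (Or.inr (Or.inr (Or.inr (Or.inr (Or.inr ⟨h, hi, hj⟩)))))))

theorem k5_partner {n v : ℕ} (hn : 12 ≤ n) (h8 : 8 ≤ v) (hv : v < n) :
    ∃ p : ℕ, 8 ≤ p ∧ p < n ∧ p ≠ v ∧ k5_adj n v p := by
  by_cases e : v % 2 = 1
  · obtain ⟨i, rfl⟩ : ∃ i, v = i + 1 := ⟨v - 1, by omega⟩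
    exact ⟨i, by omega, by omega, by omega, k5_adj_symm (k5_at (by omega) (by omega))⟩
  · by_cases e' : v + 1 < n
    · exact ⟨v + 1, by omega, by omega, by omega, k5_at (by omega) (by omega)⟩
    · exact ⟨v - 1, by omega, by omega, by omega,
        k5_adj_symm (k5_al (by omega) (by omega) (by omega))⟩

theorem k5_three {n v : ℕ} (hn : 12 ≤ n) (hv : v < n) : ∃ a b c : ℕ, a < n ∧ b < n ∧ c < n ∧
    v ≠ a ∧ v ≠ b ∧ v ≠ c ∧ a ≠ b ∧ a ≠ c ∧ b ≠ c ∧ k5_adj n v a ∧ k5_adj n v b ∧
    k5_adj n v c := by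
  by_cases h8 : 8 ≤ v
  · obtain ⟨p, h1, h2, h3, h4⟩ := k5_partner hn h8 hv
    exact ⟨0, 1, p, by omega, by omega, h2, by omega, by omega, h3.symm, by omega, by omega,
      by omega, k5_adj_symm (k5_a0 (by omega)), k5_adj_symm (k5_a1 (by omega)), h4⟩
  · have h : v = 0 ∨ v = 1 ∨ v = 2 ∨ v = 3 ∨ v = 4 ∨ v = 5 ∨ v = 6 ∨ v = 7 := by omega
    rcases h with rfl | rfl | rfl | rfl | rfl | rfl | rfl | rfl
    · exact ⟨2, 3, 8, by omega, by omega, by omega, by omega, by omega, by omega, by omega,
        by omega, by omega, k5_a0 (by omega), k5_a0 (by omega), k5_a0 (by omega)⟩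
    · exact ⟨4, 5, 6, by omega, by omega, by omega, by omega, by omega, by omega, by omega,
        by omega, by omega, k5_a1 (by omega), k5_a1 (by omega), k5_a1 (by omega)⟩
    · exact ⟨0, 3, 4, by omega, by omega, by omega, by omega, by omega, by omega, by omega,
        by omega, by omega, k5_adj_symm (k5_a0 (by omega)), k5_a2 (by omega), k5_a2 (by omega)⟩
    · exact ⟨0, 2, 6, by omega, by omega, by omega, by omega, by omega, by omega, by omega,
        by omega, by omega, k5_adj_symm (k5_a0 (by omega)), k5_adj_symm (k5_a2 (by omega)),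
        k5_a3 (by omega)⟩
    · exact ⟨1, 2, 5, by omega, by omega, by omega, by omega, by omega, by omega, by omega,
        by omega, by omega, k5_adj_symm (k5_a1 (by omega)), k5_adj_symm (k5_a2 (by omega)),
        k5_a4⟩
    · exact ⟨1, 2, 4, by omega, by omega, by omega, by omega, by omega, by omega, by omega,
        by omega, by omega, k5_adj_symm (k5_a1 (by omega)), k5_adj_symm (k5_a2 (by omega)),
        k5_adj_symm k5_a4⟩
    · exact ⟨1, 3, 7, by omega, by omega, by omega, by omega, by omega, by omega, by omega,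
        by omega, by omega, k5_adj_symm (k5_a1 (by omega)), k5_adj_symm (k5_a3 (by omega)),
        k5_a6⟩
    · exact ⟨1, 3, 6, by omega, by omega, by omega, by omega, by omega, by omega, by omega,
        by omega, by omega, k5_adj_symm (k5_a1 (by omega)), k5_adj_symm (k5_a3 (by omega)),
        k5_adj_symm k5_a6⟩

theorem k5_common_small {n u v : ℕ} (hn : 12 ≤ n) (hv : v < 8) (huv : u < v) :
    ∃ w : ℕ, w < n ∧ k5_adj n u w ∧ k5_adj n v w := by
  by_cases h4 : 4 ≤ u
  · exact ⟨1, by omega, k5_adj_symm (k5_a1 (by omega)), k5_adj_symm (k5_a1 (by omega))⟩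
  · have h : u = 0 ∨ u = 1 ∨ u = 2 ∨ u = 3 := by omega
    rcases h with rfl | rfl | rfl | rfl
    · have h : v = 1 ∨ v = 2 ∨ v = 3 ∨ v = 4 ∨ v = 5 ∨ v = 6 ∨ v = 7 := by omega
      rcases h with rfl | rfl | rfl | rfl | rfl | rfl | rfl
      · exact ⟨8, by omega, k5_a0 (by omega), k5_a1 (by omega)⟩
      · exact ⟨3, by omega, k5_a0 (by omega), k5_a2 (by omega)⟩
      · exact ⟨2, by omega, k5_a0 (by omega), k5_adj_symm (k5_a2 (by omega))⟩
      · exact ⟨2, by omega, k5_a0 (by omega), k5_adj_symm (k5_a2 (by omega))⟩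
      · exact ⟨2, by omega, k5_a0 (by omega), k5_adj_symm (k5_a2 (by omega))⟩
      · exact ⟨3, by omega, k5_a0 (by omega), k5_adj_symm (k5_a3 (by omega))⟩
      · exact ⟨3, by omega, k5_a0 (by omega), k5_adj_symm (k5_a3 (by omega))⟩
    · have h : v = 2 ∨ v = 3 ∨ v = 4 ∨ v = 5 ∨ v = 6 ∨ v = 7 := by omega
      rcases h with rfl | rfl | rfl | rfl | rfl | rfl
      · exact ⟨4, by omega, k5_a1 (by omega), k5_a2 (by omega)⟩
      · exact ⟨6, by omega, k5_a1 (by omega), k5_a3 (by omega)⟩
      · exact ⟨5, by omega, k5_a1 (by omega), k5_a4⟩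
      · exact ⟨4, by omega, k5_a1 (by omega), k5_adj_symm k5_a4⟩
      · exact ⟨7, by omega, k5_a1 (by omega), k5_a6⟩
      · exact ⟨6, by omega, k5_a1 (by omega), k5_adj_symm k5_a6⟩
    · have h : v = 3 ∨ v = 4 ∨ v = 5 ∨ v = 6 ∨ v = 7 := by omega
      rcases h with rfl | rfl | rfl | rfl | rfl
      · exact ⟨0, by omega, k5_adj_symm (k5_a0 (by omega)), k5_adj_symm (k5_a0 (by omega))⟩
      · exact ⟨5, by omega, k5_a2 (by omega), k5_a4⟩
      · exact ⟨4, by omega, k5_a2 (by omega), k5_adj_symm k5_a4⟩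
      · exact ⟨3, by omega, k5_a2 (by omega), k5_adj_symm (k5_a3 (by omega))⟩
      · exact ⟨3, by omega, k5_a2 (by omega), k5_adj_symm (k5_a3 (by omega))⟩
    · have h : v = 4 ∨ v = 5 ∨ v = 6 ∨ v = 7 := by omega
      rcases h with rfl | rfl | rfl | rfl
      · exact ⟨2, by omega, k5_adj_symm (k5_a2 (by omega)), k5_adj_symm (k5_a2 (by omega))⟩
      · exact ⟨2, by omega, k5_adj_symm (k5_a2 (by omega)), k5_adj_symm (k5_a2 (by omega))⟩
      · exact ⟨7, by omega, k5_a3 (by omega), k5_a6⟩
      · exact ⟨6, by omega, k5_a3 (by omega), k5_adj_symm k5_a6⟩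

theorem k5_common_lt {n u v : ℕ} (hn : 12 ≤ n) (hv : v < n) (huv : u < v) :
    ∃ w : ℕ, w < n ∧ k5_adj n u w ∧ k5_adj n v w := by
  by_cases h8 : 8 ≤ v
  · by_cases h2 : u < 2
    · obtain ⟨p, h1, h3, h4, h5⟩ := k5_partner hn h8 hv
      have h : u = 0 ∨ u = 1 := by omega
      rcases h with rfl | rfl
      · exact ⟨p, h3, k5_a0 (by omega), h5⟩
      · exact ⟨p, h3, k5_a1 (by omega), h5⟩
    · by_cases h4 : 4 ≤ u ∧ u < 8
      · exact ⟨1, by omega, k5_adj_symm (k5_a1 h4.1), k5_adj_symm (k5_a1 (by omega))⟩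
      · exact ⟨0, by omega, k5_adj_symm (k5_a0 (by omega)), k5_adj_symm (k5_a0 (by omega))⟩
  · exact k5_common_small hn (by omega) huv

theorem k5_common {n u v : ℕ} (hn : 12 ≤ n) (hu : u < n) (hv : v < n) (huv : u ≠ v) :
    ∃ w : ℕ, w < n ∧ k5_adj n u w ∧ k5_adj n v w := by
  rcases lt_or_gt_of_ne huv with h | h
  · exact k5_common_lt hn hv h
  · obtain ⟨w, h1, h2, h3⟩ := k5_common_lt hn hu h
    exact ⟨w, h1, h3, h2⟩

theorem k5_irrefl {n i : ℕ} : ¬ k5_adj n i i := by
  have h : ¬ k5_lt n i i := by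
    rintro (h | h | h | h | h | h | h | h) <;> omega
  rintro (h' | h')
  · exact h h'
  · exact h h'

/-- the neighbours of the vertices `v ≥ 8`, in the complement -/
theorem k5_nb {n v w : ℕ} (h8 : 8 ≤ v) (hk : k5_adj n w v) :
    w = 0 ∨ w = 1 ∨ (v % 2 = 0 ∧ w = v + 1) ∨ (v % 2 = 1 ∧ v = w + 1) ∨
      (n % 2 = 1 ∧ v + 2 = n ∧ w + 1 = n) ∨ (n % 2 = 1 ∧ w + 2 = n ∧ v + 1 = n) := by
  rcases hk with (h | h | h | h | h | h | h | h) | (h | h | h | h | h | h | h | h) <;> omega

theorem k5_nb4 {n w : ℕ} (hn : 12 ≤ n) (hk : k5_adj n w 4) : w = 1 ∨ w = 2 ∨ w = 5 := by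
  rcases hk with (h | h | h | h | h | h | h | h) | (h | h | h | h | h | h | h | h) <;> omega

theorem k5_nb6 {n w : ℕ} (hn : 12 ≤ n) (hk : k5_adj n w 6) : w = 1 ∨ w = 3 ∨ w = 7 := by
  rcases hk with (h | h | h | h | h | h | h | h) | (h | h | h | h | h | h | h | h) <;> omega

theorem k5_ex {n x : ℕ} (hn : 12 ≤ n) (hx : x < n) : ∃ v a b c : ℕ, v < n ∧ a < n ∧ b < n ∧
    c < n ∧ v ≠ a ∧ v ≠ b ∧ v ≠ c ∧ a ≠ b ∧ a ≠ c ∧ b ≠ c ∧
    (∀ w, w < n → k5_adj n w v → w = a ∨ w = b ∨ w = c) ∧
    (x = v ∨ x = a ∨ x = b ∨ x = c) := by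
  by_cases h8 : 8 ≤ x
  · by_cases e : x % 2 = 1
    · by_cases e' : x + 2 = n
      · refine ⟨x + 1, 0, 1, x, by omega, by omega, by omega, by omega, by omega, by omega,
          by omega, by omega, by omega, by omega, fun w hw hk => ?_, by omega⟩
        have := k5_nb (by omega) hk
        omega
      · refine ⟨x, 0, 1, x - 1, by omega, by omega, by omega, by omega, by omega, by omega,
          by omega, by omega, by omega, by omega, fun w hw hk => ?_, by omega⟩
        have := k5_nb (by omega) hk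
        omega
    · by_cases e' : x + 1 < n
      · refine ⟨x, 0, 1, x + 1, by omega, by omega, by omega, by omega, by omega, by omega,
          by omega, by omega, by omega, by omega, fun w hw hk => ?_, by omega⟩
        have := k5_nb (by omega) hk
        omega
      · refine ⟨x, 0, 1, x - 1, by omega, by omega, by omega, by omega, by omega, by omega,
          by omega, by omega, by omega, by omega, fun w hw hk => ?_, by omega⟩
        have := k5_nb (by omega) hk
        omega
  · by_cases h1 : x < 2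
    · refine ⟨8, 0, 1, 9, by omega, by omega, by omega, by omega, by omega, by omega,
        by omega, by omega, by omega, by omega, fun w hw hk => ?_, by omega⟩
      have := k5_nb (by omega) hk
      omega
    · by_cases h2 : x = 2 ∨ x = 4 ∨ x = 5
      · exact ⟨4, 1, 2, 5, by omega, by omega, by omega, by omega, by omega, by omega,
          by omega, by omega, by omega, by omega, fun w hw hk => k5_nb4 hn hk, by omega⟩
      · exact ⟨6, 1, 3, 7, by omega, by omega, by omega, by omega, by omega, by omega,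
          by omega, by omega, by omega, by omega, fun w hw hk => k5_nb6 hn hk, by omega⟩

theorem k5_low {n : ℕ} (hn : 12 ≤ n) {f : Fin n → ℕ} (hf : IsRDF (k5_G n) f) :
    5 ≤ ∑ v, f v := by
  have hsub : ∀ s : Finset (Fin n), ∑ v ∈ s, f v ≤ ∑ v, f v := fun s =>
    sum_le_sum_of_subset (subset_univ s)
  by_cases h2 : ∃ v, f v = 2
  · obtain ⟨v, hv⟩ := h2
    by_cases h3 : ∃ u, u ≠ v ∧ f u = 2
    · obtain ⟨u, huv, hu⟩ := h3
      obtain ⟨w, hw, h4, h5⟩ := k5_common hn u.2 v.2 (fun h => huv (Fin.ext h))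
      have hwu : (⟨w, hw⟩ : Fin n) ≠ u := by
        intro h
        rw [← h] at h4
        exact k5_irrefl h4
      have hwv : (⟨w, hw⟩ : Fin n) ≠ v := by
        intro h
        rw [← h] at h5
        exact k5_irrefl h5
      by_cases h6 : f ⟨w, hw⟩ = 0
      · obtain ⟨x, hx, hx2⟩ := hf.2 _ h6
        rw [k5_G_adj] at hx
        have hxu : x ≠ u := by
          intro h
          rw [h] at hx
          exact hx.2 (k5_adj_symm h4)
        have hxv : x ≠ v := by
          intro h
          rw [h] at hx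
          exact hx.2 (k5_adj_symm h5)
        have h7 := hsub {x, u, v}
        rw [sum_insert (by simp [hxu, hxv]), sum_insert (by simp [huv]), sum_singleton] at h7
        omega
      · have h7 := hsub {⟨w, hw⟩, u, v}
        rw [sum_insert (by simp [hwu, hwv]), sum_insert (by simp [huv]), sum_singleton] at h7
        omega
    · push Not at h3
      obtain ⟨a, b, c, ha, hb, hc, hva, hvb, hvc, hab, hac, hbc, ka, kb, kc⟩ := k5_three hn v.2
      have key : ∀ (w : ℕ) (hw : w < n), k5_adj n v w → 1 ≤ f ⟨w, hw⟩ := by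
        intro w hw hk
        by_contra hcon
        have h0 : f ⟨w, hw⟩ = 0 := by omega
        obtain ⟨x, hx, hx2⟩ := hf.2 _ h0
        rw [k5_G_adj] at hx
        by_cases hxv : x = v
        · rw [hxv] at hx
          exact hx.2 (k5_adj_symm hk)
        · exact h3 x hxv hx2
      have e1 := key a ha ka
      have e2 := key b hb kb
      have e3 := key c hc kc
      have h7 := hsub {v, ⟨a, ha⟩, ⟨b, hb⟩, ⟨c, hc⟩}
      rw [sum_insert (by simp [Fin.ext_iff, hva, hvb, hvc]),
        sum_insert (by simp [Fin.ext_iff, hab, hac]), sum_insert (by simp [Fin.ext_iff, hbc]),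
        sum_singleton] at h7
      omega
  · push Not at h2
    have h3 : ∀ v, 1 ≤ f v := by
      intro v
      by_contra hcon
      obtain ⟨x, _, hx2⟩ := hf.2 v (by omega)
      exact h2 x hx2
    have h4 : ∑ _v : Fin n, 1 ≤ ∑ v, f v := sum_le_sum fun v _ => h3 v
    simp only [sum_const, card_univ, Fintype.card_fin, smul_eq_mul, mul_one] at h4
    omega

theorem k5_rdf {n x : ℕ} (hn : 12 ≤ n) (hx : x < n) : ∃ f : Fin n → ℕ, IsRDF (k5_G n) f ∧
    ∑ v, f v = 5 ∧ f ⟨x, hx⟩ ≠ 0 := by
  obtain ⟨v, a, b, c, hv, ha, hb, hc, hva, hvb, hvc, hab, hac, hbc, hk, hx'⟩ := k5_ex hn hx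
  refine ⟨fun w => (if w = ⟨v, hv⟩ then 2 else 0) + (if w = ⟨a, ha⟩ then 1 else 0) +
    (if w = ⟨b, hb⟩ then 1 else 0) + (if w = ⟨c, hc⟩ then 1 else 0), ⟨?_, ?_⟩, ?_, ?_⟩
  · intro w
    simp only [Fin.ext_iff]
    split_ifs <;> omega
  · intro w hw
    simp only [Fin.ext_iff] at hw
    refine ⟨⟨v, hv⟩, ?_, ?_⟩
    · rw [k5_G_adj]
      have h1 : (w : ℕ) ≠ v ∧ (w : ℕ) ≠ a ∧ (w : ℕ) ≠ b ∧ (w : ℕ) ≠ c := by
        refine ⟨?_, ?_, ?_, ?_⟩ <;> intro h <;> rw [h] at hw <;> simp at hw
      refine ⟨fun h => h1.1 (congrArg Fin.val h), fun h => ?_⟩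
      rcases hk w w.2 h with h | h | h
      · exact h1.2.1 h
      · exact h1.2.2.1 h
      · exact h1.2.2.2 h
    · simp [Fin.ext_iff, hva, hvb, hvc]
  · simp only [sum_add_distrib, sum_ite_eq', mem_univ, if_true]
  · simp only [Fin.ext_iff]
    rcases hx' with h | h | h | h <;> rw [h] <;> simp

theorem k5_conn {n : ℕ} (hn : 12 ≤ n) : (k5_G n).Connected := by
  have h2n : 2 < n := by omega
  have h6n : 6 < n := by omega
  have h8n : 8 < n := by omega
  have adj : ∀ (i j : ℕ) (hi : i < n) (hj : j < n), i ≠ j → ¬ k5_adj n i j →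
      (k5_G n).Adj ⟨i, hi⟩ ⟨j, hj⟩ := by
    intro i j hi hj hij hk
    exact ⟨fun h => hij (congrArg Fin.val h), hk⟩
  have r6 : (k5_G n).Reachable ⟨6, h6n⟩ ⟨2, h2n⟩ :=
    (adj 6 2 h6n h2n (by omega) (by
      rintro ((h | h | h | h | h | h | h | h) | (h | h | h | h | h | h | h | h)) <;> omega)).reachable
  have r8 : (k5_G n).Reachable ⟨8, h8n⟩ ⟨2, h2n⟩ :=
    (adj 8 2 h8n h2n (by omega) (by
      rintro ((h | h | h | h | h | h | h | h) | (h | h | h | h | h | h | h | h)) <;> omega)).reachable
  have r : ∀ (i : ℕ) (hi : i < n), (k5_G n).Reachable ⟨i, hi⟩ ⟨2, h2n⟩ := by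
    intro i hi
    by_cases h0 : i = 0
    · exact (adj i 6 hi h6n (by omega) (by
      rintro ((h | h | h | h | h | h | h | h) | (h | h | h | h | h | h | h | h)) <;> omega)).reachable.trans r6
    · by_cases h1 : i = 2
      · subst h1
        exact SimpleGraph.Reachable.refl _
      · by_cases h3 : i = 1 ∨ 6 ≤ i
        · exact (adj i 2 hi h2n (by omega) (by
      rintro ((h | h | h | h | h | h | h | h) | (h | h | h | h | h | h | h | h)) <;> omega)).reachable
        · exact (adj i 8 hi h8n (by omega) (by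
      rintro ((h | h | h | h | h | h | h | h) | (h | h | h | h | h | h | h | h)) <;> omega)).reachable.trans r8
  have : Nonempty (Fin n) := ⟨⟨2, h2n⟩⟩
  exact ⟨fun i j => (r i i.2).trans (r j j.2).symm⟩

theorem k5_card_le {n : ℕ} (v : Fin n) (S : Finset ℕ)
    (h : ∀ w : Fin n, k5_adj n v w → (w : ℕ) ∈ S) [DecidablePred fun w : Fin n => k5_adj n v w] :
    (univ.filter fun w : Fin n => k5_adj n v w).card ≤ S.card := by
  refine card_le_card_of_injOn (fun w => (w : ℕ)) ?_ ?_
  · intro w hw
    exact h w (by simpa using hw)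
  · intro w _ w' _ hww
    exact Fin.ext hww

theorem k5_deg {n : ℕ} (hn : 12 ≤ n) (v : Fin n) [DecidablePred fun w : Fin n => k5_adj n v w] :
    (univ.filter fun w : Fin n => k5_adj n v w).card ≤ 3 + (if (v : ℕ) = 0 then n - 9 else 0) +
      (if (v : ℕ) = 1 then n - 7 else 0) + (if (v : ℕ) = 2 then 1 else 0) +
      (if (v : ℕ) = 3 then 1 else 0) + (if (v : ℕ) = n - 2 then 1 else 0) := by
  have c3 : ∀ a b c : ℕ, ({a, b, c} : Finset ℕ).card ≤ 3 := fun a b c => card_le_three
  have c4 : ∀ a b c d : ℕ, ({a, b, c, d} : Finset ℕ).card ≤ 4 := fun a b c d => card_le_four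
  by_cases h0 : (v : ℕ) = 0
  · refine (k5_card_le v (Ico 8 n ∪ {2, 3}) ?_).trans ?_
    · intro w hw
      simp only [mem_union, mem_Ico, mem_insert, mem_singleton]
      rw [h0] at hw
      have := w.2
      rcases hw with (h | h | h | h | h | h | h | h) | (h | h | h | h | h | h | h | h) <;> omega
    · refine (card_union_le _ _).trans ?_
      rw [Nat.card_Ico, card_pair (by norm_num)]
      simp only [h0]
      simp
      omega
  · by_cases h1 : (v : ℕ) = 1
    · refine (k5_card_le v (Ico 4 n) ?_).trans ?_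
      · intro w hw
        simp only [mem_Ico]
        rw [h1] at hw
        have := w.2
        rcases hw with (h | h | h | h | h | h | h | h) | (h | h | h | h | h | h | h | h) <;> omega
      · rw [Nat.card_Ico]
        simp only [h1]
        simp
        omega
    · simp only [h0, h1, if_false, add_zero]
      by_cases h2 : (v : ℕ) = 2
      · refine (k5_card_le v {0, 3, 4, 5} ?_).trans ((c4 _ _ _ _).trans ?_)
        · intro w hw
          simp only [mem_insert, mem_singleton]
          rw [h2] at hw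
          rcases hw with (h | h | h | h | h | h | h | h) | (h | h | h | h | h | h | h | h) <;> omega
        · simp [h2]
      · by_cases h3 : (v : ℕ) = 3
        · refine (k5_card_le v {0, 2, 6, 7} ?_).trans ((c4 _ _ _ _).trans ?_)
          · intro w hw
            simp only [mem_insert, mem_singleton]
            rw [h3] at hw
            rcases hw with (h | h | h | h | h | h | h | h) | (h | h | h | h | h | h | h | h) <;> omega
          · simp [h3]
        · by_cases h4 : (v : ℕ) = n - 2
          · refine (k5_card_le v {0, 1, n - 1, n - 3} ?_).trans ((c4 _ _ _ _).trans ?_)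
            · intro w hw
              simp only [mem_insert, mem_singleton]
              rw [h4] at hw
              rcases hw with (h | h | h | h | h | h | h | h) | (h | h | h | h | h | h | h | h) <;> omega
            · simp only [h4, if_true]
              omega
          · simp only [h2, h3, h4, if_false, add_zero]
            by_cases h8 : 8 ≤ (v : ℕ)
            · by_cases e : (v : ℕ) % 2 = 1
              · refine (k5_card_le v {0, 1, (v : ℕ) - 1} ?_).trans (c3 _ _ _)
                intro w hw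
                simp only [mem_insert, mem_singleton]
                have := w.2
                have := v.2
                rcases hw with (h | h | h | h | h | h | h | h) | (h | h | h | h | h | h | h | h) <;> omega
              · by_cases e' : (v : ℕ) + 1 < n
                · refine (k5_card_le v {0, 1, (v : ℕ) + 1} ?_).trans (c3 _ _ _)
                  intro w hw
                  simp only [mem_insert, mem_singleton]
                  have := w.2
                  have := v.2
                  rcases hw with (h | h | h | h | h | h | h | h) | (h | h | h | h | h | h | h | h) <;> omega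
                · refine (k5_card_le v {0, 1, (v : ℕ) - 1} ?_).trans (c3 _ _ _)
                  intro w hw
                  simp only [mem_insert, mem_singleton]
                  have := w.2
                  have := v.2
                  rcases hw with (h | h | h | h | h | h | h | h) | (h | h | h | h | h | h | h | h) <;> omega
            · by_cases h5 : (v : ℕ) = 4
              · refine (k5_card_le v {1, 2, 5} ?_).trans (c3 _ _ _)
                intro w hw
                simp only [mem_insert, mem_singleton]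
                rw [h5] at hw
                rcases hw with (h | h | h | h | h | h | h | h) | (h | h | h | h | h | h | h | h) <;> omega
              · by_cases h6 : (v : ℕ) = 5
                · refine (k5_card_le v {1, 2, 4} ?_).trans (c3 _ _ _)
                  intro w hw
                  simp only [mem_insert, mem_singleton]
                  rw [h6] at hw
                  rcases hw with (h | h | h | h | h | h | h | h) | (h | h | h | h | h | h | h | h) <;> omega
                · by_cases h7 : (v : ℕ) = 6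
                  · refine (k5_card_le v {1, 3, 7} ?_).trans (c3 _ _ _)
                    intro w hw
                    simp only [mem_insert, mem_singleton]
                    rw [h7] at hw
                    rcases hw with (h | h | h | h | h | h | h | h) | (h | h | h | h | h | h | h | h) <;> omega
                  · refine (k5_card_le v {1, 3, 6} ?_).trans (c3 _ _ _)
                    intro w hw
                    simp only [mem_insert, mem_singleton]
                    rcases hw with (h | h | h | h | h | h | h | h) | (h | h | h | h | h | h | h | h) <;> omega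

theorem k5_edges {n : ℕ} (hn : 12 ≤ n) : n ^ 2 + 13 ≤ 2 * (k5_G n).edgeSet.ncard + 6 * n := by
  classical
  have h1 := (k5_G n).sum_degrees_eq_twice_card_edges
  have h2 : (k5_G n).edgeSet.ncard = (k5_G n).edgeFinset.card := by
    rw [Set.ncard_eq_toFinset_card', SimpleGraph.edgeFinset]
  have h3 : ∀ v : Fin n, (k5_G n).degree v + (univ.filter fun w : Fin n => k5_adj n v w).card + 1
      = n := by
    intro v
    have e1 : (k5_G n).neighborFinset v = univ.filter fun w : Fin n => v ≠ w ∧ ¬ k5_adj n v w := by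
      ext w
      simp [k5_G_adj]
    have e2 : (k5_G n).degree v = (univ.filter fun w : Fin n => v ≠ w ∧ ¬ k5_adj n v w).card := by
      rw [← SimpleGraph.card_neighborFinset_eq_degree, e1]
    have e3 : (univ.filter fun w : Fin n => k5_adj n v w).card +
        (univ.filter fun w : Fin n => ¬ k5_adj n v w).card = n := by
      rw [card_filter_add_card_filter_not]
      simp
    have e4 : (univ.filter fun w : Fin n => ¬ k5_adj n v w) =
        insert v (univ.filter fun w : Fin n => v ≠ w ∧ ¬ k5_adj n v w) := by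
      ext w
      simp only [mem_filter, mem_univ, true_and, mem_insert]
      constructor
      · intro h
        by_cases hwv : w = v
        · exact Or.inl hwv
        · exact Or.inr ⟨Ne.symm hwv, h⟩
      · rintro (rfl | h)
        · exact k5_irrefl
        · exact h.2
    rw [e4, card_insert_of_notMem (by simp)] at e3
    omega
  have h4 : ∑ v : Fin n, ((k5_G n).degree v + (univ.filter fun w : Fin n => k5_adj n v w).card + 1)
      = n * n := by
    rw [sum_congr rfl fun v _ => h3 v]
    simp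
  rw [sum_add_distrib, sum_add_distrib, h1] at h4
  have h5 : ∑ v : Fin n, (univ.filter fun w : Fin n => k5_adj n v w).card ≤ 5 * n - 13 := by
    refine (sum_le_sum fun v _ => k5_deg hn v).trans ?_
    have key : ∀ (a c : ℕ), a < n → ∑ v : Fin n, (if (v : ℕ) = a then c else 0) = c := by
      intro a c ha
      rw [sum_eq_single (⟨a, ha⟩ : Fin n)]
      · simp
      · intro b _ hb
        rw [if_neg]
        intro h
        exact hb (Fin.ext h)
      · intro h
        exact absurd (mem_univ _) h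
    simp only [sum_add_distrib]
    rw [key 0 _ (by omega), key 1 _ (by omega), key 2 _ (by omega), key 3 _ (by omega),
      key (n - 2) _ (by omega)]
    simp only [sum_const, card_univ, Fintype.card_fin, smul_eq_mul]
    omega
  simp only [sum_const, card_univ, Fintype.card_fin, smul_eq_mul, mul_one] at h4
  rw [h2]
  have h6 : n ^ 2 = n * n := sq n
  rw [h6]
  omega

theorem k5_mem {n : ℕ} (hn : 12 ≤ n) : ∃ G : SimpleGraph (Fin n),
    G.Connected ∧ Excellent G ∧ IsRoman G 5 ∧ n ^ 2 + 13 ≤ 2 * G.edgeSet.ncard + 6 * n := by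
  refine ⟨k5_G n, k5_conn hn, ?_, ⟨?_, ?_⟩, k5_edges hn⟩
  · intro x
    obtain ⟨f, h1, h2, h3⟩ := k5_rdf hn x.2
    exact ⟨f, h1, fun g hg => h2.le.trans (k5_low hn hg), h3⟩
  · obtain ⟨f, h1, h2, _⟩ := k5_rdf hn (x := 0) (by omega)
    exact ⟨f, h1, h2⟩
  · rintro w ⟨f, h1, rfl⟩
    exact k5_low hn h1

end Pool.Agent.Helper38.RE
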