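import Mathlib
import Pool.Agent.Helper38.RE.Basic

/-! Project RE (MP_cc4a3b_co), piece RE-LemR. -/

set_option autoImplicit false
set_option linter.unusedSectionVars false

namespace Pool.Agent.Helper38.RE

open Finset

variable {V : Type*} [Fintype V] [DecidableEq V]

theorem lemR_ki (R : SimpleGraph V) [DecidableRel R.Adj] {U D X : Finset V} (hDU : D ⊆ U)
    (hU : ∀ v ∈ U, N R v ⊆ U) (h1 : ∀ v ∈ U, 1 ≤ dg R v) (hX : X ⊆ U) :
    ∑ v ∈ X, ((N R v ∩ X).card : ℤ) - (X.card : ℤ) - 2 * ((D ∩ X).card : ℤ) +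
      ∑ y ∈ D \ X, (((N R y ∩ X).card : ℤ) + (dg R y : ℤ) - 3) ≤
      ∑ v ∈ U, ((dg R v : ℤ) - 1) - 2 * (D.card : ℤ) := by
  have ha := acc R hX (fun v hv => hU v (hX hv))
  have ha' : (∑ v ∈ U, (dg R v : ℤ)) =
      ∑ v ∈ U \ X, ((dg R v : ℤ) + ((N R v ∩ X).card : ℤ)) + ∑ v ∈ X, ((N R v ∩ X).card : ℤ) := by
    exact_mod_cast ha
  have hs : D \ X ⊆ U \ X := sdiff_subset_sdiff hDU (le_refl X)
  have e1 := sum_sdiff (f := fun v => (dg R v : ℤ) + ((N R v ∩ X).card : ℤ) - 1) hs
  have e2 : 0 ≤ ∑ v ∈ (U \ X) \ (D \ X), ((dg R v : ℤ) + ((N R v ∩ X).card : ℤ) - 1) := by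
    apply sum_nonneg
    intro v hv
    have := h1 v (mem_sdiff.mp (mem_sdiff.mp hv).1).1
    have h2 : (1 : ℤ) ≤ (dg R v : ℤ) := by exact_mod_cast this
    have h3 : (0 : ℤ) ≤ ((N R v ∩ X).card : ℤ) := Int.natCast_nonneg _
    linarith
  have c1 : ((U \ X).card : ℤ) + X.card = U.card := by
    exact_mod_cast card_sdiff_add_card_eq_card hX
  have c2 : ((D \ X).card : ℤ) + (D ∩ X).card = D.card := by
    have := card_inter_add_card_sdiff D X
    push_cast [← this]
    ring
  have e3 : ∑ v ∈ D \ X, ((dg R v : ℤ) + ((N R v ∩ X).card : ℤ) - 1) =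
      ∑ y ∈ D \ X, (((N R y ∩ X).card : ℤ) + (dg R y : ℤ) - 3) + 2 * ((D \ X).card : ℤ) := by
    rw [mul_comm, ← nsmul_eq_mul, ← sum_const, ← sum_add_distrib]
    refine sum_congr rfl fun v _ => ?_
    ring
  have e4 : ∑ v ∈ U \ X, ((dg R v : ℤ) + ((N R v ∩ X).card : ℤ) - 1) =
      ∑ v ∈ U \ X, ((dg R v : ℤ) + ((N R v ∩ X).card : ℤ)) - ((U \ X).card : ℤ) := by
    rw [sum_sub_distrib]
    simp
  have e5 : ∑ v ∈ U, ((dg R v : ℤ) - 1) = ∑ v ∈ U, (dg R v : ℤ) - (U.card : ℤ) := by
    rw [sum_sub_distrib]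
    simp
  linarith

/-- Case 2: all cheap elements of `D` are in one group. -/
theorem lemR_case2 (R : SimpleGraph V) [DecidableRel R.Adj] {U D : Finset V} (hDU : D ⊆ U)
    (hU : ∀ v ∈ U, N R v ⊆ U) (h1 : ∀ v ∈ U, 1 ≤ dg R v) (h2 : ∀ v ∈ D, 2 ≤ dg R v)
    {ι : Type*} [DecidableEq ι] (grp : V → ι)
    (hc : ∀ u ∈ D, ∀ v ∈ D, grp u ≠ grp v → ∃ x, R.Adj u x ∧ R.Adj v x)
    (h5 : ∀ u ∈ D, 5 ≤ (D.filter fun v => grp v ≠ grp u).card) (g0 : ι)
    (hg : ∀ y ∈ D, dg R y = 2 → grp y = g0) :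
    0 ≤ ∑ v ∈ U, ((dg R v : ℤ) - 1) - 2 * (D.card : ℤ) := by
  classical
  obtain ⟨C, hC⟩ : ∃ C : Finset V, C = D.filter (fun y => dg R y = 2) := ⟨_, rfl⟩
  obtain ⟨Fm, hFm⟩ : ∃ Fm : Finset (Finset V), Fm = C.powerset.filter
      (fun S : Finset V => (S : Set V).PairwiseDisjoint (fun y => N R y)) := ⟨_, rfl⟩
  have hFn : Fm.Nonempty := ⟨∅, by
    rw [hFm, mem_filter]
    simp⟩
  obtain ⟨S, hS, hSm⟩ := exists_max_image Fm card hFn
  rw [hFm, mem_filter, mem_powerset] at hS
  obtain ⟨hSC, hSd⟩ := hS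
  obtain ⟨X, hXd⟩ : ∃ X : Finset V, X = S.biUnion (fun y => N R y) := ⟨_, rfl⟩
  have hSD : ∀ y ∈ S, y ∈ D ∧ dg R y = 2 := by
    intro y hy
    have := hSC hy
    rw [hC, mem_filter] at this
    exact this
  have hXU : X ⊆ U := by
    intro x hx
    rw [hXd, mem_biUnion] at hx
    obtain ⟨y, hy, hxy⟩ := hx
    exact hU y (hDU (hSD y hy).1) hxy
  have hXc : X.card = 2 * S.card := by
    rw [hXd, card_biUnion hSd]
    rw [sum_congr rfl (fun y hy => (hSD y hy).2)]
    simp [mul_comm]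
  have hSX : ∀ y ∈ S, N R y ∩ X = N R y := by
    intro y hy
    rw [inter_eq_left, hXd]
    exact subset_biUnion_of_mem (fun y => N R y) hy
  have hmeet : ∀ y ∈ D, dg R y = 2 → 1 ≤ (N R y ∩ X).card := by
    intro y hy hy2
    by_cases hyS : y ∈ S
    · rw [hSX y hyS]
      change 1 ≤ dg R y
      omega
    · by_contra hcon
      have hemp : N R y ∩ X = ∅ := by
        rw [← card_eq_zero]
        omega
      have hins : insert y S ∈ Fm := by
        rw [hFm, mem_filter, mem_powerset]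
        refine ⟨?_, ?_⟩
        · apply insert_subset _ hSC
          rw [hC, mem_filter]
          exact ⟨hy, hy2⟩
        · rw [coe_insert]
          apply hSd.insert
          intro z hz _
          rw [disjoint_left]
          intro w hw1 hw2
          have hwX : w ∈ X := by
            rw [hXd, mem_biUnion]
            exact ⟨z, hz, hw2⟩
          have : w ∈ N R y ∩ X := mem_inter.mpr ⟨hw1, hwX⟩
          rw [hemp] at this
          exact notMem_empty w this
      have := hSm _ hins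
      rw [card_insert_of_notMem hyS] at this
      omega
  have hki := lemR_ki R hDU hU h1 hXU
  rcases S.eq_empty_or_nonempty with hSe | ⟨y1, hy1⟩
  · -- no cheap element
    have hXe : X = ∅ := by
      rw [hXd, hSe, biUnion_empty]
    have hsum : 0 ≤ ∑ y ∈ D \ X, (((N R y ∩ X).card : ℤ) + (dg R y : ℤ) - 3) := by
      apply sum_nonneg
      intro y hy
      have hyD := (mem_sdiff.mp hy).1
      have h3 : 3 ≤ dg R y := by
        have h4 := h2 y hyD
        by_contra hcon
        have h5 := hmeet y hyD (by omega)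
        rw [hXe, inter_empty, card_empty] at h5
        omega
      have h3' : (3 : ℤ) ≤ (dg R y : ℤ) := by exact_mod_cast h3
      have h4 : (0 : ℤ) ≤ ((N R y ∩ X).card : ℤ) := Int.natCast_nonneg _
      linarith
    have hX0 : X.card = 0 := by rw [hXe, card_empty]
    have hs0 : ∑ v ∈ X, ((N R v ∩ X).card : ℤ) = 0 := by rw [hXe, sum_empty]
    have hd0 : (D ∩ X).card = 0 := by rw [hXe, inter_empty, card_empty]
    rw [hX0, hs0, hd0] at hki
    simp only [Nat.cast_zero, mul_zero, sub_zero, zero_add] at hki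
    linarith
  · have hg1 : grp y1 = g0 := hg y1 (hSD y1 hy1).1 (hSD y1 hy1).2
    obtain ⟨O, hO⟩ : ∃ O : Finset V, O = D.filter (fun v => grp v ≠ g0) := ⟨_, rfl⟩
    have hO5 : 5 ≤ O.card := by
      have := h5 y1 (hSD y1 hy1).1
      rw [hg1] at this
      rw [hO]
      exact this
    have hOD : ∀ v ∈ O, v ∈ D ∧ grp v ≠ g0 := by
      intro v hv
      rw [hO, mem_filter] at hv
      exact hv
    have hOS : Disjoint O S := by
      rw [disjoint_left]
      intro v hv hv2
      exact (hOD v hv).2 (hg v (hSD v hv2).1 (hSD v hv2).2)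
    have hOt : ∀ v ∈ O, S.card ≤ (N R v ∩ X).card := by
      intro v hv
      have e1 : N R v ∩ X = S.biUnion (fun y => N R v ∩ N R y) := by
        rw [hXd]
        ext w
        simp only [mem_inter, mem_biUnion]
        constructor
        · rintro ⟨h, y, hy, hw⟩
          exact ⟨y, hy, h, hw⟩
        · rintro ⟨y, hy, h, hw⟩
          exact ⟨h, y, hy, hw⟩
      rw [e1, card_biUnion]
      · calc S.card = ∑ y ∈ S, 1 := by simp
          _ ≤ ∑ y ∈ S, (N R v ∩ N R y).card := by
            apply sum_le_sum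
            intro y hy
            obtain ⟨x, hx1, hx2⟩ := hc v (hOD v hv).1 y (hSD y hy).1 (by
              rw [hg y (hSD y hy).1 (hSD y hy).2]
              exact (hOD v hv).2)
            rw [Nat.one_le_iff_ne_zero, Ne, card_eq_zero, ← Ne, ← nonempty_iff_ne_empty]
            exact ⟨x, mem_inter.mpr ⟨(mem_N R).mpr hx1, (mem_N R).mpr hx2⟩⟩
      · intro y hy z hz hyz
        have := hSd hy hz hyz
        change Disjoint (N R y) (N R z) at this
        change Disjoint (N R v ∩ N R y) (N R v ∩ N R z)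
        exact disjoint_of_subset_left inter_subset_right
          (disjoint_of_subset_right inter_subset_right this)
    have hO3 : ∀ v ∈ O, 3 ≤ dg R v := by
      intro v hv
      have h4 := h2 v (hOD v hv).1
      by_contra hcon
      exact (hOD v hv).2 (hg v (hOD v hv).1 (by omega))
    -- the sum over X
    have s1 : (S.card : ℤ) * ((O ∩ X).card : ℤ) + 2 * ((S ∩ X).card : ℤ) ≤
        ∑ v ∈ X, ((N R v ∩ X).card : ℤ) := by
      have hsub : (O ∩ X) ∪ (S ∩ X) ⊆ X := union_subset inter_subset_right inter_subset_right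
      have hdis : Disjoint (O ∩ X) (S ∩ X) :=
        disjoint_of_subset_left inter_subset_left (disjoint_of_subset_right inter_subset_left hOS)
      calc (S.card : ℤ) * ((O ∩ X).card : ℤ) + 2 * ((S ∩ X).card : ℤ)
          = ∑ v ∈ O ∩ X, (S.card : ℤ) + ∑ v ∈ S ∩ X, (2 : ℤ) := by
            simp only [sum_const, nsmul_eq_mul]
            ring
        _ ≤ ∑ v ∈ O ∩ X, ((N R v ∩ X).card : ℤ) + ∑ v ∈ S ∩ X, ((N R v ∩ X).card : ℤ) := by
            apply add_le_add
            · apply sum_le_sum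
              intro v hv
              exact_mod_cast hOt v (mem_inter.mp hv).1
            · apply sum_le_sum
              intro v hv
              rw [hSX v (mem_inter.mp hv).1]
              have := (hSD v (mem_inter.mp hv).1).2
              change (2 : ℤ) ≤ (dg R v : ℤ)
              rw [this]
              norm_num
        _ = ∑ v ∈ (O ∩ X) ∪ (S ∩ X), ((N R v ∩ X).card : ℤ) := (sum_union hdis).symm
        _ ≤ ∑ v ∈ X, ((N R v ∩ X).card : ℤ) :=
            sum_le_sum_of_subset_of_nonneg hsub (fun v _ _ => Int.natCast_nonneg _)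
    have s2 : (S.card : ℤ) * ((O \ X).card : ℤ) + ((S \ X).card : ℤ) ≤
        ∑ y ∈ D \ X, (((N R y ∩ X).card : ℤ) + (dg R y : ℤ) - 3) := by
      have hsub : (O \ X) ∪ (S \ X) ⊆ D \ X := by
        apply union_subset
        · exact sdiff_subset_sdiff (fun v hv => (hOD v hv).1) (le_refl X)
        · exact sdiff_subset_sdiff (fun v hv => (hSD v hv).1) (le_refl X)
      have hdis : Disjoint (O \ X) (S \ X) :=
        disjoint_of_subset_left sdiff_subset (disjoint_of_subset_right sdiff_subset hOS)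
      calc (S.card : ℤ) * ((O \ X).card : ℤ) + ((S \ X).card : ℤ)
          = ∑ v ∈ O \ X, (S.card : ℤ) + ∑ v ∈ S \ X, (1 : ℤ) := by
            simp only [sum_const, nsmul_eq_mul]
            ring
        _ ≤ ∑ y ∈ O \ X, (((N R y ∩ X).card : ℤ) + (dg R y : ℤ) - 3) +
              ∑ y ∈ S \ X, (((N R y ∩ X).card : ℤ) + (dg R y : ℤ) - 3) := by
            apply add_le_add
            · apply sum_le_sum
              intro v hv
              have g1 : (S.card : ℤ) ≤ ((N R v ∩ X).card : ℤ) := by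
                exact_mod_cast hOt v (mem_sdiff.mp hv).1
              have g2 : (3 : ℤ) ≤ (dg R v : ℤ) := by exact_mod_cast hO3 v (mem_sdiff.mp hv).1
              linarith
            · apply sum_le_sum
              intro v hv
              rw [hSX v (mem_sdiff.mp hv).1]
              have := (hSD v (mem_sdiff.mp hv).1).2
              change (1 : ℤ) ≤ (dg R v : ℤ) + (dg R v : ℤ) - 3
              rw [this]
              norm_num
        _ = ∑ y ∈ (O \ X) ∪ (S \ X), (((N R y ∩ X).card : ℤ) + (dg R y : ℤ) - 3) :=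
            (sum_union hdis).symm
        _ ≤ _ := by
            apply sum_le_sum_of_subset_of_nonneg hsub
            intro y hy _
            have hyD := (mem_sdiff.mp hy).1
            have g1 := h2 y hyD
            by_cases hy2 : dg R y = 2
            · have g2 := hmeet y hyD hy2
              have g3 : (1 : ℤ) ≤ ((N R y ∩ X).card : ℤ) := by exact_mod_cast g2
              rw [hy2]
              push_cast
              linarith
            · have g2 : 3 ≤ dg R y := by omega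
              have g3 : (3 : ℤ) ≤ (dg R y : ℤ) := by exact_mod_cast g2
              have g4 : (0 : ℤ) ≤ ((N R y ∩ X).card : ℤ) := Int.natCast_nonneg _
              linarith
    have c1 : ((O ∩ X).card : ℤ) + ((O \ X).card : ℤ) = O.card := by
      exact_mod_cast card_inter_add_card_sdiff O X
    have c2 : ((S ∩ X).card : ℤ) + ((S \ X).card : ℤ) = S.card := by
      exact_mod_cast card_inter_add_card_sdiff S X
    have c3 : ((D ∩ X).card : ℤ) ≤ 2 * (S.card : ℤ) := by
      have := card_le_card (inter_subset_right : D ∩ X ⊆ X)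
      rw [hXc] at this
      exact_mod_cast this
    have c4 : (X.card : ℤ) = 2 * (S.card : ℤ) := by exact_mod_cast hXc
    have c5 : (5 : ℤ) ≤ (O.card : ℤ) := by exact_mod_cast hO5
    have c6 : (0 : ℤ) ≤ (S.card : ℤ) := Int.natCast_nonneg _
    have c7 : (0 : ℤ) ≤ ((S ∩ X).card : ℤ) := Int.natCast_nonneg _
    have c8 : (5 : ℤ) * (S.card : ℤ) ≤ (S.card : ℤ) * ((O ∩ X).card : ℤ) +
        (S.card : ℤ) * ((O \ X).card : ℤ) := by
      rw [← mul_add, c1, mul_comm]
      exact mul_le_mul_of_nonneg_left c5 c6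
    linarith

theorem lemR_pair (R : SimpleGraph V) [DecidableRel R.Adj] {y a : V} (hy : dg R y = 2)
    (ha : R.Adj y a) : ∃ b, b ≠ a ∧ N R y = {a, b} ∧ R.Adj y b := by
  obtain ⟨p, q, hpq, he⟩ := card_eq_two.mp hy
  have hpy : R.Adj y p := (mem_N R).mp (by rw [he]; simp)
  have hqy : R.Adj y q := (mem_N R).mp (by rw [he]; simp)
  have haN : a ∈ N R y := (mem_N R).mpr ha
  rw [he, mem_insert, mem_singleton] at haN
  rcases haN with h | h
  · exact ⟨q, by rw [h]; exact hpq.symm, by rw [he, h], hqy⟩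
  · exact ⟨p, by rw [h]; exact hpq, by rw [he, h, pair_comm], hpy⟩

/-- A vertex of `D` with a neighbour in `X`. -/
theorem lemR_one_le (R : SimpleGraph V) [DecidableRel R.Adj] {X : Finset V} {y x : V}
    (hx : x ∈ X) (hyx : R.Adj y x) : 1 ≤ (N R y ∩ X).card := by
  rw [Nat.one_le_iff_ne_zero, Ne, card_eq_zero, ← Ne, ← nonempty_iff_ne_empty]
  exact ⟨x, mem_inter.mpr ⟨(mem_N R).mpr hyx, hx⟩⟩

/-- Case 1a: the two cheap vertices are adjacent. -/
theorem lemR_case1a (R : SimpleGraph V) [DecidableRel R.Adj] {U D : Finset V} (hDU : D ⊆ U)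
    (hU : ∀ v ∈ U, N R v ⊆ U) (h1 : ∀ v ∈ U, 1 ≤ dg R v) (h2 : ∀ v ∈ D, 2 ≤ dg R v)
    {ι : Type*} [DecidableEq ι] (grp : V → ι)
    (hc : ∀ u ∈ D, ∀ v ∈ D, grp u ≠ grp v → ∃ x, R.Adj u x ∧ R.Adj v x)
    {y0 y2 a : V} (hy0 : y0 ∈ D) (hy2 : y2 ∈ D)
    (hne : grp y0 ≠ grp y2) (ha0 : R.Adj y0 a) (ha2 : R.Adj y2 a)
    (hN0 : N R y0 = {a, y2}) (hN2 : N R y2 = {a, y0}) :
    -3 ≤ ∑ v ∈ U, ((dg R v : ℤ) - 1) - 2 * (D.card : ℤ) := by
  have haU : a ∈ U := hU y0 (hDU hy0) ((mem_N R).mpr ha0)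
  have hki := lemR_ki R (X := {a}) hDU hU h1 (by simpa using haU)
  have hadj : ∀ y ∈ D, y ≠ a → R.Adj y a := by
    intro y hy hya
    by_cases hg : grp y = grp y0
    · have hg2 : grp y ≠ grp y2 := fun h => hne (hg.symm.trans h)
      obtain ⟨x, hx1, hx2⟩ := hc y hy y2 hy2 hg2
      have hxN : x ∈ N R y2 := (mem_N R).mpr hx2
      rw [hN2, mem_insert, mem_singleton] at hxN
      rcases hxN with h | h
      · exact h ▸ hx1
      · rw [h] at hx1
        have hyN : y ∈ N R y0 := (mem_N R).mpr hx1.symm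
        rw [hN0, mem_insert, mem_singleton] at hyN
        rcases hyN with h' | h'
        · exact absurd h' hya
        · exact absurd (by rw [h']) hg2
    · obtain ⟨x, hx1, hx2⟩ := hc y hy y0 hy0 hg
      have hxN : x ∈ N R y0 := (mem_N R).mpr hx2
      rw [hN0, mem_insert, mem_singleton] at hxN
      rcases hxN with h | h
      · exact h ▸ hx1
      · rw [h] at hx1
        have hyN : y ∈ N R y2 := (mem_N R).mpr hx1.symm
        rw [hN2, mem_insert, mem_singleton] at hyN
        rcases hyN with h' | h'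
        · exact absurd h' hya
        · exact absurd (by rw [h']) hg
  have e1 : 0 ≤ ∑ v ∈ ({a} : Finset V), ((N R v ∩ {a}).card : ℤ) :=
    sum_nonneg fun v _ => Int.natCast_nonneg _
  have e2 : ((D ∩ {a}).card : ℤ) ≤ 1 := by
    have := card_le_card (inter_subset_right : D ∩ {a} ⊆ {a})
    rw [card_singleton] at this
    exact_mod_cast this
  have e3 : 0 ≤ ∑ y ∈ D \ {a}, (((N R y ∩ {a}).card : ℤ) + (dg R y : ℤ) - 3) := by
    refine sum_nonneg fun y hy => ?_
    rw [mem_sdiff, mem_singleton] at hy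
    have g1 := lemR_one_le R (X := {a}) (mem_singleton_self a) (hadj y hy.1 hy.2)
    have g2 := h2 y hy.1
    omega
  rw [card_singleton] at hki
  push_cast at hki
  linarith

/-- Case 1b: the two cheap vertices are not adjacent. -/
theorem lemR_case1b (R : SimpleGraph V) [DecidableRel R.Adj] {U D : Finset V} (hDU : D ⊆ U)
    (hU : ∀ v ∈ U, N R v ⊆ U) (h1 : ∀ v ∈ U, 1 ≤ dg R v) (h2 : ∀ v ∈ D, 2 ≤ dg R v)
    {ι : Type*} [DecidableEq ι] (grp : V → ι)
    (hc : ∀ u ∈ D, ∀ v ∈ D, grp u ≠ grp v → ∃ x, R.Adj u x ∧ R.Adj v x)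
    {y0 y2 a b b2 : V} (hy0 : y0 ∈ D) (hy2 : y2 ∈ D) (hd0 : dg R y0 = 2) (hd2 : dg R y2 = 2)
    (hne : grp y0 ≠ grp y2) (ha0 : R.Adj y0 a) (ha2 : R.Adj y2 a)
    (hb0 : R.Adj y0 b) (hb2 : R.Adj y2 b2)
    (hN0 : N R y0 = {a, b}) (hN2 : N R y2 = {a, b2}) (hadj : ¬ R.Adj y0 y2) :
    -3 ≤ ∑ v ∈ U, ((dg R v : ℤ) - 1) - 2 * (D.card : ℤ) := by
  have haU : a ∈ U := hU y0 (hDU hy0) ((mem_N R).mpr ha0)
  have hbU : b ∈ U := hU y0 (hDU hy0) ((mem_N R).mpr hb0)
  have hb2U : b2 ∈ U := hU y2 (hDU hy2) ((mem_N R).mpr hb2)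
  obtain ⟨X, hX⟩ : ∃ X : Finset V, X = {a, b, b2} := ⟨_, rfl⟩
  have haX : a ∈ X := by rw [hX]; simp
  have hbX : b ∈ X := by rw [hX]; simp
  have hb2X : b2 ∈ X := by rw [hX]; simp
  have hXU : X ⊆ U := by
    intro x hx
    rw [hX, mem_insert, mem_insert, mem_singleton] at hx
    rcases hx with h | h | h
    · exact h ▸ haU
    · exact h ▸ hbU
    · exact h ▸ hb2U
  have hki := lemR_ki R hDU hU h1 hXU
  have hyne : y0 ≠ y2 := fun h => hne (by rw [h])
  have hy0X : y0 ∉ X := by
    intro hx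
    rw [hX, mem_insert, mem_insert, mem_singleton] at hx
    rcases hx with h | h | h
    · exact ha0.ne h
    · exact hb0.ne h
    · exact hadj (h ▸ hb2.symm)
  have hy2X : y2 ∉ X := by
    intro hx
    rw [hX, mem_insert, mem_insert, mem_singleton] at hx
    rcases hx with h | h | h
    · exact ha2.ne h
    · exact hadj (h ▸ hb0)
    · exact hb2.ne h
  have hmeet : ∀ y ∈ D, 1 ≤ (N R y ∩ X).card := by
    intro y hy
    by_cases hg : grp y = grp y0
    · have hg2 : grp y ≠ grp y2 := fun h => hne (hg.symm.trans h)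
      obtain ⟨x, hx1, hx2⟩ := hc y hy y2 hy2 hg2
      have hxN : x ∈ N R y2 := (mem_N R).mpr hx2
      rw [hN2, mem_insert, mem_singleton] at hxN
      rcases hxN with h | h
      · exact lemR_one_le R haX (h ▸ hx1)
      · exact lemR_one_le R hb2X (h ▸ hx1)
    · obtain ⟨x, hx1, hx2⟩ := hc y hy y0 hy0 hg
      have hxN : x ∈ N R y0 := (mem_N R).mpr hx2
      rw [hN0, mem_insert, mem_singleton] at hxN
      rcases hxN with h | h
      · exact lemR_one_le R haX (h ▸ hx1)
      · exact lemR_one_le R hbX (h ▸ hx1)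
  -- the sum over `X`
  have hS1 : (D ∩ X).card ≤ ∑ v ∈ X, (N R v ∩ X).card := by
    calc (D ∩ X).card = ∑ v ∈ D ∩ X, 1 := by simp
      _ ≤ ∑ v ∈ D ∩ X, (N R v ∩ X).card :=
        sum_le_sum fun v hv => hmeet v (mem_inter.mp hv).1
      _ ≤ ∑ v ∈ X, (N R v ∩ X).card :=
        sum_le_sum_of_subset_of_nonneg inter_subset_right fun v _ _ => Nat.zero_le _
  have hS2 := even_inner R X
  have hXc : X.card ≤ 3 := by rw [hX]; exact card_le_three
  have hDX : (D ∩ X).card ≤ X.card := card_le_card inter_subset_right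
  -- the sum over `D \ X`
  have e4 : (2 : ℤ) ≤ ∑ y ∈ D \ X, (((N R y ∩ X).card : ℤ) + (dg R y : ℤ) - 3) := by
    have hsub : ({y0, y2} : Finset V) ⊆ D \ X := by
      intro y hy
      rw [mem_insert, mem_singleton] at hy
      rcases hy with h | h
      · rw [h]; exact mem_sdiff.mpr ⟨hy0, hy0X⟩
      · rw [h]; exact mem_sdiff.mpr ⟨hy2, hy2X⟩
    calc (2 : ℤ) = ∑ y ∈ ({y0, y2} : Finset V), (1 : ℤ) := by
          rw [sum_pair hyne]; norm_num
      _ ≤ ∑ y ∈ ({y0, y2} : Finset V), (((N R y ∩ X).card : ℤ) + (dg R y : ℤ) - 3) := by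
          refine sum_le_sum fun y hy => ?_
          rw [mem_insert, mem_singleton] at hy
          have hsubN : N R y ⊆ X := by
            rcases hy with h | h
            · rw [h, hN0]
              intro x hx
              rw [mem_insert, mem_singleton] at hx
              rcases hx with h | h
              · rw [h]; exact haX
              · rw [h]; exact hbX
            · rw [h, hN2]
              intro x hx
              rw [mem_insert, mem_singleton] at hx
              rcases hx with h | h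
              · rw [h]; exact haX
              · rw [h]; exact hb2X
          have hdy : dg R y = 2 := by
            rcases hy with h | h
            · rw [h]; exact hd0
            · rw [h]; exact hd2
          rw [inter_eq_left.mpr hsubN]
          change (1 : ℤ) ≤ (dg R y : ℤ) + (dg R y : ℤ) - 3
          rw [hdy]
          norm_num
      _ ≤ _ := by
          refine sum_le_sum_of_subset_of_nonneg hsub fun y hy _ => ?_
          have g1 := hmeet y (mem_sdiff.mp hy).1
          have g2 := h2 y (mem_sdiff.mp hy).1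
          omega
  have e5 : (∑ v ∈ X, ((N R v ∩ X).card : ℤ)) = ((∑ v ∈ X, (N R v ∩ X).card : ℕ) : ℤ) := by
    push_cast; rfl
  rw [e5] at hki
  obtain ⟨k, hk⟩ := hS2
  obtain ⟨s, hs⟩ : ∃ s : ℕ, s = ∑ v ∈ X, (N R v ∩ X).card := ⟨_, rfl⟩
  rw [← hs] at hki hk hS1
  have hfin : (-3 : ℤ) ≤ (s : ℤ) - (X.card : ℤ) - 2 * ((D ∩ X).card : ℤ) + 2 := by omega
  linarith

theorem lemR (R : SimpleGraph V) [DecidableRel R.Adj] {U D : Finset V} (hDU : D ⊆ U)
    (hU : ∀ v ∈ U, N R v ⊆ U) (h1 : ∀ v ∈ U, 1 ≤ dg R v) (h2 : ∀ v ∈ D, 2 ≤ dg R v)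
    {ι : Type*} [DecidableEq ι] (grp : V → ι)
    (hc : ∀ u ∈ D, ∀ v ∈ D, grp u ≠ grp v → ∃ x, R.Adj u x ∧ R.Adj v x)
    (h5 : ∀ u ∈ D, 5 ≤ (D.filter fun v => grp v ≠ grp u).card) :
    -3 ≤ ∑ v ∈ U, ((dg R v : ℤ) - 1) - 2 * (D.card : ℤ) := by
  by_cases hcase : ∃ y0 ∈ D, dg R y0 = 2 ∧ ∃ y2 ∈ D, dg R y2 = 2 ∧ grp y0 ≠ grp y2
  · obtain ⟨y0, hy0, hd0, y2, hy2, hd2, hne⟩ := hcase
    obtain ⟨a, ha0, ha2⟩ := hc y0 hy0 y2 hy2 hne
    obtain ⟨b, hba, hN0, hb0⟩ := lemR_pair R hd0 ha0
    obtain ⟨b2, hb2a, hN2, hb2⟩ := lemR_pair R hd2 ha2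
    by_cases hadj : R.Adj y0 y2
    · have e0 : y2 = b := by
        have : y2 ∈ N R y0 := (mem_N R).mpr hadj
        rw [hN0, mem_insert, mem_singleton] at this
        rcases this with h | h
        · exact absurd h ha2.ne
        · exact h
      have e2 : y0 = b2 := by
        have : y0 ∈ N R y2 := (mem_N R).mpr hadj.symm
        rw [hN2, mem_insert, mem_singleton] at this
        rcases this with h | h
        · exact absurd h ha0.ne
        · exact h
      rw [← e0] at hN0
      rw [← e2] at hN2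
      exact lemR_case1a R hDU hU h1 h2 grp hc hy0 hy2 hne ha0 ha2 hN0 hN2
    · exact lemR_case1b R hDU hU h1 h2 grp hc hy0 hy2 hd0 hd2 hne ha0 ha2 hb0 hb2 hN0 hN2 hadj
  · by_cases hex : ∃ y0 ∈ D, dg R y0 = 2
    · obtain ⟨y0, hy0, hd0⟩ := hex
      have := lemR_case2 R hDU hU h1 h2 grp hc h5 (grp y0) (by
        intro y hy hyd
        by_contra hcon
        exact hcase ⟨y, hy, hyd, y0, hy0, hd0, hcon⟩)
      linarith
    · by_cases hD : D.Nonempty
      · obtain ⟨z, hz⟩ := hD
        have := lemR_case2 R hDU hU h1 h2 grp hc h5 (grp z) (by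
          intro y hy hyd
          exact absurd ⟨y, hy, hyd⟩ hex)
        linarith
      · rw [not_nonempty_iff_eq_empty] at hD
        rw [hD, card_empty]
        have : 0 ≤ ∑ v ∈ U, ((dg R v : ℤ) - 1) := by
          apply sum_nonneg
          intro v hv
          have g1 := h1 v hv
          have g2 : (1 : ℤ) ≤ (dg R v : ℤ) := by exact_mod_cast g1
          linarith
        push_cast
        linarith

end Pool.Agent.Helper38.RE
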