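import Mathlib
import Pool.Agent.Helper38.RE.Basic

/-! Project RE (MP_cc4a3b_co), piece RE-LemR2. -/

set_option autoImplicit false
set_option linter.unusedSectionVars false

namespace Pool.Agent.Helper38.RE

open Finset

variable {V : Type*} [Fintype V] [DecidableEq V]

private theorem r2_ki (R : SimpleGraph V) [DecidableRel R.Adj] {U D X : Finset V} (hDU : D ⊆ U)
    (hU : ∀ v ∈ U, N R v ⊆ U) (h1 : ∀ v ∈ U, 1 ≤ dg R v) (hX : X ⊆ U) :
    ∑ v ∈ X, ((N R v ∩ X).card : ℤ) - (X.card : ℤ) - 2 * ((D ∩ X).card : ℤ) +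
      ∑ y ∈ D \ X, (((N R y ∩ X).card : ℤ) + (dg R y : ℤ) - 3) ≤
      ∑ v ∈ U, ((dg R v : ℤ) - 1) - 2 * (D.card : ℤ) := by
  have ha := acc R hX (fun v hv => hU v (hX hv))
  have ha' : (∑ v ∈ U, (dg R v : ℤ)) =
      ∑ v ∈ U \ X, ((dg R v : ℤ) + ((N R v ∩ X).card : ℤ)) + ∑ v ∈ X, ((N R v ∩ X).card : ℤ) := by
    exact_mod_cast ha
  have hs : D \ X ⊆ U \ X := sdiff_subset_sdiff hDU (le_refl X)
  have e1 := sum_sdiff (f := fun v => (dg R v : ℤ) + ((N R v ∩ X).card : ℤ) - 1) hs
  have e2 : 0 ≤ ∑ v ∈ (U \ X) \ (D \ X), ((dg R v : ℤ) + ((N R v ∩ X).card : ℤ) - 1) := by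
    apply sum_nonneg
    intro v hv
    have := h1 v (mem_sdiff.mp (mem_sdiff.mp hv).1).1
    have h2 : (1 : ℤ) ≤ (dg R v : ℤ) := by exact_mod_cast this
    have h3 : (0 : ℤ) ≤ ((N R v ∩ X).card : ℤ) := Int.natCast_nonneg _
    linarith
  have c1 : ((U \ X).card : ℤ) + X.card = U.card := by
    exact_mod_cast card_sdiff_add_card_eq_card hX
  have c2 : ((D \ X).card : ℤ) + (D ∩ X).card = D.card := by
    have := card_inter_add_card_sdiff D X
    push_cast [← this]
    ring
  have e3 : ∑ v ∈ D \ X, ((dg R v : ℤ) + ((N R v ∩ X).card : ℤ) - 1) =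
      ∑ y ∈ D \ X, (((N R y ∩ X).card : ℤ) + (dg R y : ℤ) - 3) + 2 * ((D \ X).card : ℤ) := by
    rw [mul_comm, ← nsmul_eq_mul, ← sum_const, ← sum_add_distrib]
    refine sum_congr rfl fun v _ => ?_
    ring
  have e4 : ∑ v ∈ U \ X, ((dg R v : ℤ) + ((N R v ∩ X).card : ℤ) - 1) =
      ∑ v ∈ U \ X, ((dg R v : ℤ) + ((N R v ∩ X).card : ℤ)) - ((U \ X).card : ℤ) := by
    rw [sum_sub_distrib]
    simp
  have e5 : ∑ v ∈ U, ((dg R v : ℤ) - 1) = ∑ v ∈ U, (dg R v : ℤ) - (U.card : ℤ) := by
    rw [sum_sub_distrib]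
    simp
  linarith

/-- Case 2: all cheap elements of `D` are in one group. -/
private theorem r2_case2 (R : SimpleGraph V) [DecidableRel R.Adj] {U D : Finset V} (hDU : D ⊆ U)
    (hU : ∀ v ∈ U, N R v ⊆ U) (h1 : ∀ v ∈ U, 1 ≤ dg R v) (h2 : ∀ v ∈ D, 2 ≤ dg R v)
    {ι : Type*} [DecidableEq ι] (grp : V → ι)
    (hc : ∀ u ∈ D, ∀ v ∈ D, grp u ≠ grp v → ∃ x, R.Adj u x ∧ R.Adj v x)
    (h5 : ∀ u ∈ D, 5 ≤ (D.filter fun v => grp v ≠ grp u).card) (g0 : ι)
    (hg : ∀ y ∈ D, dg R y = 2 → grp y = g0) :
    0 ≤ ∑ v ∈ U, ((dg R v : ℤ) - 1) - 2 * (D.card : ℤ) := by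
  classical
  obtain ⟨C, hC⟩ : ∃ C : Finset V, C = D.filter (fun y => dg R y = 2) := ⟨_, rfl⟩
  obtain ⟨Fm, hFm⟩ : ∃ Fm : Finset (Finset V), Fm = C.powerset.filter
      (fun S : Finset V => (S : Set V).PairwiseDisjoint (fun y => N R y)) := ⟨_, rfl⟩
  have hFn : Fm.Nonempty := ⟨∅, by
    rw [hFm, mem_filter]
    simp⟩
  obtain ⟨S, hS, hSm⟩ := exists_max_image Fm card hFn
  rw [hFm, mem_filter, mem_powerset] at hS
  obtain ⟨hSC, hSd⟩ := hS
  obtain ⟨X, hXd⟩ : ∃ X : Finset V, X = S.biUnion (fun y => N R y) := ⟨_, rfl⟩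
  have hSD : ∀ y ∈ S, y ∈ D ∧ dg R y = 2 := by
    intro y hy
    have := hSC hy
    rw [hC, mem_filter] at this
    exact this
  have hXU : X ⊆ U := by
    intro x hx
    rw [hXd, mem_biUnion] at hx
    obtain ⟨y, hy, hxy⟩ := hx
    exact hU y (hDU (hSD y hy).1) hxy
  have hXc : X.card = 2 * S.card := by
    rw [hXd, card_biUnion hSd]
    rw [sum_congr rfl (fun y hy => (hSD y hy).2)]
    simp [mul_comm]
  have hSX : ∀ y ∈ S, N R y ∩ X = N R y := by
    intro y hy
    rw [inter_eq_left, hXd]
    exact subset_biUnion_of_mem (fun y => N R y) hy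
  have hmeet : ∀ y ∈ D, dg R y = 2 → 1 ≤ (N R y ∩ X).card := by
    intro y hy hy2
    by_cases hyS : y ∈ S
    · rw [hSX y hyS]
      change 1 ≤ dg R y
      omega
    · by_contra hcon
      have hemp : N R y ∩ X = ∅ := by
        rw [← card_eq_zero]
        omega
      have hins : insert y S ∈ Fm := by
        rw [hFm, mem_filter, mem_powerset]
        refine ⟨?_, ?_⟩
        · apply insert_subset _ hSC
          rw [hC, mem_filter]
          exact ⟨hy, hy2⟩
        · rw [coe_insert]
          apply hSd.insert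
          intro z hz _
          rw [disjoint_left]
          intro w hw1 hw2
          have hwX : w ∈ X := by
            rw [hXd, mem_biUnion]
            exact ⟨z, hz, hw2⟩
          have : w ∈ N R y ∩ X := mem_inter.mpr ⟨hw1, hwX⟩
          rw [hemp] at this
          exact notMem_empty w this
      have := hSm _ hins
      rw [card_insert_of_notMem hyS] at this
      omega
  have hki := r2_ki R hDU hU h1 hXU
  rcases S.eq_empty_or_nonempty with hSe | ⟨y1, hy1⟩
  · -- no cheap element
    have hXe : X = ∅ := by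
      rw [hXd, hSe, biUnion_empty]
    have hsum : 0 ≤ ∑ y ∈ D \ X, (((N R y ∩ X).card : ℤ) + (dg R y : ℤ) - 3) := by
      apply sum_nonneg
      intro y hy
      have hyD := (mem_sdiff.mp hy).1
      have h3 : 3 ≤ dg R y := by
        have h4 := h2 y hyD
        by_contra hcon
        have h5 := hmeet y hyD (by omega)
        rw [hXe, inter_empty, card_empty] at h5
        omega
      have h3' : (3 : ℤ) ≤ (dg R y : ℤ) := by exact_mod_cast h3
      have h4 : (0 : ℤ) ≤ ((N R y ∩ X).card : ℤ) := Int.natCast_nonneg _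
      linarith
    have hX0 : X.card = 0 := by rw [hXe, card_empty]
    have hs0 : ∑ v ∈ X, ((N R v ∩ X).card : ℤ) = 0 := by rw [hXe, sum_empty]
    have hd0 : (D ∩ X).card = 0 := by rw [hXe, inter_empty, card_empty]
    rw [hX0, hs0, hd0] at hki
    simp only [Nat.cast_zero, mul_zero, sub_zero, zero_add] at hki
    linarith
  · have hg1 : grp y1 = g0 := hg y1 (hSD y1 hy1).1 (hSD y1 hy1).2
    obtain ⟨O, hO⟩ : ∃ O : Finset V, O = D.filter (fun v => grp v ≠ g0) := ⟨_, rfl⟩
    have hO5 : 5 ≤ O.card := by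
      have := h5 y1 (hSD y1 hy1).1
      rw [hg1] at this
      rw [hO]
      exact this
    have hOD : ∀ v ∈ O, v ∈ D ∧ grp v ≠ g0 := by
      intro v hv
      rw [hO, mem_filter] at hv
      exact hv
    have hOS : Disjoint O S := by
      rw [disjoint_left]
      intro v hv hv2
      exact (hOD v hv).2 (hg v (hSD v hv2).1 (hSD v hv2).2)
    have hOt : ∀ v ∈ O, S.card ≤ (N R v ∩ X).card := by
      intro v hv
      have e1 : N R v ∩ X = S.biUnion (fun y => N R v ∩ N R y) := by
        rw [hXd]
        ext w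
        simp only [mem_inter, mem_biUnion]
        constructor
        · rintro ⟨h, y, hy, hw⟩
          exact ⟨y, hy, h, hw⟩
        · rintro ⟨y, hy, h, hw⟩
          exact ⟨h, y, hy, hw⟩
      rw [e1, card_biUnion]
      · calc S.card = ∑ y ∈ S, 1 := by simp
          _ ≤ ∑ y ∈ S, (N R v ∩ N R y).card := by
            apply sum_le_sum
            intro y hy
            obtain ⟨x, hx1, hx2⟩ := hc v (hOD v hv).1 y (hSD y hy).1 (by
              rw [hg y (hSD y hy).1 (hSD y hy).2]
              exact (hOD v hv).2)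
            rw [Nat.one_le_iff_ne_zero, Ne, card_eq_zero, ← Ne, ← nonempty_iff_ne_empty]
            exact ⟨x, mem_inter.mpr ⟨(mem_N R).mpr hx1, (mem_N R).mpr hx2⟩⟩
      · intro y hy z hz hyz
        have := hSd hy hz hyz
        change Disjoint (N R y) (N R z) at this
        change Disjoint (N R v ∩ N R y) (N R v ∩ N R z)
        exact disjoint_of_subset_left inter_subset_right
          (disjoint_of_subset_right inter_subset_right this)
    have hO3 : ∀ v ∈ O, 3 ≤ dg R v := by
      intro v hv
      have h4 := h2 v (hOD v hv).1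
      by_contra hcon
      exact (hOD v hv).2 (hg v (hOD v hv).1 (by omega))
    -- the sum over X
    have s1 : (S.card : ℤ) * ((O ∩ X).card : ℤ) + 2 * ((S ∩ X).card : ℤ) ≤
        ∑ v ∈ X, ((N R v ∩ X).card : ℤ) := by
      have hsub : (O ∩ X) ∪ (S ∩ X) ⊆ X := union_subset inter_subset_right inter_subset_right
      have hdis : Disjoint (O ∩ X) (S ∩ X) :=
        disjoint_of_subset_left inter_subset_left (disjoint_of_subset_right inter_subset_left hOS)
      calc (S.card : ℤ) * ((O ∩ X).card : ℤ) + 2 * ((S ∩ X).card : ℤ)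
          = ∑ v ∈ O ∩ X, (S.card : ℤ) + ∑ v ∈ S ∩ X, (2 : ℤ) := by
            simp only [sum_const, nsmul_eq_mul]
            ring
        _ ≤ ∑ v ∈ O ∩ X, ((N R v ∩ X).card : ℤ) + ∑ v ∈ S ∩ X, ((N R v ∩ X).card : ℤ) := by
            apply add_le_add
            · apply sum_le_sum
              intro v hv
              exact_mod_cast hOt v (mem_inter.mp hv).1
            · apply sum_le_sum
              intro v hv
              rw [hSX v (mem_inter.mp hv).1]
              have := (hSD v (mem_inter.mp hv).1).2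
              change (2 : ℤ) ≤ (dg R v : ℤ)
              rw [this]
              norm_num
        _ = ∑ v ∈ (O ∩ X) ∪ (S ∩ X), ((N R v ∩ X).card : ℤ) := (sum_union hdis).symm
        _ ≤ ∑ v ∈ X, ((N R v ∩ X).card : ℤ) :=
            sum_le_sum_of_subset_of_nonneg hsub (fun v _ _ => Int.natCast_nonneg _)
    have s2 : (S.card : ℤ) * ((O \ X).card : ℤ) + ((S \ X).card : ℤ) ≤
        ∑ y ∈ D \ X, (((N R y ∩ X).card : ℤ) + (dg R y : ℤ) - 3) := by
      have hsub : (O \ X) ∪ (S \ X) ⊆ D \ X := by
        apply union_subset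
        · exact sdiff_subset_sdiff (fun v hv => (hOD v hv).1) (le_refl X)
        · exact sdiff_subset_sdiff (fun v hv => (hSD v hv).1) (le_refl X)
      have hdis : Disjoint (O \ X) (S \ X) :=
        disjoint_of_subset_left sdiff_subset (disjoint_of_subset_right sdiff_subset hOS)
      calc (S.card : ℤ) * ((O \ X).card : ℤ) + ((S \ X).card : ℤ)
          = ∑ v ∈ O \ X, (S.card : ℤ) + ∑ v ∈ S \ X, (1 : ℤ) := by
            simp only [sum_const, nsmul_eq_mul]
            ring
        _ ≤ ∑ y ∈ O \ X, (((N R y ∩ X).card : ℤ) + (dg R y : ℤ) - 3) +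
              ∑ y ∈ S \ X, (((N R y ∩ X).card : ℤ) + (dg R y : ℤ) - 3) := by
            apply add_le_add
            · apply sum_le_sum
              intro v hv
              have g1 : (S.card : ℤ) ≤ ((N R v ∩ X).card : ℤ) := by
                exact_mod_cast hOt v (mem_sdiff.mp hv).1
              have g2 : (3 : ℤ) ≤ (dg R v : ℤ) := by exact_mod_cast hO3 v (mem_sdiff.mp hv).1
              linarith
            · apply sum_le_sum
              intro v hv
              rw [hSX v (mem_sdiff.mp hv).1]
              have := (hSD v (mem_sdiff.mp hv).1).2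
              change (1 : ℤ) ≤ (dg R v : ℤ) + (dg R v : ℤ) - 3
              rw [this]
              norm_num
        _ = ∑ y ∈ (O \ X) ∪ (S \ X), (((N R y ∩ X).card : ℤ) + (dg R y : ℤ) - 3) :=
            (sum_union hdis).symm
        _ ≤ _ := by
            apply sum_le_sum_of_subset_of_nonneg hsub
            intro y hy _
            have hyD := (mem_sdiff.mp hy).1
            have g1 := h2 y hyD
            by_cases hy2 : dg R y = 2
            · have g2 := hmeet y hyD hy2
              have g3 : (1 : ℤ) ≤ ((N R y ∩ X).card : ℤ) := by exact_mod_cast g2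
              rw [hy2]
              push_cast
              linarith
            · have g2 : 3 ≤ dg R y := by omega
              have g3 : (3 : ℤ) ≤ (dg R y : ℤ) := by exact_mod_cast g2
              have g4 : (0 : ℤ) ≤ ((N R y ∩ X).card : ℤ) := Int.natCast_nonneg _
              linarith
    have c1 : ((O ∩ X).card : ℤ) + ((O \ X).card : ℤ) = O.card := by
      exact_mod_cast card_inter_add_card_sdiff O X
    have c2 : ((S ∩ X).card : ℤ) + ((S \ X).card : ℤ) = S.card := by
      exact_mod_cast card_inter_add_card_sdiff S X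
    have c3 : ((D ∩ X).card : ℤ) ≤ 2 * (S.card : ℤ) := by
      have := card_le_card (inter_subset_right : D ∩ X ⊆ X)
      rw [hXc] at this
      exact_mod_cast this
    have c4 : (X.card : ℤ) = 2 * (S.card : ℤ) := by exact_mod_cast hXc
    have c5 : (5 : ℤ) ≤ (O.card : ℤ) := by exact_mod_cast hO5
    have c6 : (0 : ℤ) ≤ (S.card : ℤ) := Int.natCast_nonneg _
    have c7 : (0 : ℤ) ≤ ((S ∩ X).card : ℤ) := Int.natCast_nonneg _
    have c8 : (5 : ℤ) * (S.card : ℤ) ≤ (S.card : ℤ) * ((O ∩ X).card : ℤ) +
        (S.card : ℤ) * ((O \ X).card : ℤ) := by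
      rw [← mul_add, c1, mul_comm]
      exact mul_le_mul_of_nonneg_left c5 c6
    linarith

/-- Case 1, general bound. -/
private theorem r2_gen (R : SimpleGraph V) [DecidableRel R.Adj] {U D X P : Finset V} (hDU : D ⊆ U)
    (hU : ∀ v ∈ U, N R v ⊆ U) (h1 : ∀ v ∈ U, 1 ≤ dg R v) (h2 : ∀ v ∈ D, 2 ≤ dg R v)
    (hX : X ⊆ U) (hDX : Disjoint D X)
    (hm : ∀ y ∈ D, dg R y = 2 → ∃ x ∈ X, R.Adj y x)
    (hP : P ⊆ D) (hPX : ∀ y ∈ P, N R y ⊆ X) :
    (P.card : ℤ) - (X.card : ℤ) ≤ ∑ v ∈ U, ((dg R v : ℤ) - 1) - 2 * (D.card : ℤ) := by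
  have hki := r2_ki R hDU hU h1 hX
  have e1 : D ∩ X = ∅ := disjoint_iff_inter_eq_empty.mp hDX
  have e2 : D \ X = D := sdiff_eq_self_of_disjoint hDX
  rw [e1, e2, card_empty] at hki
  have e3 : 0 ≤ ∑ v ∈ X, ((N R v ∩ X).card : ℤ) := sum_nonneg fun v _ => Int.natCast_nonneg _
  have e4 : (P.card : ℤ) ≤ ∑ y ∈ D, (((N R y ∩ X).card : ℤ) + (dg R y : ℤ) - 3) := by
    calc (P.card : ℤ) = ∑ y ∈ P, (1 : ℤ) := by simp
      _ ≤ ∑ y ∈ P, (((N R y ∩ X).card : ℤ) + (dg R y : ℤ) - 3) := by
          apply sum_le_sum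
          intro y hy
          rw [inter_eq_left.mpr (hPX y hy)]
          have g1 := h2 y (hP hy)
          have g2 : (2 : ℤ) ≤ (dg R y : ℤ) := by exact_mod_cast g1
          change (1 : ℤ) ≤ (dg R y : ℤ) + (dg R y : ℤ) - 3
          linarith
      _ ≤ _ := by
          apply sum_le_sum_of_subset_of_nonneg hP
          intro y hy _
          have g1 := h2 y hy
          by_cases hy2 : dg R y = 2
          · obtain ⟨x, hx, hxy⟩ := hm y hy hy2
            have g2 : 1 ≤ (N R y ∩ X).card := by
              rw [Nat.one_le_iff_ne_zero, Ne, card_eq_zero, ← Ne, ← nonempty_iff_ne_empty]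
              exact ⟨x, mem_inter.mpr ⟨(mem_N R).mpr hxy, hx⟩⟩
            have g3 : (1 : ℤ) ≤ ((N R y ∩ X).card : ℤ) := by exact_mod_cast g2
            rw [hy2]
            push_cast
            linarith
          · have g2 : 3 ≤ dg R y := by omega
            have g3 : (3 : ℤ) ≤ (dg R y : ℤ) := by exact_mod_cast g2
            have g4 : (0 : ℤ) ≤ ((N R y ∩ X).card : ℤ) := Int.natCast_nonneg _
            linarith
  simp only [Nat.cast_zero, mul_zero, sub_zero] at hki
  linarith

private theorem r2_pair (R : SimpleGraph V) [DecidableRel R.Adj] {y a : V} (hy : dg R y = 2)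
    (ha : R.Adj y a) : ∃ b, b ≠ a ∧ N R y = {a, b} ∧ R.Adj y b := by
  obtain ⟨p, q, hpq, he⟩ := card_eq_two.mp hy
  have hpy : R.Adj y p := (mem_N R).mp (by rw [he]; simp)
  have hqy : R.Adj y q := (mem_N R).mp (by rw [he]; simp)
  have haN : a ∈ N R y := (mem_N R).mpr ha
  rw [he, mem_insert, mem_singleton] at haN
  rcases haN with h | h
  · exact ⟨q, by rw [h]; exact hpq.symm, by rw [he, h], hqy⟩
  · exact ⟨p, by rw [h]; exact hpq, by rw [he, h, pair_comm], hpy⟩

theorem lemR' (R : SimpleGraph V) [DecidableRel R.Adj] {U D : Finset V} (hDU : D ⊆ U)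
    (hU : ∀ v ∈ U, N R v ⊆ U) (h1 : ∀ v ∈ U, 1 ≤ dg R v) (h2 : ∀ v ∈ D, 2 ≤ dg R v)
    {ι : Type*} [DecidableEq ι] (grp : V → ι)
    (hc : ∀ u ∈ D, ∀ v ∈ D, grp u ≠ grp v → ∃ x, R.Adj u x ∧ R.Adj v x)
    (h5 : ∀ u ∈ D, 5 ≤ (D.filter fun v => grp v ≠ grp u).card)
    (hs : ∀ u ∈ D, dg R u = 2 → ∀ v ∈ D, R.Adj u v → grp v = grp u) :
    -1 ≤ ∑ v ∈ U, ((dg R v : ℤ) - 1) - 2 * (D.card : ℤ) := by
  by_cases hcase : ∃ y0 ∈ D, dg R y0 = 2 ∧ ∃ y2 ∈ D, dg R y2 = 2 ∧ grp y0 ≠ grp y2
  · obtain ⟨y0, hy0, hd0, y2, hy2, hd2, hne⟩ := hcase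
    obtain ⟨a, ha0, ha2⟩ := hc y0 hy0 y2 hy2 hne
    have haD : a ∉ D := fun h => hne ((hs y0 hy0 hd0 a h ha0).symm.trans (hs y2 hy2 hd2 a h ha2))
    obtain ⟨b, hba, hN0, hb0⟩ := r2_pair R hd0 ha0
    obtain ⟨b2, hb2a, hN2, hb2⟩ := r2_pair R hd2 ha2
    have hyne : y0 ≠ y2 := fun h => hne (by rw [h])
    have haU : a ∈ U := hU y0 (hDU hy0) ((mem_N R).mpr ha0)
    have hbU : b ∈ U := hU y0 (hDU hy0) ((mem_N R).mpr hb0)
    have hb2U : b2 ∈ U := hU y2 (hDU hy2) ((mem_N R).mpr hb2)
    -- the general argument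
    have key : ∀ X : Finset V, a ∈ X → (b ∉ D → b ∈ X) → (b2 ∉ D → b2 ∈ X) →
        ∀ y ∈ D, dg R y = 2 → ∃ x ∈ X, R.Adj y x := by
      intro X haX hbX hb2X y hy hyd
      by_cases hg : grp y = grp y0
      · have hg2 : grp y ≠ grp y2 := fun h => hne (hg.symm.trans h)
        obtain ⟨x, hx1, hx2⟩ := hc y hy y2 hy2 hg2
        have hxN : x ∈ N R y2 := (mem_N R).mpr hx2
        rw [hN2, mem_insert, mem_singleton] at hxN
        rcases hxN with h | h
        · exact ⟨a, haX, h ▸ hx1⟩
        · by_cases hbD : b2 ∈ D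
          · exfalso
            rw [h] at hx1 hx2
            exact hg2 ((hs y hy hyd b2 hbD hx1).symm.trans (hs y2 hy2 hd2 b2 hbD hx2))
          · exact ⟨b2, hb2X hbD, h ▸ hx1⟩
      · obtain ⟨x, hx1, hx2⟩ := hc y hy y0 hy0 hg
        have hxN : x ∈ N R y0 := (mem_N R).mpr hx2
        rw [hN0, mem_insert, mem_singleton] at hxN
        rcases hxN with h | h
        · exact ⟨a, haX, h ▸ hx1⟩
        · by_cases hbD : b ∈ D
          · exfalso
            rw [h] at hx1 hx2
            exact hg ((hs y hy hyd b hbD hx1).symm.trans (hs y0 hy0 hd0 b hbD hx2))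
          · exact ⟨b, hbX hbD, h ▸ hx1⟩
    by_cases hbD : b ∈ D <;> by_cases hb2D : b2 ∈ D
    · -- both in D
      have h := r2_gen R (X := {a}) (P := ∅) hDU hU h1 h2 (by simpa using haU) (by simpa using haD)
        (key {a} (by simp) (fun h => absurd hbD h) (fun h => absurd hb2D h)) (empty_subset _)
        (by simp)
      simp only [card_empty, card_singleton, Nat.cast_zero, Nat.cast_one] at h
      linarith
    · have h := r2_gen R (X := {a, b2}) (P := {y2}) hDU hU h1 h2
        (by
          intro x hx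
          rw [mem_insert, mem_singleton] at hx
          rcases hx with h | h
          · exact h ▸ haU
          · exact h ▸ hb2U)
        (by
          rw [disjoint_right]
          intro x hx
          rw [mem_insert, mem_singleton] at hx
          rcases hx with h | h
          · exact h ▸ haD
          · exact h ▸ hb2D)
        (key {a, b2} (by simp) (fun h => absurd hbD h) (fun _ => by simp))
        (by simpa using hy2)
        (by
          intro y hy
          rw [mem_singleton] at hy
          rw [hy, hN2])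
      rw [card_pair (fun h => hb2a h.symm), card_singleton] at h
      push_cast at h
      linarith
    · have h := r2_gen R (X := {a, b}) (P := {y0}) hDU hU h1 h2
        (by
          intro x hx
          rw [mem_insert, mem_singleton] at hx
          rcases hx with h | h
          · exact h ▸ haU
          · exact h ▸ hbU)
        (by
          rw [disjoint_right]
          intro x hx
          rw [mem_insert, mem_singleton] at hx
          rcases hx with h | h
          · exact h ▸ haD
          · exact h ▸ hbD)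
        (key {a, b} (by simp) (fun _ => by simp) (fun h => absurd hb2D h))
        (by simpa using hy0)
        (by
          intro y hy
          rw [mem_singleton] at hy
          rw [hy, hN0])
      rw [card_pair (fun h => hba h.symm), card_singleton] at h
      push_cast at h
      linarith
    · have h := r2_gen R (X := {a, b, b2}) (P := {y0, y2}) hDU hU h1 h2
        (by
          intro x hx
          rw [mem_insert, mem_insert, mem_singleton] at hx
          rcases hx with h | h | h
          · exact h ▸ haU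
          · exact h ▸ hbU
          · exact h ▸ hb2U)
        (by
          rw [disjoint_right]
          intro x hx
          rw [mem_insert, mem_insert, mem_singleton] at hx
          rcases hx with h | h | h
          · exact h ▸ haD
          · exact h ▸ hbD
          · exact h ▸ hb2D)
        (key {a, b, b2} (by simp) (fun _ => by simp) (fun _ => by simp))
        (by
          intro y hy
          rw [mem_insert, mem_singleton] at hy
          rcases hy with h | h
          · exact h ▸ hy0
          · exact h ▸ hy2)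
        (by
          intro y hy
          rw [mem_insert, mem_singleton] at hy
          rcases hy with h | h
          · rw [h, hN0]
            intro x hx
            rw [mem_insert, mem_singleton] at hx
            rcases hx with h | h
            · rw [h]; simp
            · rw [h]; simp
          · rw [h, hN2]
            intro x hx
            rw [mem_insert, mem_singleton] at hx
            rcases hx with h | h
            · rw [h]; simp
            · rw [h]; simp)
      have hc3 : ({a, b, b2} : Finset V).card ≤ 3 := card_le_three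
      have hc3' : ((({a, b, b2} : Finset V).card : ℕ) : ℤ) ≤ 3 := by exact_mod_cast hc3
      rw [card_pair hyne] at h
      push_cast at h
      linarith
  · -- Case 2
    by_cases hex : ∃ y0 ∈ D, dg R y0 = 2
    · obtain ⟨y0, hy0, hd0⟩ := hex
      have := r2_case2 R hDU hU h1 h2 grp hc h5 (grp y0) (by
        intro y hy hyd
        by_contra hcon
        exact hcase ⟨y, hy, hyd, y0, hy0, hd0, hcon⟩)
      linarith
    · by_cases hD : D.Nonempty
      · obtain ⟨z, hz⟩ := hD
        have := r2_case2 R hDU hU h1 h2 grp hc h5 (grp z) (by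
          intro y hy hyd
          exact absurd ⟨y, hy, hyd⟩ hex)
        linarith
      · rw [not_nonempty_iff_eq_empty] at hD
        rw [hD, card_empty]
        have : 0 ≤ ∑ v ∈ U, ((dg R v : ℤ) - 1) := by
          apply sum_nonneg
          intro v hv
          have g1 := h1 v hv
          have g2 : (1 : ℤ) ≤ (dg R v : ℤ) := by exact_mod_cast g1
          linarith
        push_cast
        linarith

end Pool.Agent.Helper38.RE
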