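import Pool.Agent.Helper38.RE.T2a
import Pool.Agent.Helper38.RE.LemR
import Pool.Agent.Helper38.RE.LemR2

/-! Project RE (MP_cc4a3b_co), piece R1: if a set `Y` of `j + 1` vertices is almost completely
joined to the rest, the degree sum is large. -/

set_option autoImplicit false
set_option linter.unusedSectionVars false

namespace Pool.Agent.Helper38.RE

open Finset

variable {V : Type*} [Fintype V] [DecidableEq V]

theorem r1 (H : SimpleGraph V) [DecidableRel H.Adj] {j : ℕ} (hj : 10 ≤ j) (hH : Hyp H j)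
    {Y : Finset V} (hY : Y.card = j + 1)
    (hD : 2 * (j + 1) * (bad H Y).card + (2 * j + 3) * (j + 1) + (j + 1) + 3
      ≤ Fintype.card V) : Good H j := by
  by_contra hbad
  have hbad' := hbad
  rw [Good, not_le, sum_dg H Y, hY] at hbad
  have hcard : (((Yᶜ).card : ℤ)) = Fintype.card V - (j + 1) := by
    rw [card_compl_int, hY]; push_cast; ring
  have hU := N_del_sub_U H Y
  obtain ⟨b, hb⟩ : ∃ b : ℕ, ∑ v ∈ bad H Y, (miss H Y v).card = b := ⟨_, rfl⟩
  obtain ⟨g, hgam⟩ : ∃ g : ℕ, ∑ s ∈ Y, (miss H Y s).card = g := ⟨_, rfl⟩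
  obtain ⟨r, hr⟩ : ∃ r : ℕ, ∑ v ∈ Yᶜ, dg (del H Y) v = r := ⟨_, rfl⟩
  have hsplit : ∑ v ∈ Yᶜ, ((miss H Y v).card : ℤ) = (b : ℤ) := by
    rw [← hb, ← sum_miss_bad]; push_cast; rfl
  have hγ : ∑ s ∈ Y, ((miss H Y s).card : ℤ) = (g : ℤ) := by
    rw [← hgam]; push_cast; rfl
  have hR : ∑ v ∈ Yᶜ, (dg (del H Y) v : ℤ) = (r : ℤ) := by
    rw [← hr]; push_cast; rfl
  rw [hsplit, hγ, hR] at hbad
  have hβ : ∑ v ∈ bad H Y, (miss H Y v).card ≤ (bad H Y).card * (j + 1) := by
    rw [← smul_eq_mul]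
    exact sum_le_card_nsmul _ _ _ fun v _ => hY ▸ card_miss_le H Y v
  have hmY : ∀ s ∈ Y, (miss H Y s).card ≤ j := by
    intro s hs
    have := card_inter_mem H hs
    omega
  have hγ1 : ∑ s ∈ Y, (miss H Y s).card ≤ (j + 1) * j := by
    rw [← smul_eq_mul, ← hY]
    exact sum_le_card_nsmul _ _ _ hmY
  -- a linear surplus is impossible
  have hlin : ¬ 2 * (Yᶜ).card ≤ ∑ v ∈ Yᶜ, dg (del H Y) v + 2 := by
    intro h
    rw [hr] at h
    have h' : 2 * (((Yᶜ).card : ℤ)) ≤ (r : ℤ) + 2 := by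
      exact_mod_cast h
    rw [hcard] at h'
    rw [hb] at hβ
    rw [hgam] at hγ1
    have e1 : (b : ℤ) ≤ (bad H Y).card * (j + 1) := by
      exact_mod_cast hβ
    have e2 : (g : ℤ) ≤ (j + 1) * j := by exact_mod_cast hγ1
    have e3 : 2 * (j + 1) * ((bad H Y).card : ℤ) + (2 * j + 3) * (j + 1) + (j + 1) + 3
        ≤ Fintype.card V := by exact_mod_cast hD
    have e4 : (0 : ℤ) ≤ ((j / 2 : ℕ) : ℤ) := Int.natCast_nonneg _
    generalize ((j / 2 : ℕ) : ℤ) = q at hbad e4
    push_cast at hbad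
    nlinarith
  have hr1 : ∀ v ∈ Yᶜ, 1 + (miss H Y v).card ≤ dg (del H Y) v := by
    intro v hv
    have h1 := dg_notMem H (S := Y) (v := v) (by simpa using hv)
    have h2 := hH.P1 v
    omega
  -- every bad vertex misses exactly one element
  have hb1 : ∀ v ∈ Yᶜ, (miss H Y v).card ≤ 1 := by
    intro y hy
    by_contra hy2
    apply hlin
    refine surplus _ hU (fun v hv => by have := hr1 v hv; omega) hy ?_
    intro v hv hvy
    have h1 := codeg_del H hH.P2 (S := Y) (u := v) (v := y) (by simpa using hv)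
      (by simpa using hy) hvy
    have h2 : (miss H Y y).card ≤ (miss H Y v ∪ miss H Y y).card :=
      card_le_card subset_union_right
    omega
  have hbc : ∀ v ∈ bad H Y, (miss H Y v).card = 1 := by
    intro v hv
    rw [mem_bad] at hv
    have := hb1 v (by simpa using hv.1)
    have := hv.2.card_pos
    omega
  have hβ1 : ∑ v ∈ bad H Y, (miss H Y v).card = (bad H Y).card := by
    rw [sum_congr rfl hbc, card_eq_sum_ones]
  -- a vertex of degree one
  obtain ⟨v0, hv0, hv01⟩ : ∃ v ∈ Yᶜ, dg (del H Y) v ≤ 1 := by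
    by_contra hno
    push Not at hno
    apply hlin
    have : (Yᶜ).card * 2 ≤ ∑ v ∈ Yᶜ, dg (del H Y) v := by
      rw [← smul_eq_mul]
      exact card_nsmul_le_sum _ _ _ fun v hv => hno v hv
    omega
  have hv0' : v0 ∉ Y := by simpa using hv0
  have hm : ∀ w ∈ Y, (miss H Y w).card ≤ 1 := by
    intro w hw
    have h1 := codeg_mem H hH.P2 hw hv0'
    have h2 : (miss H Y w).card ≤ (miss H Y w ∪ (miss H Y v0).erase w).card :=
      card_le_card subset_union_left
    have h3 : (N (del H Y) v0 ∩ N H w).card ≤ dg (del H Y) v0 := card_le_card inter_subset_left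
    omega
  have hUne : (Yᶜ).Nonempty := ⟨v0, hv0⟩
  have h5 : ∀ u ∈ bad H Y, 5 ≤ ((bad H Y).filter fun v => grp H Y v ≠ grp H Y u).card := by
    intro u hu
    have := card_grp_ne H hH hUne hm hbc hu
    have := card_grp_le H hm (hbc u hu)
    omega
  have hDU : bad H Y ⊆ Yᶜ := fun v hv => by simpa using ((mem_bad H).1 hv).1
  have hr2 : ∀ v ∈ bad H Y, 2 ≤ dg (del H Y) v := by
    intro v hv
    have := hr1 v (hDU hv)
    have := hbc v hv
    omega
  have hmne : ∀ u v : V, grp H Y u ≠ grp H Y v → miss H Y u ≠ miss H Y v := by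
    intro u v h h'
    exact h (by rw [grp, grp, h'])
  have hc : ∀ u ∈ bad H Y, ∀ v ∈ bad H Y, grp H Y u ≠ grp H Y v →
      ∃ x, (del H Y).Adj u x ∧ (del H Y).Adj v x := by
    intro u hu v hv huv
    have huv' : u ≠ v := fun h => huv (h ▸ rfl)
    have h1 := codeg_del H hH.P2 (S := Y) (u := u) (v := v) (by simpa using hDU hu)
      (by simpa using hDU hv) huv'
    have h2 : 1 < (miss H Y u ∪ miss H Y v).card := by
      by_contra hle
      push Not at hle
      apply hmne u v huv
      have e1 : miss H Y u = miss H Y u ∪ miss H Y v :=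
        eq_of_subset_of_card_le subset_union_left (by rw [hbc u hu]; exact hle)
      have e2 : miss H Y v = miss H Y u ∪ miss H Y v :=
        eq_of_subset_of_card_le subset_union_right (by rw [hbc v hv]; exact hle)
      rw [e1, ← e2]
    have h3 : 0 < (N (del H Y) u ∩ N (del H Y) v).card := by omega
    obtain ⟨x, hx⟩ := card_pos.1 h3
    rw [mem_inter, mem_N, mem_N] at hx
    exact ⟨x, hx⟩
  have hr11 : ∀ v ∈ Yᶜ, 1 ≤ dg (del H Y) v := fun v hv => by have := hr1 v hv; omega
  have hsum : ∑ v ∈ Yᶜ, ((dg (del H Y) v : ℤ) - 1)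
      = (r : ℤ) - (Fintype.card V - (j + 1)) := by
    rw [sum_sub_distrib, sum_const, nsmul_eq_mul, mul_one, hcard, hR]
  have hγ2 : ∑ s ∈ Y, (miss H Y s).card ≤ j + 1 := by
    calc ∑ s ∈ Y, (miss H Y s).card ≤ ∑ s ∈ Y, 1 := sum_le_sum hm
      _ = j + 1 := by rw [← card_eq_sum_ones, hY]
  have hev := even_miss H Y
  rw [hb] at hβ1
  rw [hβ1] at hbad
  by_cases hg : ∑ s ∈ Y, (miss H Y s).card ≤ 2 * (j / 2)
  · have hL := lemR (del H Y) hDU hU hr11 hr2 (grp H Y) hc h5
    rw [hsum] at hL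
    rw [hgam] at hg
    have hg' : (g : ℤ) ≤ 2 * ((j / 2 : ℕ) : ℤ) := by
      exact_mod_cast hg
    generalize ((j / 2 : ℕ) : ℤ) = q at hbad hg'
    push_cast at hbad hL
    nlinarith
  · have hfull : ∑ s ∈ Y, (miss H Y s).card = j + 1 := by
      obtain ⟨q, hq⟩ := hev
      omega
    have hone : ∀ s ∈ Y, (miss H Y s).card = 1 := by
      have : ∑ s ∈ Y, (miss H Y s).card = ∑ s ∈ Y, 1 := by
        rw [← card_eq_sum_ones, hY, hfull]
      exact (sum_eq_sum_iff_of_le hm).1 this
    have hs : ∀ u ∈ bad H Y, dg (del H Y) u = 2 → ∀ v ∈ bad H Y, (del H Y).Adj u v →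
        grp H Y v = grp H Y u := by
      intro u hu hu2 v hv huv
      obtain ⟨w, hw⟩ := card_eq_one.1 (hbc u hu)
      obtain ⟨x, hx⟩ := card_eq_one.1 (hbc v hv)
      have hwY : w ∈ Y := ((mem_miss H).1 (hw ▸ mem_singleton_self w)).2.1
      have hx' : x ∈ miss H Y v := hx ▸ mem_singleton_self x
      have hxY : x ∈ Y := ((mem_miss H).1 hx').2.1
      rw [grp_eq H hw, grp_eq H hx]
      by_contra hne
      have hxw : x ∉ cmp H Y w := fun h => hne (cmp_eq H hm hwY h)
      have h1 := codeg_mem H hH.P2 hxY (by simpa using hDU hu : u ∉ Y)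
      obtain ⟨x', hx2⟩ := card_eq_one.1 (hone x hxY)
      have hwx : w ≠ x := by
        rintro rfl
        exact hxw (mem_insert_self _ _)
      have hx'w : x' ≠ w := by
        rintro rfl
        apply hxw
        rw [cmp, mem_insert]
        right
        rw [miss_symm H hxY hwY, hx2]
        exact mem_singleton_self _
      have h2 : miss H Y x ∪ (miss H Y u).erase x = {x', w} := by
        rw [hx2, hw, erase_eq_of_notMem (by simpa using hwx.symm)]
        rfl
      rw [h2, card_pair hx'w] at h1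
      have h3 : N (del H Y) u ∩ N H x = N (del H Y) u := by
        refine eq_of_subset_of_card_le inter_subset_left ?_
        rw [show (N (del H Y) u).card = 2 from hu2]
        omega
      have h4 : v ∈ N H x := by
        have : v ∈ N (del H Y) u ∩ N H x := by rw [h3, mem_N]; exact huv
        exact (mem_inter.1 this).2
      rw [mem_N] at h4
      exact ((mem_miss H).1 hx').2.2 h4.symm
    have hL := lemR' (del H Y) hDU hU hr11 hr2 (grp H Y) hc h5 hs
    rw [hsum] at hL
    have hodd : 2 * (j / 2) + 1 = j := by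
      obtain ⟨q, hq⟩ := hev
      omega
    have hodd' : 2 * ((j / 2 : ℕ) : ℤ) + 1 = j := by exact_mod_cast hodd
    rw [hgam] at hfull
    rw [hfull] at hbad
    generalize ((j / 2 : ℕ) : ℤ) = q at hbad hodd'
    push_cast at hbad hL
    nlinarith

end Pool.Agent.Helper38.RE
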