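import Pool.Agent.Helper38.RE.RMain

/-! Project RE2 (MP_cc4a3b_co): if a set `Y` of `j + 1` vertices is almost completely joined to
the rest, the degree sum is large, for all `j ≥ 1`. -/

set_option autoImplicit false
set_option linter.unusedSectionVars false

namespace Pool.Agent.Helper38.RE

open Finset

variable {V : Type*} [Fintype V] [DecidableEq V]

theorem rc_of (H : SimpleGraph V) [DecidableRel H.Adj] {j : ℕ} (hH : Hyp H j)
    {Y : Finset V} (hY : Y.card = j + 1)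
    (hD : 2 * (j + 1) * (bad H Y).card + (2 * j + 3) * (j + 1) + (j + 1) + 3
      ≤ Fintype.card V)
    (hlt : ∑ v, (dg H v : ℤ) < (2 * j + 3) * Fintype.card V) :
    RC H Y ∧ ∑ v, (dg H v : ℤ) = (2 * j + 3) * Fintype.card V
      + (∑ v ∈ Yᶜ, ((dg (del H Y) v : ℤ) - 1) - 2 * ((bad H Y).card : ℤ))
      - ((∑ s ∈ Y, (miss H Y s).card : ℕ) : ℤ) - (j + 1) * (j + 3) := by
  have hbad := hlt
  rw [sum_dg H Y, hY] at hbad
  have hcard : (((Yᶜ).card : ℤ)) = Fintype.card V - (j + 1) := by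
    rw [card_compl_int, hY]; push_cast; ring
  have hU := N_del_sub_U H Y
  obtain ⟨b, hb⟩ : ∃ b : ℕ, ∑ v ∈ bad H Y, (miss H Y v).card = b := ⟨_, rfl⟩
  obtain ⟨g, hgam⟩ : ∃ g : ℕ, ∑ s ∈ Y, (miss H Y s).card = g := ⟨_, rfl⟩
  obtain ⟨r, hr⟩ : ∃ r : ℕ, ∑ v ∈ Yᶜ, dg (del H Y) v = r := ⟨_, rfl⟩
  have hsplit : ∑ v ∈ Yᶜ, ((miss H Y v).card : ℤ) = (b : ℤ) := by
    rw [← hb, ← sum_miss_bad]; push_cast; rfl
  have hγ : ∑ s ∈ Y, ((miss H Y s).card : ℤ) = (g : ℤ) := by
    rw [← hgam]; push_cast; rfl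
  have hR : ∑ v ∈ Yᶜ, (dg (del H Y) v : ℤ) = (r : ℤ) := by
    rw [← hr]; push_cast; rfl
  rw [hsplit, hγ, hR] at hbad
  have hβ : ∑ v ∈ bad H Y, (miss H Y v).card ≤ (bad H Y).card * (j + 1) := by
    rw [← smul_eq_mul]
    exact sum_le_card_nsmul _ _ _ fun v _ => hY ▸ card_miss_le H Y v
  have hmY : ∀ s ∈ Y, (miss H Y s).card ≤ j := by
    intro s hs
    have := card_inter_mem H hs
    omega
  have hγ1 : ∑ s ∈ Y, (miss H Y s).card ≤ (j + 1) * j := by
    rw [← smul_eq_mul, ← hY]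
    exact sum_le_card_nsmul _ _ _ hmY
  -- a linear surplus is impossible
  have hlin : ¬ 2 * (Yᶜ).card ≤ ∑ v ∈ Yᶜ, dg (del H Y) v + 2 := by
    intro h
    rw [hr] at h
    have h' : 2 * (((Yᶜ).card : ℤ)) ≤ (r : ℤ) + 2 := by
      exact_mod_cast h
    rw [hcard] at h'
    rw [hb] at hβ
    rw [hgam] at hγ1
    have e1 : (b : ℤ) ≤ (bad H Y).card * (j + 1) := by
      exact_mod_cast hβ
    have e2 : (g : ℤ) ≤ (j + 1) * j := by exact_mod_cast hγ1
    have e3 : 2 * (j + 1) * ((bad H Y).card : ℤ) + (2 * j + 3) * (j + 1) + (j + 1) + 3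
        ≤ Fintype.card V := by exact_mod_cast hD
    push_cast at hbad
    nlinarith
  have hr1 : ∀ v ∈ Yᶜ, 1 + (miss H Y v).card ≤ dg (del H Y) v := by
    intro v hv
    have h1 := dg_notMem H (S := Y) (v := v) (by simpa using hv)
    have h2 := hH.P1 v
    omega
  -- every bad vertex misses exactly one element
  have hb1 : ∀ v ∈ Yᶜ, (miss H Y v).card ≤ 1 := by
    intro y hy
    by_contra hy2
    apply hlin
    refine surplus _ hU (fun v hv => by have := hr1 v hv; omega) hy ?_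
    intro v hv hvy
    have h1 := codeg_del H hH.P2 (S := Y) (u := v) (v := y) (by simpa using hv)
      (by simpa using hy) hvy
    have h2 : (miss H Y y).card ≤ (miss H Y v ∪ miss H Y y).card :=
      card_le_card subset_union_right
    omega
  have hbc : ∀ v ∈ bad H Y, (miss H Y v).card = 1 := by
    intro v hv
    rw [mem_bad] at hv
    have := hb1 v (by simpa using hv.1)
    have := hv.2.card_pos
    omega
  have hβ1 : ∑ v ∈ bad H Y, (miss H Y v).card = (bad H Y).card := by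
    rw [sum_congr rfl hbc, card_eq_sum_ones]
  -- a vertex of degree one
  obtain ⟨v0, hv0, hv01⟩ : ∃ v ∈ Yᶜ, dg (del H Y) v ≤ 1 := by
    by_contra hno
    push Not at hno
    apply hlin
    have : (Yᶜ).card * 2 ≤ ∑ v ∈ Yᶜ, dg (del H Y) v := by
      rw [← smul_eq_mul]
      exact card_nsmul_le_sum _ _ _ fun v hv => hno v hv
    omega
  have hv0' : v0 ∉ Y := by simpa using hv0
  have hm : ∀ w ∈ Y, (miss H Y w).card ≤ 1 := by
    intro w hw
    have h1 := codeg_mem H hH.P2 hw hv0'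
    have h2 : (miss H Y w).card ≤ (miss H Y w ∪ (miss H Y v0).erase w).card :=
      card_le_card subset_union_left
    have h3 : (N (del H Y) v0 ∩ N H w).card ≤ dg (del H Y) v0 := card_le_card inter_subset_left
    omega
  have hUne : (Yᶜ).Nonempty := ⟨v0, hv0⟩
  refine ⟨⟨hr1, hb1, hm, ?_, ?_, fun w hw => exists_grp H hH hUne hm hw⟩, ?_⟩
  · intro u hu v hv huv
    have huv' : u ≠ v := fun h => huv (h ▸ rfl)
    have h1 := codeg_del H hH.P2 (S := Y) (u := u) (v := v) ((mem_bad H).1 hu).1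
      ((mem_bad H).1 hv).1 huv'
    have h2 : 1 < (miss H Y u ∪ miss H Y v).card := by
      by_contra hle
      push Not at hle
      apply huv
      have e1 : miss H Y u = miss H Y u ∪ miss H Y v :=
        eq_of_subset_of_card_le subset_union_left (by rw [hbc u hu]; exact hle)
      have e2 : miss H Y v = miss H Y u ∪ miss H Y v :=
        eq_of_subset_of_card_le subset_union_right (by rw [hbc v hv]; exact hle)
      rw [e1, ← e2]
    have h3 : 0 < (N (del H Y) u ∩ N (del H Y) v).card := by omega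
    obtain ⟨x, hx⟩ := card_pos.1 h3
    rw [mem_inter, mem_N, mem_N] at hx
    exact ⟨x, hx⟩
  · intro w hw v hv
    have h1 := codeg_mem H hH.P2 hw (by simpa using hv : v ∉ Y)
    omega
  · rw [sum_dg H Y, hY, hsplit, hγ, hR, sum_sub_distrib, sum_const, nsmul_eq_mul, mul_one, hcard,
      hR, hgam, ← hβ1, hb]
    push_cast
    ring

/-- the case `j ≥ 2` -/
theorem r1_two (H : SimpleGraph V) [DecidableRel H.Adj] {j : ℕ} (hj : 2 ≤ j) (hH : Hyp H j)
    {Y : Finset V} (hY : Y.card = j + 1)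
    (hD : 2 * (j + 1) * (bad H Y).card + (2 * j + 3) * (j + 1) + (j + 1) + 3
      ≤ Fintype.card V) : Good H j := by
  by_contra hbad
  have hlt : ∑ v, (dg H v : ℤ) < (2 * j + 3) * Fintype.card V := by
    rw [Good, not_le] at hbad
    have : (0 : ℤ) ≤ ((j / 2 : ℕ) : ℤ) := Int.natCast_nonneg _
    nlinarith
  obtain ⟨S, hS⟩ := rc_of H hH hY hD hlt
  apply hbad
  rw [Good, hS]
  have hγ2 : ∑ s ∈ Y, (miss H Y s).card ≤ j + 1 := by
    calc ∑ s ∈ Y, (miss H Y s).card ≤ ∑ s ∈ Y, 1 := sum_le_sum S.hm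
      _ = j + 1 := by rw [← card_eq_sum_ones, hY]
  by_cases hg : ∑ s ∈ Y, (miss H Y s).card ≤ 2 * (j / 2)
  · have hL := S.main3 (by omega)
    have hg' : ((∑ s ∈ Y, (miss H Y s).card : ℕ) : ℤ) ≤ 2 * ((j / 2 : ℕ) : ℤ) := by
      exact_mod_cast hg
    generalize ((∑ s ∈ Y, (miss H Y s).card : ℕ) : ℤ) = g at *
    nlinarith
  · obtain ⟨q, hq⟩ := even_miss H Y
    have hfull : ∑ s ∈ Y, (miss H Y s).card = j + 1 := by
      omega
    have hone : ∀ s ∈ Y, (miss H Y s).card = 1 := by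
      have : ∑ s ∈ Y, (miss H Y s).card = ∑ s ∈ Y, 1 := by
        rw [← card_eq_sum_ones, hY, hfull]
      exact (sum_eq_sum_iff_of_le S.hm).1 this
    have hL := S.main1 (by omega) hone
    have hodd : 2 * (j / 2) + 1 = j := by omega
    have hodd' : 2 * ((j / 2 : ℕ) : ℤ) + 1 = j := by exact_mod_cast hodd
    rw [hfull]
    push_cast
    nlinarith

/-- the case `j = 1` -/
theorem r1_one (H : SimpleGraph V) [DecidableRel H.Adj] (hH : Hyp H 1)
    {Y : Finset V} (hY : Y.card = 2)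
    (hD : 4 * (bad H Y).card + 15 ≤ Fintype.card V) :
    (5 : ℤ) * Fintype.card V - 14 ≤ ∑ v, (dg H v : ℤ) := by
  by_contra hbad
  have hlt : ∑ v, (dg H v : ℤ) < (2 * ((1 : ℕ) : ℤ) + 3) * Fintype.card V := by
    push_cast
    linarith
  obtain ⟨S, hS⟩ := rc_of H hH hY (by omega) hlt
  apply hbad
  rw [hS]
  have hγ2 : ∑ s ∈ Y, (miss H Y s).card ≤ 2 := by
    calc ∑ s ∈ Y, (miss H Y s).card ≤ ∑ s ∈ Y, 1 := sum_le_sum S.hm
      _ = 2 := by rw [← card_eq_sum_ones, hY]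
  have hL := S.main4 (by omega)
  have : ((∑ s ∈ Y, (miss H Y s).card : ℕ) : ℤ) ≤ 2 := by exact_mod_cast hγ2
  push_cast
  push_cast at this
  linarith

end Pool.Agent.Helper38.RE
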