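import Pool.Agent.Helper38.RE.RSdef

/-! Project RE2 (MP_cc4a3b_co), piece RE2-RS1: two cheap vertices of different classes. -/

set_option autoImplicit false
set_option linter.unusedSectionVars false

namespace Pool.Agent.Helper38.RE

open Finset

variable {V : Type*} [Fintype V] [DecidableEq V]

/-- the contribution of a vertex outside of `X` -/
def rs1_w (R : SimpleGraph V) [DecidableRel R.Adj] (D X : Finset V) (v : V) : ℤ :=
  (dg R v : ℤ) + ((N R v ∩ X).card : ℤ) - 1 - if v ∈ D then 2 else 0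

theorem rs1_w_mem (R : SimpleGraph V) [DecidableRel R.Adj] {D X : Finset V} {v : V}
    (hv : v ∈ D) : rs1_w R D X v = (dg R v : ℤ) + ((N R v ∩ X).card : ℤ) - 3 := by
  rw [rs1_w, if_pos hv]; ring

theorem rs1_w_notMem (R : SimpleGraph V) [DecidableRel R.Adj] {D X : Finset V} {v : V}
    (hv : v ∉ D) : rs1_w R D X v = (dg R v : ℤ) + ((N R v ∩ X).card : ℤ) - 1 := by
  rw [rs1_w, if_neg hv]; ring

/-- the accounting with bonus vertices `W` -/
theorem rs1_acc (R : SimpleGraph V) [DecidableRel R.Adj] {U D X : Finset V} (W : Finset V)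
    (hDU : D ⊆ U) (hU : ∀ v ∈ U, N R v ⊆ U) (hX : X ⊆ U) (hW : W ⊆ U \ X)
    (h0 : ∀ v ∈ U \ X, 0 ≤ rs1_w R D X v) :
    ((∑ v ∈ X, (N R v ∩ X).card : ℕ) : ℤ) - (X.card : ℤ) - 2 * ((D ∩ X).card : ℤ)
      + ∑ v ∈ W, rs1_w R D X v ≤ ∑ v ∈ U, ((dg R v : ℤ) - 1) - 2 * (D.card : ℤ) := by
  have ha := acc R hX (fun v hv => hU v (hX hv))
  have ha' : (∑ v ∈ U, (dg R v : ℤ)) =
      ∑ v ∈ U \ X, ((dg R v : ℤ) + ((N R v ∩ X).card : ℤ))
        + ((∑ v ∈ X, (N R v ∩ X).card : ℕ) : ℤ) := by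
    exact_mod_cast ha
  have e1 : ∑ v ∈ W, rs1_w R D X v ≤ ∑ v ∈ U \ X, rs1_w R D X v :=
    sum_le_sum_of_subset_of_nonneg hW fun v hv _ => h0 v hv
  have e3 : ∑ v ∈ U \ X, (if v ∈ D then (2 : ℤ) else 0) = 2 * ((D \ X).card : ℤ) := by
    rw [← sum_filter]
    have : (U \ X).filter (fun v => v ∈ D) = D \ X := by
      ext v
      simp only [mem_filter, mem_sdiff]
      constructor
      · rintro ⟨⟨-, h2⟩, h3⟩
        exact ⟨h3, h2⟩
      · rintro ⟨h1, h2⟩
        exact ⟨⟨hDU h1, h2⟩, h1⟩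
    rw [this, sum_const, nsmul_eq_mul]
    ring
  have e2 : ∑ v ∈ U \ X, rs1_w R D X v
      = ∑ v ∈ U \ X, ((dg R v : ℤ) + ((N R v ∩ X).card : ℤ))
        - ((U \ X).card : ℤ) - 2 * ((D \ X).card : ℤ) := by
    unfold rs1_w
    rw [sum_sub_distrib, sum_sub_distrib, e3]
    simp
  have c1 : ((U \ X).card : ℤ) + X.card = U.card := by
    exact_mod_cast card_sdiff_add_card_eq_card hX
  have c2 : ((D \ X).card : ℤ) + (D ∩ X).card = D.card := by
    have := card_inter_add_card_sdiff D X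
    push_cast [← this]
    ring
  have e5 : ∑ v ∈ U, ((dg R v : ℤ) - 1) = ∑ v ∈ U, (dg R v : ℤ) - (U.card : ℤ) := by
    rw [sum_sub_distrib]
    simp
  linarith

theorem rs1_nonneg {R : SimpleGraph V} [DecidableRel R.Adj] {U D : Finset V} {ι κ : Type*}
    {cls : V → ι} {grp : V → κ} (S : RS R U D cls grp) {X : Finset V}
    (hm : ∀ y ∈ D, y ∉ X → 1 ≤ (N R y ∩ X).card) :
    ∀ v ∈ U \ X, 0 ≤ rs1_w R D X v := by
  intro v hv
  rw [mem_sdiff] at hv
  by_cases hD : v ∈ D
  · rw [rs1_w_mem R hD]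
    have := hm v hD hv.2
    have := S.h2 v hD
    omega
  · rw [rs1_w_notMem R hD]
    have := S.h1 v hv.1
    omega

/-- elements of `D` of different groups have a common neighbour -/
theorem rs1_com {R : SimpleGraph V} [DecidableRel R.Adj] {U D : Finset V} {ι κ : Type*}
    {cls : V → ι} {grp : V → κ} (S : RS R U D cls grp) {u v : V} (hu : u ∈ D) (hv : v ∈ D)
    (h : grp u ≠ grp v) : ∃ x, R.Adj u x ∧ R.Adj v x :=
  S.hc u hu v hv fun he => h (S.hcg u hu v hv he)

/-- a common neighbour `m ∉ X` of `x ∈ X` and an element of `D` outside of the group `g0` -/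
theorem rs1_mid {R : SimpleGraph V} [DecidableRel R.Adj] {U D : Finset V} {ι κ : Type*}
    {cls : V → ι} {grp : V → κ} (S : RS R U D cls grp) {g0 : κ}
    (hg0 : ∀ y ∈ D, dg R y = 2 → grp y = g0) {X : Finset V} {y' x m : V} (hy' : y' ∈ D)
    (hgy : grp y' ≠ g0) (hx : x ∈ X) (hxy : x ≠ y') (hmx : R.Adj x m) (hmy : R.Adj y' m) :
    1 ≤ rs1_w R D X m := by
  have h1 := lemR_one_le R hx hmx.symm
  by_cases hD : m ∈ D
  · rw [rs1_w_mem R hD]
    have h2 := S.h2 m hD
    have h3 : dg R m ≠ 2 := by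
      intro h
      exact hgy ((S.hs m hD h y' hy' hmy.symm).trans (hg0 m hD h))
    omega
  · rw [rs1_w_notMem R hD]
    have h2 : 2 ≤ dg R m := by
      have hsub : ({x, y'} : Finset V) ⊆ N R m := by
        intro z hz
        rw [mem_insert, mem_singleton] at hz
        rcases hz with h | h
        · rw [h]; exact (mem_N R).mpr hmx.symm
        · rw [h]; exact (mem_N R).mpr hmy.symm
      have := card_le_card hsub
      rwa [card_pair hxy] at this
    omega

/-- the element `m` above is not a cheap element of `D` -/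
theorem rs1_ne {R : SimpleGraph V} [DecidableRel R.Adj] {U D : Finset V} {ι κ : Type*}
    {cls : V → ι} {grp : V → κ} (S : RS R U D cls grp) {g0 : κ}
    (hg0 : ∀ y ∈ D, dg R y = 2 → grp y = g0) {y' y m : V} (hy' : y' ∈ D)
    (hgy : grp y' ≠ g0) (hmy : R.Adj y' m) (hy : y ∈ D) (hd : dg R y = 2) : m ≠ y := by
  rintro rfl
  exact hgy ((S.hs m hy hd y' hy' hmy.symm).trans (hg0 m hy hd))

theorem rs1_big {R : SimpleGraph V} [DecidableRel R.Adj] {U D : Finset V} {ι κ : Type*}
    {cls : V → ι} {grp : V → κ} (S : RS R U D cls grp) {g0 : κ}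
    (hg0 : ∀ y ∈ D, dg R y = 2 → grp y = g0) {y' : V} (hy' : y' ∈ D)
    (hgy : grp y' ≠ g0) : 3 ≤ dg R y' := by
  have h2 := S.h2 y' hy'
  have h3 : dg R y' ≠ 2 := fun h => hgy (hg0 y' hy' h)
  omega

/-- Case 1a: the two cheap vertices are adjacent. -/
theorem rs1_case1a {R : SimpleGraph V} [DecidableRel R.Adj] {U D : Finset V} {ι κ : Type*}
    {cls : V → ι} {grp : V → κ} (S : RS R U D cls grp) {g0 : κ}
    (hg0 : ∀ y ∈ D, dg R y = 2 → grp y = g0) {y0 y2 a : V} (hy0 : y0 ∈ D) (hy2 : y2 ∈ D)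
    (hd0 : dg R y0 = 2) (hne : cls y0 ≠ cls y2)
    (ha0 : R.Adj y0 a) (hN0 : N R y0 = {a, y2}) (hN2 : N R y2 = {a, y0}) :
    -1 ≤ ∑ v ∈ U, ((dg R v : ℤ) - 1) - 2 * (D.card : ℤ) := by
  have haU : a ∈ U := S.hU y0 (S.hDU hy0) ((mem_N R).mpr ha0)
  have haX : a ∈ ({a} : Finset V) := mem_singleton_self a
  have hadj : ∀ y ∈ D, y ≠ a → R.Adj y a := by
    intro y hy hya
    by_cases hg : cls y = cls y0
    · have hg2 : cls y ≠ cls y2 := fun h => hne (hg.symm.trans h)
      obtain ⟨x, hx1, hx2⟩ := S.hc y hy y2 hy2 hg2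
      have hxN : x ∈ N R y2 := (mem_N R).mpr hx2
      rw [hN2, mem_insert, mem_singleton] at hxN
      rcases hxN with h | h
      · exact h ▸ hx1
      · rw [h] at hx1
        have hyN : y ∈ N R y0 := (mem_N R).mpr hx1.symm
        rw [hN0, mem_insert, mem_singleton] at hyN
        rcases hyN with h' | h'
        · exact absurd h' hya
        · exact absurd (by rw [h']) hg2
    · obtain ⟨x, hx1, hx2⟩ := S.hc y hy y0 hy0 hg
      have hxN : x ∈ N R y0 := (mem_N R).mpr hx2
      rw [hN0, mem_insert, mem_singleton] at hxN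
      rcases hxN with h | h
      · exact h ▸ hx1
      · rw [h] at hx1
        have hyN : y ∈ N R y2 := (mem_N R).mpr hx1.symm
        rw [hN2, mem_insert, mem_singleton] at hyN
        rcases hyN with h' | h'
        · exact absurd h' hya
        · exact absurd (by rw [h']) hg
  have hmeet : ∀ y ∈ D, y ∉ ({a} : Finset V) → 1 ≤ (N R y ∩ {a}).card := by
    intro y hy hya
    rw [mem_singleton] at hya
    exact lemR_one_le R haX (hadj y hy hya)
  have hw0 := rs1_nonneg S hmeet
  have hXU : ({a} : Finset V) ⊆ U := by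
    intro x hx
    rw [mem_singleton] at hx
    exact hx ▸ haU
  by_cases haD : a ∈ D
  · have hga : grp a = g0 := (S.hs y0 hy0 hd0 a haD ha0).trans (hg0 y0 hy0 hd0)
    obtain ⟨y', hy', hyg⟩ := S.hO y0 hy0
    have hyg' : grp y' ≠ g0 := by
      rw [← hg0 y0 hy0 hd0]
      exact hyg
    have hay : a ≠ y' := fun h => hyg' (h ▸ hga)
    obtain ⟨m, hm1, hm2⟩ := rs1_com S haD hy' (by rw [hga]; exact hyg'.symm)
    have hwm := rs1_mid S hg0 (X := {a}) hy' hyg' haX hay hm1 hm2
    have hwy : 1 ≤ rs1_w R D {a} y' := by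
      rw [rs1_w_mem R hy']
      have := rs1_big S hg0 hy' hyg'
      have := hmeet y' hy' (by rw [mem_singleton]; exact hay.symm)
      omega
    have hmU : m ∈ U := S.hU a haU ((mem_N R).mpr hm1)
    have hW : ({y', m} : Finset V) ⊆ U \ {a} := by
      intro z hz
      rw [mem_insert, mem_singleton] at hz
      rw [mem_sdiff, mem_singleton]
      rcases hz with h | h
      · rw [h]; exact ⟨S.hDU hy', hay.symm⟩
      · rw [h]; exact ⟨hmU, hm1.ne.symm⟩
    have hacc := rs1_acc R {y', m} S.hDU S.hU hXU hW hw0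
    rw [sum_pair hm2.ne, card_singleton] at hacc
    have e1 : (0 : ℤ) ≤ ((∑ v ∈ ({a} : Finset V), (N R v ∩ {a}).card : ℕ) : ℤ) :=
      Int.natCast_nonneg _
    have e2 : ((D ∩ {a}).card : ℤ) ≤ 1 := by
      have := card_le_card (inter_subset_right : D ∩ {a} ⊆ {a})
      rw [card_singleton] at this
      exact_mod_cast this
    push_cast at hacc e1
    linarith
  · have hacc := rs1_acc R ∅ S.hDU S.hU hXU (empty_subset _) hw0
    rw [sum_empty, card_singleton] at hacc
    have e1 : (0 : ℤ) ≤ ((∑ v ∈ ({a} : Finset V), (N R v ∩ {a}).card : ℕ) : ℤ) :=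
      Int.natCast_nonneg _
    have e2 : (D ∩ {a}).card = 0 := by
      rw [card_eq_zero, inter_singleton_of_notMem haD]
    rw [e2] at hacc
    push_cast at hacc e1
    linarith

/-- Case 1b: the two cheap vertices are not adjacent. -/
theorem rs1_case1b {R : SimpleGraph V} [DecidableRel R.Adj] {U D : Finset V} {ι κ : Type*}
    {cls : V → ι} {grp : V → κ} (S : RS R U D cls grp) {g0 : κ}
    (hg0 : ∀ y ∈ D, dg R y = 2 → grp y = g0) {y0 y2 a b b2 : V} (hy0 : y0 ∈ D) (hy2 : y2 ∈ D)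
    (hd0 : dg R y0 = 2) (hd2 : dg R y2 = 2) (hne : cls y0 ≠ cls y2)
    (ha0 : R.Adj y0 a) (ha2 : R.Adj y2 a) (hb0 : R.Adj y0 b) (hb2 : R.Adj y2 b2)
    (hba : b ≠ a) (hb2a : b2 ≠ a)
    (hN0 : N R y0 = {a, b}) (hN2 : N R y2 = {a, b2}) (hadj : ¬ R.Adj y0 y2) :
    -1 ≤ ∑ v ∈ U, ((dg R v : ℤ) - 1) - 2 * (D.card : ℤ) := by
  have haU : a ∈ U := S.hU y0 (S.hDU hy0) ((mem_N R).mpr ha0)
  have hbU : b ∈ U := S.hU y0 (S.hDU hy0) ((mem_N R).mpr hb0)
  have hb2U : b2 ∈ U := S.hU y2 (S.hDU hy2) ((mem_N R).mpr hb2)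
  obtain ⟨X, hX⟩ : ∃ X : Finset V, X = {a, b, b2} := ⟨_, rfl⟩
  have hmemX : ∀ x, x ∈ X ↔ x = a ∨ x = b ∨ x = b2 := by
    intro x
    rw [hX, mem_insert, mem_insert, mem_singleton]
  have haX : a ∈ X := by rw [hmemX]; exact Or.inl rfl
  have hbX : b ∈ X := by rw [hmemX]; exact Or.inr (Or.inl rfl)
  have hb2X : b2 ∈ X := by rw [hmemX]; exact Or.inr (Or.inr rfl)
  have hXU : X ⊆ U := by
    intro x hx
    rw [hmemX] at hx
    rcases hx with h | h | h
    · exact h ▸ haU
    · exact h ▸ hbU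
    · exact h ▸ hb2U
  have hyne : y0 ≠ y2 := fun h => hne (by rw [h])
  have hy0X : y0 ∉ X := by
    intro hx
    rw [hmemX] at hx
    rcases hx with h | h | h
    · exact ha0.ne h
    · exact hb0.ne h
    · exact hadj (h ▸ hb2.symm)
  have hy2X : y2 ∉ X := by
    intro hx
    rw [hmemX] at hx
    rcases hx with h | h | h
    · exact ha2.ne h
    · exact hadj (h ▸ hb0)
    · exact hb2.ne h
  have hmeet : ∀ y ∈ D, 1 ≤ (N R y ∩ X).card := by
    intro y hy
    by_cases hg : cls y = cls y0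
    · have hg2 : cls y ≠ cls y2 := fun h => hne (hg.symm.trans h)
      obtain ⟨x, hx1, hx2⟩ := S.hc y hy y2 hy2 hg2
      have hxN : x ∈ N R y2 := (mem_N R).mpr hx2
      rw [hN2, mem_insert, mem_singleton] at hxN
      rcases hxN with h | h
      · exact lemR_one_le R haX (h ▸ hx1)
      · exact lemR_one_le R hb2X (h ▸ hx1)
    · obtain ⟨x, hx1, hx2⟩ := S.hc y hy y0 hy0 hg
      have hxN : x ∈ N R y0 := (mem_N R).mpr hx2
      rw [hN0, mem_insert, mem_singleton] at hxN
      rcases hxN with h | h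
      · exact lemR_one_le R haX (h ▸ hx1)
      · exact lemR_one_le R hbX (h ▸ hx1)
  have hw0 := rs1_nonneg S (X := X) fun y hy _ => hmeet y hy
  -- the elements of `D ∩ X` are in the group `g0`
  have hgX : ∀ x ∈ D, x ∈ X → grp x = g0 := by
    intro x hxD hx
    rw [hmemX] at hx
    rcases hx with h | h | h
    · exact (S.hs y0 hy0 hd0 x hxD (h ▸ ha0)).trans (hg0 y0 hy0 hd0)
    · exact (S.hs y0 hy0 hd0 x hxD (h ▸ hb0)).trans (hg0 y0 hy0 hd0)
    · exact (S.hs y2 hy2 hd2 x hxD (h ▸ hb2)).trans (hg0 y2 hy2 hd2)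
  obtain ⟨y', hy', hyg⟩ := S.hO y0 hy0
  have hyg' : grp y' ≠ g0 := by
    rw [← hg0 y0 hy0 hd0]
    exact hyg
  have hy'X : y' ∉ X := fun h => hyg' (hgX y' hy' h)
  have hy'0 : y' ≠ y0 := fun h => hyg' (h ▸ hg0 y0 hy0 hd0)
  have hy'2 : y' ≠ y2 := fun h => hyg' (h ▸ hg0 y2 hy2 hd2)
  have hy'3 := rs1_big S hg0 hy' hyg'
  have hy'1 := hmeet y' hy'
  -- weights
  have hw1 : ∀ y ∈ D, dg R y = 2 → N R y ⊆ X → rs1_w R D X y = 1 := by
    intro y hy hd hs
    rw [rs1_w_mem R hy, inter_eq_left.mpr hs, hd]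
    change (2 : ℤ) + (dg R y : ℤ) - 3 = 1
    rw [hd]
    norm_num
  have hwy0 : rs1_w R D X y0 = 1 := by
    refine hw1 y0 hy0 hd0 ?_
    rw [hN0]
    intro x hx
    rw [mem_insert, mem_singleton] at hx
    rw [hmemX]
    tauto
  have hwy2 : rs1_w R D X y2 = 1 := by
    refine hw1 y2 hy2 hd2 ?_
    rw [hN2]
    intro x hx
    rw [mem_insert, mem_singleton] at hx
    rw [hmemX]
    tauto
  have hwy' : rs1_w R D X y' = (dg R y' : ℤ) + ((N R y' ∩ X).card : ℤ) - 3 := rs1_w_mem R hy'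
  -- the sum over `X`
  have hS1 : (D ∩ X).card ≤ ∑ v ∈ X, (N R v ∩ X).card := by
    calc (D ∩ X).card = ∑ v ∈ D ∩ X, 1 := by simp
      _ ≤ ∑ v ∈ D ∩ X, (N R v ∩ X).card :=
        sum_le_sum fun v hv => hmeet v (mem_inter.mp hv).1
      _ ≤ ∑ v ∈ X, (N R v ∩ X).card :=
        sum_le_sum_of_subset_of_nonneg inter_subset_right fun v _ _ => Nat.zero_le _
  have hS2 := even_inner R X
  have hDX : (D ∩ X).card ≤ X.card := card_le_card inter_subset_right
  have hbase : ({y0, y2, y'} : Finset V) ⊆ U \ X := by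
    intro z hz
    rw [mem_insert, mem_insert, mem_singleton] at hz
    rw [mem_sdiff]
    rcases hz with h | h | h
    · rw [h]; exact ⟨S.hDU hy0, hy0X⟩
    · rw [h]; exact ⟨S.hDU hy2, hy2X⟩
    · rw [h]; exact ⟨S.hDU hy', hy'X⟩
  have hn1 : y0 ∉ ({y2, y'} : Finset V) := by
    rw [mem_insert, mem_singleton]
    rintro (h | h)
    · exact hyne h
    · exact hy'0 h.symm
  have hn2 : y2 ∉ ({y'} : Finset V) := by
    rw [mem_singleton]
    exact fun h => hy'2 h.symm
  have hacc := rs1_acc R {y0, y2, y'} S.hDU S.hU hXU hbase hw0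
  rw [sum_insert hn1, sum_insert hn2, sum_singleton, hwy0, hwy2, hwy'] at hacc
  obtain ⟨k, hk⟩ := hS2
  obtain ⟨s, hs⟩ : ∃ s : ℕ, s = ∑ v ∈ X, (N R v ∩ X).card := ⟨_, rfl⟩
  rw [← hs] at hacc hk hS1
  -- the case in which the sum over `X` is large enough
  by_cases hbb : b = b2
  · have hXc : X.card ≤ 2 := by
      have : X = {a, b} := by
        ext x
        rw [hmemX, mem_insert, mem_singleton, ← hbb]
        tauto
      rw [this]
      exact card_le_two
    omega
  · have hXc : X.card ≤ 3 := by rw [hX]; exact card_le_three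
    by_cases hgood : 4 ≤ dg R y' ∨ 2 ≤ (N R y' ∩ X).card
    · rcases hgood with h | h <;> omega
    · push Not at hgood
      obtain ⟨hgo1, hgo2⟩ := hgood
      by_cases hDX1 : (D ∩ X).card ≤ 1
      · omega
      -- the unique neighbour of `y'` in `X` is `a`
      have huniq : ∀ x z, R.Adj y' x → R.Adj y' z → x ∈ X → z ∈ X → x = z := by
        intro x z hx hz hxX hzX
        exact card_le_one.mp (by omega) x (mem_inter.mpr ⟨(mem_N R).mpr hx, hxX⟩) z
          (mem_inter.mpr ⟨(mem_N R).mpr hz, hzX⟩)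
      have hya : R.Adj y' a := by
        obtain ⟨p, hp1, hp2⟩ := rs1_com S hy' hy0 (by rw [hg0 y0 hy0 hd0]; exact hyg')
        obtain ⟨q, hq1, hq2⟩ := rs1_com S hy' hy2 (by rw [hg0 y2 hy2 hd2]; exact hyg')
        have hpN : p ∈ N R y0 := (mem_N R).mpr hp2
        have hqN : q ∈ N R y2 := (mem_N R).mpr hq2
        rw [hN0, mem_insert, mem_singleton] at hpN
        rw [hN2, mem_insert, mem_singleton] at hqN
        rcases hpN with h | h
        · exact h ▸ hp1
        · rcases hqN with h' | h'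
          · exact h' ▸ hq1
          · exact absurd (huniq b b2 (h ▸ hp1) (h' ▸ hq1) hbX hb2X) hbb
      -- a further vertex
      have hfin : ∀ x m, x ∈ D → x ∈ X → R.Adj x m → R.Adj y' m → m ∉ X →
          -1 ≤ ∑ v ∈ U, ((dg R v : ℤ) - 1) - 2 * (D.card : ℤ) := by
        intro x m hxD hxX hxm hym hmX
        have hxy : x ≠ y' := fun h => hy'X (h ▸ hxX)
        have hwm := rs1_mid S hg0 (X := X) hy' hyg' hxX hxy hxm hym
        have hm0 : m ≠ y0 := rs1_ne S hg0 hy' hyg' hym hy0 hd0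
        have hm2 : m ≠ y2 := rs1_ne S hg0 hy' hyg' hym hy2 hd2
        have hmU : m ∈ U := S.hU x (hXU hxX) ((mem_N R).mpr hxm)
        have hbase2 : ({m, y0, y2, y'} : Finset V) ⊆ U \ X := by
          intro z hz
          rw [mem_insert] at hz
          rcases hz with h | h
          · rw [mem_sdiff, h]
            exact ⟨hmU, hmX⟩
          · exact hbase h
        have hn3 : m ∉ ({y0, y2, y'} : Finset V) := by
          rw [mem_insert, mem_insert, mem_singleton]
          rintro (h | h | h)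
          · exact hm0 h
          · exact hm2 h
          · exact hym.ne h.symm
        have hacc2 := rs1_acc R {m, y0, y2, y'} S.hDU S.hU hXU hbase2 hw0
        rw [sum_insert hn3, sum_insert hn1, sum_insert hn2, sum_singleton, hwy0, hwy2, hwy',
          ← hs] at hacc2
        omega
      by_cases haD : a ∈ D
      · obtain ⟨m, hm1, hm2⟩ := rs1_com S haD hy' (by rw [hgX a haD haX]; exact hyg'.symm)
        refine hfin a m haD haX hm1 hm2 fun hmX => ?_
        exact hm1.ne (huniq a m hya hm2 haX hmX)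
      · have hsubD : D ∩ X ⊆ {b, b2} := by
          intro x hx
          rw [mem_inter, hmemX] at hx
          rw [mem_insert, mem_singleton]
          rcases hx with ⟨h1, h | h⟩
          · exact absurd (h ▸ h1) haD
          · exact h
        have hDX2 : (D ∩ X).card = 2 := by
          have := (card_le_card hsubD).trans card_le_two
          omega
        have hDXe : D ∩ X = {b, b2} :=
          eq_of_subset_of_card_le hsubD (by rw [hDX2]; exact card_le_two)
        have hbD : b ∈ D := (mem_inter.mp (hDXe ▸ mem_insert_self b {b2})).1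
        have hb2D : b2 ∈ D :=
          (mem_inter.mp (hDXe ▸ mem_insert_of_mem (mem_singleton_self b2))).1
        have hlast : ∀ x, x ∈ D → x ∈ X → ¬ R.Adj x a →
            -1 ≤ ∑ v ∈ U, ((dg R v : ℤ) - 1) - 2 * (D.card : ℤ) := by
          intro x hxD hxX hxa
          obtain ⟨m, hm1, hm2⟩ := rs1_com S hxD hy' (by rw [hgX x hxD hxX]; exact hyg'.symm)
          refine hfin x m hxD hxX hm1 hm2 fun hmX => ?_
          exact hxa ((huniq a m hya hm2 haX hmX) ▸ hm1)
        by_cases h1 : R.Adj b a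
        · by_cases h2 : R.Adj b2 a
          · have key : ∀ f : V → ℕ, ∑ v ∈ X, f v = f a + (f b + f b2) := by
              intro f
              have hn4 : a ∉ ({b, b2} : Finset V) := by
                rw [mem_insert, mem_singleton]
                rintro (h | h)
                · exact hba h.symm
                · exact hb2a h.symm
              rw [hX, sum_insert hn4, sum_pair hbb]
            rw [key] at hs
            have g1 : 2 ≤ (N R a ∩ X).card := by
              have hsub : ({b, b2} : Finset V) ⊆ N R a ∩ X := by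
                intro z hz
                rw [mem_insert, mem_singleton] at hz
                rw [mem_inter]
                rcases hz with h | h
                · rw [h]; exact ⟨(mem_N R).mpr h1.symm, hbX⟩
                · rw [h]; exact ⟨(mem_N R).mpr h2.symm, hb2X⟩
              have := card_le_card hsub
              rwa [card_pair hbb] at this
            have g2 := hmeet b hbD
            have g3 := hmeet b2 hb2D
            omega
          · exact hlast b2 hb2D hb2X h2
        · exact hlast b hbD hbX h1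

theorem rs_case1 {R : SimpleGraph V} [DecidableRel R.Adj] {U D : Finset V} {ι κ : Type*}
    {cls : V → ι} {grp : V → κ} (S : RS R U D cls grp) {g0 : κ}
    (hg0 : ∀ y ∈ D, dg R y = 2 → grp y = g0) {y0 y2 : V} (hy0 : y0 ∈ D) (hy2 : y2 ∈ D)
    (hd0 : dg R y0 = 2) (hd2 : dg R y2 = 2) (hne : cls y0 ≠ cls y2) :
    -1 ≤ ∑ v ∈ U, ((dg R v : ℤ) - 1) - 2 * (D.card : ℤ) := by
  obtain ⟨a, ha0, ha2⟩ := S.hc y0 hy0 y2 hy2 hne
  obtain ⟨b, hba, hN0, hb0⟩ := lemR_pair R hd0 ha0
  obtain ⟨b2, hb2a, hN2, hb2⟩ := lemR_pair R hd2 ha2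
  by_cases hadj : R.Adj y0 y2
  · have e0 : y2 = b := by
      have : y2 ∈ N R y0 := (mem_N R).mpr hadj
      rw [hN0, mem_insert, mem_singleton] at this
      rcases this with h | h
      · exact absurd h ha2.ne
      · exact h
    have e2 : y0 = b2 := by
      have : y0 ∈ N R y2 := (mem_N R).mpr hadj.symm
      rw [hN2, mem_insert, mem_singleton] at this
      rcases this with h | h
      · exact absurd h ha0.ne
      · exact h
    rw [← e0] at hN0
    rw [← e2] at hN2
    exact rs1_case1a S hg0 hy0 hy2 hd0 hne ha0 hN0 hN2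
  · exact rs1_case1b S hg0 hy0 hy2 hd0 hd2 hne ha0 ha2 hb0 hb2 hba hb2a hN0 hN2 hadj

end Pool.Agent.Helper38.RE
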