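import Pool.Agent.Helper38.RE.RSdef

/-! Project RE2 (MP_cc4a3b_co), piece RS2: all cheap elements have the same class. -/

set_option autoImplicit false
set_option linter.unusedSectionVars false

namespace Pool.Agent.Helper38.RE

open Finset

variable {V : Type*} [Fintype V] [DecidableEq V]

/-- accounting with one removed vertex, the vertices outside `D` are kept -/
theorem rs2_total (R : SimpleGraph V) [DecidableRel R.Adj] {U D C : Finset V} {y' : V}
    (hDU : D ⊆ U) (hU : ∀ v ∈ U, N R v ⊆ U) (h1 : ∀ v ∈ U, 1 ≤ dg R v) (hC : C ⊆ D)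
    (hy' : y' ∈ D) (hyC : y' ∉ C) (hCd : ∀ y ∈ C, dg R y = 2)
    (hD3 : ∀ v ∈ D, v ∉ C → 3 ≤ dg R v) (hMC : ∀ y ∈ C, ¬ R.Adj y y')
    (hnb : ∀ y ∈ C, 1 ≤ (N R y ∩ N R y').card) :
    -3 + ∑ m ∈ N R y', ((dg R m : ℤ) - (if m ∈ D then 2 else 0) - ((N R m ∩ C).card : ℤ)) +
      ((C.filter fun y => N R y ⊆ N R y').card : ℤ) ≤
      ∑ v ∈ U, ((dg R v : ℤ) - 1) - 2 * (D.card : ℤ) := by
  have hyU : y' ∈ U := hDU hy'
  have ha := acc R (X := {y'}) (by simpa using hyU) (fun v hv => hU v (by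
    rw [mem_singleton] at hv; rw [hv]; exact hyU))
  have ha' : ∑ v ∈ U \ {y'}, ((dg R v : ℤ) + ((N R v ∩ {y'}).card : ℤ)) ≤
      ∑ v ∈ U, (dg R v : ℤ) := by
    have h : ∑ v ∈ U \ {y'}, (dg R v + (N R v ∩ {y'}).card) ≤ ∑ v ∈ U, dg R v := by
      rw [ha]; exact Nat.le_add_right _ _
    exact_mod_cast h
  have c1 : ((U \ {y'}).card : ℤ) + 1 = U.card := by
    have := card_sdiff_add_card_eq_card (show {y'} ⊆ U by simpa using hyU)
    rw [card_singleton] at this
    exact_mod_cast this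
  have c2 : ∑ v ∈ U \ {y'}, (if v ∈ D then (2 : ℤ) else 0) + 2 = 2 * (D.card : ℤ) := by
    have e : (U \ {y'}).filter (fun v => v ∈ D) = D \ {y'} := by
      ext v
      simp only [mem_filter, mem_sdiff, mem_singleton]
      constructor
      · rintro ⟨⟨_, h⟩, h'⟩; exact ⟨h', h⟩
      · rintro ⟨h, h'⟩; exact ⟨⟨hDU h, h'⟩, h⟩
    rw [← sum_filter, e, sum_const, nsmul_eq_mul]
    have := card_sdiff_add_card_eq_card (show {y'} ⊆ D by simpa using hy')
    rw [card_singleton] at this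
    have h : ((D \ {y'}).card : ℤ) + 1 = D.card := by exact_mod_cast this
    linarith
  have e5 : ∑ v ∈ U, ((dg R v : ℤ) - 1) = ∑ v ∈ U, (dg R v : ℤ) - (U.card : ℤ) := by
    rw [sum_sub_distrib]
    simp
  have hf : ∑ v ∈ U \ {y'}, ((if v ∈ N R y' then (dg R v : ℤ) - (if v ∈ D then 2 else 0) else 0) -
      (if v ∈ C then (1 : ℤ) else 0)) ≤
      ∑ v ∈ U \ {y'}, ((dg R v : ℤ) + ((N R v ∩ {y'}).card : ℤ) - 1 -
        (if v ∈ D then (2 : ℤ) else 0)) := by
    refine sum_le_sum fun v hv => ?_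
    have hvU : v ∈ U := (mem_sdiff.1 hv).1
    have g1 := h1 v hvU
    by_cases hM : v ∈ N R y'
    · have hvC : v ∉ C := fun h => hMC v h ((mem_N' R).1 hM)
      have e : N R v ∩ {y'} = {y'} := by
        rw [inter_eq_right, singleton_subset_iff]
        exact (mem_N R).2 ((mem_N' R).1 hM)
      rw [if_pos hM, if_neg hvC, e, card_singleton]
      push_cast
      linarith
    · rw [if_neg hM]
      have g0 : (0 : ℤ) ≤ ((N R v ∩ {y'}).card : ℤ) := Int.natCast_nonneg _
      by_cases hvC : v ∈ C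
      · rw [if_pos hvC, if_pos (hC hvC), hCd v hvC]
        push_cast
        linarith
      · rw [if_neg hvC]
        by_cases hvD : v ∈ D
        · rw [if_pos hvD]
          have g3 : (3 : ℤ) ≤ (dg R v : ℤ) := by exact_mod_cast hD3 v hvD hvC
          linarith
        · rw [if_neg hvD]
          have g3 : (1 : ℤ) ≤ (dg R v : ℤ) := by exact_mod_cast g1
          linarith
  have hsplit : ∑ v ∈ U \ {y'}, ((if v ∈ N R y' then (dg R v : ℤ) - (if v ∈ D then 2 else 0)
      else 0) - (if v ∈ C then (1 : ℤ) else 0)) =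
      ∑ m ∈ N R y', ((dg R m : ℤ) - (if m ∈ D then 2 else 0)) - (C.card : ℤ) := by
    rw [sum_sub_distrib, ← sum_filter, ← sum_filter]
    have e1 : (U \ {y'}).filter (fun v => v ∈ N R y') = N R y' := by
      ext v
      simp only [mem_filter, mem_sdiff, mem_singleton]
      constructor
      · rintro ⟨_, h⟩; exact h
      · intro h
        exact ⟨⟨hU y' hyU h, fun e => ((mem_N R).1 h).ne e.symm⟩, h⟩
    have e2 : (U \ {y'}).filter (fun v => v ∈ C) = C := by
      ext v
      simp only [mem_filter, mem_sdiff, mem_singleton]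
      constructor
      · rintro ⟨_, h⟩; exact h
      · intro h
        exact ⟨⟨hDU (hC h), fun e => hyC (e ▸ h)⟩, h⟩
    rw [e1, e2]
    simp
  have hg : ∑ v ∈ U \ {y'}, ((dg R v : ℤ) + ((N R v ∩ {y'}).card : ℤ) - 1 -
        (if v ∈ D then (2 : ℤ) else 0)) =
      ∑ v ∈ U \ {y'}, ((dg R v : ℤ) + ((N R v ∩ {y'}).card : ℤ)) - ((U \ {y'}).card : ℤ) -
        ∑ v ∈ U \ {y'}, (if v ∈ D then (2 : ℤ) else 0) := by
    rw [sum_sub_distrib, sum_sub_distrib]
    simp
  have hdc : (C.card : ℤ) + ((C.filter fun y => N R y ⊆ N R y').card : ℤ) ≤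
      ∑ m ∈ N R y', ((N R m ∩ C).card : ℤ) := by
    have h := sum_inter_comm R (N R y') C
    have h' : ∑ m ∈ N R y', ((N R m ∩ C).card : ℤ) = ∑ w ∈ C, ((N R w ∩ N R y').card : ℤ) := by
      exact_mod_cast h
    rw [h', card_filter]
    push_cast
    have e : (C.card : ℤ) = ∑ _w ∈ C, (1 : ℤ) := by simp
    rw [e, ← sum_add_distrib]
    refine sum_le_sum fun w hw => ?_
    split_ifs with h2
    · rw [inter_eq_left.2 h2]
      have := hCd w hw
      have h3 : ((N R w).card : ℤ) = 2 := by exact_mod_cast this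
      rw [h3]
      norm_num
    · have := hnb w hw
      have h3 : (1 : ℤ) ≤ ((N R w ∩ N R y').card : ℤ) := by exact_mod_cast this
      linarith
  have hs : ∑ m ∈ N R y', ((dg R m : ℤ) - (if m ∈ D then 2 else 0) - ((N R m ∩ C).card : ℤ)) =
      ∑ m ∈ N R y', ((dg R m : ℤ) - (if m ∈ D then 2 else 0)) -
        ∑ m ∈ N R y', ((N R m ∩ C).card : ℤ) := sum_sub_distrib _ _
  rw [hs, e5]
  linarith

theorem rs_case2 {R : SimpleGraph V} [DecidableRel R.Adj] {U D : Finset V} {ι κ : Type*}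
    {cls : V → ι} {grp : V → κ} (S : RS R U D cls grp) {c0 : ι}
    (hc0 : ∀ y ∈ D, dg R y = 2 → cls y = c0) :
    -1 ≤ ∑ v ∈ U, ((dg R v : ℤ) - 1) - 2 * (D.card : ℤ) := by
  classical
  obtain ⟨C, hC⟩ : ∃ C : Finset V, C = D.filter (fun y => dg R y = 2) := ⟨_, rfl⟩
  have hmC : ∀ y, y ∈ C ↔ y ∈ D ∧ dg R y = 2 := by
    intro y; rw [hC, mem_filter]
  have hD3 : ∀ v ∈ D, v ∉ C → 3 ≤ dg R v := by
    intro v hv hvC
    have h2 := S.h2 v hv
    by_contra hcon
    exact hvC ((hmC v).2 ⟨hv, by omega⟩)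
  rcases C.eq_empty_or_nonempty with hCe | ⟨yc, hyc⟩
  · -- no cheap element
    have hki := lemR_ki R (X := ∅) S.hDU S.hU S.h1 (empty_subset _)
    have hsum : 0 ≤ ∑ y ∈ D \ ∅, (((N R y ∩ ∅).card : ℤ) + (dg R y : ℤ) - 3) := by
      apply sum_nonneg
      intro y hy
      have h3 := hD3 y (mem_sdiff.mp hy).1 (by rw [hCe]; exact notMem_empty _)
      have h3' : (3 : ℤ) ≤ (dg R y : ℤ) := by exact_mod_cast h3
      have h4 : (0 : ℤ) ≤ ((N R y ∩ ∅).card : ℤ) := Int.natCast_nonneg _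
      linarith
    simp only [sum_empty, card_empty, inter_empty, Nat.cast_zero, mul_zero, sub_zero,
      zero_add] at hki hsum
    linarith
  by_contra hcon
  push Not at hcon
  obtain ⟨hycD, hycd⟩ := (hmC yc).1 hyc
  obtain ⟨y', hy', hg'⟩ := S.hO yc hycD
  have hCc : ∀ y ∈ C, cls y = c0 := fun y hy => hc0 y ((hmC y).1 hy).1 ((hmC y).1 hy).2
  have hCg : ∀ y ∈ C, grp y = grp yc := fun y hy =>
    S.hcg y ((hmC y).1 hy).1 yc hycD (by rw [hCc y hy, hCc yc hyc])
  have hCD : C ⊆ D := fun y hy => ((hmC y).1 hy).1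
  have hCd : ∀ y ∈ C, dg R y = 2 := fun y hy => ((hmC y).1 hy).2
  have hy'C : y' ∉ C := fun h => hg' (hCg y' h)
  have hMC : ∀ y ∈ C, ¬ R.Adj y y' := by
    intro y hy ha
    have := S.hs y (hCD hy) (hCd y hy) y' hy' ha
    exact hg' (this.trans (hCg y hy))
  have hcl' : ∀ u ∈ D, grp u = grp yc → cls u ≠ cls y' := fun u hu hg h =>
    hg' ((S.hcg u hu y' hy' h).symm.trans hg)
  have hnb : ∀ y ∈ C, 1 ≤ (N R y ∩ N R y').card := by
    intro y hy
    obtain ⟨x, hx1, hx2⟩ := S.hc y (hCD hy) y' hy' (hcl' y (hCD hy) (hCg y hy))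
    exact lemR_one_le R ((mem_N R).2 hx2) hx1
  have htot := rs2_total R S.hDU S.hU S.h1 hCD hy' hy'C hCd hD3 hMC hnb
  obtain ⟨M, hM⟩ : ∃ M : Finset V, M = N R y' := ⟨_, rfl⟩
  obtain ⟨σ, hσ⟩ : ∃ σ : V → ℤ, σ = fun m => (dg R m : ℤ) - (if m ∈ D then 2 else 0) -
      ((N R m ∩ C).card : ℤ) := ⟨_, rfl⟩
  obtain ⟨C2, hC2⟩ : ∃ C2 : Finset V, C2 = C.filter fun y => N R y ⊆ M := ⟨_, rfl⟩
  have hsum : ∑ m ∈ M, σ m + (C2.card : ℤ) ≤ 1 := by
    rw [hσ, hC2, hM]
    linarith
  have hmM : ∀ v, v ∈ M ↔ R.Adj y' v := fun v => by rw [hM]; exact mem_N R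
  have hM3 : 3 ≤ M.card := by rw [hM]; exact hD3 y' hy' hy'C
  have hMCd : ∀ m ∈ M, m ∉ C := fun m hm hmc => hMC m hmc ((hmM m).1 hm).symm
  have hy'M : y' ∉ M := fun h => ((hmM y').1 h).ne rfl
  -- cheap elements
  have hC2m : ∀ x ∈ C, ∀ a b, a ≠ b → R.Adj x a → R.Adj x b → a ∈ M → b ∈ M → x ∈ C2 := by
    intro x hx a b hab ha hb haM hbM
    rw [hC2, mem_filter]
    refine ⟨hx, ?_⟩
    have h1 : ({a, b} : Finset V) ⊆ N R x := by
      intro z hz
      rw [mem_insert, mem_singleton] at hz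
      rcases hz with rfl | rfl
      · exact (mem_N R).2 ha
      · exact (mem_N R).2 hb
    have h2 : ({a, b} : Finset V) = N R x := by
      apply eq_of_subset_of_card_le h1
      rw [card_pair hab]
      exact (hCd x hx).le
    rw [← h2]
    intro z hz
    rw [mem_insert, mem_singleton] at hz
    rcases hz with rfl | rfl
    · exact haM
    · exact hbM
  have h3n : ∀ x ∈ C, ∀ a b c, a ≠ b → a ≠ c → b ≠ c → R.Adj x a → R.Adj x b → R.Adj x c →
      False := by
    intro x hx a b c hab hac hbc ha hb hc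
    have h1 : ({a, b, c} : Finset V) ⊆ N R x := by
      intro z hz
      rw [mem_insert, mem_insert, mem_singleton] at hz
      rcases hz with rfl | rfl | rfl
      · exact (mem_N R).2 ha
      · exact (mem_N R).2 hb
      · exact (mem_N R).2 hc
    have h2 := card_le_card h1
    have h3 : ({a, b, c} : Finset V).card = 3 := by
      rw [card_eq_three]
      exact ⟨a, b, c, hab, hac, hbc, rfl⟩
    have h4 : (N R x).card = 2 := hCd x hx
    omega
  -- structure at the elements of M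
  have hst : ∀ m ∈ M, m ∈ D → grp m = grp yc → ∃ h, R.Adj m h ∧ h ∈ M ∧ 0 ≤ σ m ∧
      (σ m = 0 → (∀ z, R.Adj m z → z = y' ∨ z = h ∨ z ∈ C) ∧ ∃ x ∈ C, R.Adj m x) := by
    intro m hm hmD hmg
    obtain ⟨h, hh1, hh2⟩ := S.hc m hmD y' hy' (hcl' m hmD hmg)
    have hhM : h ∈ M := (hmM h).2 hh2
    have hsub : insert y' (insert h (N R m ∩ C)) ⊆ N R m := by
      intro z hz
      rw [mem_insert, mem_insert, mem_inter] at hz
      rcases hz with rfl | rfl | hz
      · exact (mem_N R).2 ((hmM m).1 hm).symm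
      · exact (mem_N R).2 hh1
      · exact hz.1
    have hcard : (insert y' (insert h (N R m ∩ C))).card = (N R m ∩ C).card + 2 := by
      rw [card_insert_of_notMem, card_insert_of_notMem]
      · intro h'
        exact hMCd h hhM (mem_inter.1 h').2
      · intro h'
        rw [mem_insert, mem_inter] at h'
        rcases h' with h' | h'
        · exact hy'M (h' ▸ hhM)
        · exact hy'C h'.2
    have hle := card_le_card hsub
    rw [hcard] at hle
    have hσm : σ m = (dg R m : ℤ) - 2 - ((N R m ∩ C).card : ℤ) := by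
      rw [hσ]
      simp only [if_pos hmD]
    have hle' : ((N R m ∩ C).card : ℤ) + 2 ≤ (dg R m : ℤ) := by exact_mod_cast hle
    refine ⟨h, hh1, hhM, by linarith, fun h0 => ?_⟩
    have hdm : dg R m = (N R m ∩ C).card + 2 := by
      have : (dg R m : ℤ) = ((N R m ∩ C).card : ℤ) + 2 := by linarith
      exact_mod_cast this
    have heq : insert y' (insert h (N R m ∩ C)) = N R m := by
      apply eq_of_subset_of_card_le hsub
      rw [hcard]
      exact hdm.le
    constructor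
    · intro z hz
      have hzN : z ∈ N R m := (mem_N R).2 hz
      rw [← heq, mem_insert, mem_insert, mem_inter] at hzN
      rcases hzN with h' | h' | h'
      · exact Or.inl h'
      · exact Or.inr (Or.inl h')
      · exact Or.inr (Or.inr h'.2)
    · have h3 := hD3 m hmD (hMCd m hm)
      have hpos : 0 < (N R m ∩ C).card := by omega
      obtain ⟨x, hx⟩ := card_pos.1 hpos
      exact ⟨x, (mem_inter.1 hx).2, (mem_N R).1 (mem_inter.1 hx).1⟩
  have hnD : ∀ m ∈ M, m ∉ D → 1 ≤ σ m := by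
    intro m hm hmD
    have hsub : insert y' (N R m ∩ C) ⊆ N R m := by
      intro z hz
      rw [mem_insert, mem_inter] at hz
      rcases hz with rfl | hz
      · exact (mem_N R).2 ((hmM m).1 hm).symm
      · exact hz.1
    have hle := card_le_card hsub
    rw [card_insert_of_notMem (fun h' => hy'C (mem_inter.1 h').2)] at hle
    have hσm : σ m = (dg R m : ℤ) - 0 - ((N R m ∩ C).card : ℤ) := by
      rw [hσ]
      simp only [if_neg hmD]
    have hle' : ((N R m ∩ C).card : ℤ) + 1 ≤ (dg R m : ℤ) := by exact_mod_cast hle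
    linarith
  have hoD : ∀ m ∈ M, m ∈ D → grp m ≠ grp yc → 1 ≤ σ m := by
    intro m hm hmD hmg
    have he : N R m ∩ C = ∅ := by
      rw [eq_empty_iff_forall_notMem]
      intro x hx
      have hxC := (mem_inter.1 hx).2
      have hadj : R.Adj m x := (mem_N R).1 (mem_inter.1 hx).1
      have := S.hs x (hCD hxC) (hCd x hxC) m hmD hadj.symm
      exact hmg (this.trans (hCg x hxC))
    have h3 := hD3 m hmD (hMCd m hm)
    have hσm : σ m = (dg R m : ℤ) - 2 - ((N R m ∩ C).card : ℤ) := by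
      rw [hσ]
      simp only [if_pos hmD]
    rw [hσm, he, card_empty]
    have h3' : (3 : ℤ) ≤ (dg R m : ℤ) := by exact_mod_cast h3
    push_cast
    linarith
  have hσ0 : ∀ m ∈ M, 0 ≤ σ m := by
    intro m hm
    by_cases hmD : m ∈ D
    · by_cases hmg : grp m = grp yc
      · obtain ⟨_, _, _, h, _⟩ := hst m hm hmD hmg
        exact h
      · have := hoD m hm hmD hmg
        linarith
    · have := hnD m hm hmD
      linarith
  have hU2 : ∀ m ∈ M, σ m + (C2.card : ℤ) ≤ 1 := by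
    intro m hm
    have := single_le_sum (f := σ) (fun i hi => hσ0 i hi) hm
    linarith
  have hU1 : ∀ m ∈ M, ∀ m' ∈ M, m ≠ m' → σ m + σ m' + (C2.card : ℤ) ≤ 1 := by
    intro m hm m' hm' hne
    have h1 : ({m, m'} : Finset V) ⊆ M := by
      intro z hz
      rw [mem_insert, mem_singleton] at hz
      rcases hz with rfl | rfl
      · exact hm
      · exact hm'
    have h2 := sum_le_sum_of_subset_of_nonneg (f := σ) h1 (fun i hi _ => hσ0 i hi)
    rw [sum_pair hne] at h2
    linarith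
  have hC2c : ∀ x ∈ C2, ∀ x' ∈ C2, x = x' := by
    intro x hx x' hx'
    by_contra hne
    have h1 : 2 ≤ C2.card := by
      have : ({x, x'} : Finset V) ⊆ C2 := by
        intro z hz
        rw [mem_insert, mem_singleton] at hz
        rcases hz with rfl | rfl
        · exact hx
        · exact hx'
      have := card_le_card this
      rwa [card_pair hne] at this
    have h2 : 0 < M.card := by omega
    obtain ⟨m, hm⟩ := card_pos.1 h2
    have h3 := hU2 m hm
    have h4 := hσ0 m hm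
    have h5 : (2 : ℤ) ≤ (C2.card : ℤ) := by exact_mod_cast h1
    linarith
  have hC2p : ∀ x ∈ C2, ∀ m ∈ M, σ m = 0 := by
    intro x hx m hm
    have h1 : 1 ≤ C2.card := card_pos.2 ⟨x, hx⟩
    have h3 := hU2 m hm
    have h4 := hσ0 m hm
    have h5 : (1 : ℤ) ≤ (C2.card : ℤ) := by exact_mod_cast h1
    linarith
  -- the special elements
  obtain ⟨G, hG⟩ : ∃ G : V → Prop, G = fun m => m ∈ M ∧ m ∈ D ∧ grp m = grp yc ∧ cls m ≠ c0 ∧
      σ m = 0 := ⟨_, rfl⟩
  have hGi : ∀ m, G m ↔ m ∈ M ∧ m ∈ D ∧ grp m = grp yc ∧ cls m ≠ c0 ∧ σ m = 0 := by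
    intro m; rw [hG]
  have hσ1 : ∀ m ∈ M, ¬ (m ∈ D ∧ cls m = c0) → ¬ G m → 1 ≤ σ m := by
    intro m hm hnot hGm
    by_cases hmD : m ∈ D
    · by_cases hmg : grp m = grp yc
      · have h0 := hσ0 m hm
        by_contra hlt
        have : σ m = 0 := by omega
        exact hGm ((hGi m).2 ⟨hm, hmD, hmg, fun h => hnot ⟨hmD, h⟩, this⟩)
      · exact hoD m hm hmD hmg
    · exact hnD m hm hmD
  have hG1 : ∀ m1, G m1 → ∃ h, R.Adj m1 h ∧ h ∈ M ∧
      (∀ z, R.Adj m1 z → z = y' ∨ z = h ∨ z ∈ C) ∧ ∃ x ∈ C, R.Adj m1 x := by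
    intro m1 h1
    obtain ⟨a, b, c, _, e⟩ := (hGi m1).1 h1
    obtain ⟨h, k1, k2, _, k4⟩ := hst m1 a b c
    exact ⟨h, k1, k2, (k4 e).1, (k4 e).2⟩
  -- (G2): the other neighbour of a cheap neighbour
  have hG2 : ∀ m1, G m1 → ∀ x ∈ C, R.Adj m1 x → ∀ z, R.Adj x z → z ≠ m1 → R.Adj m1 z := by
    intro m1 h1 x hx hm1x z hxz hzm
    obtain ⟨a, b, c, d, e⟩ := (hGi m1).1 h1
    obtain ⟨w, hw1, hw2⟩ := S.hc x (hCD hx) m1 b (by rw [hCc x hx]; exact d.symm)
    by_cases hwz : w = z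
    · exact hwz ▸ hw2
    · exact (h3n x hx w z m1 hwz (fun h => by rw [h] at hw2; exact hw2.ne rfl) hzm hw1 hxz
        hm1x.symm).elim
  -- (G3)
  have hG3 : ∀ m1, G m1 → ∀ h, h ∈ M → (∀ z, R.Adj m1 z → z = y' ∨ z = h ∨ z ∈ C) →
      ∀ y ∈ C, ¬ R.Adj y m1 → R.Adj y h := by
    intro m1 h1 h hh hz y hy hny
    obtain ⟨a, b, c, d, e⟩ := (hGi m1).1 h1
    obtain ⟨w, hw1, hw2⟩ := S.hc y (hCD hy) m1 b (by rw [hCc y hy]; exact d.symm)
    rcases hz w hw2 with h' | h' | h'
    · exact (hMC y hy (h' ▸ hw1)).elim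
    · exact h' ▸ hw1
    · exfalso
      have hym : y ≠ m1 := fun h => hMCd m1 a (h ▸ hy)
      exact hny (hG2 m1 h1 w h' hw2 y hw1.symm hym).symm
  obtain ⟨m5, m6, h56, h5a, h6a, h5n, h6n⟩ := S.hP y' hy' yc hycD hg'
  rw [hCc yc hyc] at h5n h6n
  have h5M : m5 ∈ M := (hmM m5).2 h5a
  have h6M : m6 ∈ M := (hmM m6).2 h6a
  have hc2n : (0 : ℤ) ≤ (C2.card : ℤ) := Int.natCast_nonneg _
  have hexG : ∃ m1, G m1 := by
    by_contra hno
    push Not at hno
    have k1 := hσ1 m5 h5M h5n (hno m5)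
    have k2 := hσ1 m6 h6M h6n (hno m6)
    have k3 := hU1 m5 h5M m6 h6M h56
    linarith
  obtain ⟨m1, hm1⟩ := hexG
  obtain ⟨h1, hh1a, hh1M, hh1z, x1, hx1C, hx1a⟩ := hG1 m1 hm1
  obtain ⟨hm1M, hm1D, hm1g, hm1c, hm1s⟩ := (hGi m1).1 hm1
  by_cases hA : ∃ m3, m3 ≠ m1 ∧ G m3
  · -- (A)
    obtain ⟨m3, hm31, hm3⟩ := hA
    obtain ⟨h3, hh3a, hh3M, hh3z, x3, hx3C, hx3a⟩ := hG1 m3 hm3
    obtain ⟨hm3M, hm3D, hm3g, hm3c, hm3s⟩ := (hGi m3).1 hm3
    have hcl13 : cls m3 = cls m1 := by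
      rcases S.h2c m3 hm3D m1 hm1D yc hycD (by rw [hm3g, hm1g]) hm1g with h | h | h
      · exact h
      · rw [hCc yc hyc] at h; exact (hm1c h).elim
      · rw [hCc yc hyc] at h; exact (hm3c h).elim
    obtain ⟨p5, p6, hp56, hp5a, hp6a, hp5n, hp6n⟩ := S.hP y' hy' m1 hm1D (by rw [hm1g]; exact hg')
    have hp5M : p5 ∈ M := (hmM p5).2 hp5a
    have hp6M : p6 ∈ M := (hmM p6).2 hp6a
    have e51 : p5 ≠ m1 := fun h => hp5n (by rw [h]; exact ⟨hm1D, rfl⟩)
    have e53 : p5 ≠ m3 := fun h => hp5n (by rw [h]; exact ⟨hm3D, hcl13⟩)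
    have e61 : p6 ≠ m1 := fun h => hp6n (by rw [h]; exact ⟨hm1D, rfl⟩)
    have e63 : p6 ≠ m3 := fun h => hp6n (by rw [h]; exact ⟨hm3D, hcl13⟩)
    by_cases hh : h1 = m3
    · -- every cheap element is adjacent to m1 or m3
      have hor : ∀ y ∈ C, R.Adj y m1 ∨ R.Adj y m3 := by
        intro y hy
        by_cases h : R.Adj y m1
        · exact Or.inl h
        · right
          have := hG3 m1 hm1 h1 hh1M hh1z y hy h
          rwa [hh] at this
      have key : ∀ p ∈ M, p ≠ m1 → p ≠ m3 → σ p = 0 → ∃ y ∈ C2, y ∈ C ∧ R.Adj y p := by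
        intro p hpM hp1 hp3 hps
        have hpD : p ∈ D := by
          by_contra h
          have := hnD p hpM h
          linarith
        have hpg : grp p = grp yc := by
          by_contra h
          have := hoD p hpM hpD h
          linarith
        obtain ⟨_, _, _, _, k4⟩ := hst p hpM hpD hpg
        obtain ⟨_, y, hyC, hyp⟩ := k4 hps
        rcases hor y hyC with h | h
        · exact ⟨y, hC2m y hyC p m1 hp1 hyp.symm h hpM hm1M, hyC, hyp.symm⟩
        · exact ⟨y, hC2m y hyC p m3 hp3 hyp.symm h hpM hm3M, hyC, hyp.symm⟩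
      have f5 := hσ0 p5 hp5M
      have f6 := hσ0 p6 hp6M
      by_cases k5 : σ p5 = 0
      · obtain ⟨y5, hy5, hy5C, hy5a⟩ := key p5 hp5M e51 e53 k5
        have k6 : σ p6 = 0 := hC2p y5 hy5 p6 hp6M
        obtain ⟨y6, hy6, hy6C, hy6a⟩ := key p6 hp6M e61 e63 k6
        have hyy := hC2c y5 hy5 y6 hy6
        rw [← hyy] at hy6a
        rcases hor y5 hy5C with h | h
        · exact h3n y5 hy5C p5 p6 m1 hp56 e51 e61 hy5a hy6a h
        · exact h3n y5 hy5C p5 p6 m3 hp56 e53 e63 hy5a hy6a h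
      · by_cases k6 : σ p6 = 0
        · obtain ⟨y6, hy6, hy6C, hy6a⟩ := key p6 hp6M e61 e63 k6
          exact k5 (hC2p y6 hy6 p5 hp5M)
        · have := hU1 p5 hp5M p6 hp6M hp56
          have k5' : 1 ≤ σ p5 := by omega
          have k6' : 1 ≤ σ p6 := by omega
          linarith
    · -- the partners are not m1, m3
      have hn13 : ¬ R.Adj m1 m3 := by
        intro h
        rcases hh1z m3 h with h' | h' | h'
        · exact hy'M (h' ▸ hm3M)
        · exact hh h'.symm
        · exact hMCd m3 hm3M h'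
      have hh3 : h3 ≠ m1 := fun h => hn13 (by rw [h] at hh3a; exact hh3a.symm)
      have hx1n : ¬ R.Adj x1 m3 := fun h => hn13 (hG2 m1 hm1 x1 hx1C hx1a m3 h hm31)
      have hx3n : ¬ R.Adj x3 m1 := fun h => hn13 (hG2 m3 hm3 x3 hx3C hx3a m1 h hm31.symm).symm
      have k1 := hG3 m3 hm3 h3 hh3M hh3z x1 hx1C hx1n
      have k3 := hG3 m1 hm1 h1 hh1M hh1z x3 hx3C hx3n
      have j1 := hC2m x1 hx1C m1 h3 hh3.symm hx1a.symm k1 hm1M hh3M
      have j3 := hC2m x3 hx3C m3 h1 (fun h => hh h.symm) hx3a.symm k3 hm3M hh1M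
      have := hC2c x1 j1 x3 j3
      exact hx1n (by rw [this]; exact hx3a.symm)
  · -- (B)
    push Not at hA
    obtain ⟨p, hpM, hpn, hp1⟩ : ∃ p ∈ M, ¬ (p ∈ D ∧ cls p = c0) ∧ p ≠ m1 := by
      by_cases h : m5 = m1
      · exact ⟨m6, h6M, h6n, fun h' => h56 (h.trans h'.symm)⟩
      · exact ⟨m5, h5M, h5n, h⟩
    have hps := hσ1 p hpM hpn (hA p hp1)
    have hps1 := hU2 p hpM
    have hC2z : ∀ y, y ∉ C2 := by
      intro y hy
      have := hC2p y hy p hpM
      linarith
    have hms : ∀ m ∈ M, m ≠ p → σ m = 0 := by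
      intro m hm hmp
      have k1 := hU1 m hm p hpM hmp
      have k2 := hσ0 m hm
      omega
    have hmc : ∀ m ∈ M, m ≠ m1 → m ≠ p → m ∈ D ∧ cls m = c0 := by
      intro m hm hm1' hmp
      by_contra h
      have k1 := hσ1 m hm h (hA m hm1')
      have k2 := hms m hm hmp
      linarith
    have hmh : ∀ m ∈ M, m ≠ m1 → m ≠ p → m = h1 := by
      intro m hm hm1' hmp
      by_contra hmh
      obtain ⟨hmD, hmcl⟩ := hmc m hm hm1' hmp
      have hmg : grp m = grp yc := S.hcg m hmD yc hycD (by rw [hmcl, hCc yc hyc])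
      obtain ⟨_, _, _, _, k4⟩ := hst m hm hmD hmg
      obtain ⟨_, y, hyC, hym⟩ := k4 (hms m hm hmp)
      by_cases h : R.Adj y m1
      · exact hC2z y (hC2m y hyC m m1 hm1' hym.symm h hm hm1M)
      · have k := hG3 m1 hm1 h1 hh1M hh1z y hyC h
        exact hC2z y (hC2m y hyC m h1 hmh hym.symm k hm hh1M)
    -- the third element of M
    obtain ⟨m2, hm2M, hm21, hm2p⟩ : ∃ m2 ∈ M, m2 ≠ m1 ∧ m2 ≠ p := by
      by_contra h
      push Not at h
      have hsub : M ⊆ {m1, p} := by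
        intro m hm
        rw [mem_insert, mem_singleton]
        by_cases h' : m = m1
        · exact Or.inl h'
        · exact Or.inr (h m hm h')
      have := card_le_card hsub
      have h2 : ({m1, p} : Finset V).card ≤ 2 := card_le_two
      omega
    have hm2h : m2 = h1 := hmh m2 hm2M hm21 hm2p
    obtain ⟨hm2D, hm2c⟩ := hmc m2 hm2M hm21 hm2p
    have hm2g : grp m2 = grp yc := S.hcg m2 hm2D yc hycD (by rw [hm2c, hCc yc hyc])
    have hpn1 : ¬ (p ∈ D ∧ cls p = cls m1) := by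
      obtain ⟨q5, q6, hq56, hq5a, hq6a, hq5n, hq6n⟩ := S.hP y' hy' m1 hm1D (by rw [hm1g]; exact hg')
      have hq5M : q5 ∈ M := (hmM q5).2 hq5a
      have hq6M : q6 ∈ M := (hmM q6).2 hq6a
      have e51 : q5 ≠ m1 := fun h => hq5n (by rw [h]; exact ⟨hm1D, rfl⟩)
      have e61 : q6 ≠ m1 := fun h => hq6n (by rw [h]; exact ⟨hm1D, rfl⟩)
      by_cases h5 : q5 = p
      · rw [← h5]; exact hq5n
      · by_cases h6 : q6 = p
        · rw [← h6]; exact hq6n
        · exact (hq56 ((hmh q5 hq5M e51 h5).trans (hmh q6 hq6M e61 h6).symm)).elim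
    by_cases hpD : p ∈ D
    · have hpg : grp p ≠ grp yc := by
        intro hpg
        rcases S.h2c p hpD m1 hm1D yc hycD (by rw [hpg, hm1g]) hm1g with h | h | h
        · exact hpn1 ⟨hpD, h⟩
        · rw [hCc yc hyc] at h; exact hm1c h
        · rw [hCc yc hyc] at h; exact hpn ⟨hpD, h⟩
      have hclne : cls x1 ≠ cls p := fun h =>
        hpg ((S.hcg x1 (hCD hx1C) p hpD h).symm.trans (hCg x1 hx1C))
      obtain ⟨z, hz1, hz2⟩ := S.hc x1 (hCD hx1C) p hpD hclne
      by_cases hzm : z = m1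
      · rw [hzm] at hz2
        rcases hh1z p hz2.symm with h | h | h
        · exact hy'M (h ▸ hpM)
        · exact hm2p (hm2h.trans h.symm)
        · exact hMCd p hpM h
      · have hmz := hG2 m1 hm1 x1 hx1C hx1a z hz1 hzm
        rcases hh1z z hmz with h | h | h
        · exact hMC x1 hx1C (h ▸ hz1)
        · -- z = m2
          have hz : z = m2 := h.trans hm2h.symm
          rw [hz] at hz2 hmz
          obtain ⟨h2, _, _, _, k4⟩ := hst m2 hm2M hm2D hm2g
          obtain ⟨k5, _⟩ := k4 (hms m2 hm2M hm2p)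
          have l1 : m1 = h2 := by
            rcases k5 m1 hmz.symm with h | h | h
            · exact (hy'M (h ▸ hm1M)).elim
            · exact h
            · exact (hMCd m1 hm1M h).elim
          have l2 : p = h2 := by
            rcases k5 p hz2.symm with h | h | h
            · exact (hy'M (h ▸ hpM)).elim
            · exact h
            · exact (hMCd p hpM h).elim
          exact hp1 (l2.trans l1.symm)
        · have := S.hs z (hCD h) (hCd z h) p hpD hz2.symm
          exact hpg (this.trans (hCg z h))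
    · -- p is not in D
      have hCp : ∀ y ∈ C, ¬ R.Adj p y := by
        intro y hyC hpy
        by_cases h : R.Adj y m1
        · exact hC2z y (hC2m y hyC p m1 hp1 hpy.symm h hpM hm1M)
        · have k := hG3 m1 hm1 h1 hh1M hh1z y hyC h
          exact hC2z y (hC2m y hyC p h1 (fun e => hm2p (hm2h.trans e.symm)) hpy.symm k hpM hh1M)
      have he : N R p ∩ C = ∅ := by
        rw [eq_empty_iff_forall_notMem]
        intro x hx
        exact hCp x (mem_inter.1 hx).2 ((mem_N R).1 (mem_inter.1 hx).1)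
      have hσp : σ p = (dg R p : ℤ) - 0 - ((N R p ∩ C).card : ℤ) := by
        rw [hσ]
        simp only [if_neg hpD]
      rw [he, card_empty] at hσp
      have hd : dg R p ≤ 1 := by
        have : (dg R p : ℤ) ≤ 1 := by
          push_cast at hσp
          linarith
        exact_mod_cast this
      have hpU : p ∈ U := S.hU y' (S.hDU hy') (by rw [← hM]; exact hpM)
      refine S.hQ p hpU hpD y' hy' ?_
      symm
      apply eq_of_subset_of_card_le
      · rw [singleton_subset_iff]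
        exact (mem_N R).2 ((hmM p).1 hpM).symm
      · rw [card_singleton]
        exact hd

end Pool.Agent.Helper38.RE
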