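import Pool.Agent.Helper38.RE.LemR

/-! Project RE2 (MP_cc4a3b_co, extension to all k): common hypotheses of the last counting step.
`R` is a graph, `U` closed under neighbours, `D` a subset of `U`, every `v ∈ D` has a class `cls v`
and a group `grp v` (a group is one or two classes). -/

set_option autoImplicit false

namespace Pool.Agent.Helper38.RE

open Finset

variable {V : Type*} [Fintype V] [DecidableEq V]

structure RS (R : SimpleGraph V) [DecidableRel R.Adj] (U D : Finset V) {ι κ : Type*}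
    (cls : V → ι) (grp : V → κ) : Prop where
  hDU : D ⊆ U
  hU : ∀ v ∈ U, N R v ⊆ U
  h1 : ∀ v ∈ U, 1 ≤ dg R v
  h2 : ∀ v ∈ D, 2 ≤ dg R v
  hc : ∀ u ∈ D, ∀ v ∈ D, cls u ≠ cls v → ∃ x, R.Adj u x ∧ R.Adj v x
  hcg : ∀ u ∈ D, ∀ v ∈ D, cls u = cls v → grp u = grp v
  h2c : ∀ u ∈ D, ∀ v ∈ D, ∀ w ∈ D, grp u = grp v → grp v = grp w →
    cls u = cls v ∨ cls v = cls w ∨ cls u = cls w
  hs : ∀ u ∈ D, dg R u = 2 → ∀ v ∈ D, R.Adj u v → grp v = grp u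
  hO : ∀ u ∈ D, ∃ v ∈ D, grp v ≠ grp u
  hP : ∀ y' ∈ D, ∀ y ∈ D, grp y' ≠ grp y →
    ∃ m5 m6, m5 ≠ m6 ∧ R.Adj y' m5 ∧ R.Adj y' m6 ∧ ¬ (m5 ∈ D ∧ cls m5 = cls y) ∧
      ¬ (m6 ∈ D ∧ cls m6 = cls y)
  hQ : ∀ p ∈ U, p ∉ D → ∀ y' ∈ D, N R p ≠ {y'}

end Pool.Agent.Helper38.RE
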