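import Pool.Agent.Helper38.RE.LemR

/-! Project RE2 (MP_cc4a3b_co): two cheap elements in different groups (from LemR.lean and
LemR2.lean). -/

set_option autoImplicit false
set_option linter.unusedSectionVars false
set_option linter.unusedVariables false

namespace Pool.Agent.Helper38.RE

open Finset

variable {V : Type*} [Fintype V] [DecidableEq V]

theorem two_basic (R : SimpleGraph V) [DecidableRel R.Adj] {U D : Finset V} (hDU : D ⊆ U)
    (hU : ∀ v ∈ U, N R v ⊆ U) (h1 : ∀ v ∈ U, 1 ≤ dg R v) (h2 : ∀ v ∈ D, 2 ≤ dg R v)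
    {ι : Type*} [DecidableEq ι] (grp : V → ι)
    (hc : ∀ u ∈ D, ∀ v ∈ D, grp u ≠ grp v → ∃ x, R.Adj u x ∧ R.Adj v x)
    {y0 y2 : V} (hy0 : y0 ∈ D) (hd0 : dg R y0 = 2) (hy2 : y2 ∈ D) (hd2 : dg R y2 = 2)
    (hne : grp y0 ≠ grp y2) :
    -3 ≤ ∑ v ∈ U, ((dg R v : ℤ) - 1) - 2 * (D.card : ℤ) := by
  obtain ⟨a, ha0, ha2⟩ := hc y0 hy0 y2 hy2 hne
  obtain ⟨b, hba, hN0, hb0⟩ := lemR_pair R hd0 ha0
  obtain ⟨b2, hb2a, hN2, hb2⟩ := lemR_pair R hd2 ha2
  by_cases hadj : R.Adj y0 y2
  · have e0 : y2 = b := by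
      have : y2 ∈ N R y0 := (mem_N R).mpr hadj
      rw [hN0, mem_insert, mem_singleton] at this
      rcases this with h | h
      · exact absurd h ha2.ne
      · exact h
    have e2 : y0 = b2 := by
      have : y0 ∈ N R y2 := (mem_N R).mpr hadj.symm
      rw [hN2, mem_insert, mem_singleton] at this
      rcases this with h | h
      · exact absurd h ha0.ne
      · exact h
    rw [← e0] at hN0
    rw [← e2] at hN2
    exact lemR_case1a R hDU hU h1 h2 grp hc hy0 hy2 hne ha0 ha2 hN0 hN2
  · exact lemR_case1b R hDU hU h1 h2 grp hc hy0 hy2 hd0 hd2 hne ha0 ha2 hb0 hb2 hN0 hN2 hadj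

private theorem two_gen (R : SimpleGraph V) [DecidableRel R.Adj] {U D X P : Finset V} (hDU : D ⊆ U)
    (hU : ∀ v ∈ U, N R v ⊆ U) (h1 : ∀ v ∈ U, 1 ≤ dg R v) (h2 : ∀ v ∈ D, 2 ≤ dg R v)
    (hX : X ⊆ U) (hDX : Disjoint D X)
    (hm : ∀ y ∈ D, dg R y = 2 → ∃ x ∈ X, R.Adj y x)
    (hP : P ⊆ D) (hPX : ∀ y ∈ P, N R y ⊆ X) :
    (P.card : ℤ) - (X.card : ℤ) ≤ ∑ v ∈ U, ((dg R v : ℤ) - 1) - 2 * (D.card : ℤ) := by
  have hki := lemR_ki R hDU hU h1 hX
  have e1 : D ∩ X = ∅ := disjoint_iff_inter_eq_empty.mp hDX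
  have e2 : D \ X = D := sdiff_eq_self_of_disjoint hDX
  rw [e1, e2, card_empty] at hki
  have e3 : 0 ≤ ∑ v ∈ X, ((N R v ∩ X).card : ℤ) := sum_nonneg fun v _ => Int.natCast_nonneg _
  have e4 : (P.card : ℤ) ≤ ∑ y ∈ D, (((N R y ∩ X).card : ℤ) + (dg R y : ℤ) - 3) := by
    calc (P.card : ℤ) = ∑ y ∈ P, (1 : ℤ) := by simp
      _ ≤ ∑ y ∈ P, (((N R y ∩ X).card : ℤ) + (dg R y : ℤ) - 3) := by
          apply sum_le_sum
          intro y hy
          rw [inter_eq_left.mpr (hPX y hy)]
          have g1 := h2 y (hP hy)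
          have g2 : (2 : ℤ) ≤ (dg R y : ℤ) := by exact_mod_cast g1
          change (1 : ℤ) ≤ (dg R y : ℤ) + (dg R y : ℤ) - 3
          linarith
      _ ≤ _ := by
          apply sum_le_sum_of_subset_of_nonneg hP
          intro y hy _
          have g1 := h2 y hy
          by_cases hy2 : dg R y = 2
          · obtain ⟨x, hx, hxy⟩ := hm y hy hy2
            have g2 : 1 ≤ (N R y ∩ X).card := by
              rw [Nat.one_le_iff_ne_zero, Ne, card_eq_zero, ← Ne, ← nonempty_iff_ne_empty]
              exact ⟨x, mem_inter.mpr ⟨(mem_N R).mpr hxy, hx⟩⟩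
            have g3 : (1 : ℤ) ≤ ((N R y ∩ X).card : ℤ) := by exact_mod_cast g2
            rw [hy2]
            push_cast
            linarith
          · have g2 : 3 ≤ dg R y := by omega
            have g3 : (3 : ℤ) ≤ (dg R y : ℤ) := by exact_mod_cast g2
            have g4 : (0 : ℤ) ≤ ((N R y ∩ X).card : ℤ) := Int.natCast_nonneg _
            linarith
  simp only [Nat.cast_zero, mul_zero, sub_zero] at hki
  linarith

theorem two_fine (R : SimpleGraph V) [DecidableRel R.Adj] {U D : Finset V} (hDU : D ⊆ U)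
    (hU : ∀ v ∈ U, N R v ⊆ U) (h1 : ∀ v ∈ U, 1 ≤ dg R v) (h2 : ∀ v ∈ D, 2 ≤ dg R v)
    {ι : Type*} [DecidableEq ι] (grp : V → ι)
    (hc : ∀ u ∈ D, ∀ v ∈ D, grp u ≠ grp v → ∃ x, R.Adj u x ∧ R.Adj v x)
    (hs : ∀ u ∈ D, dg R u = 2 → ∀ v ∈ D, R.Adj u v → grp v = grp u)
    {y0 y2 : V} (hy0 : y0 ∈ D) (hd0 : dg R y0 = 2) (hy2 : y2 ∈ D) (hd2 : dg R y2 = 2)
    (hne : grp y0 ≠ grp y2) :
    -1 ≤ ∑ v ∈ U, ((dg R v : ℤ) - 1) - 2 * (D.card : ℤ) := by
  obtain ⟨a, ha0, ha2⟩ := hc y0 hy0 y2 hy2 hne
  have haD : a ∉ D := fun h => hne ((hs y0 hy0 hd0 a h ha0).symm.trans (hs y2 hy2 hd2 a h ha2))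
  obtain ⟨b, hba, hN0, hb0⟩ := lemR_pair R hd0 ha0
  obtain ⟨b2, hb2a, hN2, hb2⟩ := lemR_pair R hd2 ha2
  have hyne : y0 ≠ y2 := fun h => hne (by rw [h])
  have haU : a ∈ U := hU y0 (hDU hy0) ((mem_N R).mpr ha0)
  have hbU : b ∈ U := hU y0 (hDU hy0) ((mem_N R).mpr hb0)
  have hb2U : b2 ∈ U := hU y2 (hDU hy2) ((mem_N R).mpr hb2)
  -- the general argument
  have key : ∀ X : Finset V, a ∈ X → (b ∉ D → b ∈ X) → (b2 ∉ D → b2 ∈ X) →
      ∀ y ∈ D, dg R y = 2 → ∃ x ∈ X, R.Adj y x := by
    intro X haX hbX hb2X y hy hyd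
    by_cases hg : grp y = grp y0
    · have hg2 : grp y ≠ grp y2 := fun h => hne (hg.symm.trans h)
      obtain ⟨x, hx1, hx2⟩ := hc y hy y2 hy2 hg2
      have hxN : x ∈ N R y2 := (mem_N R).mpr hx2
      rw [hN2, mem_insert, mem_singleton] at hxN
      rcases hxN with h | h
      · exact ⟨a, haX, h ▸ hx1⟩
      · by_cases hbD : b2 ∈ D
        · exfalso
          rw [h] at hx1 hx2
          exact hg2 ((hs y hy hyd b2 hbD hx1).symm.trans (hs y2 hy2 hd2 b2 hbD hx2))
        · exact ⟨b2, hb2X hbD, h ▸ hx1⟩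
    · obtain ⟨x, hx1, hx2⟩ := hc y hy y0 hy0 hg
      have hxN : x ∈ N R y0 := (mem_N R).mpr hx2
      rw [hN0, mem_insert, mem_singleton] at hxN
      rcases hxN with h | h
      · exact ⟨a, haX, h ▸ hx1⟩
      · by_cases hbD : b ∈ D
        · exfalso
          rw [h] at hx1 hx2
          exact hg ((hs y hy hyd b hbD hx1).symm.trans (hs y0 hy0 hd0 b hbD hx2))
        · exact ⟨b, hbX hbD, h ▸ hx1⟩
  by_cases hbD : b ∈ D <;> by_cases hb2D : b2 ∈ D
  · -- both in D
    have h := two_gen R (X := {a}) (P := ∅) hDU hU h1 h2 (by simpa using haU) (by simpa using haD)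
      (key {a} (by simp) (fun h => absurd hbD h) (fun h => absurd hb2D h)) (empty_subset _)
      (by simp)
    simp only [card_empty, card_singleton, Nat.cast_zero, Nat.cast_one] at h
    linarith
  · have h := two_gen R (X := {a, b2}) (P := {y2}) hDU hU h1 h2
      (by
        intro x hx
        rw [mem_insert, mem_singleton] at hx
        rcases hx with h | h
        · exact h ▸ haU
        · exact h ▸ hb2U)
      (by
        rw [disjoint_right]
        intro x hx
        rw [mem_insert, mem_singleton] at hx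
        rcases hx with h | h
        · exact h ▸ haD
        · exact h ▸ hb2D)
      (key {a, b2} (by simp) (fun h => absurd hbD h) (fun _ => by simp))
      (by simpa using hy2)
      (by
        intro y hy
        rw [mem_singleton] at hy
        rw [hy, hN2])
    rw [card_pair (fun h => hb2a h.symm), card_singleton] at h
    push_cast at h
    linarith
  · have h := two_gen R (X := {a, b}) (P := {y0}) hDU hU h1 h2
      (by
        intro x hx
        rw [mem_insert, mem_singleton] at hx
        rcases hx with h | h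
        · exact h ▸ haU
        · exact h ▸ hbU)
      (by
        rw [disjoint_right]
        intro x hx
        rw [mem_insert, mem_singleton] at hx
        rcases hx with h | h
        · exact h ▸ haD
        · exact h ▸ hbD)
      (key {a, b} (by simp) (fun _ => by simp) (fun h => absurd hb2D h))
      (by simpa using hy0)
      (by
        intro y hy
        rw [mem_singleton] at hy
        rw [hy, hN0])
    rw [card_pair (fun h => hba h.symm), card_singleton] at h
    push_cast at h
    linarith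
  · have h := two_gen R (X := {a, b, b2}) (P := {y0, y2}) hDU hU h1 h2
      (by
        intro x hx
        rw [mem_insert, mem_insert, mem_singleton] at hx
        rcases hx with h | h | h
        · exact h ▸ haU
        · exact h ▸ hbU
        · exact h ▸ hb2U)
      (by
        rw [disjoint_right]
        intro x hx
        rw [mem_insert, mem_insert, mem_singleton] at hx
        rcases hx with h | h | h
        · exact h ▸ haD
        · exact h ▸ hbD
        · exact h ▸ hb2D)
      (key {a, b, b2} (by simp) (fun _ => by simp) (fun _ => by simp))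
      (by
        intro y hy
        rw [mem_insert, mem_singleton] at hy
        rcases hy with h | h
        · exact h ▸ hy0
        · exact h ▸ hy2)
      (by
        intro y hy
        rw [mem_insert, mem_singleton] at hy
        rcases hy with h | h
        · rw [h, hN0]
          intro x hx
          rw [mem_insert, mem_singleton] at hx
          rcases hx with h | h
          · rw [h]; simp
          · rw [h]; simp
        · rw [h, hN2]
          intro x hx
          rw [mem_insert, mem_singleton] at hx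
          rcases hx with h | h
          · rw [h]; simp
          · rw [h]; simp)
    have hc3 : ({a, b, b2} : Finset V).card ≤ 3 := card_le_three
    have hc3' : ((({a, b, b2} : Finset V).card : ℕ) : ℤ) ≤ 3 := by exact_mod_cast hc3
    rw [card_pair hyne] at h
    push_cast at h
    linarith

end Pool.Agent.Helper38.RE
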