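import Pool.Agent.Helper38.RE.T2a
import Pool.Agent.Helper38.RE.Two
import Pool.Agent.Helper38.RE.Ctr
import Pool.Agent.Helper38.RE.RSdef
import Pool.Agent.Helper38.RE.RS1
import Pool.Agent.Helper38.RE.RS2

/-! Project RE2 (MP_cc4a3b_co): the last counting step for a set `Y` almost completely joined to
the rest. -/

set_option autoImplicit false
set_option linter.unusedSectionVars false
set_option linter.unusedVariables false

namespace Pool.Agent.Helper38.RE

open Finset

variable {V : Type*} [Fintype V] [DecidableEq V]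

/-- the facts used for `R = H - Y` -/
structure RC (H : SimpleGraph V) [DecidableRel H.Adj] (Y : Finset V) : Prop where
  r1 : ∀ v ∈ Yᶜ, 1 + (miss H Y v).card ≤ dg (del H Y) v
  b1 : ∀ v ∈ Yᶜ, (miss H Y v).card ≤ 1
  hm : ∀ w ∈ Y, (miss H Y w).card ≤ 1
  com : ∀ u ∈ bad H Y, ∀ v ∈ bad H Y, miss H Y u ≠ miss H Y v →
    ∃ x, (del H Y).Adj u x ∧ (del H Y).Adj v x
  F3 : ∀ w ∈ Y, ∀ v ∈ Yᶜ, (miss H Y w ∪ (miss H Y v).erase w).card
    ≤ (N (del H Y) v ∩ N H w).card
  ex : ∀ w ∈ Y, ∃ v ∈ bad H Y, w ∈ grp H Y v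

namespace RC

variable {H : SimpleGraph V} [DecidableRel H.Adj] {Y : Finset V}

theorem hDU : bad H Y ⊆ Yᶜ := fun v hv => by simpa using ((mem_bad H).1 hv).1

theorem one (S : RC H Y) {v : V} (hv : v ∈ bad H Y) : (miss H Y v).card = 1 := by
  have h1 := S.b1 v (hDU hv)
  have h2 := ((mem_bad H).1 hv).2.card_pos
  omega

theorem r11 (S : RC H Y) : ∀ v ∈ Yᶜ, 1 ≤ dg (del H Y) v := fun v hv => by
  have := S.r1 v hv; omega

theorem r22 (S : RC H Y) : ∀ v ∈ bad H Y, 2 ≤ dg (del H Y) v := fun v hv => by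
  have := S.r1 v (hDU hv)
  have := S.one hv
  omega

theorem sing (S : RC H Y) {v : V} (hv : v ∈ bad H Y) :
    ∃ w ∈ Y, miss H Y v = {w} ∧ grp H Y v = cmp H Y w := by
  obtain ⟨w, hw⟩ := card_eq_one.1 (S.one hv)
  have : w ∈ miss H Y v := by rw [hw]; exact mem_singleton_self w
  exact ⟨w, ((mem_miss H).1 this).2.1, hw, grp_eq H hw⟩

/-- a bad vertex missing `w` is not adjacent to `w` -/
theorem nadj {v w : V} (h : w ∈ miss H Y v) : v ∉ N H w := fun hv =>
  ((mem_miss H).1 h).2.2 ((mem_N H).1 hv).symm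

/-- an element outside a component -/
theorem exists_out (S : RC H Y) (h3 : 3 ≤ Y.card) {w : V} (hw : w ∈ Y) :
    ∃ q ∈ bad H Y, ∃ w' ∈ Y, miss H Y q = {w'} ∧ w' ∉ cmp H Y w := by
  have h1 := card_cmp_le H S.hm hw
  obtain ⟨w2, hw2, hw2n⟩ : ∃ x ∈ Y, x ∉ cmp H Y w := by
    by_contra hno
    push Not at hno
    have := card_le_card (show Y ⊆ cmp H Y w from hno)
    omega
  obtain ⟨q, hq, hqg⟩ := S.ex w2 hw2
  obtain ⟨w', hw', hm', hg'⟩ := S.sing hq
  refine ⟨q, hq, w', hw', hm', fun h => hw2n ?_⟩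
  rw [hg', cmp_eq H S.hm hw h] at hqg
  exact hqg

theorem not_cheap (S : RC H Y) {c0 : Finset V}
    (hc0 : ∀ y ∈ bad H Y, dg (del H Y) y = 2 → miss H Y y = c0) {q : V} (hq : q ∈ bad H Y)
    (hqc : miss H Y q ≠ c0) : 3 ≤ dg (del H Y) q := by
  have h1 := S.r22 q hq
  have : dg (del H Y) q ≠ 2 := fun h => hqc (hc0 q hq h)
  omega

theorem cov (S : RC H Y) {c0 : Finset V}
    (hc0 : ∀ y ∈ bad H Y, dg (del H Y) y = 2 → miss H Y y = c0) {q : V} (hq : q ∈ bad H Y)
    (hqc : miss H Y q ≠ c0) : ∀ x ∈ cheapN (del H Y) (bad H Y) q,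
      ∃ m ∈ N (del H Y) q, x ∈ N (del H Y) m := by
  intro x hx
  rw [mem_cheapN] at hx
  obtain ⟨m, hm1, hm2⟩ := S.com x hx.1 q hq (by rw [hc0 x hx.1 hx.2.1]; exact hqc.symm)
  exact ⟨m, (mem_N _).2 hm2, (mem_N _).2 hm1.symm⟩

theorem zero (S : RC H Y) (hno : ∀ y ∈ bad H Y, dg (del H Y) y ≠ 2) :
    0 ≤ ∑ v ∈ Yᶜ, ((dg (del H Y) v : ℤ) - 1) - 2 * ((bad H Y).card : ℤ) := by
  have h := lemR_ki (del H Y) (U := Yᶜ) (D := bad H Y) (X := ∅) (hDU (H := H) (Y := Y)) (N_del_sub_U H Y) S.r11 (empty_subset _)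
  have h2 : 0 ≤ ∑ y ∈ bad H Y \ ∅, (((N (del H Y) y ∩ ∅).card : ℤ) + (dg (del H Y) y : ℤ) - 3) := by
    refine sum_nonneg fun y hy => ?_
    rw [sdiff_empty] at hy
    have h1 := S.r22 y hy
    have h3 := hno y hy
    rw [inter_empty, card_empty]
    have : (3 : ℤ) ≤ dg (del H Y) y := by exact_mod_cast (by omega : 3 ≤ dg (del H Y) y)
    push_cast
    linarith
  simp only [sum_empty, card_empty, inter_empty, Nat.cast_zero] at h h2
  linarith

/-- a deficient vertex: consequences -/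
theorem defi_false (S : RC H Y) (h3 : 3 ≤ Y.card) {w w' q m : V} (hw : w ∈ Y) (hw' : w' ∈ Y)
    (hc0 : ∀ y ∈ bad H Y, dg (del H Y) y = 2 → miss H Y y = {w}) (hq : q ∈ bad H Y)
    (hqw : miss H Y q = {w'}) (hww : w' ∉ cmp H Y w)
    (hm : Defi (del H Y) (bad H Y) q m) : False := by
  have hwne : w ≠ w' := by
    rintro rfl
    exact hww (mem_insert_self _ _)
  have hqc : miss H Y q ≠ {w} := by
    rw [hqw]; intro h; exact hwne (singleton_injective h).symm
  obtain ⟨hmq, hall, x, x', hxD, hx2, hxc, hNx, hmx, hx'D, hx'c⟩ :=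
    defi_str (cls := miss H Y) S.r22 S.com hc0 hq hqc hm
  have hmw : miss H Y m = {w'} := by rw [hmq, hqw]
  -- `w'` is unmatched
  have h0 : miss H Y w' = ∅ := by
    by_contra hne
    obtain ⟨w1, hw1⟩ := nonempty_iff_ne_empty.2 hne
    have f := S.F3 w' hw' x (hDU hxD)
    have hw1w : w1 ≠ w := by
      rintro rfl
      apply hww
      rw [cmp, mem_insert]
      exact Or.inr ((miss_symm H hw' hw).2 hw1)
    have f1 : ({w1, w} : Finset V) ⊆ miss H Y w' ∪ (miss H Y x).erase w' := by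
      intro z hz
      rw [mem_insert, mem_singleton] at hz
      rcases hz with rfl | rfl
      · exact mem_union_left _ hw1
      · refine mem_union_right _ (mem_erase.2 ⟨hwne, ?_⟩)
        rw [hxc]; exact mem_singleton_self _
    have f2 : N (del H Y) x ∩ N H w' ⊆ {x'} := by
      intro z hz
      rw [mem_inter, hNx, mem_insert, mem_singleton] at hz
      rcases hz.1 with rfl | rfl
      · exact absurd hz.2 (nadj (by rw [hmw]; exact mem_singleton_self _))
      · exact mem_singleton_self _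
    have f3 := card_le_card f1
    rw [card_pair hw1w] at f3
    have f4 := card_le_card f2
    rw [card_singleton] at f4
    omega
  -- `Y` is the component of `w` and `w'`
  have hYsub : Y ⊆ insert w' (cmp H Y w) := by
    intro w3 hw3
    obtain ⟨v, hv, hvg⟩ := S.ex w3 hw3
    obtain ⟨w4, hw4, hm4, hg4⟩ := S.sing hv
    by_cases hvc : miss H Y v = {w}
    · have : w4 = w := by
        rw [hm4] at hvc; exact singleton_injective hvc
      rw [hg4, this] at hvg
      exact mem_insert_of_mem hvg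
    · have : miss H Y v = {w'} := by
        rcases hall v hv hvc with h | h
        · rw [h, hqw]
        · rw [h, hmw]
      have : w4 = w' := by
        rw [hm4] at this; exact singleton_injective this
      rw [hg4, this, cmp, h0] at hvg
      rw [mem_insert]
      left
      simpa using hvg
  have hcw : (cmp H Y w).card ≤ 2 := card_cmp_le H S.hm hw
  have hY := (card_le_card hYsub).trans (card_insert_le _ _)
  have hmw1 : (miss H Y w).Nonempty := by
    rw [nonempty_iff_ne_empty]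
    intro h
    rw [cmp, h] at hY
    simp at hY
    omega
  obtain ⟨w1, hw1⟩ := hmw1
  have hw1w' : w1 ≠ w' := by
    rintro rfl
    exact hww (by rw [cmp, mem_insert]; exact Or.inr hw1)
  have f := S.F3 w hw m (hDU hm.1)
  have f1 : ({w1, w'} : Finset V) ⊆ miss H Y w ∪ (miss H Y m).erase w := by
    intro z hz
    rw [mem_insert, mem_singleton] at hz
    rcases hz with rfl | rfl
    · exact mem_union_left _ hw1
    · refine mem_union_right _ (mem_erase.2 ⟨hwne.symm, ?_⟩)
      rw [hmw]; exact mem_singleton_self _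
  have f2 : N (del H Y) m ∩ N H w ⊆ {q} := by
    intro z hz
    rw [mem_inter] at hz
    rcases hm.2.2 z hz.1 with rfl | hzC
    · exact mem_singleton_self _
    · rw [mem_cheapN] at hzC
      exact absurd hz.2 (nadj (by rw [hc0 z hzC.1 hzC.2.1]; exact mem_singleton_self _))
  have f3 := card_le_card f1
  rw [card_pair hw1w'] at f3
  have f4 := card_le_card f2
  rw [card_singleton] at f4
  omega

theorem main3 (S : RC H Y) (h3 : 3 ≤ Y.card) :
    -3 ≤ ∑ v ∈ Yᶜ, ((dg (del H Y) v : ℤ) - 1) - 2 * ((bad H Y).card : ℤ) := by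
  by_cases hcase : ∃ y0 ∈ bad H Y, dg (del H Y) y0 = 2 ∧ ∃ y2 ∈ bad H Y, dg (del H Y) y2 = 2 ∧
      miss H Y y0 ≠ miss H Y y2
  · obtain ⟨y0, hy0, hd0, y2, hy2, hd2, hne⟩ := hcase
    exact two_basic (del H Y) hDU (N_del_sub_U H Y) S.r11 S.r22 (miss H Y) S.com hy0 hd0 hy2 hd2
      hne
  by_cases hex : ∃ y0 ∈ bad H Y, dg (del H Y) y0 = 2
  · obtain ⟨y0, hy0, hd0⟩ := hex
    obtain ⟨w, hw, hmw, -⟩ := S.sing hy0
    have hc0 : ∀ y ∈ bad H Y, dg (del H Y) y = 2 → miss H Y y = {w} := by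
      intro y hy hyd
      by_contra hcon
      exact hcase ⟨y, hy, hyd, y0, hy0, hd0, by rw [hmw]; exact hcon⟩
    obtain ⟨q, hq, w', hw', hqw, hww⟩ := S.exists_out h3 hw
    have hqc : miss H Y q ≠ {w} := by
      rw [hqw]
      intro h
      rw [singleton_injective h] at hww
      exact hww (mem_insert_self _ _)
    exact ctr_three hDU (N_del_sub_U H Y) S.r11 S.r22 hq (S.not_cheap hc0 hq hqc)
      (S.cov hc0 hq hqc) fun m hm => S.defi_false h3 hw hw' hc0 hq hqw hww hm
  · push Not at hex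
    have := S.zero hex
    linarith

theorem main4 (S : RC H Y) (h2 : 2 ≤ Y.card) :
    -4 ≤ ∑ v ∈ Yᶜ, ((dg (del H Y) v : ℤ) - 1) - 2 * ((bad H Y).card : ℤ) := by
  by_cases hcase : ∃ y0 ∈ bad H Y, dg (del H Y) y0 = 2 ∧ ∃ y2 ∈ bad H Y, dg (del H Y) y2 = 2 ∧
      miss H Y y0 ≠ miss H Y y2
  · obtain ⟨y0, hy0, hd0, y2, hy2, hd2, hne⟩ := hcase
    have := two_basic (del H Y) hDU (N_del_sub_U H Y) S.r11 S.r22 (miss H Y) S.com hy0 hd0 hy2 hd2
      hne
    linarith
  by_cases hex : ∃ y0 ∈ bad H Y, dg (del H Y) y0 = 2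
  · obtain ⟨y0, hy0, hd0⟩ := hex
    obtain ⟨w, hw, hmw, -⟩ := S.sing hy0
    have hc0 : ∀ y ∈ bad H Y, dg (del H Y) y = 2 → miss H Y y = {w} := by
      intro y hy hyd
      by_contra hcon
      exact hcase ⟨y, hy, hyd, y0, hy0, hd0, by rw [hmw]; exact hcon⟩
    by_cases hout : ∃ q ∈ bad H Y, miss H Y q ≠ {w}
    · obtain ⟨q, hq, hqc⟩ := hout
      by_cases hdef : ∃ m, Defi (del H Y) (bad H Y) q m
      · obtain ⟨m0, hm0⟩ := hdef
        obtain ⟨-, hall, -⟩ := defi_str (cls := miss H Y) S.r22 S.com hc0 hq hqc hm0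
        refine ctr_four hDU (N_del_sub_U H Y) S.r11 S.r22 hq (S.not_cheap hc0 hq hqc)
          (S.cov hc0 hq hqc) (m0 := m0) fun m hm => ?_
        obtain ⟨hmq, -⟩ := defi_str (cls := miss H Y) S.r22 S.com hc0 hq hqc hm
        rcases hall m hm.1 (by rw [hmq]; exact hqc) with h | h
        · exfalso
          have := hm.2.1
          rw [h, mem_N] at this
          exact (del H Y).loopless.irrefl _ this
        · exact h
      · push Not at hdef
        have := ctr_three hDU (N_del_sub_U H Y) S.r11 S.r22 hq (S.not_cheap hc0 hq hqc)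
          (S.cov hc0 hq hqc) hdef
        linarith
    · -- all bad vertices miss `w`
      push Not at hout
      have hYsub : Y ⊆ cmp H Y w := by
        intro w3 hw3
        obtain ⟨v, hv, hvg⟩ := S.ex w3 hw3
        rw [grp_eq H (hout v hv)] at hvg
        exact hvg
      have hmw1 : 1 ≤ (miss H Y w).card := by
        have := (card_le_card hYsub).trans (card_insert_le _ _)
        omega
      have hnb : ∀ v ∈ Yᶜ, 1 ≤ (N (del H Y) v ∩ (Yᶜ \ bad H Y)).card := by
        intro v hv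
        have f := S.F3 w hw v hv
        have f1 := card_le_card (subset_union_left : miss H Y w ⊆
          miss H Y w ∪ (miss H Y v).erase w)
        have f2 : N (del H Y) v ∩ N H w ⊆ N (del H Y) v ∩ (Yᶜ \ bad H Y) := by
          intro z hz
          rw [mem_inter] at hz
          refine mem_inter.2 ⟨hz.1, mem_sdiff.2 ⟨N_del_subset H hz.1, fun hzb => ?_⟩⟩
          exact nadj (by rw [hout z hzb]; exact mem_singleton_self _) hz.2
        have f3 := card_le_card f2
        omega
      rw [acc2 (del H Y) hDU (N_del_sub_U H Y) (X := Yᶜ \ bad H Y) sdiff_subset]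
      have g1 : 0 ≤ ∑ v ∈ Yᶜ \ bad H Y, (((N (del H Y) v ∩ (Yᶜ \ bad H Y)).card : ℤ) - 1
          - if v ∈ bad H Y then 2 else 0) := by
        refine sum_nonneg fun v hv => ?_
        rw [mem_sdiff] at hv
        rw [if_neg hv.2]
        have := hnb v hv.1
        omega
      have g2 : 0 ≤ ∑ v ∈ Yᶜ \ (Yᶜ \ bad H Y), ((dg (del H Y) v : ℤ)
          + ((N (del H Y) v ∩ (Yᶜ \ bad H Y)).card : ℤ) - 1 - if v ∈ bad H Y then 2 else 0) := by
        refine sum_nonneg fun v hv => ?_
        rw [mem_sdiff, mem_sdiff, not_and, not_not] at hv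
        have hvb := hv.2 hv.1
        rw [if_pos hvb]
        have := hnb v hv.1
        have := S.r22 v hvb
        have : (2 : ℤ) ≤ dg (del H Y) v := by exact_mod_cast this
        omega
      linarith
  · push Not at hex
    have := S.zero hex
    linarith

theorem main1 (S : RC H Y) (h3 : 3 ≤ Y.card) (hone : ∀ s ∈ Y, (miss H Y s).card = 1) :
    -1 ≤ ∑ v ∈ Yᶜ, ((dg (del H Y) v : ℤ) - 1) - 2 * ((bad H Y).card : ℤ) := by
  have hcg : ∀ u v : V, grp H Y u ≠ grp H Y v → miss H Y u ≠ miss H Y v := by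
    intro u v h h'
    exact h (by rw [grp, grp, h'])
  have hsub : ∀ {v w x : V}, v ∈ bad H Y → miss H Y v = {w} → x ∈ cmp H Y w → w ∈ Y →
      cmp H Y x = cmp H Y w := fun _ _ hx hw => cmp_eq H S.hm hw hx
  have hs : ∀ u ∈ bad H Y, dg (del H Y) u = 2 → ∀ v ∈ bad H Y, (del H Y).Adj u v →
      grp H Y v = grp H Y u := by
    intro u hu hu2 v hv huv
    obtain ⟨w, hwY, hw, hgw⟩ := S.sing hu
    obtain ⟨x, hxY, hx, hgx⟩ := S.sing hv
    rw [hgw, hgx]
    by_contra hne
    have hxw : x ∉ cmp H Y w := fun h => hne (cmp_eq H S.hm hwY h)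
    have h1 := S.F3 x hxY u (hDU hu)
    obtain ⟨x', hx2⟩ := card_eq_one.1 (hone x hxY)
    have hwx : w ≠ x := by
      rintro rfl
      exact hxw (mem_insert_self _ _)
    have hx'w : x' ≠ w := by
      rintro rfl
      apply hxw
      rw [cmp, mem_insert]
      right
      rw [miss_symm H hxY hwY, hx2]
      exact mem_singleton_self _
    have h2 : miss H Y x ∪ (miss H Y u).erase x = {x', w} := by
      rw [hx2, hw, erase_eq_of_notMem (by simpa using hwx.symm)]
      rfl
    rw [h2, card_pair hx'w] at h1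
    have h3 : N (del H Y) u ∩ N H x = N (del H Y) u := by
      refine eq_of_subset_of_card_le inter_subset_left ?_
      rw [show (N (del H Y) u).card = 2 from hu2]
      omega
    have h4 : v ∈ N H x := by
      have : v ∈ N (del H Y) u ∩ N H x := by rw [h3, mem_N]; exact huv
      exact (mem_inter.1 this).2
    exact nadj (by rw [hx]; exact mem_singleton_self x) h4
  have RSS : RS (del H Y) Yᶜ (bad H Y) (miss H Y) (grp H Y) := by
    refine ⟨hDU, N_del_sub_U H Y, S.r11, S.r22, S.com, ?_, ?_, hs, ?_, ?_, ?_⟩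
    · intro u _ v _ h
      rw [grp, grp, h]
    · intro u hu v hv w hw huv hvw
      obtain ⟨a, haY, ha, hga⟩ := S.sing hu
      obtain ⟨b, hbY, hb, hgb⟩ := S.sing hv
      obtain ⟨c, hcY, hc, hgc⟩ := S.sing hw
      rw [ha, hb, hc]
      by_contra hno
      push Not at hno
      have h1 : ({a, b, c} : Finset V) ⊆ cmp H Y a := by
        intro z hz
        rw [mem_insert, mem_insert, mem_singleton] at hz
        rcases hz with rfl | rfl | rfl
        · exact mem_insert_self _ _
        · rw [← hga, huv, hgb]; exact mem_insert_self _ _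
        · rw [← hga, huv, hvw, hgc]; exact mem_insert_self _ _
      have h2 := card_le_card h1
      have h3 := card_cmp_le H S.hm haY
      have h4 : ({a, b, c} : Finset V).card = 3 := by
        rw [card_eq_three]
        refine ⟨a, b, c, ?_, ?_, ?_, rfl⟩
        · rintro rfl; exact hno.1 rfl
        · rintro rfl; exact hno.2.2 rfl
        · rintro rfl; exact hno.2.1 rfl
      omega
    · intro u hu
      obtain ⟨w, hwY, hw, hgw⟩ := S.sing hu
      obtain ⟨q, hq, w', hw', hqw, hww⟩ := S.exists_out h3 hwY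
      refine ⟨q, hq, ?_⟩
      rw [hgw, grp_eq H hqw]
      intro h
      exact hww (h ▸ mem_insert_self _ _)
    · intro y' hy' y hy hne
      obtain ⟨w, hwY, hw, hgw⟩ := S.sing hy
      obtain ⟨u, huY, hu, hgu⟩ := S.sing hy'
      have huw : u ∉ cmp H Y w := fun h => hne (by rw [hgu, hgw, cmp_eq H S.hm hwY h])
      have hne1 : u ≠ w := by
        rintro rfl
        exact huw (mem_insert_self _ _)
      obtain ⟨w1, hw1⟩ := card_eq_one.1 (hone w hwY)
      have hne2 : w1 ≠ u := by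
        rintro rfl
        exact huw (by rw [cmp, hw1, mem_insert]; exact Or.inr (mem_singleton_self _))
      have f := S.F3 w hwY y' (hDU hy')
      rw [hw1, hu, erase_eq_of_notMem (by simpa using hne1.symm),
        show ({w1} : Finset V) ∪ {u} = {w1, u} from rfl, card_pair hne2] at f
      obtain ⟨m5, hm5, m6, hm6, h56⟩ := one_lt_card.1 (by omega : 1 < (N (del H Y) y' ∩ N H w).card)
      rw [mem_inter] at hm5 hm6
      refine ⟨m5, m6, h56, (mem_N _).1 hm5.1, (mem_N _).1 hm6.1, ?_, ?_⟩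
      · rintro ⟨h1, h2⟩
        exact nadj (by rw [h2, hw]; exact mem_singleton_self _) hm5.2
      · rintro ⟨h1, h2⟩
        exact nadj (by rw [h2, hw]; exact mem_singleton_self _) hm6.2
    · intro p hp hpD y' hy' hN
      obtain ⟨u, huY, hu, hgu⟩ := S.sing hy'
      have f := S.F3 u huY p hp
      have f1 := card_le_card (subset_union_left : miss H Y u ⊆
        miss H Y u ∪ (miss H Y p).erase u)
      have f2 : N (del H Y) p ∩ N H u = ∅ := by
        rw [hN, ← disjoint_iff_inter_eq_empty, disjoint_singleton_left]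
        exact nadj (by rw [hu]; exact mem_singleton_self _)
      rw [hone u huY] at f1
      rw [f2, card_empty] at f
      omega
  by_cases hcase : ∃ y0 ∈ bad H Y, dg (del H Y) y0 = 2 ∧ ∃ y2 ∈ bad H Y, dg (del H Y) y2 = 2 ∧
      grp H Y y0 ≠ grp H Y y2
  · obtain ⟨y0, hy0, hd0, y2, hy2, hd2, hne⟩ := hcase
    exact two_fine (del H Y) hDU (N_del_sub_U H Y) S.r11 S.r22 (grp H Y)
      (fun u hu v hv h => S.com u hu v hv (hcg u v h)) hs hy0 hd0 hy2 hd2 hne
  by_cases hcase2 : ∃ y0 ∈ bad H Y, dg (del H Y) y0 = 2 ∧ ∃ y2 ∈ bad H Y, dg (del H Y) y2 = 2 ∧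
      miss H Y y0 ≠ miss H Y y2
  · obtain ⟨y0, hy0, hd0, y2, hy2, hd2, hne⟩ := hcase2
    refine rs_case1 RSS (g0 := grp H Y y0) (fun y hy hyd => ?_) hy0 hy2 hd0 hd2 hne
    by_contra hcon
    exact hcase ⟨y, hy, hyd, y0, hy0, hd0, hcon⟩
  by_cases hex : ∃ y0 ∈ bad H Y, dg (del H Y) y0 = 2
  · obtain ⟨y0, hy0, hd0⟩ := hex
    refine rs_case2 RSS (c0 := miss H Y y0) (fun y hy hyd => ?_)
    by_contra hcon
    exact hcase2 ⟨y, hy, hyd, y0, hy0, hd0, hcon⟩
  · push Not at hex
    have := S.zero hex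
    linarith

end RC

end Pool.Agent.Helper38.RE
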