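import Pool.Agent.Helper38.RE.Basic

/-! Project RE (MP_cc4a3b_co), piece RE-Str: the structure of graphs of small degree sum. -/

set_option autoImplicit false
set_option linter.unusedSectionVars false

namespace Pool.Agent.Helper38.RE

open Finset

variable {V : Type*} [Fintype V] [DecidableEq V]

/-- the vertices of degree at least `n / M` -/
def strW (H : SimpleGraph V) [DecidableRel H.Adj] (M : ℕ) : Finset V :=
  univ.filter fun v => Fintype.card V ≤ M * dg H v

/-- the regular vertices -/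
def strR (H : SimpleGraph V) [DecidableRel H.Adj] (j M : ℕ) : Finset V :=
  univ.filter fun v => v ∉ strW H M ∧ dg H v = j + 2 ∧ (N H v ∩ strW H M).card = j + 1

/-- the regular vertices with large neighbours `W0.erase p` -/
def strC (H : SimpleGraph V) [DecidableRel H.Adj] (j M : ℕ) (W0 : Finset V) (p : V) : Finset V :=
  (strR H j M).filter fun v => N H v ∩ strW H M = W0.erase p

open Classical in
/-- the neighbour of small degree of a regular vertex -/
noncomputable def strb (H : SimpleGraph V) [DecidableRel H.Adj] (M : ℕ) (v : V) : V :=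
  if h : (N H v \ strW H M).Nonempty then h.choose else v

section lemmas

variable (H : SimpleGraph V) [DecidableRel H.Adj] {j M Q : ℕ}

theorem str_mem_W {v : V} : v ∈ strW H M ↔ Fintype.card V ≤ M * dg H v := by
  simp [strW]

theorem str_mem_R {v : V} : v ∈ strR H j M ↔
    v ∉ strW H M ∧ dg H v = j + 2 ∧ (N H v ∩ strW H M).card = j + 1 := by
  simp [strR]

theorem str_mem_C {W0 : Finset V} {p v : V} : v ∈ strC H j M W0 p ↔
    v ∈ strR H j M ∧ N H v ∩ strW H M = W0.erase p := by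
  simp [strC]

theorem str_sdiff {v : V} (hv : v ∈ strR H j M) : N H v \ strW H M = {strb H M v} := by
  obtain ⟨h1, h2, h3⟩ := (str_mem_R H).1 hv
  have h4 : (N H v \ strW H M).card = 1 := by
    have := card_inter_add_card_sdiff (N H v) (strW H M)
    rw [h3] at this
    have h5 : (N H v).card = j + 2 := h2
    omega
  have hne : (N H v \ strW H M).Nonempty := card_pos.1 (by omega)
  obtain ⟨a, ha⟩ := card_eq_one.1 h4
  have h6 : strb H M v ∈ N H v \ strW H M := by
    unfold strb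
    rw [dif_pos hne]
    exact hne.choose_spec
  rw [ha, mem_singleton] at h6
  rw [ha, h6]

theorem str_b_mem {v : V} (hv : v ∈ strR H j M) : strb H M v ∈ N H v ∧ strb H M v ∉ strW H M := by
  have : strb H M v ∈ N H v \ strW H M := by rw [str_sdiff H hv]; exact mem_singleton_self _
  exact mem_sdiff.1 this

theorem str_N {v : V} (hv : v ∈ strR H j M) {y : V} (hy : y ∈ N H v) :
    y ∈ N H v ∩ strW H M ∨ y = strb H M v := by
  by_cases h : y ∈ strW H M
  · exact Or.inl (mem_inter.2 ⟨hy, h⟩)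
  · right
    have : y ∈ N H v \ strW H M := mem_sdiff.2 ⟨hy, h⟩
    rw [str_sdiff H hv] at this
    exact mem_singleton.1 this

/-- the number of the regular vertices whose small neighbour is in `Y` -/
theorem str_fib {X Y : Finset V} (hX : X ⊆ strR H j M) (h : ∀ u ∈ X, strb H M u ∈ Y) :
    X.card ≤ ∑ y ∈ Y, dg H y := by
  have h1 : X ⊆ Y.biUnion fun y => N H y := by
    intro u hu
    rw [mem_biUnion]
    refine ⟨strb H M u, h u hu, ?_⟩
    have := (str_b_mem H (hX hu)).1
    rw [mem_N] at this ⊢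
    exact this.symm
  exact (card_le_card h1).trans card_biUnion_le

theorem str_small {v : V} (Y : Finset V) (hY : Y ⊆ N H v) (hW : ∀ y ∈ Y, y ∉ strW H M) :
    M * ∑ y ∈ Y, dg H y ≤ dg H v * Fintype.card V := by
  rw [mul_sum]
  calc ∑ y ∈ Y, M * dg H y ≤ ∑ y ∈ Y, Fintype.card V := by
        refine sum_le_sum fun y hy => ?_
        have := hW y hy
        rw [str_mem_W] at this
        omega
    _ = Y.card * Fintype.card V := by rw [sum_const, smul_eq_mul]
    _ ≤ dg H v * Fintype.card V := Nat.mul_le_mul_right _ (card_le_card hY)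

theorem str_dg_lt (v : V) : dg H v + 1 ≤ Fintype.card V := by
  have h1 : N H v ⊆ univ.erase v := by
    intro u hu
    rw [mem_N] at hu
    exact mem_erase.2 ⟨fun h => H.loopless.irrefl v (h ▸ hu), mem_univ _⟩
  have h2 := card_le_card h1
  rw [card_erase_of_mem (mem_univ _), card_univ] at h2
  have h3 : 0 < Fintype.card V := Fintype.card_pos_iff.2 ⟨v⟩
  have h4 : dg H v = (N H v).card := rfl
  omega

/-- the vertices of small degree have many large neighbours -/
theorem str_a (P2 : ∀ u v, u ≠ v → j ≤ (N H u ∩ N H v).card)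
    (ht : ∀ S : Finset V, S.card = j →
      Fintype.card V < 60 * (j + 1) * (bad H S).card + 40 * (j + 1) ^ 2)
    (hM : M = 8 * Q * (2 * j + 3)) (hQ : 60 * (j + 1) ≤ Q) (hn : 80 * (j + 1) ^ 2 ≤ Fintype.card V)
    {v : V} (hv : dg H v ≤ 2 * j + 3) : j + 1 ≤ (N H v ∩ strW H M).card := by
  by_contra hcon
  set n := Fintype.card V with hn'
  have hn2 : 80 ≤ n := by nlinarith
  set S := N H v ∩ strW H M with hS
  have hSj : S.card ≤ j := by omega
  set T := ∑ x ∈ N H v \ strW H M, dg H x with hT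
  have hT1 : 8 * Q * T ≤ n := by
    have h1 := str_small H (M := M) (N H v \ strW H M) sdiff_subset
      fun y hy => (mem_sdiff.1 hy).2
    rw [hM] at h1
    rw [← hM] at h1
    have h2 : dg H v * n ≤ (2 * j + 3) * n := Nat.mul_le_mul_right _ hv
    have h3 : (2 * j + 3) * (8 * Q * T) ≤ (2 * j + 3) * n := by
      calc (2 * j + 3) * (8 * Q * T) = (8 * Q * (2 * j + 3)) * T := by ring
        _ = M * T := by rw [hM]
        _ ≤ dg H v * n := h1
        _ ≤ _ := h2
    exact Nat.le_of_mul_le_mul_left h3 (by omega)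
  have hsum : j * (n - 1) + dg H v ≤ ∑ x ∈ N H v, dg H x := by
    rw [sum_codeg H v (U := univ) fun x _ => subset_univ _]
    rw [← add_sum_erase univ _ (mem_univ v)]
    have h1 : (N H v ∩ N H v).card = dg H v := by rw [inter_self]
    rw [h1]
    have h2 : j * (n - 1) ≤ ∑ x ∈ univ.erase v, (N H x ∩ N H v).card := by
      calc j * (n - 1) = ∑ x ∈ univ.erase v, j := by
            rw [sum_const, smul_eq_mul, card_erase_of_mem (mem_univ _), card_univ, mul_comm]
        _ ≤ _ := sum_le_sum fun x hx => P2 x v (mem_erase.1 hx).1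
    omega
  have hsplit : ∑ x ∈ N H v, dg H x = ∑ x ∈ S, dg H x + T := by
    rw [hS, hT, sum_inter_add_sum_sdiff]
  have hΔ : ∑ x ∈ S, (n - 1 - dg H x) + ∑ x ∈ S, dg H x = S.card * (n - 1) := by
    rw [← sum_add_distrib, ← smul_eq_mul, ← sum_const]
    refine sum_congr rfl fun x _ => ?_
    have := str_dg_lt H x
    omega
  have hTle : 8 * T ≤ n := by
    have : 1 ≤ Q := by omega
    calc 8 * T ≤ 8 * Q * T := Nat.mul_le_mul_right _ (by omega)
      _ ≤ n := hT1
  rcases hSj.eq_or_lt with h | h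
  · -- `S` has `j` elements
    have hbad : (bad H S).card ≤ ∑ x ∈ S, (n - 1 - dg H x) := by
      have h1 : bad H S ⊆ S.biUnion fun x => (univ \ N H x).erase x := by
        intro u hu
        rw [mem_bad] at hu
        obtain ⟨hu1, x, hx⟩ := hu
        rw [mem_miss] at hx
        rw [mem_biUnion]
        refine ⟨x, hx.2.1, ?_⟩
        rw [mem_erase, mem_sdiff, mem_N]
        exact ⟨hx.1.symm, mem_univ _, fun h => hx.2.2 h.symm⟩
      refine (card_le_card h1).trans (card_biUnion_le.trans (sum_le_sum fun x _ => ?_))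
      rw [card_erase_of_mem (by simp [N]), card_sdiff_of_subset (subset_univ _), card_univ]
      have : dg H x = (N H x).card := rfl
      omega
    have h2 := ht S h
    rw [h] at hΔ
    have h3 : (bad H S).card ≤ T := by omega
    have h4 : 60 * (j + 1) * (bad H S).card ≤ Q * T := Nat.mul_le_mul hQ h3
    have h5 : 8 * (Q * T) ≤ n := by rw [← mul_assoc]; exact hT1
    omega
  · have h1 : S.card * (n - 1) + (n - 1) ≤ j * (n - 1) := by
      calc S.card * (n - 1) + (n - 1) = (S.card + 1) * (n - 1) := by ring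
        _ ≤ j * (n - 1) := Nat.mul_le_mul_right _ h
    omega

/-- the numbers of non regular vertices and of their edges -/
theorem str_b (P1 : ∀ v, j + 2 ≤ dg H v)
    (ha : ∀ v, dg H v ≤ 2 * j + 3 → j + 1 ≤ (N H v ∩ strW H M).card)
    (hs : ∑ v, dg H v < (2 * j + 3) * Fintype.card V) :
    (strW H M).card ≤ (2 * j + 3) * M ∧
    (((strW H M)ᶜ) \ strR H j M).card ≤ (2 * j + 3) * (strW H M).card ∧
    ∑ v ∈ ((strW H M)ᶜ) \ strR H j M, dg H v ≤ (2 * j + 4) * ((2 * j + 3) * (strW H M).card) := by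
  set n := Fintype.card V with hn
  set W := strW H M with hW
  set R := strR H j M with hR
  set I := Wᶜ \ R with hI
  have hRW : R ⊆ Wᶜ := fun v hv => by
    rw [mem_compl]; exact ((str_mem_R H).1 hv).1
  refine ⟨?_, ?_⟩
  · have h1 : W.card * n ≤ M * ∑ v, dg H v := by
      rw [mul_sum]
      calc W.card * n = ∑ v ∈ W, n := by rw [sum_const, smul_eq_mul]
        _ ≤ ∑ v ∈ W, M * dg H v := sum_le_sum fun v hv => (str_mem_W H).1 hv
        _ ≤ ∑ v, M * dg H v := sum_le_sum_of_subset (subset_univ _)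
    have h2 : M * ∑ v, dg H v ≤ M * ((2 * j + 3) * n) := Nat.mul_le_mul_left _ hs.le
    have h3 : W.card * n ≤ ((2 * j + 3) * M) * n := by
      calc W.card * n ≤ M * ((2 * j + 3) * n) := h1.trans h2
        _ = ((2 * j + 3) * M) * n := by ring
    have hpos : 0 < n := by
      by_contra h
      have : n = 0 := by omega
      rw [this, mul_zero] at hs
      omega
    exact Nat.le_of_mul_le_mul_right h3 hpos
  · have hacc := acc H (subset_univ W) (fun v _ => subset_univ _)
    rw [← compl_eq_univ_sdiff] at hacc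
    have hcard : Wᶜ.card + W.card = n := by rw [card_compl]; have := card_le_univ W; omega
    have hIR : I.card + R.card = Wᶜ.card := by
      rw [hI]; exact card_sdiff_add_card_eq_card hRW
    have hsplit : ∑ v ∈ Wᶜ, (dg H v + (N H v ∩ W).card) =
        ∑ v ∈ I, (dg H v + (N H v ∩ W).card) + ∑ v ∈ R, (dg H v + (N H v ∩ W).card) := by
      rw [hI]; exact (sum_sdiff hRW).symm
    have hRsum : ∑ v ∈ R, (dg H v + (N H v ∩ W).card) = (2 * j + 3) * R.card := by
      rw [mul_comm, ← smul_eq_mul, ← sum_const]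
      refine sum_congr rfl fun v hv => ?_
      obtain ⟨_, h2, h3⟩ := (str_mem_R H).1 hv
      rw [h2, h3]; ring
    have hIsum : (2 * j + 4) * I.card ≤ ∑ v ∈ I, (dg H v + (N H v ∩ W).card) := by
      rw [mul_comm, ← smul_eq_mul, ← sum_const]
      refine sum_le_sum fun v hv => ?_
      rw [hI, mem_sdiff, mem_compl] at hv
      obtain ⟨h1, h2⟩ := hv
      have h3 := P1 v
      by_contra h4
      have h5 : dg H v ≤ 2 * j + 3 := by omega
      have h6 := ha v h5
      refine h2 ((str_mem_R H).2 ⟨h1, by omega, ?_⟩)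
      change (N H v ∩ W).card = j + 1
      omega
    have e1 : (2 * j + 3) * n = (2 * j + 3) * I.card + (2 * j + 3) * R.card +
        (2 * j + 3) * W.card := by
      rw [← hcard, ← hIR]; ring
    have e2 : (2 * j + 4) * I.card = (2 * j + 3) * I.card + I.card := by ring
    have hI1 : I.card ≤ (2 * j + 3) * W.card := by omega
    refine ⟨hI1, ?_⟩
    have h7 : ∑ v ∈ I, dg H v ≤ ∑ v ∈ I, (dg H v + (N H v ∩ W).card) :=
      sum_le_sum fun v _ => Nat.le_add_right _ _
    have h8 : (2 * j + 3) * I.card ≤ (2 * j + 3) * ((2 * j + 3) * W.card) :=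
      Nat.mul_le_mul_left _ hI1
    have e3 : (2 * j + 4) * ((2 * j + 3) * W.card) =
        (2 * j + 3) * ((2 * j + 3) * W.card) + (2 * j + 3) * W.card := by ring
    omega

/-- a sum of `j` terms contains a large one -/
theorem str_pig {ι : Type*} {S : Finset ι} (hS : S.card = j) {c n : ℕ} (f : ι → ℕ)
    (h : n < c * ∑ i ∈ S, f i) : ∃ i ∈ S, n < c * (j + 1) * f i := by
  by_contra hcon
  push Not at hcon
  have h1 : ∑ i ∈ S, c * (j + 1) * f i ≤ ∑ i ∈ S, n := sum_le_sum hcon
  rw [← mul_sum, sum_const, smul_eq_mul, hS] at h1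
  have h2 : (j + 1) * n < (j + 1) * (c * ∑ i ∈ S, f i) := Nat.mul_lt_mul_of_pos_left h (by omega)
  have h3 : (j + 1) * (c * ∑ i ∈ S, f i) = c * (j + 1) * ∑ i ∈ S, f i := by ring
  have h4 : (j + 1) * n = j * n + n := by ring
  omega

/-- a large class forbids two missed elements -/
theorem str_e (P2 : ∀ u v, u ≠ v → j ≤ (N H u ∩ N H v).card)
    (hM : M = 8 * Q * (2 * j + 3)) {W0 : Finset V} {p v : V}
    (hp : Fintype.card V < 4 * Q * (strC H j M W0 p).card) (hv : dg H v ≤ 2 * j + 3) :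
    j ≤ (N H v ∩ W0.erase p).card := by
  set n := Fintype.card V
  set T := ∑ x ∈ N H v \ strW H M, dg H x with hT
  have hT1 : 8 * Q * T ≤ n := by
    have h1 := str_small H (M := M) (N H v \ strW H M) sdiff_subset
      fun y hy => (mem_sdiff.1 hy).2
    have h2 : dg H v * n ≤ (2 * j + 3) * n := Nat.mul_le_mul_right _ hv
    have h3 : (2 * j + 3) * (8 * Q * T) ≤ (2 * j + 3) * n := by
      calc (2 * j + 3) * (8 * Q * T) = (8 * Q * (2 * j + 3)) * T := by ring
        _ = M * T := by rw [hM]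
        _ ≤ dg H v * n := h1
        _ ≤ _ := h2
    exact Nat.le_of_mul_le_mul_left h3 (by omega)
  obtain ⟨u, hu, hub⟩ : ∃ u ∈ strC H j M W0 p, strb H M u ∉ N H v := by
    by_contra hcon
    push Not at hcon
    have hsub : strC H j M W0 p ⊆ strR H j M := filter_subset _ _
    have h1 := str_fib H hsub (Y := N H v \ strW H M) fun u hu =>
      mem_sdiff.2 ⟨hcon u hu, (str_b_mem H (hsub hu)).2⟩
    have h2 : 4 * Q * (strC H j M W0 p).card ≤ 4 * Q * T := Nat.mul_le_mul_left _ h1
    have h3 : 8 * Q * T = 2 * (4 * Q * T) := by ring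
    omega
  obtain ⟨huR, hue⟩ := (str_mem_C H).1 hu
  have huv : v ≠ u := by
    rintro rfl
    exact hub (str_b_mem H huR).1
  refine (P2 v u huv).trans (card_le_card ?_)
  intro y hy
  rw [mem_inter] at hy
  rw [mem_inter]
  refine ⟨hy.1, ?_⟩
  rcases str_N H huR hy.2 with h | h
  · rwa [hue] at h
  · rw [h] at hy; exact absurd hy.1 hub

/-- two large classes -/
theorem str_cd (P2 : ∀ u v, u ≠ v → j ≤ (N H u ∩ N H v).card)
    (ht : ∀ S : Finset V, S.card = j →
      Fintype.card V < 60 * (j + 1) * (bad H S).card + 40 * (j + 1) ^ 2)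
    (hn : 80 * (j + 1) ^ 2 ≤ Fintype.card V) (hQ : Q = 240 * (j + 1) ^ 2) (hM : 4 * Q ≤ M)
    (hD : 2 * Q * ((strR H j M)ᶜ).card ≤ Fintype.card V) :
    ∃ (W0 : Finset V) (p1 p2 : V), W0 ⊆ strW H M ∧ W0.card = j + 2 ∧ p1 ∈ W0 ∧ p2 ∈ W0 ∧
      p1 ≠ p2 ∧ Fintype.card V < 4 * Q * (strC H j M W0 p1).card ∧
      Fintype.card V < 4 * Q * (strC H j M W0 p2).card := by
  set n := Fintype.card V with hn'
  have hQpos : 0 < Q := by rw [hQ]; positivity
  have hnpos : 80 ≤ n := by
    have : 1 ≤ (j + 1) ^ 2 := Nat.one_le_pow _ _ (by omega)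
    omega
  set R := strR H j M with hR
  set W := strW H M with hW
  have hRR : Rᶜ.card + R.card = n := by rw [card_compl]; have := card_le_univ R; omega
  obtain ⟨y0, hy0⟩ : R.Nonempty := by
    rw [nonempty_iff_ne_empty]
    intro h
    have h0 : R.card = 0 := by rw [h, card_empty]
    have : 2 * Q * n ≤ n := by
      have h1 : Rᶜ.card = n := by omega
      rw [h1] at hD
      exact hD
    nlinarith
  set P0 := N H y0 ∩ W with hP0
  set b0 := strb H M y0 with hb0
  have hP0c : P0.card = j + 1 := ((str_mem_R H).1 hy0).2.2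
  have hP0W : P0 ⊆ W := inter_subset_right
  have hbs : ∀ u ∈ R, M * dg H (strb H M u) < n := by
    intro u hu
    have := (str_b_mem H hu).2
    rw [str_mem_W] at this
    omega
  -- missing at most one element
  have hmiss : ∀ u, u ≠ y0 → ¬ H.Adj b0 u → j ≤ (N H u ∩ P0).card := by
    intro u hu hub
    refine (P2 u y0 hu).trans (card_le_card ?_)
    intro y hy
    rw [mem_inter] at hy
    rw [mem_inter]
    refine ⟨hy.1, ?_⟩
    rcases str_N H hy0 hy.2 with h | h
    · exact h
    · rw [h] at hy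
      rw [mem_N] at hy
      exact absurd hy.1.symm hub
  set A : V → Finset V := fun p => univ.filter fun u => u ≠ y0 ∧ ¬ H.Adj b0 u ∧ u ≠ p ∧
    ¬ H.Adj u p with hA
  have hmemA : ∀ {p u}, u ∈ A p ↔ u ≠ y0 ∧ ¬ H.Adj b0 u ∧ u ≠ p ∧ ¬ H.Adj u p := by
    intro p u; simp [hA]
  have hstep : ∀ p ∈ P0, ∃ p' ∈ P0, p' ≠ p ∧ n < Q * (A p').card := by
    intro p hp
    have hSc : (P0.erase p).card = j := by rw [card_erase_of_mem hp, hP0c]; rfl
    have h1 := ht (P0.erase p) hSc
    have h2 : (bad H (P0.erase p)).card ≤ dg H b0 + ∑ p' ∈ P0.erase p, (A p').card := by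
      have hsub : bad H (P0.erase p) ⊆ N H b0 ∪ (P0.erase p).biUnion A := by
        intro u hu
        rw [mem_bad] at hu
        obtain ⟨hu1, x, hx⟩ := hu
        rw [mem_miss] at hx
        rw [mem_union, mem_N]
        by_cases hb : H.Adj b0 u
        · exact Or.inl hb
        right
        rw [mem_biUnion]
        refine ⟨x, hx.2.1, hmemA.2 ⟨?_, hb, hx.1.symm, hx.2.2⟩⟩
        rintro rfl
        have : x ∈ N H u := (mem_inter.1 (mem_of_mem_erase hx.2.1)).1
        rw [mem_N] at this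
        exact hx.2.2 this
      exact (card_le_card hsub).trans ((card_union_le _ _).trans
        (Nat.add_le_add_left card_biUnion_le _))
    set T := ∑ p' ∈ P0.erase p, (A p').card
    have h3 : M * dg H b0 < n := hbs y0 hy0
    have h4 : 4 * Q * dg H b0 ≤ M * dg H b0 := Nat.mul_le_mul_right _ hM
    have h5 : 240 * (j + 1) ≤ Q := by rw [hQ]; nlinarith
    have h6 : 240 * (j + 1) * dg H b0 ≤ Q * dg H b0 := Nat.mul_le_mul_right _ h5
    have h7 : 60 * (j + 1) * (bad H (P0.erase p)).card ≤ 60 * (j + 1) * (dg H b0 + T) :=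
      Nat.mul_le_mul_left _ h2
    have h8 : n < 240 * (j + 1) * T := by
      have e1 : 60 * (j + 1) * (dg H b0 + T) = 60 * (j + 1) * dg H b0 + 60 * (j + 1) * T := by ring
      have e2 : 240 * (j + 1) * T = 4 * (60 * (j + 1) * T) := by ring
      have e3 : 240 * (j + 1) * dg H b0 = 4 * (60 * (j + 1) * dg H b0) := by ring
      have e4 : 4 * Q * dg H b0 = 4 * (Q * dg H b0) := by ring
      omega
    obtain ⟨p', hp', h9⟩ := str_pig hSc (fun p' => (A p').card) h8
    refine ⟨p', mem_of_mem_erase hp', (mem_erase.1 hp').1, ?_⟩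
    calc n < 240 * (j + 1) * (j + 1) * (A p').card := h9
      _ = Q * (A p').card := by rw [hQ]; ring
  obtain ⟨p0, hp0⟩ : P0.Nonempty := card_pos.1 (by omega)
  obtain ⟨p1, hp1, -, hA1⟩ := hstep p0 hp0
  obtain ⟨p2, hp2, hp21, hA2⟩ := hstep p1 hp1
  -- the regular parts
  have hAR : ∀ p, n < Q * (A p).card → n < 2 * Q * (A p ∩ R).card := by
    intro p hp
    have h1 : (A p).card ≤ (A p ∩ R).card + Rᶜ.card := by
      have : A p ⊆ (A p ∩ R) ∪ Rᶜ := by
        intro u hu
        rw [mem_union, mem_inter, mem_compl]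
        by_cases h : u ∈ R
        · exact Or.inl ⟨hu, h⟩
        · exact Or.inr h
      exact (card_le_card this).trans (card_union_le _ _)
    have h2 : 2 * Q * (A p).card ≤ 2 * Q * ((A p ∩ R).card + Rᶜ.card) := Nat.mul_le_mul_left _ h1
    have e1 : 2 * Q * ((A p ∩ R).card + Rᶜ.card) = 2 * Q * (A p ∩ R).card + 2 * Q * Rᶜ.card := by
      ring
    have e2 : 2 * Q * (A p).card = 2 * (Q * (A p).card) := by ring
    omega
  have hR1 := hAR p1 hA1
  have hR2 := hAR p2 hA2
  -- the extra large neighbour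
  have hx : ∀ p ∈ P0, ∀ u ∈ A p ∩ R, ∃ x, x ∈ W ∧ x ∉ P0 ∧ N H u ∩ W = (insert x P0).erase p := by
    intro p hp u hu
    rw [mem_inter, hmemA] at hu
    obtain ⟨⟨h1, h2, h3, h4⟩, h5⟩ := hu
    have h6 := hmiss u h1 h2
    have h7 : N H u ∩ P0 = P0.erase p := by
      refine eq_of_subset_of_card_le ?_ ?_
      · intro y hy
        rw [mem_inter, mem_N] at hy
        rw [mem_erase]
        refine ⟨?_, hy.2⟩
        rintro rfl
        exact h4 hy.1
      · rw [card_erase_of_mem hp, hP0c]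
        exact h6
    have h8 : P0.erase p ⊆ N H u ∩ W := by
      rw [← h7]
      exact inter_subset_inter_left hP0W
    have h9 : (N H u ∩ W).card = j + 1 := ((str_mem_R H).1 h5).2.2
    have h10 : ((N H u ∩ W) \ P0.erase p).card = 1 := by
      rw [card_sdiff_of_subset h8, h9, card_erase_of_mem hp, hP0c]
      omega
    obtain ⟨x, hx⟩ := card_eq_one.1 h10
    have hxm : x ∈ (N H u ∩ W) \ P0.erase p := by rw [hx]; exact mem_singleton_self x
    rw [mem_sdiff, mem_inter, mem_erase, mem_N] at hxm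
    have hxP : x ∉ P0 := by
      intro h
      by_cases hxp : x = p
      · rw [hxp] at hxm; exact h4 hxm.1.1
      · exact hxm.2 ⟨hxp, h⟩
    refine ⟨x, hxm.1.2, hxP, ?_⟩
    have hxp : x ≠ p := fun h => hxP (h ▸ hp)
    rw [← sdiff_union_of_subset h8, hx, erase_insert_of_ne hxp]
    rfl
  -- compatibility of the extra neighbours
  have hcomp : ∀ p ∈ P0, ∀ p' ∈ P0, p ≠ p' → ∀ u ∈ A p ∩ R, ∀ u' ∈ A p' ∩ R, ∀ x x',
      x ∉ P0 → x' ∉ P0 → x ∈ W → x' ∈ W → N H u ∩ W = (insert x P0).erase p →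
      N H u' ∩ W = (insert x' P0).erase p' → strb H M u ≠ strb H M u' → x = x' := by
    intro p hp p' hp' hpp u hu u' hu' x x' hxP hxP' hxW hxW' e e' hb
    by_contra hne
    have huR : u ∈ R := (mem_inter.1 hu).2
    have huR' : u' ∈ R := (mem_inter.1 hu').2
    have huu : u ≠ u' := by
      rintro rfl
      exact hb rfl
    have h1 := P2 u u' huu
    have h2 : N H u ∩ N H u' ⊆ (P0.erase p).erase p' := by
      intro y hy
      rw [mem_inter] at hy
      rcases str_N H huR hy.1 with h3 | h3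
      · rcases str_N H huR' hy.2 with h4 | h4
        · rw [← hW, e, mem_erase, mem_insert] at h3
          rw [← hW, e', mem_erase, mem_insert] at h4
          rw [mem_erase, mem_erase]
          refine ⟨h4.1, h3.1, ?_⟩
          rcases h3.2 with h5 | h5
          · rcases h4.2 with h6 | h6
            · exact absurd (h5.symm.trans h6) hne
            · exact h6
          · exact h5
        · exfalso
          rw [h4] at h3
          exact (str_b_mem H huR').2 (mem_inter.1 h3).2
      · rcases str_N H huR' hy.2 with h4 | h4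
        · exfalso
          rw [h3] at h4
          exact (str_b_mem H huR).2 (mem_inter.1 h4).2
        · exact absurd (h3.symm.trans h4) hb
    have h3 := card_le_card h2
    rw [card_erase_of_mem (mem_erase.2 ⟨hpp.symm, hp'⟩), card_erase_of_mem hp, hP0c] at h3
    have hj1 : 0 < (P0.erase p).card := card_pos.2 ⟨p', mem_erase.2 ⟨hpp.symm, hp'⟩⟩
    rw [card_erase_of_mem hp, hP0c] at hj1
    omega
  -- the classes
  have hcls : ∀ p ∈ P0, ∀ p' ∈ P0, p ≠ p' → ∀ u ∈ A p ∩ R, ∀ x, x ∉ P0 → x ∈ W →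
      N H u ∩ W = (insert x P0).erase p → n < 2 * Q * (A p' ∩ R).card →
      n < 4 * Q * ((A p' ∩ R).filter fun u' => N H u' ∩ W = (insert x P0).erase p').card := by
    intro p hp p' hp' hpp u hu x hxP hxW e hlarge
    set G := (A p' ∩ R).filter fun u' => N H u' ∩ W = (insert x P0).erase p' with hG
    have huR : u ∈ R := (mem_inter.1 hu).2
    set F := (A p' ∩ R).filter fun u' => strb H M u' = strb H M u with hF
    have h1 : F.card ≤ dg H (strb H M u) := by
      have h2 := str_fib H (X := F) (Y := {strb H M u})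
        (fun u' hu' => (mem_inter.1 (mem_filter.1 hu').1).2)
        fun u' hu' => mem_singleton.2 (mem_filter.1 hu').2
      rwa [sum_singleton] at h2
    have h2 : (A p' ∩ R).card ≤ F.card + G.card := by
      have : A p' ∩ R ⊆ F ∪ G := by
        intro u' hu'
        rw [mem_union]
        by_cases hb : strb H M u' = strb H M u
        · exact Or.inl (mem_filter.2 ⟨hu', hb⟩)
        right
        obtain ⟨x', hxW', hxP', e'⟩ := hx p' hp' u' hu'
        have := hcomp p hp p' hp' hpp u hu u' hu' x x' hxP hxP' hxW hxW' e e' (Ne.symm hb)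
        rw [hG, mem_filter, e', this]
        exact ⟨hu', rfl⟩
      exact (card_le_card this).trans (card_union_le _ _)
    have h3 := hbs u huR
    have h4 : 4 * Q * dg H (strb H M u) ≤ M * dg H (strb H M u) := Nat.mul_le_mul_right _ hM
    have h5 : 4 * Q * (A p' ∩ R).card ≤ 4 * Q * (dg H (strb H M u) + G.card) :=
      Nat.mul_le_mul_left _ (by omega)
    have e1 : 4 * Q * (dg H (strb H M u) + G.card) =
        4 * Q * dg H (strb H M u) + 4 * Q * G.card := by ring
    have e2 : 4 * Q * (A p' ∩ R).card = 2 * (2 * Q * (A p' ∩ R).card) := by ring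
    omega
  have hpos : ∀ {c : ℕ}, n < c → 0 < c := fun h => by omega
  obtain ⟨u1, hu1⟩ : (A p1 ∩ R).Nonempty := by
    rw [← card_pos]
    exact Nat.pos_of_mul_pos_left (hpos hR1)
  obtain ⟨x, hxW, hxP, e1⟩ := hx p1 hp1 u1 hu1
  have hC2 := hcls p1 hp1 p2 hp2 hp21.symm u1 hu1 x hxP hxW e1 hR2
  obtain ⟨u2, hu2⟩ : ((A p2 ∩ R).filter fun u' => N H u' ∩ W = (insert x P0).erase p2).Nonempty := by
    rw [← card_pos]
    exact Nat.pos_of_mul_pos_left (hpos hC2)
  rw [mem_filter] at hu2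
  have hC1 := hcls p2 hp2 p1 hp1 hp21 u2 hu2.1 x hxP hxW hu2.2 hR1
  have hsubC : ∀ p, ((A p ∩ R).filter fun u' => N H u' ∩ W = (insert x P0).erase p).card ≤
      (strC H j M (insert x P0) p).card := by
    intro p
    refine card_le_card fun u hu => ?_
    rw [mem_filter, mem_inter] at hu
    exact (str_mem_C H).2 ⟨hu.1.2, hu.2⟩
  replace hC1 := hC1.trans_le (Nat.mul_le_mul_left _ (hsubC p1))
  replace hC2 := hC2.trans_le (Nat.mul_le_mul_left _ (hsubC p2))
  refine ⟨insert x P0, p1, p2, ?_, ?_, mem_insert_of_mem hp1, mem_insert_of_mem hp2, hp21.symm,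
    hC1, hC2⟩
  · intro y hy
    rcases mem_insert.1 hy with h | h
    · rw [h]; exact hxW
    · exact hP0W h
  · rw [card_insert_of_notMem hxP, hP0c]

/-- two missed elements -/
theorem str_two {W0 : Finset V} (hW0 : W0.card = j + 2) {p q v : V} (hp : p ∈ W0)
    (h : j ≤ (N H v ∩ W0.erase p).card) (hq : q ∈ W0) (hqp : q ≠ p) (hqv : q ∉ N H v)
    {y : V} (hy : y ∈ W0) (hyp : y ≠ p) (hyq : y ≠ q) : y ∈ N H v := by
  by_contra hcon
  have h1 : N H v ∩ W0.erase p ⊆ ((W0.erase p).erase q).erase y := by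
    intro z hz
    rw [mem_inter] at hz
    rw [mem_erase, mem_erase]
    refine ⟨?_, ?_, hz.2⟩
    · rintro rfl; exact hcon hz.1
    · rintro rfl; exact hqv hz.1
  have h2 := card_le_card h1
  have h3 : q ∈ W0.erase p := mem_erase.2 ⟨hqp, hq⟩
  have h4 : y ∈ (W0.erase p).erase q := mem_erase.2 ⟨hyq, mem_erase.2 ⟨hyp, hy⟩⟩
  have h5 : 0 < ((W0.erase p).erase q).card := card_pos.2 ⟨y, h4⟩
  rw [card_erase_of_mem h4] at h2
  rw [card_erase_of_mem h3, card_erase_of_mem hp, hW0] at h2 h5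
  omega

/-- a third large class -/
theorem str_f (P2 : ∀ u v, u ≠ v → j ≤ (N H u ∩ N H v).card)
    (ht : ∀ S : Finset V, S.card = j →
      Fintype.card V < 60 * (j + 1) * (bad H S).card + 40 * (j + 1) ^ 2)
    (hn : 80 * (j + 1) ^ 2 ≤ Fintype.card V) (hQ : Q = 240 * (j + 1) ^ 2)
    (hM : M = 8 * Q * (2 * j + 3)) (hD : 2 * Q * ((strR H j M)ᶜ).card ≤ Fintype.card V)
    {W0 : Finset V} {p1 p2 : V} (hW : W0 ⊆ strW H M) (hc : W0.card = j + 2) (hp1 : p1 ∈ W0)
    (hp2 : p2 ∈ W0) (hne : p1 ≠ p2) (h1 : Fintype.card V < 4 * Q * (strC H j M W0 p1).card)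
    (h2 : Fintype.card V < 4 * Q * (strC H j M W0 p2).card) :
    ∃ p3 ∈ W0, p3 ≠ p1 ∧ p3 ≠ p2 ∧ Fintype.card V < 4 * Q * (strC H j M W0 p3).card := by
  set n := Fintype.card V with hn'
  set S := (W0.erase p1).erase p2 with hS
  have hSc : S.card = j := by
    rw [hS, card_erase_of_mem (mem_erase.2 ⟨hne.symm, hp2⟩), card_erase_of_mem hp1, hc]
    rfl
  have h3 := ht S hSc
  have h4 : (bad H S).card ≤ ((strR H j M)ᶜ).card + ∑ q ∈ S, (strC H j M W0 q).card := by
    have hsub : bad H S ⊆ (strR H j M)ᶜ ∪ S.biUnion fun q => strC H j M W0 q := by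
      intro v hv
      rw [mem_bad] at hv
      obtain ⟨-, q, hq⟩ := hv
      rw [mem_miss] at hq
      rw [mem_union, mem_compl]
      by_cases hvR : v ∈ strR H j M
      swap
      · exact Or.inl hvR
      right
      rw [mem_biUnion]
      refine ⟨q, hq.2.1, (str_mem_C H).2 ⟨hvR, ?_⟩⟩
      have hq1 := hq.2.1
      rw [hS, mem_erase, mem_erase] at hq1
      have hqv : q ∉ N H v := by rw [mem_N]; exact hq.2.2
      obtain ⟨g1, g2, g3⟩ := (str_mem_R H).1 hvR
      have e1 := str_e H P2 hM h1 (v := v) (by omega)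
      have e2 := str_e H P2 hM h2 (v := v) (by omega)
      symm
      refine eq_of_subset_of_card_le ?_ ?_
      · intro y hy
        rw [mem_erase] at hy
        rw [mem_inter]
        refine ⟨?_, hW hy.2⟩
        by_cases hy1 : y = p1
        · exact str_two H hc hp2 e2 hq1.2.2 hq1.1 hqv hy.2 (by rw [hy1]; exact hne) hy.1
        · exact str_two H hc hp1 e1 hq1.2.2 hq1.2.1 hqv hy.2 hy1 hy.1
      · rw [g3, card_erase_of_mem hq1.2.2, hc]
        exact le_of_eq rfl
    exact (card_le_card hsub).trans ((card_union_le _ _).trans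
      (Nat.add_le_add_left card_biUnion_le _))
  set T := ∑ q ∈ S, (strC H j M W0 q).card
  have h5 : 240 * (j + 1) ≤ Q := by rw [hQ]; nlinarith
  have h6 : 60 * (j + 1) * (bad H S).card ≤ 60 * (j + 1) * (((strR H j M)ᶜ).card + T) :=
    Nat.mul_le_mul_left _ h4
  have h7 : 240 * (j + 1) * ((strR H j M)ᶜ).card ≤ Q * ((strR H j M)ᶜ).card :=
    Nat.mul_le_mul_right _ h5
  have h8 : n < 240 * (j + 1) * T := by
    have e1 : 60 * (j + 1) * (((strR H j M)ᶜ).card + T) =
        60 * (j + 1) * ((strR H j M)ᶜ).card + 60 * (j + 1) * T := by ring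
    have e2 : 240 * (j + 1) * T = 4 * (60 * (j + 1) * T) := by ring
    have e3 : 240 * (j + 1) * ((strR H j M)ᶜ).card =
        4 * (60 * (j + 1) * ((strR H j M)ᶜ).card) := by ring
    have e4 : 2 * Q * ((strR H j M)ᶜ).card = 2 * (Q * ((strR H j M)ᶜ).card) := by ring
    omega
  obtain ⟨p3, hp3, h9⟩ := str_pig hSc (fun q => (strC H j M W0 q).card) h8
  have hp3' := hp3
  rw [hS, mem_erase, mem_erase] at hp3'
  refine ⟨p3, hp3'.2.2, hp3'.2.1, hp3'.1, ?_⟩
  have e5 : 240 * (j + 1) * (j + 1) * (strC H j M W0 p3).card = Q * (strC H j M W0 p3).card := by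
    rw [hQ]; ring
  have e6 : 4 * Q * (strC H j M W0 p3).card = 4 * (Q * (strC H j M W0 p3).card) := by ring
  omega

/-- vertices outside `W0` -/
theorem str_g (P2 : ∀ u v, u ≠ v → j ≤ (N H u ∩ N H v).card) (hM : M = 8 * Q * (2 * j + 3))
    {W0 : Finset V} {p1 p2 p3 : V} (hc : W0.card = j + 2) (hp1 : p1 ∈ W0)
    (hp2 : p2 ∈ W0) (hp3 : p3 ∈ W0) (h12 : p1 ≠ p2) (h31 : p3 ≠ p1) (h32 : p3 ≠ p2)
    (h1 : Fintype.card V < 4 * Q * (strC H j M W0 p1).card)
    (h2 : Fintype.card V < 4 * Q * (strC H j M W0 p2).card)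
    (h3 : Fintype.card V < 4 * Q * (strC H j M W0 p3).card)
    {v : V} (hv : dg H v ≤ 2 * j + 3) : (miss H W0 v).card ≤ 1 := by
  by_contra hcon
  push Not at hcon
  obtain ⟨q, hq, q', hq', hqq⟩ := one_lt_card.1 hcon
  rw [mem_miss] at hq hq'
  have hqv : q ∉ N H v := by rw [mem_N]; exact hq.2.2
  have hqv' : q' ∉ N H v := by rw [mem_N]; exact hq'.2.2
  have key : ∀ p ∈ W0, Fintype.card V < 4 * Q * (strC H j M W0 p).card → p = q ∨ p = q' := by
    intro p hp hlarge
    by_contra hno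
    push Not at hno
    have e := str_e H P2 hM hlarge hv
    exact hqv' (str_two H hc hp e hq.2.1 hno.1.symm hqv hq'.2.1 hno.2.symm hqq.symm)
  rcases key p1 hp1 h1 with a | a <;> rcases key p2 hp2 h2 with b | b <;>
    rcases key p3 hp3 h3 with c | c
  · exact h12 (a.trans b.symm)
  · exact h12 (a.trans b.symm)
  · exact h31 (c.trans a.symm)
  · exact h32 (c.trans b.symm)
  · exact h32 (c.trans b.symm)
  · exact h31 (c.trans a.symm)
  · exact h12 (a.trans b.symm)
  · exact h12 (a.trans b.symm)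

/-- vertices of `W0` -/
theorem str_h (P2 : ∀ u v, u ≠ v → j ≤ (N H u ∩ N H v).card) (hj : 1 ≤ j)
    {W0 : Finset V} {p1 p2 p3 : V} (hW : W0 ⊆ strW H M) (hc : W0.card = j + 2) (hp1 : p1 ∈ W0)
    (hp2 : p2 ∈ W0) (hp3 : p3 ∈ W0) (h12 : p1 ≠ p2) (h31 : p3 ≠ p1) (h32 : p3 ≠ p2)
    (h1 : Fintype.card V < 4 * Q * (strC H j M W0 p1).card)
    (h2 : Fintype.card V < 4 * Q * (strC H j M W0 p2).card)
    (h3 : Fintype.card V < 4 * Q * (strC H j M W0 p3).card)
    (hg : ∀ v, dg H v ≤ 2 * j + 3 → (miss H W0 v).card ≤ 1)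
    (hI : 4 * Q * ∑ v ∈ ((strW H M)ᶜ) \ strR H j M, dg H v ≤ Fintype.card V)
    {w : V} (hw : w ∈ W0) : (miss H W0 w).card ≤ 1 := by
  by_contra hcon
  push Not at hcon
  obtain ⟨w', hw', w'', hw'', hne⟩ := one_lt_card.1 hcon
  rw [mem_miss] at hw' hw''
  set Z := ((W0.erase w).erase w').erase w'' with hZ
  have hZc : Z.card = j - 1 := by
    rw [hZ, card_erase_of_mem, card_erase_of_mem, card_erase_of_mem hw, hc]
    · omega
    · exact mem_erase.2 ⟨hw'.1, hw'.2.1⟩
    · exact mem_erase.2 ⟨hne.symm, mem_erase.2 ⟨hw''.1, hw''.2.1⟩⟩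
  have hZm : ∀ y, y ∈ W0 → y ∈ N H w → y ∈ Z := by
    intro y hy hyw
    rw [mem_N] at hyw
    rw [hZ, mem_erase, mem_erase, mem_erase]
    refine ⟨?_, ?_, ?_, hy⟩
    · rintro rfl; exact hw''.2.2 hyw
    · rintro rfl; exact hw'.2.2 hyw
    · rintro rfl; exact H.loopless.irrefl _ hyw
  have hpos : ∀ {p : V}, Fintype.card V < 4 * Q * (strC H j M W0 p).card →
      (strC H j M W0 p).Nonempty := by
    intro p hp
    rw [← card_pos]
    exact Nat.pos_of_mul_pos_left (lt_of_le_of_lt (Nat.zero_le _) hp)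
  have hb : ∀ p ∈ W0, ∀ u ∈ strC H j M W0 p, strb H M u ∈ N H w := by
    intro p hp u hu
    by_contra hbu
    obtain ⟨huR, hue⟩ := (str_mem_C H).1 hu
    have huw : w ≠ u := by
      rintro rfl
      exact ((str_mem_R H).1 huR).1 (hW hw)
    have h4 := P2 w u huw
    have h5 : N H w ∩ N H u ⊆ Z := by
      intro y hy
      rw [mem_inter] at hy
      rcases str_N H huR hy.2 with h | h
      · rw [hue, mem_erase] at h
        exact hZm y h.2 hy.1
      · rw [h] at hy; exact absurd hy.1 hbu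
    have h6 := card_le_card h5
    omega
  have hpw : ∀ p ∈ W0, Fintype.card V < 4 * Q * (strC H j M W0 p).card → p ∉ Z := by
    intro p hp hlarge hpZ
    obtain ⟨u, hu⟩ := hpos hlarge
    obtain ⟨huR, hue⟩ := (str_mem_C H).1 hu
    have huw : w ≠ u := by
      rintro rfl
      exact ((str_mem_R H).1 huR).1 (hW hw)
    have h4 := P2 w u huw
    have h5 : N H w ∩ N H u ⊆ insert (strb H M u) (Z.erase p) := by
      intro y hy
      rw [mem_inter] at hy
      rw [mem_insert, mem_erase]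
      rcases str_N H huR hy.2 with h | h
      · rw [hue, mem_erase] at h
        exact Or.inr ⟨h.1, hZm y h.2 hy.1⟩
      · exact Or.inl h
    have h6 := (card_le_card h5).trans (card_insert_le _ _)
    rw [card_erase_of_mem hpZ, hZc] at h6
    have h7 : 0 < Z.card := card_pos.2 ⟨p, hpZ⟩
    omega
  have hpin : ∀ p ∈ W0, Fintype.card V < 4 * Q * (strC H j M W0 p).card →
      p = w ∨ p = w' ∨ p = w'' := by
    intro p hp hlarge
    have h4 := hpw p hp hlarge
    rw [hZ, mem_erase, mem_erase, mem_erase] at h4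
    tauto
  have hwl : Fintype.card V < 4 * Q * (strC H j M W0 w).card := by
    rcases hpin p1 hp1 h1 with a | a | a
    · rw [← a]; exact h1
    · rcases hpin p2 hp2 h2 with b | b | b
      · rw [← b]; exact h2
      · exact absurd (a.trans b.symm) h12
      · rcases hpin p3 hp3 h3 with c | c | c
        · rw [← c]; exact h3
        · exact absurd (c.trans a.symm) h31
        · exact absurd (c.trans b.symm) h32
    · rcases hpin p2 hp2 h2 with b | b | b
      · rw [← b]; exact h2
      · rcases hpin p3 hp3 h3 with c | c | c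
        · rw [← c]; exact h3
        · exact absurd (c.trans b.symm) h32
        · exact absurd (c.trans a.symm) h31
      · exact absurd (a.trans b.symm) h12
  have hfin : ∀ u ∈ strC H j M W0 w, strb H M u ∈ ((strW H M)ᶜ) \ strR H j M := by
    intro u hu
    obtain ⟨huR, hue⟩ := (str_mem_C H).1 hu
    obtain ⟨hb1, hb2⟩ := str_b_mem H huR
    rw [mem_sdiff, mem_compl]
    refine ⟨hb2, fun hbR => ?_⟩
    set b := strb H M u with hbdef
    have hbw : b ∈ N H w := hb w hw u hu
    have hwb : w ≠ b := by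
      intro h
      exact hb2 (h ▸ hW hw)
    obtain ⟨g1, g2, g3⟩ := (str_mem_R H).1 hbR
    have hbW0 : b ∉ W0 := fun h => hb2 (hW h)
    have h4 := hg b (by omega)
    have h5 := card_inter_notMem H hbW0
    have h6 : N H b ∩ W0 = N H b ∩ strW H M := by
      refine eq_of_subset_of_card_le (inter_subset_inter_left hW) ?_
      rw [g3]
      omega
    have hub : u = strb H M b := by
      have h7 : u ∈ N H b := by
        rw [mem_N] at hb1 ⊢
        exact hb1.symm
      rcases str_N H hbR h7 with h | h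
      · exact absurd (mem_inter.1 h).2 ((str_mem_R H).1 huR).1
      · exact h
    have huw : u ∉ N H w := by
      intro h
      have h8 : w ∈ N H u ∩ strW H M := by
        rw [mem_inter, mem_N]
        rw [mem_N] at h
        exact ⟨h.symm, hW hw⟩
      rw [hue, mem_erase] at h8
      exact h8.1 rfl
    have h9 := P2 w b hwb
    have h10 : N H w ∩ N H b ⊆ Z := by
      intro y hy
      rw [mem_inter] at hy
      rcases str_N H hbR hy.2 with h | h
      · rw [← h6, mem_inter] at h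
        exact hZm y h.2 hy.1
      · rw [← hub] at h
        rw [h] at hy
        exact absurd hy.1 huw
    have h11 := card_le_card h10
    omega
  have hsub : strC H j M W0 w ⊆ strR H j M := filter_subset _ _
  have h4 := str_fib H hsub hfin
  have h5 : 4 * Q * (strC H j M W0 w).card ≤
      4 * Q * ∑ v ∈ ((strW H M)ᶜ) \ strR H j M, dg H v := Nat.mul_le_mul_left _ h4
  omega

/-- RE-Str -/
theorem str (H : SimpleGraph V) [DecidableRel H.Adj] {j : ℕ} (hj : 1 ≤ j)
    (P1 : ∀ v, j + 2 ≤ dg H v) (P2 : ∀ u v, u ≠ v → j ≤ (N H u ∩ N H v).card)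
    (h1 : ∀ W : Finset V, W.card = j + 2 → (∀ w ∈ W, (miss H W w).card ≤ 1) →
      (∀ v, v ∉ W → 2 * j + 3 ≤ dg H v ∨ (miss H W v).card ≤ 1) → Good H j)
    (ht : ∀ S : Finset V, S.card = j →
      60 * (j + 1) * (bad H S).card + 40 * (j + 1) ^ 2 ≤ Fintype.card V → Good H j)
    (hn : 10 ^ 8 * (j + 2) ^ 8 ≤ Fintype.card V) : Good H j := by
  by_contra hgood
  set n := Fintype.card V with hn'
  obtain ⟨Q, hQ⟩ : ∃ Q, Q = 240 * (j + 1) ^ 2 := ⟨_, rfl⟩
  obtain ⟨M, hM⟩ : ∃ M, M = 8 * Q * (2 * j + 3) := ⟨_, rfl⟩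
  have ht' : ∀ S : Finset V, S.card = j → n < 60 * (j + 1) * (bad H S).card + 40 * (j + 1) ^ 2 := by
    intro S hS
    by_contra h
    push Not at h
    exact hgood (ht S hS h)
  have hs : ∑ v, dg H v < (2 * j + 3) * n := by
    by_contra h
    push Not at h
    apply hgood
    unfold Good
    have h2 : ((2 * j + 3 : ℤ)) * (Fintype.card V : ℤ) ≤ ∑ v, (dg H v : ℤ) := by exact_mod_cast h
    have h3 : (0 : ℤ) ≤ j ^ 2 + 4 * j + 6 + 2 * ((j / 2 : ℕ) : ℤ) := by positivity
    linarith
  -- numerical facts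
  have hn2 : 80 * (j + 1) ^ 2 ≤ n := by
    have e1 : (j + 1) ^ 2 ≤ (j + 2) ^ 8 := by
      calc (j + 1) ^ 2 ≤ (j + 2) ^ 2 := Nat.pow_le_pow_left (by omega) 2
        _ ≤ (j + 2) ^ 8 := Nat.pow_le_pow_right (by omega) (by norm_num)
    omega
  have hbig : 4 * Q * ((2 * j + 4) * ((2 * j + 3) * ((2 * j + 3) * M))) ≤ n := by
    have e1 : 4 * Q * ((2 * j + 4) * ((2 * j + 3) * ((2 * j + 3) * M))) =
        1843200 * (2 * (j + 2)) * ((j + 1) ^ 4 * (2 * j + 3) ^ 3) := by
      rw [hM, hQ]; ring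
    have e2 : (j + 1) ^ 4 * (2 * j + 3) ^ 3 ≤ (j + 2) ^ 4 * (2 * (j + 2)) ^ 3 :=
      Nat.mul_le_mul (Nat.pow_le_pow_left (by omega) 4) (Nat.pow_le_pow_left (by omega) 3)
    rw [e1]
    calc 1843200 * (2 * (j + 2)) * ((j + 1) ^ 4 * (2 * j + 3) ^ 3)
        ≤ 1843200 * (2 * (j + 2)) * ((j + 2) ^ 4 * (2 * (j + 2)) ^ 3) := Nat.mul_le_mul_left _ e2
      _ = 29491200 * (j + 2) ^ 8 := by ring
      _ ≤ 10 ^ 8 * (j + 2) ^ 8 := Nat.mul_le_mul_right _ (by norm_num)
      _ ≤ n := hn
  have hQ60 : 60 * (j + 1) ≤ Q := by rw [hQ]; nlinarith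
  have ha := fun v (hv : dg H v ≤ 2 * j + 3) => str_a H P2 ht' hM hQ60 hn2 hv
  obtain ⟨hW1, hI1, hI2⟩ := str_b H (M := M) P1 ha hs
  set W := strW H M with hW
  set I := Wᶜ \ strR H j M with hI
  have hLW : (2 * j + 3) * W.card ≤ (2 * j + 3) * ((2 * j + 3) * M) := Nat.mul_le_mul_left _ hW1
  have hR : ((strR H j M)ᶜ).card ≤ W.card + I.card := by
    have : (strR H j M)ᶜ ⊆ W ∪ I := by
      intro v hv
      rw [mem_compl] at hv
      rw [mem_union, hI, mem_sdiff, mem_compl]
      by_cases h : v ∈ W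
      · exact Or.inl h
      · exact Or.inr ⟨h, hv⟩
    exact (card_le_card this).trans (card_union_le _ _)
  have hD : 2 * Q * ((strR H j M)ᶜ).card ≤ n := by
    have e1 : ((strR H j M)ᶜ).card ≤ (2 * j + 4) * ((2 * j + 3) * ((2 * j + 3) * M)) := by
      have e2 : (2 * j + 4) * ((2 * j + 3) * ((2 * j + 3) * M)) =
          (2 * j + 3) * ((2 * j + 3) * M) + (2 * j + 3) * ((2 * j + 3) * ((2 * j + 3) * M)) := by
        ring
      have e3 : W.card ≤ (2 * j + 3) * W.card := Nat.le_mul_of_pos_left _ (by omega)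
      have e4 : (2 * j + 3) * M ≤ (2 * j + 3) * ((2 * j + 3) * M) :=
        Nat.le_mul_of_pos_left _ (by omega)
      have e5 : (2 * j + 3) * ((2 * j + 3) * M) ≤ (2 * j + 3) * ((2 * j + 3) * ((2 * j + 3) * M)) :=
        Nat.le_mul_of_pos_left _ (by omega)
      omega
    calc 2 * Q * ((strR H j M)ᶜ).card ≤
          2 * Q * ((2 * j + 4) * ((2 * j + 3) * ((2 * j + 3) * M))) := Nat.mul_le_mul_left _ e1
      _ ≤ 4 * Q * ((2 * j + 4) * ((2 * j + 3) * ((2 * j + 3) * M))) :=
        Nat.mul_le_mul_right _ (by omega)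
      _ ≤ n := hbig
  have hI3 : 4 * Q * ∑ v ∈ I, dg H v ≤ n := by
    calc 4 * Q * ∑ v ∈ I, dg H v ≤ 4 * Q * ((2 * j + 4) * ((2 * j + 3) * W.card)) :=
          Nat.mul_le_mul_left _ hI2
      _ ≤ 4 * Q * ((2 * j + 4) * ((2 * j + 3) * ((2 * j + 3) * M))) :=
          Nat.mul_le_mul_left _ (Nat.mul_le_mul_left _ hLW)
      _ ≤ n := hbig
  have hM4 : 4 * Q ≤ M := by rw [hM]; nlinarith
  obtain ⟨W0, p1, p2, hW0, hc, hp1, hp2, h12, hl1, hl2⟩ := str_cd H P2 ht' hn2 hQ hM4 hD
  obtain ⟨p3, hp3, h31, h32, hl3⟩ := str_f H P2 ht' hn2 hQ hM hD hW0 hc hp1 hp2 h12 hl1 hl2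
  have hg : ∀ v, dg H v ≤ 2 * j + 3 → (miss H W0 v).card ≤ 1 := fun v hv =>
    str_g H P2 hM hc hp1 hp2 hp3 h12 h31 h32 hl1 hl2 hl3 hv
  refine hgood (h1 W0 hc (fun w hw => ?_) fun v hv => ?_)
  · exact str_h H P2 hj hW0 hc hp1 hp2 hp3 h12 h31 h32 hl1 hl2 hl3 hg hI3 hw
  · rcases Nat.lt_or_ge (dg H v) (2 * j + 3) with h | h
    · exact Or.inr (hg v h.le)
    · exact Or.inl h

end lemmas

end Pool.Agent.Helper38.RE
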