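import Pool.Agent.Helper38.RE.Basic

/-! Project RE (MP_cc4a3b_co), piece RE-T1. -/

set_option autoImplicit false

namespace Pool.Agent.Helper38.RE

open Finset

variable {V : Type*} [Fintype V] [DecidableEq V]

theorem t1 (H : SimpleGraph V) [DecidableRel H.Adj] {j : ℕ} (P1 : ∀ v, j + 2 ≤ dg H v)
    {W : Finset V} (hW : W.card = j + 2) (hm : ∀ w ∈ W, (miss H W w).card ≤ 1)
    (h : ∀ v, v ∉ W → 2 * j + 3 ≤ dg H v ∨ (miss H W v).card ≤ 1) : Good H j := by
  have hacc := acc H (subset_univ W) (fun v _ => subset_univ _)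
  have h1 : ∀ v ∈ univ \ W, 2 * j + 3 ≤ dg H v + (N H v ∩ W).card := by
    intro v hv
    have hv' : v ∉ W := by simpa using hv
    have e1 := card_inter_notMem H hv'
    have e2 := P1 v
    rcases h v hv' with h2 | h2 <;> omega
  have h2 : (univ \ W).card * (2 * j + 3) ≤ ∑ v ∈ univ \ W, (dg H v + (N H v ∩ W).card) := by
    have := Finset.card_nsmul_le_sum (univ \ W) (fun v => dg H v + (N H v ∩ W).card)
      (2 * j + 3) h1
    simpa [nsmul_eq_mul] using this
  have hc : (univ \ W).card + (j + 2) = Fintype.card V := by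
    rw [← hW, card_sdiff_add_card_eq_card (subset_univ W), card_univ]
  have h3 : ∑ v ∈ W, (N H v ∩ W).card + ∑ v ∈ W, (miss H W v).card = (j + 2) * (j + 1) := by
    rw [← sum_add_distrib]
    have : ∀ v ∈ W, (N H v ∩ W).card + (miss H W v).card = j + 1 := by
      intro v hv
      have := card_inter_mem H hv
      omega
    rw [sum_congr rfl this, sum_const, hW, smul_eq_mul]
  have h4 : ∑ v ∈ W, (miss H W v).card ≤ j + 2 := by
    have := Finset.sum_le_card_nsmul W (fun v => (miss H W v).card) 1 hm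
    simpa [hW] using this
  obtain ⟨q, hq⟩ := even_inner H W
  have h5 : Even ((j + 2) * (j + 1)) := by
    rw [mul_comm]; exact Nat.even_mul_succ_self (j + 1)
  obtain ⟨r, hr⟩ := h5
  have h6 : ∑ v ∈ W, (miss H W v).card ≤ 2 * (j / 2) + 2 := by omega
  unfold Good
  have e5 : (∑ v, (dg H v : ℤ)) = ((∑ v, dg H v : ℕ) : ℤ) := by push_cast; rfl
  rw [e5, hacc]
  have h7 : (((univ \ W).card : ℤ) + (j + 2)) = Fintype.card V := by exact_mod_cast hc
  have h8 : (((univ \ W).card : ℤ) * (2 * j + 3))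
      ≤ ((∑ v ∈ univ \ W, (dg H v + (N H v ∩ W).card) : ℕ) : ℤ) := by exact_mod_cast h2
  have h9 : ((∑ v ∈ W, (N H v ∩ W).card : ℕ) : ℤ) + ((∑ v ∈ W, (miss H W v).card : ℕ) : ℤ)
      = (j + 2) * (j + 1) := by exact_mod_cast h3
  have h10 : ((∑ v ∈ W, (miss H W v).card : ℕ) : ℤ) ≤ 2 * ((j / 2 : ℕ) : ℤ) + 2 := by
    exact_mod_cast h6
  rw [Nat.cast_add, ← h7]
  nlinarith [h8, h9, h10]

end Pool.Agent.Helper38.RE
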