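import Pool.Agent.Helper38.RE.T2a
import Pool.Agent.Helper38.RE.R1

/-! Project RE (MP_cc4a3b_co): T2, a set `S` of `j` vertices almost completely joined to the
rest. -/

set_option autoImplicit false
set_option linter.unusedSectionVars false
set_option linter.unusedVariables false

namespace Pool.Agent.Helper38.RE

open Finset

variable {V : Type*} [Fintype V] [DecidableEq V]

/-- the arithmetic of the sum -/
theorem arith {d p q : ℤ} (hd : 5 ≤ d) (hp : 0 ≤ p) (hq : 0 ≤ q) (hpd : p ≤ d)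
    (h2 : 2 ≤ p + q) (hex : ¬ (p = 2 ∧ q = 0)) (hex' : ¬ (p = 3 ∧ q = 0 ∧ d = 5)) :
    -6 ≤ q * (d - 3) + p * (d + q - 6) + (d - p) * (max 3 (p + q) - 5) := by
  by_cases h5 : 5 ≤ p + q
  · rw [max_eq_right (by omega)]
    have h1 : 0 ≤ q * (d - 3) := mul_nonneg hq (by omega)
    have h3 : 0 ≤ (d - p) * (p + q - 5) := mul_nonneg (by omega) (by omega)
    by_cases h6 : 6 ≤ d + q
    · have := mul_nonneg hp (by omega : 0 ≤ d + q - 6)
      omega
    · have hd5 : d = 5 := by omega
      have hq0 : q = 0 := by omega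
      subst hd5 hq0
      have hp5 : p = 5 := by omega
      subst hp5
      norm_num
  · push Not at h5
    have hq4 : q ≤ 4 := by omega
    have hp4 : p ≤ 4 := by omega
    interval_cases p <;> interval_cases q <;> first | omega | skip
    all_goals simp only [max_def]
    all_goals norm_num at hex hex' ⊢
    all_goals omega

/-- the general lower bound -/
theorem Cx.lowB {F : SimpleGraph V} [DecidableRel F.Adj] {U D : Finset V} (C : Cx F U D)
    {d p q : ℕ} (hd5 : 5 ≤ d) (hd : D.card = d) (hp : (tZ F U D ∩ D).card = p)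
    (hq : (tZ F U D \ D).card = q) {g c : ℤ}
    (e7 : ((tT2 F U D).card : ℤ) + ∑ w ∈ tK F U D, ((N F w ∩ tK F U D).card : ℤ) + c
      < 3 * (tK F U D).card + 2 * d + g) :
    (q : ℤ) * (d - 3) + p * (d + q - 6) + (d - p) * (max 3 ((p : ℤ) + q) - 5) + c < g := by
  have hDK : D ⊆ tK F U D := C.D_sub_K
  -- the elements of `Zs` outside `D`
  have e1 : (q : ℤ) * d ≤ ∑ z ∈ tZ F U D \ D, ((N F z ∩ tK F U D).card : ℤ) := by
    rw [← hq, ← nsmul_eq_mul]
    refine card_nsmul_le_sum _ _ _ fun z hz => ?_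
    rw [mem_sdiff] at hz
    have : D ⊆ N F z ∩ tK F U D := fun y hy => mem_inter.2
      ⟨C.Z_adj hz.1 hy (fun h => hz.2 (h ▸ hy)), hDK hy⟩
    rw [← hd]
    exact_mod_cast card_le_card this
  have e2 : (p : ℤ) * (d - 1 + q) ≤ ∑ z ∈ tZ F U D ∩ D, ((N F z ∩ tK F U D).card : ℤ) := by
    rw [← hp, ← nsmul_eq_mul]
    refine card_nsmul_le_sum _ _ _ fun z hz => ?_
    rw [mem_inter] at hz
    have h1 : D.erase z ∪ (tZ F U D \ D) ⊆ N F z ∩ tK F U D := by
      intro y hy
      rw [mem_union, mem_erase, mem_sdiff] at hy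
      rcases hy with hy | hy
      · exact mem_inter.2 ⟨C.Z_adj hz.1 hy.2 hy.1, hDK hy.2⟩
      · refine mem_inter.2 ⟨?_, Cx.Z_sub hy.1⟩
        exact Cx.N_comm.1 (C.Z_adj hy.1 hz.2 (fun h => hy.2 (h ▸ hz.2)))
    have h2 : Disjoint (D.erase z) (tZ F U D \ D) := by
      rw [disjoint_left]
      intro y hy hy'
      exact (mem_sdiff.1 hy').2 (mem_of_mem_erase hy)
    have h3 := card_le_card h1
    rw [card_union_of_disjoint h2, hq] at h3
    have h4 := card_erase_add_one hz.2
    omega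
  have e3 : ∑ z ∈ tZ F U D, ((N F z ∩ tK F U D).card : ℤ)
      = ∑ z ∈ tZ F U D \ D, ((N F z ∩ tK F U D).card : ℤ)
        + ∑ z ∈ tZ F U D ∩ D, ((N F z ∩ tK F U D).card : ℤ) := by
    rw [add_comm, ← sum_union (by
      rw [disjoint_left]
      intro y hy hy'
      exact (mem_sdiff.1 hy').2 (mem_inter.1 hy).2)]
    congr 1
    ext y
    simp only [mem_union, mem_inter, mem_sdiff]
    tauto
  have hZc : (tZ F U D).card = p + q := by
    rw [← hp, ← hq]
    exact (card_inter_add_card_sdiff _ _).symm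
  -- charging
  have e4 := C.charge (l := 2) (by omega) (by omega)
    (fun w => if w ∈ D then max 3 ((p : ℤ) + q) else 3) (by
      intro w hw
      rw [mem_sdiff] at hw
      have h3 := C.dg_K hw.1
      split_ifs with hwD
      · by_cases h : 3 ≤ p + q
        · left
          rw [max_eq_right (by exact_mod_cast h)]
          have h1 : tZ F U D ⊆ N F w ∩ tK F U D := by
            intro z hz
            exact mem_inter.2 ⟨Cx.N_comm.1 (C.Z_adj hz hwD (fun h => hw.2 (h ▸ hz))),
              Cx.Z_sub hz⟩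
          have h2 := card_le_card h1
          rw [hZc] at h2
          exact_mod_cast h2
        · right
          push Not at h
          rw [max_eq_left (by omega)]
          exact ⟨by exact_mod_cast h3, by norm_num⟩
      · right
        exact ⟨by exact_mod_cast h3, by norm_num⟩)
  have e5 : ∑ w ∈ tK F U D \ tZ F U D, (if w ∈ D then max 3 ((p : ℤ) + q) else 3)
      = 3 * (tK F U D \ tZ F U D).card + (max 3 ((p : ℤ) + q) - 3) * (d - p) := by
    have h1 : ∀ w ∈ tK F U D \ tZ F U D, (if w ∈ D then max 3 ((p : ℤ) + q) else 3)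
        = 3 + if w ∈ D then (max 3 ((p : ℤ) + q) - 3) else 0 := by
      intro w _
      split_ifs <;> ring
    rw [sum_congr rfl h1, sum_add_distrib, sum_const, nsmul_eq_mul, ← sum_filter, sum_const,
      nsmul_eq_mul]
    have h2 : ((tK F U D \ tZ F U D).filter fun w => w ∈ D) = D \ tZ F U D := by
      ext y
      simp only [mem_filter, mem_sdiff]
      constructor
      · rintro ⟨⟨h1, h2⟩, h3⟩; exact ⟨h3, h2⟩
      · rintro ⟨h1, h2⟩; exact ⟨⟨hDK h1, h2⟩, h1⟩
    have h3 : (D \ tZ F U D).card + p = d := by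
      rw [← hp, ← hd, inter_comm]
      exact card_sdiff_add_card_inter _ _
    have h4 : ((D \ tZ F U D).card : ℤ) = d - p := by omega
    rw [h2, h4]
    ring
  have hKZ : (tK F U D \ tZ F U D).card + (p + q) = (tK F U D).card := by
    rw [← hZc]
    exact card_sdiff_add_card_eq_card Cx.Z_sub
  have e6 : ∑ w ∈ tK F U D, ((N F w ∩ tK F U D).card : ℤ)
      = ∑ w ∈ tK F U D \ tZ F U D, ((N F w ∩ tK F U D).card : ℤ)
        + ∑ z ∈ tZ F U D, ((N F z ∩ tK F U D).card : ℤ) := (sum_sdiff Cx.Z_sub).symm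
  rw [e5] at e4
  have hKZ' : ((tK F U D \ tZ F U D).card : ℤ) = (tK F U D).card - p - q := by omega
  rw [hKZ'] at e4
  generalize max 3 ((p : ℤ) + q) = M at *
  nlinarith

section main

variable (H : SimpleGraph V) [DecidableRel H.Adj] {j : ℕ} {S : Finset V}

/-- an element of `D` adjacent to an element of `T` misses only elements without missing pairs -/
theorem unm (hH : Hyp H j) (hS : S.card = j) {z v s : V}
    (hv : v ∈ tT (del H S) Sᶜ (bad H S)) (hzv : z ∈ N (del H S) v) (hs : s ∈ miss H S z) :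
    miss H S s = ∅ := by
  have hsS : s ∈ S := ((mem_miss H).1 hs).2.1
  have hvS : v ∉ S := by simpa using Cx.T_sub hv
  have h1 := codeg_mem H hH.P2 hsS hvS
  have h2 : (miss H S s).card ≤ (miss H S s ∪ (miss H S v).erase s).card :=
    card_le_card subset_union_left
  have h3 : N (del H S) v ∩ N H s ⊆ (N (del H S) v).erase z := by
    intro x hx
    rw [mem_inter] at hx
    refine mem_erase.2 ⟨?_, hx.1⟩
    rintro rfl
    exact ((mem_miss H).1 hs).2.2 ((mem_N H).1 hx.2).symm
  have h4 := card_le_card h3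
  have h5 := card_erase_add_one hzv
  have h6 : (N (del H S) v).card = 2 := (Cx.mem_T.1 hv).2.2
  rw [← card_eq_zero]
  omega

theorem unmZ (hH : Hyp H j) (hS : S.card = j) {z s : V}
    (hz : z ∈ tZ (del H S) Sᶜ (bad H S)) (hs : s ∈ miss H S z) : miss H S s = ∅ := by
  obtain ⟨hzK, v, hv1, hzv⟩ := mem_filter.1 hz
  exact unm H hH hS (Cx.T1_sub hv1) hzv hs

/-- `Zs = ∅` is impossible -/
theorem caseZ0 (P : Pre H j S) (hj : 10 ≤ j) (hS : S.card = j)
    (hD : 60 * (j + 1) * (bad H S).card + 40 * (j + 1) ^ 2 ≤ Fintype.card V)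
    (h0 : (tZ (del H S) Sᶜ (bad H S)).card = 0) : False := by
  have h1 : tT (del H S) Sᶜ (bad H S) ⊆ tT2 (del H S) Sᶜ (bad H S) := by
    intro v hv
    have hd := P.hd
    rcases P.C.T1_or_T2 (by omega) hv with h | h
    · exfalso
      have h2 : (N (del H S) v ∩ tK (del H S) Sᶜ (bad H S)).card = 1 := (mem_filter.1 h).2
      obtain ⟨z, hz⟩ := card_pos.1 (by omega : 0 < (N (del H S) v ∩
        tK (del H S) Sᶜ (bad H S)).card)
      rw [mem_inter] at hz
      have h3 : z ∈ tZ (del H S) Sᶜ (bad H S) := mem_filter.2 ⟨hz.2, v, h, hz.1⟩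
      rw [card_eq_zero] at h0
      rw [h0] at h3
      exact notMem_empty _ h3
    · exact h
  have h2 := card_le_card h1
  have h3 := P.hPsi
  have h4 := P.hT
  have h5 := P.hK
  have h6 : ∑ s ∈ S, (miss H S s).card ≤ j := by
    rw [← hS]
    conv_rhs => rw [card_eq_sum_ones]
    exact sum_le_sum P.hm
  have h7 : 60 * (j * (bad H S).card) + 60 * (bad H S).card + 40 * (j * j) + 80 * j + 40
      ≤ Fintype.card V := by
    calc _ = 60 * (j + 1) * (bad H S).card + 40 * (j + 1) ^ 2 := by ring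
      _ ≤ _ := hD
  generalize j * (bad H S).card = X at *
  generalize j * j = Y at *
  omega

/-- `Zs = {z}`: use `Y = insert z S` -/
theorem caseZ1 (hH : Hyp H j) (P : Pre H j S) (hj : 10 ≤ j) (hS : S.card = j)
    (hD : 60 * (j + 1) * (bad H S).card + 40 * (j + 1) ^ 2 ≤ Fintype.card V)
    (h1 : (tZ (del H S) Sᶜ (bad H S)).card = 1) : Good H j := by
  obtain ⟨z, hz⟩ := card_eq_one.1 h1
  have hzZ : z ∈ tZ (del H S) Sᶜ (bad H S) := by rw [hz]; exact mem_singleton_self z
  have hzK := Cx.Z_sub hzZ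
  have hzS : z ∉ S := by simpa using Cx.K_sub hzK
  have hY : (insert z S).card = j + 1 := by rw [card_insert_of_notMem hzS, hS]
  apply r1 H hj hH hY
  have hsub : bad H (insert z S) ⊆ tK (del H S) Sᶜ (bad H S) ∪ tT2 (del H S) Sᶜ (bad H S) := by
    intro v hv
    obtain ⟨hv1, x, hx⟩ := (mem_bad H).1 hv
    rw [mem_insert, not_or] at hv1
    have hvU : v ∈ Sᶜ := by simpa using hv1.2
    by_contra hno
    rw [mem_union, not_or] at hno
    have hvT : v ∈ tT (del H S) Sᶜ (bad H S) := by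
      by_contra h
      exact hno.1 (Cx.notT_K hvU h)
    have hd := P.hd
    have hv1' : v ∈ tT1 (del H S) Sᶜ (bad H S) :=
      (P.C.T1_or_T2 (by omega) hvT).resolve_right hno.2
    have h2 : (N (del H S) v ∩ tK (del H S) Sᶜ (bad H S)).card = 1 := (mem_filter.1 hv1').2
    obtain ⟨z', hz'⟩ := card_pos.1 (by omega : 0 < (N (del H S) v ∩
      tK (del H S) Sᶜ (bad H S)).card)
    rw [mem_inter] at hz'
    have h3 : z' ∈ tZ (del H S) Sᶜ (bad H S) := mem_filter.2 ⟨hz'.2, v, hv1', hz'.1⟩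
    rw [hz, mem_singleton] at h3
    subst h3
    rw [mem_miss, mem_insert] at hx
    obtain ⟨hxv, hx1, hx2⟩ := hx
    rcases hx1 with rfl | hx1
    · have := (mem_N _).1 hz'.1
      exact hx2 this.1
    · have hvD : v ∉ bad H S := (Cx.mem_T.1 hvT).2.1
      exact hvD ((mem_bad H).2 ⟨hv1.2, x, (mem_miss H).2 ⟨hxv, hx1, hx2⟩⟩)
  have h2 := (card_le_card hsub).trans (card_union_le _ _)
  have h3 := P.hPsi
  have h5 := P.hK
  have h6 : ∑ s ∈ S, (miss H S s).card ≤ j := by
    rw [← hS]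
    conv_rhs => rw [card_eq_sum_ones]
    exact sum_le_sum P.hm
  have h8 : (bad H (insert z S)).card ≤ 22 * (bad H S).card + 9 * j := by omega
  have h9 : 2 * (j + 1) * (bad H (insert z S)).card
      ≤ 2 * (j + 1) * (22 * (bad H S).card + 9 * j) := Nat.mul_le_mul_left _ h8
  nlinarith [Nat.zero_le (j * (bad H S).card), Nat.zero_le (bad H S).card]

/-- the special case: `Zs` consists of two elements of `D` and only one element of `S` has no
missing pair in `S` -/
theorem caseB (hH : Hyp H j) (P : Pre H j S) (hj : 11 ≤ j) (hS : S.card = j)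
    (hp : (tZ (del H S) Sᶜ (bad H S) ∩ bad H S).card = 2)
    (hq : (tZ (del H S) Sᶜ (bad H S) \ bad H S).card = 0)
    (hg : ∑ s ∈ S, (miss H S s).card = 2 * (j / 2)) : False := by
  have C := P.C
  have hDK := C.D_sub_K
  have hZD : tZ (del H S) Sᶜ (bad H S) ⊆ bad H S := by
    rw [card_eq_zero, sdiff_eq_empty_iff_subset] at hq
    exact hq
  rw [inter_eq_left.2 hZD] at hp
  obtain ⟨z1, hz1⟩ := card_pos.1 (by omega : 0 < (tZ (del H S) Sᶜ (bad H S)).card)
  obtain ⟨a, ha⟩ := card_eq_one.1 (P.h1 z1 (hZD hz1))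
  have haz : a ∈ miss H S z1 := by rw [ha]; exact mem_singleton_self a
  have haS : a ∈ S := ((mem_miss H).1 haz).2.1
  have ha0 : miss H S a = ∅ := unmZ H hH hS hz1 haz
  -- only `a` is without missing pair
  have hone : ∀ s ∈ S, miss H S s = ∅ → s = a := by
    intro s hs h0
    by_contra hsa
    have h1 : ∑ x ∈ S, (miss H S x).card = ∑ x ∈ (S.erase a).erase s, (miss H S x).card := by
      rw [← sum_erase_add _ _ haS, ← sum_erase_add _ _ (mem_erase.2 ⟨hsa, hs⟩), h0, ha0]
      simp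
    have h2 : ∑ x ∈ (S.erase a).erase s, (miss H S x).card ≤ ((S.erase a).erase s).card := by
      rw [card_eq_sum_ones]
      exact sum_le_sum fun x hx => P.hm x (mem_of_mem_erase (mem_of_mem_erase hx))
    have h3 := card_erase_add_one (mem_erase.2 ⟨hsa, hs⟩)
    have h4 := card_erase_add_one haS
    omega
  have hZa : ∀ z ∈ tZ (del H S) Sᶜ (bad H S), miss H S z = {a} := by
    intro z hz
    obtain ⟨a', ha'⟩ := card_eq_one.1 (P.h1 z (hZD hz))
    have h1 : a' ∈ miss H S z := by rw [ha']; exact mem_singleton_self a'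
    have h2 := unmZ H hH hS hz h1
    rw [ha', hone a' ((mem_miss H).1 h1).2.1 h2]
  have hgz : ∀ z ∈ tZ (del H S) Sᶜ (bad H S), grp H S z = {a} := by
    intro z hz
    rw [grp_eq H (hZa z hz), cmp, ha0]
    rfl
  obtain ⟨E, hE⟩ : ∃ E, ((bad H S).filter fun v => grp H S v ≠ grp H S z1) = E := ⟨_, rfl⟩
  have hUne : (Sᶜ).Nonempty := ⟨z1, P.C.hD (hZD hz1)⟩
  have hEc := card_grp_ne H hH hUne P.hm P.h1 (hZD hz1)
  rw [hE, hS, hgz z1 hz1, card_singleton] at hEc
  have hED : E ⊆ bad H S := by rw [← hE]; exact filter_subset _ _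
  have hEZ : Disjoint E (tZ (del H S) Sᶜ (bad H S)) := by
    rw [disjoint_left]
    intro v hv hvZ
    rw [← hE, mem_filter, hgz z1 hz1] at hv
    exact hv.2 (hgz v hvZ)
  -- the elements of `E` have degree at least `4`
  have hE4 : ∀ v ∈ E, 4 ≤ dg (del H S) v := by
    intro v hv
    have hvD := hED hv
    have hvS : v ∉ S := by simpa using C.hD hvD
    obtain ⟨s, hs⟩ := card_eq_one.1 (P.h1 v hvD)
    have hsa : s ≠ a := by
      rintro rfl
      rw [← hE, mem_filter, hgz z1 hz1] at hv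
      apply hv.2
      rw [grp_eq H hs, cmp, ha0]
      rfl
    have h1 := codeg_mem H hH.P2 haS hvS
    have h2 : miss H S a ∪ (miss H S v).erase a = {s} := by
      rw [ha0, hs, erase_eq_of_notMem (by simpa using hsa.symm), empty_union]
    rw [h2, card_singleton, hS] at h1
    have h3 : (N (del H S) v ∩ N H a) ∪ tZ (del H S) Sᶜ (bad H S) ⊆ N (del H S) v := by
      intro x hx
      rw [mem_union, mem_inter] at hx
      rcases hx with hx | hx
      · exact hx.1
      · refine Cx.N_comm.1 (C.Z_adj hx hvD ?_)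
        rintro rfl
        exact (disjoint_left.1 hEZ) hv hx
    have h4 : Disjoint (N (del H S) v ∩ N H a) (tZ (del H S) Sᶜ (bad H S)) := by
      rw [disjoint_left]
      intro x hx hxZ
      have h5 : a ∈ miss H S x := by rw [hZa x hxZ]; exact mem_singleton_self a
      exact ((mem_miss H).1 h5).2.2 ((mem_N H).1 (mem_inter.1 hx).2).symm
    have h5 := card_le_card h3
    rw [card_union_of_disjoint h4, hp] at h5
    have h6 : dg (del H S) v = (N (del H S) v).card := rfl
    omega
  have hd7 : 7 ≤ (bad H S).card := by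
    have h1 : E ∪ tZ (del H S) Sᶜ (bad H S) ⊆ bad H S := union_subset hED hZD
    have h2 := card_le_card h1
    rw [card_union_of_disjoint hEZ, hp] at h2
    omega
  have e4 := C.charge (l := 3) (by omega) (by omega) (fun w => if w ∈ E then 4 else 3) (by
    intro w hw
    rw [mem_sdiff] at hw
    have h3 := C.dg_K hw.1
    right
    split_ifs with hwE
    · exact ⟨by exact_mod_cast hE4 w hwE, by norm_num⟩
    · exact ⟨by exact_mod_cast h3, by norm_num⟩)
  have e5 : ∑ w ∈ tK (del H S) Sᶜ (bad H S) \ tZ (del H S) Sᶜ (bad H S),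
      (if w ∈ E then (4 : ℤ) else 3)
      = 3 * (tK (del H S) Sᶜ (bad H S) \ tZ (del H S) Sᶜ (bad H S)).card + E.card := by
    have h1 : ∀ w ∈ tK (del H S) Sᶜ (bad H S) \ tZ (del H S) Sᶜ (bad H S),
        (if w ∈ E then (4 : ℤ) else 3) = 3 + if w ∈ E then 1 else 0 := by
      intro w _
      split_ifs <;> norm_num
    rw [sum_congr rfl h1, sum_add_distrib, sum_const, nsmul_eq_mul, ← sum_filter, sum_const,
      nsmul_eq_mul]
    have h2 : ((tK (del H S) Sᶜ (bad H S) \ tZ (del H S) Sᶜ (bad H S)).filter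
        fun w => w ∈ E) = E := by
      ext y
      simp only [mem_filter, mem_sdiff]
      constructor
      · rintro ⟨-, h3⟩; exact h3
      · intro h1
        exact ⟨⟨hDK (hED h1), (disjoint_left.1 hEZ) h1⟩, h1⟩
    rw [h2]
    ring
  have hKZ : (tK (del H S) Sᶜ (bad H S) \ tZ (del H S) Sᶜ (bad H S)).card + 2
      = (tK (del H S) Sᶜ (bad H S)).card := by
    rw [← hp]
    exact card_sdiff_add_card_eq_card Cx.Z_sub
  have e6 : ∑ w ∈ tK (del H S) Sᶜ (bad H S),
        ((N (del H S) w ∩ tK (del H S) Sᶜ (bad H S)).card : ℤ)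
      = ∑ w ∈ tK (del H S) Sᶜ (bad H S) \ tZ (del H S) Sᶜ (bad H S),
          ((N (del H S) w ∩ tK (del H S) Sᶜ (bad H S)).card : ℤ)
        + ∑ z ∈ tZ (del H S) Sᶜ (bad H S),
          ((N (del H S) z ∩ tK (del H S) Sᶜ (bad H S)).card : ℤ) :=
    (sum_sdiff Cx.Z_sub).symm
  have e2 : (2 : ℤ) * ((bad H S).card - 1) ≤ ∑ z ∈ tZ (del H S) Sᶜ (bad H S),
      ((N (del H S) z ∩ tK (del H S) Sᶜ (bad H S)).card : ℤ) := by
    have h0 : (2 : ℤ) * ((bad H S).card - 1)
        = ((tZ (del H S) Sᶜ (bad H S)).card) • (((bad H S).card : ℤ) - 1) := by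
      rw [hp, nsmul_eq_mul]; norm_num
    rw [h0]
    refine card_nsmul_le_sum _ _ _ fun z hz => ?_
    have h1 : (bad H S).erase z ⊆ N (del H S) z ∩ tK (del H S) Sᶜ (bad H S) := by
      intro y hy
      rw [mem_erase] at hy
      exact mem_inter.2 ⟨C.Z_adj hz hy.2 hy.1, hDK hy.2⟩
    have h3 := card_le_card h1
    have h4 := card_erase_add_one (hZD hz)
    omega
  have e7 : ((tT2 (del H S) Sᶜ (bad H S)).card : ℤ)
      + ∑ w ∈ tK (del H S) Sᶜ (bad H S),
        ((N (del H S) w ∩ tK (del H S) Sᶜ (bad H S)).card : ℤ)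
      + 6 + 2 * ((j / 2 : ℕ) : ℤ)
      < 3 * (tK (del H S) Sᶜ (bad H S)).card + 2 * (bad H S).card
        + ((∑ s ∈ S, (miss H S s).card : ℕ) : ℤ) := by
    exact_mod_cast P.hPsi
  rw [e5] at e4
  rw [hg] at e7
  push_cast at e7
  omega

theorem t2 (hj : 10 ≤ j) (hH : Hyp H j) (hS : S.card = j)
    (hD : 60 * (j + 1) * (bad H S).card + 40 * (j + 1) ^ 2 ≤ Fintype.card V) : Good H j := by
  by_contra hbad
  have P := pre H hj hH hS hD hbad
  obtain ⟨d, hd⟩ : ∃ d, (bad H S).card = d := ⟨_, rfl⟩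
  obtain ⟨p, hp⟩ : ∃ p, (tZ (del H S) Sᶜ (bad H S) ∩ bad H S).card = p := ⟨_, rfl⟩
  obtain ⟨q, hq⟩ : ∃ q, (tZ (del H S) Sᶜ (bad H S) \ bad H S).card = q := ⟨_, rfl⟩
  obtain ⟨g, hg⟩ : ∃ g, ∑ s ∈ S, (miss H S s).card = g := ⟨_, rfl⟩
  have hZc : (tZ (del H S) Sᶜ (bad H S)).card = p + q := by
    rw [← hp, ← hq]
    exact (card_inter_add_card_sdiff _ _).symm
  by_cases h0 : p + q = 0
  · exact caseZ0 H P hj hS hD (by omega)
  by_cases h1 : p + q = 1
  · exact hbad (caseZ1 H hH P hj hS hD (by omega))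
  have hjd := P.hd
  have hgj : g ≤ j := by
    rw [← hg, ← hS]
    conv_rhs => rw [card_eq_sum_ones]
    exact sum_le_sum P.hm
  have hev : Even g := hg ▸ even_miss H S
  have hpd : p ≤ d := by
    rw [← hp, ← hd]
    exact card_le_card inter_subset_right
  have hgp : 1 ≤ p → g + 1 ≤ j := by
    intro hp1
    obtain ⟨z, hz⟩ := card_pos.1 (by omega : 0 < (tZ (del H S) Sᶜ (bad H S) ∩ bad H S).card)
    rw [mem_inter] at hz
    obtain ⟨a, ha⟩ := card_eq_one.1 (P.h1 z hz.2)
    have haz : a ∈ miss H S z := by rw [ha]; exact mem_singleton_self a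
    have haS : a ∈ S := ((mem_miss H).1 haz).2.1
    have ha0 : miss H S a = ∅ := unmZ H hH hS hz.1 haz
    have h1 : ∑ x ∈ S, (miss H S x).card = ∑ x ∈ S.erase a, (miss H S x).card := by
      rw [← sum_erase_add _ _ haS, ha0]
      simp
    have h2 : ∑ x ∈ S.erase a, (miss H S x).card ≤ (S.erase a).card := by
      rw [card_eq_sum_ones]
      exact sum_le_sum fun x hx => P.hm x (mem_of_mem_erase hx)
    have h4 := card_erase_add_one haS
    omega
  obtain ⟨e, he⟩ := hev
  have hB := P.C.lowB (d := d) (p := p) (q := q) (g := (g : ℤ)) (c := 6 + 2 * ((j / 2 : ℕ) : ℤ))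
    (by omega) hd hp hq (by
      have := P.hPsi
      rw [hg, hd] at this
      have h' : (((tT2 (del H S) Sᶜ (bad H S)).card
          + ∑ w ∈ tK (del H S) Sᶜ (bad H S),
            (N (del H S) w ∩ tK (del H S) Sᶜ (bad H S)).card
          + 6 + 2 * (j / 2) : ℕ) : ℤ)
          < ((3 * (tK (del H S) Sᶜ (bad H S)).card + 2 * d + g : ℕ) : ℤ) := by
        exact_mod_cast this
      push_cast at h' ⊢
      linarith)
  by_cases hex : p = 2 ∧ q = 0
  · obtain ⟨rfl, rfl⟩ := hex
    have hg1 := hgp (by omega)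
    by_cases hg2 : g = 2 * (j / 2)
    · exact caseB H hH P (by omega) hS hp hq (by omega)
    · norm_num [max_def] at hB
      omega
  · by_cases hex' : p = 3 ∧ q = 0 ∧ d = 5
    · obtain ⟨rfl, rfl, rfl⟩ := hex'
      have hg1 := hgp (by omega)
      norm_num [max_def] at hB
      omega
    · have hA := arith (d := (d : ℤ)) (p := (p : ℤ)) (q := (q : ℤ)) (by omega) (by omega)
        (by omega) (by omega) (by omega) (by omega) (by omega)
      omega

end main

end Pool.Agent.Helper38.RE
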