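import Pool.Agent.Helper38.RE.Cx

/-! Project RE (MP_cc4a3b_co): first part of T2, the reduction to a counting problem in
`F = H - S`. -/

set_option autoImplicit false
set_option linter.unusedSectionVars false
set_option linter.unusedVariables false

namespace Pool.Agent.Helper38.RE

open Finset

variable {V : Type*} [Fintype V] [DecidableEq V]

theorem card_compl_int (S : Finset V) : ((Sᶜ).card : ℤ) = Fintype.card V - S.card := by
  rw [card_compl, Nat.cast_sub (card_le_univ S)]

theorem N_del_sub_U (H : SimpleGraph V) [DecidableRel H.Adj] (S : Finset V) :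
    ∀ v ∈ Sᶜ, N (del H S) v ⊆ Sᶜ := fun _ _ => N_del_subset H

theorem sum_miss_bad (H : SimpleGraph V) [DecidableRel H.Adj] (S : Finset V) :
    ∑ v ∈ Sᶜ, (miss H S v).card = ∑ v ∈ bad H S, (miss H S v).card := by
  symm
  refine sum_subset (fun v hv => by simpa using ((mem_bad H).1 hv).1) ?_
  intro v hv hv'
  rw [card_eq_zero, ← not_nonempty_iff_eq_empty]
  intro h
  exact hv' ((mem_bad H).2 ⟨by simpa using hv, h⟩)

theorem card_miss_le (H : SimpleGraph V) [DecidableRel H.Adj] (S : Finset V) (v : V) :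
    (miss H S v).card ≤ S.card :=
  card_le_card fun _ hx => ((mem_miss H).1 hx).2.1

/-- the facts used in the second part -/
structure Pre (H : SimpleGraph V) [DecidableRel H.Adj] (j : ℕ) (S : Finset V) : Prop where
  C : Cx (del H S) Sᶜ (bad H S)
  hm : ∀ w ∈ S, (miss H S w).card ≤ 1
  h1 : ∀ v ∈ bad H S, (miss H S v).card = 1
  hd : j ≤ 2 * (bad H S).card
  hK : (tK (del H S) Sᶜ (bad H S)).card ≤ 5 * (bad H S).card + 2 * j
  hT : (tT (del H S) Sᶜ (bad H S)).card + (tK (del H S) Sᶜ (bad H S)).card + j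
    = Fintype.card V
  hPsi : (tT2 (del H S) Sᶜ (bad H S)).card
      + ∑ w ∈ tK (del H S) Sᶜ (bad H S), (N (del H S) w ∩ tK (del H S) Sᶜ (bad H S)).card
      + 6 + 2 * (j / 2)
    < 3 * (tK (del H S) Sᶜ (bad H S)).card + 2 * (bad H S).card
      + ∑ s ∈ S, (miss H S s).card

theorem pre (H : SimpleGraph V) [DecidableRel H.Adj] {j : ℕ} (hj : 10 ≤ j) (hH : Hyp H j)
    {S : Finset V} (hS : S.card = j)
    (hD : 60 * (j + 1) * (bad H S).card + 40 * (j + 1) ^ 2 ≤ Fintype.card V)
    (hbad : ¬ Good H j) : Pre H j S := by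
  rw [Good, not_le, sum_dg H S, hS] at hbad
  have hU := N_del_sub_U H S
  obtain ⟨c, hc⟩ : ∃ b : ℕ, ∑ v ∈ bad H S, (miss H S v).card = b := ⟨_, rfl⟩
  obtain ⟨g, hg⟩ : ∃ g : ℕ, ∑ s ∈ S, (miss H S s).card = g := ⟨_, rfl⟩
  obtain ⟨r, hr⟩ : ∃ r : ℕ, ∑ v ∈ Sᶜ, dg (del H S) v = r := ⟨_, rfl⟩
  have hsplit : ∑ v ∈ Sᶜ, ((miss H S v).card : ℤ) = (c : ℤ) := by
    rw [← hc, ← sum_miss_bad]; push_cast; rfl
  have hγ : ∑ s ∈ S, ((miss H S s).card : ℤ) = (g : ℤ) := by
    rw [← hg]; push_cast; rfl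
  have hR : ∑ v ∈ Sᶜ, (dg (del H S) v : ℤ) = (r : ℤ) := by
    rw [← hr]; push_cast; rfl
  rw [hsplit, hγ, hR] at hbad
  obtain ⟨u, hu⟩ : ∃ u : ℕ, (Sᶜ).card = u := ⟨_, rfl⟩
  obtain ⟨d, hd⟩ : ∃ d : ℕ, (bad H S).card = d := ⟨_, rfl⟩
  have hn : u + j = Fintype.card V := by
    rw [← hu, ← hS, add_comm]; exact card_add_card_compl S
  have hstar : r + 6 + 2 * (j / 2) < 3 * u + 2 * c + g := by
    rw [← hn] at hbad
    have : (r : ℤ) + 6 + 2 * ((j / 2 : ℕ) : ℤ) < 3 * u + 2 * c + g := by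
      generalize ((j / 2 : ℕ) : ℤ) = q at hbad ⊢
      push_cast at hbad
      nlinarith
    exact_mod_cast this
  have hγle : g ≤ j * j := by
    rw [← hg, ← smul_eq_mul]
    conv_rhs => rw [← hS]
    refine sum_le_card_nsmul _ _ _ fun s hs => ?_
    exact card_miss_le H S s
  have hcle : c ≤ j * d := by
    rw [← hc, ← hd, mul_comm j, ← smul_eq_mul]
    conv_rhs => rw [← hS]
    refine sum_le_card_nsmul _ _ _ fun s hs => ?_
    exact card_miss_le H S s
  have hD' : 60 * (j * d) + 60 * d + 40 * (j * j) + 80 * j + 40 ≤ u + j := by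
    rw [hn]
    calc 60 * (j * d) + 60 * d + 40 * (j * j) + 80 * j + 40
        = 60 * (j + 1) * d + 40 * (j + 1) ^ 2 := by ring
      _ ≤ _ := by rw [← hd]; exact hD
  have hf : ∀ v ∈ Sᶜ, 2 + (miss H S v).card ≤ dg (del H S) v := by
    intro v hv
    have h1 := dg_notMem H (S := S) (v := v) (by simpa using hv)
    have h2 := hH.P1 v
    omega
  have hcod : ∀ y ∈ Sᶜ, ∀ v ∈ Sᶜ, v ≠ y →
      (miss H S y).card ≤ (N (del H S) v ∩ N (del H S) y).card := by
    intro y hy v hv hvy
    have h1 := codeg_del H hH.P2 (S := S) (u := v) (v := y) (by simpa using hv)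
      (by simpa using hy) hvy
    have h2 : (miss H S y).card ≤ (miss H S v ∪ miss H S y).card :=
      card_le_card subset_union_right
    omega
  have hcard : ∀ y ∈ Sᶜ, (Sᶜ.erase y).card + 1 = u := fun y hy => by
    rw [← hu]; exact card_erase_add_one hy
  have hna : ∀ y ∈ Sᶜ, (Sᶜ.erase y).card
      ≤ ((Sᶜ.erase y) \ N (del H S) y).card + dg (del H S) y := fun y hy =>
    card_le_card_sdiff_add_card
  have hc1 : ∀ v ∈ Sᶜ, (miss H S v).card ≤ 1 := by
    intro y hy
    by_contra hy2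
    push Not at hy2
    have e1 := ex_id (del H S) hU hy
    have e2 : 2 * (Sᶜ.erase y).card
        ≤ ∑ v ∈ Sᶜ.erase y, (N (del H S) v ∩ N (del H S) y).card := by
      rw [mul_comm, ← smul_eq_mul]
      refine card_nsmul_le_sum _ _ _ fun v hv => ?_
      have := hcod y hy v (mem_of_mem_erase hv) (ne_of_mem_erase hv)
      omega
    have e3 : 2 * ((Sᶜ.erase y) \ N (del H S) y).card
        ≤ ∑ v ∈ (Sᶜ.erase y) \ N (del H S) y, dg (del H S) v := by
      rw [mul_comm, ← smul_eq_mul]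
      refine card_nsmul_le_sum _ _ _ fun v hv => ?_
      have := hf v (mem_of_mem_erase (mem_sdiff.1 hv).1)
      omega
    have e4 := hcard y hy
    have e5 := hna y hy
    rw [hr] at e1
    generalize j * d = P at *
    generalize j * j = Q at *
    omega
  have hDU : bad H S ⊆ Sᶜ := fun v hv => by simpa using ((mem_bad H).1 hv).1
  have hb1 : ∀ v ∈ bad H S, (miss H S v).card = 1 := by
    intro v hv
    have h1 := hc1 v (hDU hv)
    have h2 := ((mem_bad H).1 hv).2.card_pos
    omega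
  have hcd : c = d := by
    rw [← hc, sum_congr rfl hb1, ← card_eq_sum_ones, hd]
  have hSne : S.Nonempty := by rw [← card_pos]; omega
  have hSU : S ≠ univ := by
    intro h
    have : (Sᶜ).card = 0 := by rw [h]; simp
    generalize j * d = P at *
    generalize j * j = Q at *
    omega
  have hUne : (Sᶜ).Nonempty := by
    rw [nonempty_iff_ne_empty]
    intro h
    exact hSU (by rwa [compl_eq_empty_iff] at h)
  obtain ⟨x, hx, y, hy, hxy⟩ := hH.P5 S hSne hSU
  have hyD : y ∈ bad H S := (mem_bad H).2 ⟨hy, x, (mem_miss H).2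
    ⟨fun h => hy (h ▸ hx), hx, fun h => hxy h.symm⟩⟩
  have C : Cx (del H S) Sᶜ (bad H S) := by
    refine ⟨hU, hDU, fun v hv => ?_, fun v hv => ?_, fun y hy v hv hvy => ?_⟩
    · have := hf v hv
      omega
    · have := hf v (hDU hv)
      have := hb1 v hv
      omega
    · have := hcod y (hDU hy) v hv hvy
      have := hb1 y hy
      omega
  obtain ⟨v0, hv0, hv0D, hv02⟩ : ∃ v ∈ Sᶜ, v ∉ bad H S ∧ dg (del H S) v = 2 := by
    by_contra hno
    push Not at hno
    have h3 : ∀ v ∈ Sᶜ, 3 ≤ dg (del H S) v := by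
      intro v hv
      by_cases hvD : v ∈ bad H S
      · exact C.h3 v hvD
      · have := C.h2 v hv
        have := hno v hv hvD
        omega
    have hyU := hDU hyD
    have e1 := ex_id (del H S) hU hyU
    have e2 : (Sᶜ.erase y).card
        ≤ ∑ v ∈ Sᶜ.erase y, (N (del H S) v ∩ N (del H S) y).card := by
      rw [card_eq_sum_ones]
      exact sum_le_sum fun v hv => C.hc y hyD v (mem_of_mem_erase hv) (ne_of_mem_erase hv)
    have e3 : 3 * ((Sᶜ.erase y) \ N (del H S) y).card
        ≤ ∑ v ∈ (Sᶜ.erase y) \ N (del H S) y, dg (del H S) v := by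
      rw [mul_comm, ← smul_eq_mul]
      exact card_nsmul_le_sum _ _ _ fun v hv => h3 v (mem_of_mem_erase (mem_sdiff.1 hv).1)
    have e6 : 3 * (Sᶜ.erase y).card ≤ ∑ v ∈ Sᶜ.erase y, dg (del H S) v := by
      rw [mul_comm, ← smul_eq_mul]
      exact card_nsmul_le_sum _ _ _ fun v hv => h3 v (mem_of_mem_erase hv)
    have e7 : ∑ v ∈ Sᶜ.erase y, dg (del H S) v + dg (del H S) y = r := by
      rw [sum_erase_add _ _ hyU, hr]
    have e4 := hcard y hyU
    have e5 := hna y hyU
    rw [hr] at e1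
    generalize j * d = P at *
    generalize j * j = Q at *
    omega
  have hm : ∀ w ∈ S, (miss H S w).card ≤ 1 := by
    intro w hw
    have h1 := codeg_mem H hH.P2 hw (by simpa using hv0 : v0 ∉ S)
    have h2 : (miss H S w).card ≤ (miss H S w ∪ (miss H S v0).erase w).card :=
      card_le_card subset_union_left
    have h3 : (N (del H S) v0 ∩ N H w).card ≤ dg (del H S) v0 := card_le_card inter_subset_left
    omega
  have hgj : g ≤ j := by
    rw [← hg, ← hS]
    conv_rhs => rw [card_eq_sum_ones]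
    exact sum_le_sum hm
  have hjd : j ≤ 2 * d := by
    have h1 := card_grp_ne H hH hUne hm hb1 hyD
    have h2 := card_grp_le H hm (hb1 y hyD)
    have h3 : ((bad H S).filter fun v => grp H S v ≠ grp H S y) ⊆ (bad H S).erase y := by
      intro v hv
      rw [mem_filter] at hv
      exact mem_erase.2 ⟨fun h => hv.2 (h ▸ rfl), hv.1⟩
    have h4 := card_le_card h3
    have h5 := card_erase_add_one hyD
    omega
  have hKc : (tK (del H S) Sᶜ (bad H S)).card ≤ 5 * d + 2 * j := by
    have h1 : 1 < (bad H S).card := by omega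
    obtain ⟨a, ha, b, hb, hab⟩ := one_lt_card.1 h1
    have h2 := C.card_K ha hb hab.symm
    rw [hr, hu, hd] at h2
    omega
  have hTK : (tT (del H S) Sᶜ (bad H S)).card + (tK (del H S) Sᶜ (bad H S)).card = u := by
    rw [← hu, add_comm]
    exact card_sdiff_add_card_eq_card Cx.T_sub
  refine ⟨C, hm, hb1, by omega, by omega, by omega, ?_⟩
  have h1 := C.sum_eq (by omega)
  rw [hr] at h1
  rw [hg, hd]
  omega

end Pool.Agent.Helper38.RE
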