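import Pool.Agent.Helper38.RE.BDL

/-! Project RE2 (MP_cc4a3b_co), T2 for all `j ≥ 1`: the identity for the degree sum and the
payment of the double vertices. -/

set_option autoImplicit false
set_option linter.unusedSectionVars false
set_option linter.unusedVariables false

namespace Pool.Agent.Helper38.RE

open Finset

variable {V : Type*} [Fintype V] [DecidableEq V]

variable {F : SimpleGraph V} [DecidableRel F.Adj] {U D : Finset V}

/-- the elements of `T2` with two neighbours in `Z` -/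
def tTZ (F : SimpleGraph V) [DecidableRel F.Adj] (U D : Finset V) : Finset V :=
  (tT2 F U D).filter fun v => (N F v ∩ tZ F U D).card = 2

/-- the contribution of the elements of `Z` -/
def zg (F : SimpleGraph V) [DecidableRel F.Adj] (U D : Finset V) (z : V) : ℤ :=
  ((N F z ∩ tZ F U D).card : ℤ) - 3 - if z ∈ D then 2 else 0

theorem psi_id (C : Cx F U D) (hd : 3 ≤ D.card) :
    ((∑ v ∈ U, dg F v : ℕ) : ℤ) - 3 * (U.card : ℤ) - 2 * (D.card : ℤ)
      = ∑ w ∈ tK F U D \ tZ F U D, bdlg F U D w - ((bdlB F U D).card : ℤ)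
        + ((tTZ F U D).card : ℤ) + ∑ z ∈ tZ F U D, zg F U D z := by
  have h1 := C.sum_eq hd
  have h2 : (tK F U D).card + (tT F U D).card = U.card := card_sdiff_add_card_eq_card Cx.T_sub
  have h3 : ∑ w ∈ tK F U D, (N F w ∩ tK F U D).card
      = ∑ w ∈ tK F U D \ tZ F U D, (N F w ∩ tK F U D).card
        + ∑ w ∈ tZ F U D, (N F w ∩ tK F U D).card := (sum_sdiff Cx.Z_sub).symm
  have h4 : ∑ w ∈ tZ F U D, (N F w ∩ tK F U D).card
      = ∑ w ∈ tZ F U D, (N F w ∩ tZ F U D).card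
        + ∑ w ∈ tK F U D \ tZ F U D, (N F w ∩ tZ F U D).card := by
    rw [sum_inter_comm F (tK F U D \ tZ F U D) (tZ F U D), ← sum_add_distrib]
    exact sum_congr rfl fun w _ => bdl_split Cx.Z_sub
  have h5 : ∑ w ∈ tK F U D \ tZ F U D, dg F w
      = ∑ w ∈ tK F U D \ tZ F U D, (N F w ∩ tK F U D).card
        + ∑ v ∈ tT2 F U D, (N F v ∩ (tK F U D \ tZ F U D)).card := by
    rw [sum_inter_comm F (tT2 F U D), ← sum_add_distrib]
    refine sum_congr rfl fun w hw => ?_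
    rw [mem_sdiff] at hw
    exact C.dg_notZ hd hw.1 hw.2
  have h7 : ∑ v ∈ tT2 F U D, ((N F v ∩ (tK F U D \ tZ F U D)).card : ℤ)
      = (tT2 F U D).card + ((bdlB F U D).card : ℤ) - ((tTZ F U D).card : ℤ) := by
    have e1 : ∀ v ∈ tT2 F U D, ((N F v ∩ (tK F U D \ tZ F U D)).card : ℤ)
        = 1 + (if N F v ∩ tZ F U D = ∅ then 1 else 0)
          - (if (N F v ∩ tZ F U D).card = 2 then 1 else 0) := by
      intro v hv
      have e2 : (N F v ∩ tK F U D).card = 2 := (mem_filter.1 hv).2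
      have e3 := bdl_split (X := N F v) (Cx.Z_sub (F := F) (U := U) (D := D))
      split_ifs with c1 c2 c3
      · rw [c1, card_empty] at c2; omega
      · rw [c1, card_empty] at e3; omega
      · omega
      · have : (N F v ∩ tZ F U D).card ≠ 0 := fun h => c1 (card_eq_zero.1 h)
        omega
    rw [sum_congr rfl e1, sum_sub_distrib, sum_add_distrib, sum_boole, sum_boole, bdlB, tTZ,
      sum_const, nsmul_eq_mul, mul_one]
  have h8 : (tK F U D \ tZ F U D).card + (tZ F U D).card = (tK F U D).card :=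
    card_sdiff_add_card_eq_card Cx.Z_sub
  have h9 : ∑ w ∈ tK F U D \ tZ F U D, (if w ∈ D then (2 : ℤ) else 0)
      + ∑ w ∈ tZ F U D, (if w ∈ D then (2 : ℤ) else 0) = 2 * D.card := by
    rw [sum_sdiff Cx.Z_sub, ← sum_filter, sum_const, nsmul_eq_mul, mul_comm]
    congr 3
    ext w
    rw [mem_filter]
    exact ⟨fun h => h.2, fun h => ⟨C.D_sub_K h, h⟩⟩
  simp only [bdlg, zg, sum_sub_distrib, sum_add_distrib, sum_const, nsmul_eq_mul]
  rw [h1, ← h2]
  push_cast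
  have h3' : ∑ w ∈ tK F U D, ((N F w ∩ tK F U D).card : ℤ)
      = ∑ w ∈ tK F U D \ tZ F U D, ((N F w ∩ tK F U D).card : ℤ)
        + ∑ w ∈ tZ F U D, ((N F w ∩ tK F U D).card : ℤ) := by exact_mod_cast h3
  have h4' : ∑ w ∈ tZ F U D, ((N F w ∩ tK F U D).card : ℤ)
      = ∑ w ∈ tZ F U D, ((N F w ∩ tZ F U D).card : ℤ)
        + ∑ w ∈ tK F U D \ tZ F U D, ((N F w ∩ tZ F U D).card : ℤ) := by exact_mod_cast h4
  have h5' : ∑ w ∈ tK F U D \ tZ F U D, (dg F w : ℤ)
      = ∑ w ∈ tK F U D \ tZ F U D, ((N F w ∩ tK F U D).card : ℤ)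
        + ∑ v ∈ tT2 F U D, ((N F v ∩ (tK F U D \ tZ F U D)).card : ℤ) := by exact_mod_cast h5
  have h8' : ((tK F U D \ tZ F U D).card : ℤ) + ((tZ F U D).card : ℤ) = (tK F U D).card := by
    exact_mod_cast h8
  linarith

/-- payment of the elements of `bdlB` by the elements of `Q` -/
theorem payer {Q : Finset V} (hQ : Q ⊆ tK F U D \ tZ F U D)
    (hB : ∀ v ∈ bdlB F U D, ∃ w ∈ Q, w ∈ N F v) (e : V → ℤ)
    (h1 : ∀ w ∈ Q, e w + ((N F w ∩ bdlB F U D).card : ℤ) ≤ bdlg F U D w)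
    (h2 : ∀ w ∈ tK F U D \ tZ F U D, w ∉ Q → e w ≤ bdlg F U D w) :
    ((bdlB F U D).card : ℤ) + ∑ w ∈ tK F U D \ tZ F U D, e w
      ≤ ∑ w ∈ tK F U D \ tZ F U D, bdlg F U D w := by
  have h3 : ((bdlB F U D).card : ℤ) ≤ ∑ w ∈ Q, ((N F w ∩ bdlB F U D).card : ℤ) := by
    have : (bdlB F U D).card ≤ ∑ w ∈ Q, (N F w ∩ bdlB F U D).card := by
      rw [sum_inter_comm, card_eq_sum_ones]
      refine sum_le_sum fun v hv => ?_
      obtain ⟨w, hw, hwv⟩ := hB v hv
      exact card_pos.2 ⟨w, mem_inter.2 ⟨hwv, hw⟩⟩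
    exact_mod_cast this
  rw [← sum_sdiff hQ, ← sum_sdiff (f := bdlg F U D) hQ]
  have h4 : ∑ w ∈ Q, e w + ∑ w ∈ Q, ((N F w ∩ bdlB F U D).card : ℤ)
      ≤ ∑ w ∈ Q, bdlg F U D w := by
    rw [← sum_add_distrib]
    exact sum_le_sum h1
  have h5 : ∑ w ∈ (tK F U D \ tZ F U D) \ Q, e w
      ≤ ∑ w ∈ (tK F U D \ tZ F U D) \ Q, bdlg F U D w :=
    sum_le_sum fun w hw => h2 w (mem_sdiff.1 hw).1 (mem_sdiff.1 hw).2
  linarith

/-- `bdlB` neighbours are `T2` neighbours -/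
theorem bd_le (w : V) : (N F w ∩ bdlB F U D).card ≤ (N F w ∩ tT2 F U D).card :=
  card_le_card (inter_subset_inter_left fun _ h => bdl_B_T2 h)

/-- strong elements outside `D` -/
theorem strong_notD (C : Cx F U D) (hd : 3 ≤ D.card) {w : V} (hw : w ∈ tK F U D \ tZ F U D)
    (hwD : w ∉ D) :
    ((N F w ∩ tK F U D).card : ℤ) + ((N F w ∩ tZ F U D).card : ℤ) - 3
      + ((N F w ∩ bdlB F U D).card : ℤ) ≤ bdlg F U D w := by
  rw [mem_sdiff] at hw
  have h1 := C.dg_notZ hd hw.1 hw.2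
  have h2 := bd_le (F := F) (U := U) (D := D) w
  rw [bdlg, if_neg hwD, h1]
  push_cast
  have : ((N F w ∩ bdlB F U D).card : ℤ) ≤ ((N F w ∩ tT2 F U D).card : ℤ) := by exact_mod_cast h2
  linarith

/-- elements of `D` outside `Z` are adjacent to all of `Z` -/
theorem zD (C : Cx F U D) {w : V} (hw : w ∈ D) (hwZ : w ∉ tZ F U D) :
    N F w ∩ tZ F U D = tZ F U D := by
  apply inter_eq_right.2
  intro z hz
  exact Cx.N_comm.1 (C.Z_adj hz hw (fun h => hwZ (h ▸ hz)))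

/-- the other end of a double vertex adjacent to an element of `D` -/
theorem other_adj (C : Cx F U D) {v w b : V} (hv : v ∈ tT F U D) (hN : N F v = {w, b})
    (hw : w ∈ D) : b ∈ N F w := by
  have hvw : v ≠ w := fun h => (Cx.mem_T.1 hv).2.1 (h ▸ hw)
  obtain ⟨x, hx, hxw⟩ := C.com hw (Cx.T_sub hv) hvw
  rw [hN, mem_insert, mem_singleton] at hx
  rcases hx with rfl | rfl
  · exact absurd hxw Cx.not_self
  · exact hxw

/-- an element of `D` is adjacent to one of the ends of a double vertex -/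
theorem cov_adj (C : Cx F U D) {v w b y : V} (hv : v ∈ tT F U D) (hN : N F v = {w, b})
    (hy : y ∈ D) : y ∈ N F w ∨ y ∈ N F b := by
  have hvy : v ≠ y := fun h => (Cx.mem_T.1 hv).2.1 (h ▸ hy)
  obtain ⟨x, hx, hxw⟩ := C.com hy (Cx.T_sub hv) hvy
  rw [hN, mem_insert, mem_singleton] at hx
  rcases hx with rfl | rfl
  · exact Or.inl (Cx.N_comm.1 hxw)
  · exact Or.inr (Cx.N_comm.1 hxw)

/-- elements of `D \ Z` -/
theorem strong_D (C : Cx F U D) (hd : 3 ≤ D.card) (hh : 2 ≤ (tZ F U D).card) {w : V} (hw : w ∈ D) (hwZ : w ∉ tZ F U D) :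
    ((tZ F U D).card : ℤ) - 2 + ((N F w ∩ bdlB F U D).card : ℤ) ≤ bdlg F U D w := by
  have h1 := C.dg_notZ hd (C.D_sub_K hw) hwZ
  have h2 := bd_le (F := F) (U := U) (D := D) w
  have h3 := zD C hw hwZ
  have h0 := C.h3 w hw
  rw [bdlg, if_pos hw, h3]
  rcases Nat.eq_zero_or_pos (N F w ∩ bdlB F U D).card with h4 | h4
  · rw [h4]
    push_cast
    have : (3 : ℤ) ≤ dg F w := by exact_mod_cast h0
    linarith
  · obtain ⟨v, hv⟩ := card_pos.1 h4
    rw [mem_inter] at hv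
    have hvT := bdl_B_T hv.2
    obtain ⟨b, hb, hN⟩ := Cx.T_pair hvT (Cx.N_comm.1 hv.1)
    have hbw := other_adj C hvT hN hw
    have hbKZ : b ∈ tK F U D \ tZ F U D := bdl_nbr hv.2 (by rw [hN]; simp)
    rw [mem_sdiff] at hbKZ
    have h5 : insert b (tZ F U D) ⊆ N F w ∩ tK F U D := by
      intro x hx
      rw [mem_insert] at hx
      rcases hx with rfl | hx
      · exact mem_inter.2 ⟨hbw, hbKZ.1⟩
      · refine mem_inter.2 ⟨?_, Cx.Z_sub hx⟩
        rw [← h3] at hx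
        exact (mem_inter.1 hx).1
    have h6 := card_le_card h5
    rw [card_insert_of_notMem hbKZ.2] at h6
    omega

end Pool.Agent.Helper38.RE
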