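import Pool.Agent.Helper38.RE.T2c
import Pool.Agent.Helper38.RE.T2d
import Pool.Agent.Helper38.RE.T2

/-! Project RE2 (MP_cc4a3b_co), T2 for all `j ≥ 1`: general lower bounds. -/

set_option autoImplicit false
set_option linter.unusedSectionVars false
set_option linter.unusedVariables false

namespace Pool.Agent.Helper38.RE

open Finset

variable {V : Type*} [Fintype V] [DecidableEq V]

/-- the arithmetic of the sum -/
theorem arith2 {d p h : ℤ} (hd : 3 ≤ d) (hp : 0 ≤ p) (hh : 2 ≤ h) (hpd : p ≤ d) (hph : p ≤ h)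
    (hex : ¬ (p = 2 ∧ h = 2)) (hex3 : ¬ (p = 3 ∧ h = 3)) (hex4 : ¬ (p = 4 ∧ h = 4 ∧ d = 4)) :
    -6 ≤ (h - 2) * (d - p) + (p * (h - 1) + (h - p) * p - 3 * h - 2 * p) := by
  have e : (h - 2) * (d - p) + (p * (h - 1) + (h - p) * p - 3 * h - 2 * p)
      = (h - 2) * (d - 3) - 6 + p * (h - 1 - p) := by ring
  rw [e]
  by_cases h1 : p < h
  · have := mul_nonneg (by linarith : 0 ≤ h - 2) (by linarith : 0 ≤ d - 3)
    have := mul_nonneg hp (by omega : 0 ≤ h - 1 - p)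
    linarith
  · have hph' : p = h := by omega
    subst hph'
    by_cases h5 : 5 ≤ p
    · have : (p - 2) * 2 ≤ (p - 2) * (d - 3) :=
        mul_le_mul_of_nonneg_left (by omega) (by omega)
      nlinarith
    · have h6 : p ≤ 4 := by omega
      interval_cases p <;> omega

theorem arith9 {d p h : ℤ} (hd : 3 ≤ d) (hp : 0 ≤ p) (hh : 2 ≤ h) (hpd : p ≤ d) (hph : p ≤ h) :
    -9 ≤ (h - 2) * (d - p) + (p * (h - 1) + (h - p) * p - 3 * h - 2 * p) := by
  by_cases h1 : p = 2 ∧ h = 2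
  · obtain ⟨rfl, rfl⟩ := h1
    norm_num
  · by_cases h2 : p = 3 ∧ h = 3
    · obtain ⟨rfl, rfl⟩ := h2
      linarith
    · by_cases h3 : p = 4 ∧ h = 4 ∧ d = 4
      · obtain ⟨rfl, rfl, rfl⟩ := h3
        norm_num
      · have := arith2 hd hp hh hpd hph h1 h2 h3
        linarith

section cx

variable {F : SimpleGraph V} [DecidableRel F.Adj] {U D : Finset V}

/-- the contribution of `Z` -/
theorem zsum (C : Cx F U D) {p h : ℕ} (hp : (tZ F U D ∩ D).card = p)
    (hh : (tZ F U D).card = h) :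
    (p : ℤ) * (h - 1) + (h - p) * p - 3 * h - 2 * p ≤ ∑ z ∈ tZ F U D, zg F U D z := by
  have h1 : ∀ z ∈ tZ F U D, (if z ∈ D then ((h : ℤ) - 1 - 3 - 2) else ((p : ℤ) - 3))
      ≤ zg F U D z := by
    intro z hz
    rw [zg]
    by_cases hzD : z ∈ D
    · rw [if_pos hzD, if_pos hzD]
      have h2 : (tZ F U D).erase z ⊆ N F z ∩ tZ F U D := by
        intro x hx
        rw [mem_erase] at hx
        exact mem_inter.2 ⟨Cx.N_comm.1 (C.Z_adj hx.2 hzD hx.1.symm), hx.2⟩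
      have h3 := card_le_card h2
      have h4 := card_erase_add_one hz
      omega
    · rw [if_neg hzD, if_neg hzD]
      have h2 : tZ F U D ∩ D ⊆ N F z ∩ tZ F U D := by
        intro x hx
        rw [mem_inter] at hx
        exact mem_inter.2 ⟨C.Z_adj hz hx.2 (fun h => hzD (h ▸ hx.2)), hx.1⟩
      have h3 := card_le_card h2
      omega
  refine le_trans ?_ (sum_le_sum h1)
  rw [← sum_filter_add_sum_filter_not (tZ F U D) (fun z => z ∈ D)]
  have e1 : ∑ z ∈ (tZ F U D).filter (fun z => z ∈ D),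
      (if z ∈ D then ((h : ℤ) - 1 - 3 - 2) else ((p : ℤ) - 3)) = p * ((h : ℤ) - 1 - 3 - 2) := by
    rw [sum_congr rfl (fun z hz => if_pos (mem_filter.1 hz).2), sum_const, nsmul_eq_mul,
      filter_mem_eq_inter, hp]
  have e2 : ∑ z ∈ (tZ F U D).filter (fun z => ¬ z ∈ D),
      (if z ∈ D then ((h : ℤ) - 1 - 3 - 2) else ((p : ℤ) - 3)) = (h - p) * ((p : ℤ) - 3) := by
    rw [sum_congr rfl (fun z hz => if_neg (mem_filter.1 hz).2), sum_const, nsmul_eq_mul]
    have : ((tZ F U D).filter (fun z => ¬ z ∈ D)).card + p = h := by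
      rw [← hp, ← hh, ← filter_mem_eq_inter, add_comm]
      exact card_filter_add_card_filter_not _
    have h3 : (((tZ F U D).filter (fun z => ¬ z ∈ D)).card : ℤ) = h - p := by omega
    rw [h3]
  rw [e1, e2]
  linarith

theorem cardDZ {p : ℕ} (hp : (tZ F U D ∩ D).card = p) :
    ((D \ tZ F U D).card : ℤ) = D.card - p := by
  have : (D \ tZ F U D).card + p = D.card := by
    rw [← hp, inter_comm]
    exact card_sdiff_add_card_inter _ _
  omega

/-- the basic lower bound -/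
theorem psi_base (C : Cx F U D) (hd : 3 ≤ D.card) {p h : ℕ} (hp : (tZ F U D ∩ D).card = p)
    (hh : (tZ F U D).card = h) (hh2 : 2 ≤ h) :
    ((h : ℤ) - 2) * (D.card - p) + ((p : ℤ) * (h - 1) + (h - p) * p - 3 * h - 2 * p)
      ≤ ((∑ v ∈ U, dg F v : ℕ) : ℤ) - 3 * (U.card : ℤ) - 2 * (D.card : ℤ) := by
  rw [psi_id C hd]
  have h1 := zsum C hp hh
  have h2 := bdl C hd (by omega)
  rw [cardDZ hp, hh] at h2
  have h3 : (0 : ℤ) ≤ ((tTZ F U D).card : ℤ) := Int.natCast_nonneg _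
  have h4 : ((bdlB F U D).card : ℤ) + ((h : ℤ) - 2) * (D.card - p)
      ≤ ∑ w ∈ tK F U D \ tZ F U D, bdlg F U D w := h2
  linarith

/-- lower bound with a payment function -/
theorem psi_pay (C : Cx F U D) (hd : 3 ≤ D.card) {p h : ℕ} (hp : (tZ F U D ∩ D).card = p)
    (hh : (tZ F U D).card = h) {Q : Finset V} (hQ : Q ⊆ tK F U D \ tZ F U D)
    (hB : ∀ v ∈ bdlB F U D, ∃ w ∈ Q, w ∈ N F v) (e : V → ℤ)
    (h1 : ∀ w ∈ Q, e w + ((N F w ∩ bdlB F U D).card : ℤ) ≤ bdlg F U D w)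
    (h2 : ∀ w ∈ tK F U D \ tZ F U D, w ∉ Q → e w ≤ bdlg F U D w) :
    ∑ w ∈ tK F U D \ tZ F U D, e w + ((tTZ F U D).card : ℤ)
      + ((p : ℤ) * (h - 1) + (h - p) * p - 3 * h - 2 * p)
      ≤ ((∑ v ∈ U, dg F v : ℕ) : ℤ) - 3 * (U.card : ℤ) - 2 * (D.card : ℤ) := by
  rw [psi_id C hd]
  have h3 := zsum C hp hh
  have h4 := payer hQ hB e h1 h2
  linarith

/-- `Z = ∅`: all elements of `T` are in `T2` -/
theorem Z0_sub (C : Cx F U D) (hd : 3 ≤ D.card) (h0 : (tZ F U D).card = 0) :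
    tT F U D ⊆ tT2 F U D := by
  intro v hv
  rcases C.T1_or_T2 hd hv with h | h
  · exfalso
    have h2 : (N F v ∩ tK F U D).card = 1 := (mem_filter.1 h).2
    obtain ⟨z, hz⟩ := card_pos.1 (by omega : 0 < (N F v ∩ tK F U D).card)
    rw [mem_inter] at hz
    have h3 : z ∈ tZ F U D := mem_filter.2 ⟨hz.2, v, h, hz.1⟩
    rw [card_eq_zero] at h0
    rw [h0] at h3
    exact notMem_empty _ h3
  · exact h

/-- the defect in terms of `K` -/
theorem psi_K (C : Cx F U D) (hd : 3 ≤ D.card) :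
    ((tT2 F U D).card : ℤ) - 3 * ((tK F U D).card : ℤ) - 2 * (D.card : ℤ)
      ≤ ((∑ v ∈ U, dg F v : ℕ) : ℤ) - 3 * (U.card : ℤ) - 2 * (D.card : ℤ) := by
  have h1 := C.sum_eq hd
  have h2 : (tK F U D).card + (tT F U D).card = U.card := card_sdiff_add_card_eq_card Cx.T_sub
  rw [h1, ← h2]
  push_cast
  have : (0 : ℤ) ≤ ∑ w ∈ tK F U D, ((N F w ∩ tK F U D).card : ℤ) :=
    sum_nonneg fun _ _ => Int.natCast_nonneg _
  linarith

end cx

end Pool.Agent.Helper38.RE
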