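import Pool.Agent.Helper38.RE.T2e

/-! Project RE2 (MP_cc4a3b_co), T2 for all `j ≥ 1`: small cases. -/

set_option autoImplicit false
set_option linter.unusedSectionVars false
set_option linter.unusedVariables false

namespace Pool.Agent.Helper38.RE

open Finset

variable {V : Type*} [Fintype V] [DecidableEq V]

variable (H : SimpleGraph V) [DecidableRel H.Adj] {j : ℕ} {S : Finset V}

/-- the defect of `F = H - S` -/
def psi (S : Finset V) : ℤ :=
  ((∑ v ∈ Sᶜ, dg (del H S) v : ℕ) : ℤ) - 3 * ((Sᶜ).card : ℤ) - 2 * ((bad H S).card : ℤ)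

theorem gam_le (P : PreA H j S) (hS : S.card = j) : ∑ s ∈ S, (miss H S s).card ≤ j := by
  rw [← hS]
  conv_rhs => rw [card_eq_sum_ones]
  exact sum_le_sum P.hm

theorem gam_lt (P : PreA H j S) (hS : S.card = j) {a : V} (ha : a ∈ S)
    (h0 : miss H S a = ∅) : ∑ s ∈ S, (miss H S s).card + 1 ≤ j := by
  have h1 : ∑ x ∈ S, (miss H S x).card = ∑ x ∈ S.erase a, (miss H S x).card := by
    rw [← sum_erase_add _ _ ha, h0]
    simp
  have h2 : ∑ x ∈ S.erase a, (miss H S x).card ≤ (S.erase a).card := by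
    rw [card_eq_sum_ones]
    exact sum_le_sum fun x hx => P.hm x (mem_of_mem_erase hx)
  have h4 := card_erase_add_one ha
  omega

theorem sing (P : PreA H j S) {v : V} (hv : v ∈ bad H S) :
    ∃ w ∈ S, miss H S v = {w} ∧ grp H S v = cmp H S w := by
  obtain ⟨w, hw⟩ := card_eq_one.1 (P.h1 v hv)
  have : w ∈ miss H S v := by rw [hw]; exact mem_singleton_self w
  exact ⟨w, ((mem_miss H).1 this).2.1, hw, grp_eq H hw⟩

theorem case0 (P : PreA H j S) (hS : S.card = j)
    (hD : 60 * (j + 1) * (bad H S).card + 40 * (j + 1) ^ 2 ≤ Fintype.card V)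
    (hΨ : psi H S < ((∑ s ∈ S, (miss H S s).card : ℕ) : ℤ)) (hd3 : 3 ≤ (bad H S).card)
    (h0 : (tZ (del H S) Sᶜ (bad H S)).card = 0) : False := by
  have h1 := card_le_card (Z0_sub P.C hd3 h0)
  have h2 := psi_K P.C hd3
  rw [psi] at hΨ
  have h3 := gam_le H P hS
  have h4 : (tK (del H S) Sᶜ (bad H S)).card + (tT (del H S) Sᶜ (bad H S)).card = (Sᶜ).card :=
    card_sdiff_add_card_eq_card Cx.T_sub
  have h5 : (Sᶜ).card + j = Fintype.card V := by
    rw [← hS, add_comm]; exact card_add_card_compl S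
  obtain ⟨a, ha, b, hb, hab⟩ := one_lt_card.1 (by omega : 1 < (bad H S).card)
  have h6 := P.hK a ha b hb hab
  have h7 : 60 * (j * (bad H S).card) + 60 * (bad H S).card + 40 * (j * j) + 80 * j + 40
      ≤ Fintype.card V := by
    calc _ = 60 * (j + 1) * (bad H S).card + 40 * (j + 1) ^ 2 := by ring
      _ ≤ _ := hD
  generalize j * (bad H S).card = X at *
  generalize j * j = Y at *
  omega

theorem case1 (P : PreA H j S) (hS : S.card = j)
    (hD : 60 * (j + 1) * (bad H S).card + 40 * (j + 1) ^ 2 ≤ Fintype.card V)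
    (hΨ : psi H S < ((∑ s ∈ S, (miss H S s).card : ℕ) : ℤ)) (hd3 : 3 ≤ (bad H S).card)
    (h1 : (tZ (del H S) Sᶜ (bad H S)).card = 1) :
    ∃ Y : Finset V, Y.card = j + 1 ∧
      2 * (j + 1) * (bad H Y).card + (2 * j + 3) * (j + 1) + (j + 1) + 3 ≤ Fintype.card V := by
  obtain ⟨z, hz⟩ := card_eq_one.1 h1
  have hzZ : z ∈ tZ (del H S) Sᶜ (bad H S) := by rw [hz]; exact mem_singleton_self z
  have hzK := Cx.Z_sub hzZ
  have hzS : z ∉ S := by simpa using Cx.K_sub hzK
  refine ⟨insert z S, by rw [card_insert_of_notMem hzS, hS], ?_⟩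
  have hsub : bad H (insert z S) ⊆ tK (del H S) Sᶜ (bad H S) ∪ tT2 (del H S) Sᶜ (bad H S) := by
    intro v hv
    obtain ⟨hv1, x, hx⟩ := (mem_bad H).1 hv
    rw [mem_insert, not_or] at hv1
    have hvU : v ∈ Sᶜ := by simpa using hv1.2
    by_contra hno
    rw [mem_union, not_or] at hno
    have hvT : v ∈ tT (del H S) Sᶜ (bad H S) := by
      by_contra h
      exact hno.1 (Cx.notT_K hvU h)
    have hv1' : v ∈ tT1 (del H S) Sᶜ (bad H S) :=
      (P.C.T1_or_T2 hd3 hvT).resolve_right hno.2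
    have h2 : (N (del H S) v ∩ tK (del H S) Sᶜ (bad H S)).card = 1 := (mem_filter.1 hv1').2
    obtain ⟨z', hz'⟩ := card_pos.1 (by omega : 0 < (N (del H S) v ∩
      tK (del H S) Sᶜ (bad H S)).card)
    rw [mem_inter] at hz'
    have h3 : z' ∈ tZ (del H S) Sᶜ (bad H S) := mem_filter.2 ⟨hz'.2, v, hv1', hz'.1⟩
    rw [hz, mem_singleton] at h3
    subst h3
    rw [mem_miss, mem_insert] at hx
    obtain ⟨hxv, hx1, hx2⟩ := hx
    rcases hx1 with rfl | hx1
    · have := (mem_N _).1 hz'.1
      exact hx2 this.1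
    · have hvD : v ∉ bad H S := (Cx.mem_T.1 hvT).2.1
      exact hvD ((mem_bad H).2 ⟨hv1.2, x, (mem_miss H).2 ⟨hxv, hx1, hx2⟩⟩)
  have h2 := (card_le_card hsub).trans (card_union_le _ _)
  have h3 := psi_K P.C hd3
  rw [psi] at hΨ
  have h6 := gam_le H P hS
  obtain ⟨a, ha, b, hb, hab⟩ := one_lt_card.1 (by omega : 1 < (bad H S).card)
  have h5 := P.hK a ha b hb hab
  have h8 : (bad H (insert z S)).card ≤ 22 * (bad H S).card + 9 * j := by omega
  have h9 : 2 * (j + 1) * (bad H (insert z S)).card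
      ≤ 2 * (j + 1) * (22 * (bad H S).card + 9 * j) := Nat.mul_le_mul_left _ h8
  nlinarith [Nat.zero_le (j * (bad H S).card), Nat.zero_le (bad H S).card]

/-- `d = 1` -/
theorem small1 (P : PreA H j S) (hd : (bad H S).card = 1) : -5 ≤ psi H S := by
  obtain ⟨y, hy⟩ := card_pos.1 (by omega : 0 < (bad H S).card)
  have C := P.C
  have h3 := C.h3 y hy
  obtain ⟨y', hy'⟩ := card_pos.1 (lt_of_lt_of_le (by norm_num) h3 : 0 < (N (del H S) y).card)
  have hy'U := C.hU y (C.hD hy) hy'
  have hne : y' ≠ y := by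
    rintro rfl
    exact Cx.not_self hy'
  have h4 := C.exb hy hy'U hne
  have h5 := C.hc y hy y' hy'U hne
  rw [psi, hd]
  omega

/-- `d = 2` -/
theorem small2 (P : PreA H j S) (hd : (bad H S).card = 2) : -7 ≤ psi H S := by
  obtain ⟨y, hy, y', hy', hne⟩ := one_lt_card.1 (by omega : 1 < (bad H S).card)
  have C := P.C
  have h4 := C.exb hy (C.hD hy') hne.symm
  have h5 := C.hc y hy y' (C.hD hy') hne.symm
  rw [psi, hd]
  omega

/-- `d = 2`, `j ≥ 2` -/
theorem small2' (P : PreA H j S) (hH : Hyp H j) (hj : 2 ≤ j) (hS : S.card = j)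
    (hd : (bad H S).card = 2) : -6 ≤ psi H S := by
  by_contra hno
  have h7 := small2 H P hd
  obtain ⟨y, hy, y', hy', hne⟩ := one_lt_card.1 (by omega : 1 < (bad H S).card)
  have C := P.C
  have h4 := C.exb hy (C.hD hy') hne.symm
  have h5 := C.hc y hy y' (C.hD hy') hne.symm
  have h4' := C.exb hy' (C.hD hy) hne
  rw [psi, hd] at hno h7
  have hcard : (N (del H S) y' ∩ N (del H S) y).card = 1 := by omega
  have hc0 : (((Sᶜ.erase y) \ N (del H S) y).filter fun v => 3 ≤ dg (del H S) v).card = 0 := by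
    omega
  have hc0' : (((Sᶜ.erase y') \ N (del H S) y').filter fun v => 3 ≤ dg (del H S) v).card = 0 := by
    rw [inter_comm] at hcard
    omega
  obtain ⟨s, hsS, hs, hgs⟩ := sing H P hy
  obtain ⟨s', hsS', hs', hgs'⟩ := sing H P hy'
  have hss : s' = s := by
    by_contra hss
    have h6 := codeg_del H hH.P2 (S := S) (u := y') (v := y) (by simpa using C.hD hy')
      (by simpa using C.hD hy) hne.symm
    rw [hs, hs', hS, show ({s'} : Finset V) ∪ {s} = {s', s} from rfl, card_pair hss] at h6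
    omega
  subst hss
  -- `s'` has a missing pair
  have hms : miss H S s' ≠ ∅ := by
    intro h0
    have h8 : S ⊆ {s'} := by
      intro w hw
      obtain ⟨v, hv, hwv⟩ := exists_grp H hH P.ne P.hm hw
      have hvy : v = y ∨ v = y' := by
        by_contra hcon
        rw [not_or] at hcon
        have : ({v, y, y'} : Finset V) ⊆ bad H S := by
          intro x hx
          rw [mem_insert, mem_insert, mem_singleton] at hx
          rcases hx with rfl | rfl | rfl
          exacts [hv, hy, hy']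
        have h9 := card_le_card this
        rw [card_eq_three.2 ⟨v, y, y', hcon.1, hcon.2, hne, rfl⟩] at h9
        omega
      have : grp H S v = cmp H S s' := by
        rcases hvy with rfl | rfl
        exacts [hgs, hgs']
      rw [this, cmp, h0, mem_insert] at hwv
      rcases hwv with rfl | hwv
      · exact mem_singleton_self _
      · exact absurd hwv (notMem_empty _)
    have := card_le_card h8
    rw [card_singleton] at this
    omega
  have hy'y : y' ∈ N (del H S) y := by
    by_contra hcon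
    rw [card_eq_zero, filter_eq_empty_iff] at hc0
    exact hc0 (mem_sdiff.2 ⟨mem_erase.2 ⟨hne.symm, C.hD hy'⟩, hcon⟩) (C.h3 y' hy')
  obtain ⟨u, hu, hu2⟩ : ∃ u ∈ N (del H S) y, u ∉ insert y' (N (del H S) y' ∩ N (del H S) y) := by
    by_contra hcon
    push Not at hcon
    have h8 := card_le_card (show N (del H S) y ⊆ _ from hcon)
    have h9 := card_insert_le y' (N (del H S) y' ∩ N (del H S) y)
    have h10 := C.h3 y hy
    have h11 : dg (del H S) y = (N (del H S) y).card := rfl
    omega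
  rw [mem_insert, not_or, mem_inter, not_and_or] at hu2
  have hu3 : u ∉ N (del H S) y' := hu2.2.resolve_right (fun h => h hu)
  have huU := C.hU y (C.hD hy) hu
  have hdu : ¬ 3 ≤ dg (del H S) u := by
    rw [card_eq_zero, filter_eq_empty_iff] at hc0'
    exact hc0' (mem_sdiff.2 ⟨mem_erase.2 ⟨hu2.1, huU⟩, hu3⟩)
  have huD : u ∉ bad H S := fun h => hdu (C.h3 u h)
  have huT : u ∈ tT (del H S) Sᶜ (bad H S) :=
    Cx.mem_T.2 ⟨huU, huD, by have := C.h2 u huU; omega⟩
  apply hms
  exact unm H hH hS huT (Cx.N_comm.1 hu) (by rw [hs]; exact mem_singleton_self _)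

end Pool.Agent.Helper38.RE
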