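import Pool.Agent.Helper38.RE.T2f

/-! Project RE2 (MP_cc4a3b_co), T2 for all `j ≥ 1`: the exceptional cases. -/

set_option autoImplicit false
set_option linter.unusedSectionVars false
set_option linter.unusedVariables false

namespace Pool.Agent.Helper38.RE

open Finset

variable {V : Type*} [Fintype V] [DecidableEq V]

section cx

variable {F : SimpleGraph V} [DecidableRel F.Adj] {U D : Finset V}

/-- the strong elements -/
def tQ (F : SimpleGraph V) [DecidableRel F.Adj] (U D : Finset V) : Finset V :=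
  (tK F U D \ tZ F U D).filter fun w => ¬ bdlLow F U D w

/-- if two elements of `D` are in `Z`, every element of `bdlB` has a strong neighbour -/
theorem strong_nbr (C : Cx F U D) (hd : 3 ≤ D.card) (hp : 2 ≤ (tZ F U D ∩ D).card) {v : V}
    (hv : v ∈ bdlB F U D) : ∃ w ∈ tQ F U D, w ∈ N F v := by
  have hvT := bdl_B_T hv
  have hc2 : (N F v).card = 2 := (Cx.mem_T.1 hvT).2.2
  obtain ⟨w, b, hwb, hN⟩ := card_eq_two.1 hc2
  have hw : w ∈ N F v := by rw [hN]; simp
  have hb : b ∈ N F v := by rw [hN]; simp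
  by_contra hno
  push Not at hno
  have hlow : ∀ x ∈ N F v, bdlLow F U D x := by
    intro x hx
    by_contra hx2
    exact hno x (mem_filter.2 ⟨bdl_nbr hv hx, hx2⟩) hx
  have h1 := C.T2_sum hvT hN
  have h2 : tZ F U D ∩ D ⊆ (N F w ∩ tZ F U D) ∪ (N F b ∩ tZ F U D) := by
    intro y hy
    rw [mem_inter] at hy
    rcases cov_adj C hvT hN hy.2 with h | h
    · exact mem_union_left _ (mem_inter.2 ⟨h, hy.1⟩)
    · exact mem_union_right _ (mem_inter.2 ⟨h, hy.1⟩)
  have h3 := (card_le_card h2).trans (card_union_le _ _)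
  have h4 := (hlow w hw).2
  have h5 := (hlow b hb).2
  omega

theorem low_nonneg (C : Cx F U D) {w : V} (hw : w ∈ tK F U D \ tZ F U D)
    (hl : bdlLow F U D w) : 0 ≤ bdlg F U D w := by
  have h1 := C.dg_K (mem_sdiff.1 hw).1
  rw [bdlg, if_neg hl.1]
  have : (3 : ℤ) ≤ dg F w := by exact_mod_cast h1
  have h2 : (0 : ℤ) ≤ ((N F w ∩ tZ F U D).card : ℤ) := Int.natCast_nonneg _
  linarith

theorem notQ_low {w : V} (hw : w ∈ tK F U D \ tZ F U D) (h : w ∉ tQ F U D) :
    bdlLow F U D w := by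
  by_contra hno
  exact h (mem_filter.2 ⟨hw, hno⟩)

/-- strong elements pay -/
theorem Q_pay (C : Cx F U D) (hd : 3 ≤ D.card) (hh : 2 ≤ (tZ F U D).card) {w : V}
    (hw : w ∈ tQ F U D) : ((N F w ∩ bdlB F U D).card : ℤ) ≤ bdlg F U D w := by
  obtain ⟨h1, h2⟩ := mem_filter.1 hw
  by_cases hwD : w ∈ D
  · have h3 := strong_D C hd hh hwD (mem_sdiff.1 h1).2
    have : (2 : ℤ) ≤ ((tZ F U D).card : ℤ) := by exact_mod_cast hh
    linarith
  · have h3 := strong_notD C hd h1 hwD
    rw [bdlLow, not_and, not_le] at h2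
    have h4 : (3 : ℤ) ≤ ((N F w ∩ tK F U D).card : ℤ) + ((N F w ∩ tZ F U D).card : ℤ) := by
      exact_mod_cast h2 hwD
    linarith

/-- general bound with a gain at some elements, strong elements paying -/
theorem psi_gain (C : Cx F U D) (hd : 3 ≤ D.card) {p h : ℕ} (hp : (tZ F U D ∩ D).card = p)
    (hh : (tZ F U D).card = h) (hp2 : 2 ≤ p) (hh2 : 2 ≤ h) (e : V → ℤ)
    (he : ∀ w ∈ tK F U D \ tZ F U D, e w = 0 ∨
      e w + ((N F w ∩ bdlB F U D).card : ℤ) ≤ bdlg F U D w ∨
      (w ∉ tQ F U D ∧ e w ≤ bdlg F U D w)) :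
    ∑ w ∈ tK F U D \ tZ F U D, e w + ((tTZ F U D).card : ℤ)
      + ((p : ℤ) * (h - 1) + (h - p) * p - 3 * h - 2 * p)
      ≤ ((∑ v ∈ U, dg F v : ℕ) : ℤ) - 3 * (U.card : ℤ) - 2 * (D.card : ℤ) := by
  refine psi_pay C hd hp hh (Q := tQ F U D) (filter_subset _ _)
    (fun v hv => strong_nbr C hd (by omega) hv) e ?_ ?_
  · intro w hw
    rcases he w (mem_filter.1 hw).1 with h1 | h1 | h1
    · rw [h1, zero_add]
      exact Q_pay C hd (by omega) hw
    · exact h1
    · exact absurd hw h1.1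
  · intro w hw hwQ
    rcases he w hw with h1 | h1 | h1
    · rw [h1]
      exact low_nonneg C hw (notQ_low hw hwQ)
    · have h2 : (0 : ℤ) ≤ ((N F w ∩ bdlB F U D).card : ℤ) := Int.natCast_nonneg _
      linarith
    · exact h1.2

/-- two common neighbours in `K` -/
theorem sum_two {A : Finset V} {x w : V} (hx : x ∈ A) (hw : w ∈ A) (hne : x ≠ w) (e : V → ℤ)
    (he : ∀ v ∈ A, 0 ≤ e v) (hex : 1 ≤ e x) (hew : 1 ≤ e w) : 2 ≤ ∑ v ∈ A, e v := by
  have h1 : ({x, w} : Finset V) ⊆ A := by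
    intro z hz
    rw [mem_insert, mem_singleton] at hz
    rcases hz with rfl | rfl
    exacts [hx, hw]
  have h2 := sum_le_sum_of_subset_of_nonneg h1 (f := e) (fun v hv _ => he v hv)
  rw [sum_pair hne] at h2
  linarith

end cx

section main

variable (H : SimpleGraph V) [DecidableRel H.Adj] {j : ℕ} {S : Finset V}

/-- the facts in the case of a maximal number of missing pairs in `S` -/
theorem facts6 (P : PreA H j S) (hH : Hyp H j) (hj : 2 ≤ j) (hS : S.card = j)
    (hg : ∑ s ∈ S, (miss H S s).card = 2 * (j / 2)) {z1 : V}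
    (hz1 : z1 ∈ tZ (del H S) Sᶜ (bad H S)) (hz1D : z1 ∈ bad H S) :
    ∃ a ∈ S, miss H S a = ∅ ∧
      (∀ z ∈ tZ (del H S) Sᶜ (bad H S), z ∈ bad H S → miss H S z = {a}) ∧
      (∀ s ∈ S, s ≠ a → miss H S s ≠ ∅) ∧ ∃ y ∈ bad H S, miss H S y ≠ {a} := by
  obtain ⟨a, haS, ha, -⟩ := sing H P hz1D
  have haz : a ∈ miss H S z1 := by rw [ha]; exact mem_singleton_self a
  have ha0 : miss H S a = ∅ := unmZ H hH hS hz1 haz
  have hone : ∀ s ∈ S, s ≠ a → miss H S s ≠ ∅ := by
    intro s hs hsa h0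
    have h1 : ∑ x ∈ S, (miss H S x).card = ∑ x ∈ (S.erase a).erase s, (miss H S x).card := by
      rw [← sum_erase_add _ _ haS, ← sum_erase_add _ _ (mem_erase.2 ⟨hsa, hs⟩), h0, ha0]
      simp
    have h2 : ∑ x ∈ (S.erase a).erase s, (miss H S x).card ≤ ((S.erase a).erase s).card := by
      rw [card_eq_sum_ones]
      exact sum_le_sum fun x hx => P.hm x (mem_of_mem_erase (mem_of_mem_erase hx))
    have h3 := card_erase_add_one (mem_erase.2 ⟨hsa, hs⟩)
    have h4 := card_erase_add_one haS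
    omega
  refine ⟨a, haS, ha0, ?_, hone, ?_⟩
  · intro z hz hzD
    obtain ⟨a', haS', ha', -⟩ := sing H P hzD
    have h1 : a' ∈ miss H S z := by rw [ha']; exact mem_singleton_self a'
    have h2 := unmZ H hH hS hz h1
    by_contra hne
    exact hone a' haS' (fun h => hne (by rw [ha', h])) h2
  · obtain ⟨s, hs, hsa⟩ : ∃ s ∈ S, s ≠ a := by
      by_contra hno
      push Not at hno
      have h1 : S ⊆ {a} := fun s hs => mem_singleton.2 (hno s hs)
      have := card_le_card h1
      rw [card_singleton] at this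
      omega
    obtain ⟨v, hv, hsv⟩ := exists_grp H hH P.ne P.hm hs
    refine ⟨v, hv, fun h => ?_⟩
    rw [grp_eq H h, cmp, ha0, mem_insert] at hsv
    rcases hsv with h2 | h2
    · exact hsa h2
    · exact absurd h2 (notMem_empty _)

/-- the elements of `D` missing a matched element -/
theorem factsE (P : PreA H j S) (hH : Hyp H j) (hS : S.card = j) {a : V} (haS : a ∈ S)
    (ha0 : miss H S a = ∅)
    (hZa : ∀ z ∈ tZ (del H S) Sᶜ (bad H S), z ∈ bad H S → miss H S z = {a})
    (hone : ∀ s ∈ S, s ≠ a → miss H S s ≠ ∅)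
    (hZD : tZ (del H S) Sᶜ (bad H S) ⊆ bad H S) {y : V} (hy : y ∈ bad H S)
    (hya : miss H S y ≠ {a}) :
    y ∉ tZ (del H S) Sᶜ (bad H S) ∧
      (∀ v ∈ tT (del H S) Sᶜ (bad H S), y ∉ N (del H S) v) ∧
      (tZ (del H S) Sᶜ (bad H S)).card + 2 ≤ dg (del H S) y := by
  have C := P.C
  have hyZ : y ∉ tZ (del H S) Sᶜ (bad H S) := fun h => hya (hZa y h hy)
  obtain ⟨s, hsS, hs, -⟩ := sing H P hy
  have hsa : s ≠ a := by
    rintro rfl
    exact hya hs
  refine ⟨hyZ, ?_, ?_⟩
  · intro v hv hyv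
    exact hone s hsS hsa (unm H hH hS hv hyv (by rw [hs]; exact mem_singleton_self _))
  · have hyS : y ∉ S := by simpa using C.hD hy
    have h1 := codeg_mem H hH.P2 haS hyS
    have h2 : miss H S a ∪ (miss H S y).erase a = {s} := by
      rw [ha0, hs, erase_eq_of_notMem (by simpa using hsa.symm), empty_union]
    rw [h2, card_singleton, hS] at h1
    have h3 : (N (del H S) y ∩ N H a) ∪ tZ (del H S) Sᶜ (bad H S) ⊆ N (del H S) y := by
      intro x hx
      rw [mem_union, mem_inter] at hx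
      rcases hx with hx | hx
      · exact hx.1
      · exact Cx.N_comm.1 (C.Z_adj hx hy (fun h => hyZ (h ▸ hx)))
    have h4 : Disjoint (N (del H S) y ∩ N H a) (tZ (del H S) Sᶜ (bad H S)) := by
      rw [disjoint_left]
      intro x hx hxZ
      have h5 : a ∈ miss H S x := by rw [hZa x hxZ (hZD hxZ)]; exact mem_singleton_self a
      exact ((mem_miss H).1 h5).2.2 ((mem_N H).1 (mem_inter.1 hx).2).symm
    have h5 := card_le_card h3
    rw [card_union_of_disjoint h4] at h5
    have h6 : dg (del H S) y = (N (del H S) y).card := rfl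
    omega

/-- no payment by these elements, and a gain -/
theorem gainE (P : PreA H j S) (hH : Hyp H j) (hS : S.card = j) {a : V} (haS : a ∈ S)
    (ha0 : miss H S a = ∅)
    (hZa : ∀ z ∈ tZ (del H S) Sᶜ (bad H S), z ∈ bad H S → miss H S z = {a})
    (hone : ∀ s ∈ S, s ≠ a → miss H S s ≠ ∅)
    (hZD : tZ (del H S) Sᶜ (bad H S) ⊆ bad H S) {y : V} (hy : y ∈ bad H S)
    (hya : miss H S y ≠ {a}) :
    2 * ((tZ (del H S) Sᶜ (bad H S)).card : ℤ) - 3
      + ((N (del H S) y ∩ bdlB (del H S) Sᶜ (bad H S)).card : ℤ)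
      ≤ bdlg (del H S) Sᶜ (bad H S) y := by
  obtain ⟨h1, h2, h3⟩ := factsE H P hH hS haS ha0 hZa hone hZD hy hya
  have h4 : (N (del H S) y ∩ bdlB (del H S) Sᶜ (bad H S)).card = 0 := by
    rw [card_eq_zero, eq_empty_iff_forall_notMem]
    intro v hv
    rw [mem_inter] at hv
    exact h2 v (bdl_B_T hv.2) (Cx.N_comm.1 hv.1)
  rw [h4, bdlg, if_pos hy, zD P.C hy h1]
  have : ((tZ (del H S) Sᶜ (bad H S)).card : ℤ) + 2 ≤ dg (del H S) y := by exact_mod_cast h3
  push_cast
  linarith

theorem caseB33 (P : PreA H j S) (hH : Hyp H j) (hj : 2 ≤ j) (hS : S.card = j)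
    (hg : ∑ s ∈ S, (miss H S s).card = 2 * (j / 2)) (hd : 3 ≤ (bad H S).card)
    (hp : (tZ (del H S) Sᶜ (bad H S) ∩ bad H S).card = 3)
    (hh : (tZ (del H S) Sᶜ (bad H S)).card = 3) : -6 ≤ psi H S := by
  have C := P.C
  have hZD : tZ (del H S) Sᶜ (bad H S) ⊆ bad H S := by
    rw [← inter_eq_left]
    exact eq_of_subset_of_card_le inter_subset_left (by omega)
  obtain ⟨z1, hz1⟩ := card_pos.1 (by omega : 0 < (tZ (del H S) Sᶜ (bad H S)).card)
  obtain ⟨a, haS, ha0, hZa, hone, y, hy, hya⟩ := facts6 H P hH hj hS hg hz1 (hZD hz1)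
  have h1 := psi_gain C hd hp hh (by norm_num) (by norm_num) (fun w => if w = y then 3 else 0) (by
    intro w hw
    split_ifs with h
    · subst h
      have h2 := gainE H P hH hS haS ha0 hZa hone hZD hy hya
      rw [hh] at h2
      right; left
      push_cast at h2
      linarith
    · exact Or.inl rfl)
  have h3 : (3 : ℤ) ≤ ∑ w ∈ tK (del H S) Sᶜ (bad H S) \ tZ (del H S) Sᶜ (bad H S),
      if w = y then (3 : ℤ) else 0 := by
    rw [sum_ite_eq' _ y, if_pos (mem_sdiff.2 ⟨C.D_sub_K hy,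
      (factsE H P hH hS haS ha0 hZa hone hZD hy hya).1⟩)]
  have h4 : (0 : ℤ) ≤ ((tTZ (del H S) Sᶜ (bad H S)).card : ℤ) := Int.natCast_nonneg _
  rw [psi]
  push_cast at h1
  push_cast
  linarith

/-- `D = Z`, three elements -/
theorem caseD33 (P : PreA H j S) (hH : Hyp H j) (hj : 2 ≤ j) (hS : S.card = j)
    (hd : (bad H S).card = 3)
    (hp : (tZ (del H S) Sᶜ (bad H S) ∩ bad H S).card = 3)
    (hh : (tZ (del H S) Sᶜ (bad H S)).card = 3) : -8 ≤ psi H S := by
  have C := P.C
  have hZD : tZ (del H S) Sᶜ (bad H S) = bad H S := by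
    have h1 : tZ (del H S) Sᶜ (bad H S) ∩ bad H S = tZ (del H S) Sᶜ (bad H S) :=
      eq_of_subset_of_card_le inter_subset_left (by omega)
    exact eq_of_subset_of_card_le (inter_eq_left.1 h1) (by omega)
  -- two classes
  obtain ⟨y, hy, y', hy', hne⟩ : ∃ y ∈ bad H S, ∃ y' ∈ bad H S, miss H S y ≠ miss H S y' := by
    by_contra hno
    push Not at hno
    obtain ⟨y, hy⟩ := card_pos.1 (by omega : 0 < (bad H S).card)
    obtain ⟨s, hsS, hs, -⟩ := sing H P hy
    have hs0 : miss H S s = ∅ := unmZ H hH hS (by rw [hZD]; exact hy)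
      (by rw [hs]; exact mem_singleton_self s)
    have h1 : S ⊆ {s} := by
      intro w hw
      obtain ⟨v, hv, hwv⟩ := exists_grp H hH P.ne P.hm hw
      rw [grp_eq H (show miss H S v = {s} by rw [← hno y hy v hv, hs]), cmp, hs0,
        mem_insert] at hwv
      rcases hwv with rfl | hwv
      · exact mem_singleton_self _
      · exact absurd hwv (notMem_empty _)
    have := card_le_card h1
    rw [card_singleton] at this
    omega
  have hyy : y ≠ y' := fun h => hne (h ▸ rfl)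
  have h6 := codeg_del H hH.P2 (S := S) (u := y) (v := y') (by simpa using C.hD hy)
      (by simpa using C.hD hy') hyy
  obtain ⟨s, hsS, hs, -⟩ := sing H P hy
  obtain ⟨s', hsS', hs', -⟩ := sing H P hy'
  have hss : s ≠ s' := by
    rintro rfl
    exact hne (by rw [hs, hs'])
  rw [hs, hs', hS, show ({s} : Finset V) ∪ {s'} = {s, s'} from rfl, card_pair hss] at h6
  obtain ⟨x, hx, hxZ⟩ : ∃ x ∈ N (del H S) y ∩ N (del H S) y', x ∉ tZ (del H S) Sᶜ (bad H S) := by
    by_contra hcon
    push Not at hcon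
    have h7 : N (del H S) y ∩ N (del H S) y' ⊆ (bad H S \ {y, y'}) := by
      intro x hx
      have h8 := hcon x hx
      rw [hZD] at h8
      rw [mem_inter] at hx
      rw [mem_sdiff, mem_insert, mem_singleton, not_or]
      refine ⟨h8, ?_, ?_⟩
      · rintro rfl
        exact Cx.not_self hx.1
      · rintro rfl
        exact Cx.not_self hx.2
    have h8 := card_le_card h7
    have h9 : ({y, y'} : Finset V) ⊆ bad H S := by
      intro z hz
      rw [mem_insert, mem_singleton] at hz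
      rcases hz with rfl | rfl
      exacts [hy, hy']
    have h10 := card_sdiff_add_card_eq_card h9
    rw [card_pair hyy] at h10
    omega
  rw [mem_inter] at hx
  have hxU := C.hU y (C.hD hy) hx.1
  have hpair : ({y, y'} : Finset V) ⊆ N (del H S) x ∩ tZ (del H S) Sᶜ (bad H S) := by
    intro z hz
    rw [mem_insert, mem_singleton] at hz
    rcases hz with rfl | rfl
    · exact mem_inter.2 ⟨Cx.N_comm.1 hx.1, by rw [hZD]; exact hy⟩
    · exact mem_inter.2 ⟨Cx.N_comm.1 hx.2, by rw [hZD]; exact hy'⟩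
  have hpc := card_le_card hpair
  rw [card_pair hyy] at hpc
  have hKZ : (N (del H S) x ∩ tZ (del H S) Sᶜ (bad H S)).card
      ≤ (N (del H S) x ∩ tK (del H S) Sᶜ (bad H S)).card :=
    card_le_card (inter_subset_inter_left Cx.Z_sub)
  by_cases hxT : x ∈ tT (del H S) Sᶜ (bad H S)
  · have hx2 : (N (del H S) x).card = 2 := (Cx.mem_T.1 hxT).2.2
    have h11 := card_le_card (inter_subset_left : N (del H S) x ∩ tK (del H S) Sᶜ (bad H S)
      ⊆ N (del H S) x)
    have hxTZ : x ∈ tTZ (del H S) Sᶜ (bad H S) :=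
      mem_filter.2 ⟨mem_filter.2 ⟨hxT, by omega⟩, by omega⟩
    have h12 := card_pos.2 ⟨x, hxTZ⟩
    have h1 := psi_gain C (by omega) hp hh (by norm_num) (by norm_num) (fun w => 0)
      (fun w hw => Or.inl rfl)
    rw [sum_const_zero] at h1
    rw [psi]
    push_cast at h1
    push_cast
    have : (1 : ℤ) ≤ ((tTZ (del H S) Sᶜ (bad H S)).card : ℤ) := by exact_mod_cast h12
    linarith
  · have hxK : x ∈ tK (del H S) Sᶜ (bad H S) := Cx.notT_K hxU hxT
    have hxKZ := mem_sdiff.2 ⟨hxK, hxZ⟩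
    have hxD : x ∉ bad H S := by rw [← hZD]; exact hxZ
    have h1 := psi_gain C (by omega) hp hh (by norm_num) (by norm_num)
      (fun w => if w = x then 1 else 0) (by
      intro w hw
      split_ifs with h
      · subst h
        have h2 := strong_notD C (by omega) hw hxD
        right; left
        have : (2 : ℤ) ≤ ((N (del H S) w ∩ tZ (del H S) Sᶜ (bad H S)).card : ℤ) := by
          exact_mod_cast hpc
        have : (2 : ℤ) ≤ ((N (del H S) w ∩ tK (del H S) Sᶜ (bad H S)).card : ℤ) := by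
          exact_mod_cast (hpc.trans hKZ)
        linarith
      · exact Or.inl rfl)
    rw [sum_ite_eq' _ x, if_pos hxKZ] at h1
    have h4 : (0 : ℤ) ≤ ((tTZ (del H S) Sᶜ (bad H S)).card : ℤ) := Int.natCast_nonneg _
    rw [psi]
    push_cast at h1
    push_cast
    linarith

end main

end Pool.Agent.Helper38.RE
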