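import Pool.Agent.Helper38.RE.T2g

/-! Project RE2 (MP_cc4a3b_co), T2 for all `j ≥ 1`: the exceptional case with two elements of `Z`,
both in `D`. -/

set_option autoImplicit false
set_option linter.unusedSectionVars false
set_option linter.unusedVariables false

namespace Pool.Agent.Helper38.RE

open Finset

variable {V : Type*} [Fintype V] [DecidableEq V]

variable (H : SimpleGraph V) [DecidableRel H.Adj] {j : ℕ} {S : Finset V}

/-- the gain at an element of `D` adjacent to a matched element of `D` -/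
theorem gainA (P : PreA H j S) (hH : Hyp H j) (hS : S.card = j) {a : V} (haS : a ∈ S)
    (ha0 : miss H S a = ∅)
    (hZa : ∀ z ∈ tZ (del H S) Sᶜ (bad H S), z ∈ bad H S → miss H S z = {a})
    (hone : ∀ s ∈ S, s ≠ a → miss H S s ≠ ∅)
    (hZD : tZ (del H S) Sᶜ (bad H S) ⊆ bad H S) (hd : 3 ≤ (bad H S).card)
    (hh : (tZ (del H S) Sᶜ (bad H S)).card = 2) {w0 : V} (hw0 : w0 ∈ bad H S)
    (hw0a : miss H S w0 ≠ {a}) {x : V} (hx : x ∈ bad H S) (hxa : miss H S x = {a})
    (hxZ : x ∉ tZ (del H S) Sᶜ (bad H S)) (hxw : w0 ∈ N (del H S) x) :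
    1 + ((N (del H S) x ∩ bdlB (del H S) Sᶜ (bad H S)).card : ℤ)
      ≤ bdlg (del H S) Sᶜ (bad H S) x := by
  have C := P.C
  obtain ⟨hw0Z, hw0T, -⟩ := factsE H P hH hS haS ha0 hZa hone hZD hw0 hw0a
  have hzD := zD C hx hxZ
  have h1 := C.dg_notZ hd (C.D_sub_K hx) hxZ
  have h2 := bd_le (F := del H S) (U := Sᶜ) (D := bad H S) x
  -- the degree
  have hdx : 4 ≤ dg (del H S) x := by
    obtain ⟨s, hsS, hs, -⟩ := sing H P hw0
    have hsa : s ≠ a := by
      rintro rfl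
      exact hw0a hs
    have hxS : x ∉ S := by simpa using C.hD hx
    obtain ⟨s', hs'⟩ := card_eq_one.1 (show (miss H S s).card = 1 by
      have := P.hm s hsS
      have := card_pos.2 (nonempty_iff_ne_empty.2 (hone s hsS hsa))
      omega)
    have hs'm : s' ∈ miss H S s := by rw [hs']; exact mem_singleton_self _
    have hs'a : s' ≠ a := by
      rintro rfl
      have := (miss_symm H haS hsS).1 hs'm
      rw [ha0] at this
      exact notMem_empty _ this
    have h3 := codeg_mem H hH.P2 hsS hxS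
    rw [hs', hxa, erase_eq_of_notMem (by simpa using hsa), hS,
      show ({s'} : Finset V) ∪ {a} = {s', a} from rfl, card_pair hs'a] at h3
    have h4 : N (del H S) x ∩ N H s ⊆ (N (del H S) x).erase w0 := by
      intro y hy
      rw [mem_inter] at hy
      refine mem_erase.2 ⟨?_, hy.1⟩
      rintro rfl
      have h5 : s ∈ miss H S y := by rw [hs]; exact mem_singleton_self s
      exact ((mem_miss H).1 h5).2.2 ((mem_N H).1 hy.2).symm
    have h5 := card_le_card h4
    have h6 := card_erase_add_one hxw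
    have h7 : dg (del H S) x = (N (del H S) x).card := rfl
    omega
  rw [bdlg, if_pos hx, hzD, hh]
  rcases Nat.eq_zero_or_pos (N (del H S) x ∩ bdlB (del H S) Sᶜ (bad H S)).card with h4 | h4
  · rw [h4]
    have : (4 : ℤ) ≤ dg (del H S) x := by exact_mod_cast hdx
    push_cast
    linarith
  · obtain ⟨v, hv⟩ := card_pos.1 h4
    rw [mem_inter] at hv
    have hvT := bdl_B_T hv.2
    obtain ⟨b, hb, hN⟩ := Cx.T_pair hvT (Cx.N_comm.1 hv.1)
    have hbw := other_adj C hvT hN hx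
    have hbN : b ∈ N (del H S) v := by rw [hN]; simp
    have hbKZ : b ∈ tK (del H S) Sᶜ (bad H S) \ tZ (del H S) Sᶜ (bad H S) := bdl_nbr hv.2 hbN
    rw [mem_sdiff] at hbKZ
    have hbw0 : b ≠ w0 := by
      rintro rfl
      exact hw0T v hvT hbN
    have h5 : insert b (insert w0 (tZ (del H S) Sᶜ (bad H S)))
        ⊆ N (del H S) x ∩ tK (del H S) Sᶜ (bad H S) := by
      intro y hy
      rw [mem_insert, mem_insert] at hy
      rcases hy with rfl | rfl | hy
      · exact mem_inter.2 ⟨hbw, hbKZ.1⟩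
      · exact mem_inter.2 ⟨hxw, C.D_sub_K hw0⟩
      · refine mem_inter.2 ⟨?_, Cx.Z_sub hy⟩
        rw [← hzD] at hy
        exact (mem_inter.1 hy).1
    have h6 := card_le_card h5
    rw [card_insert_of_notMem (by rw [mem_insert, not_or]; exact ⟨hbw0, hbKZ.2⟩),
      card_insert_of_notMem hw0Z, hh] at h6
    have h7 : (dg (del H S) x : ℤ) = ((N (del H S) x ∩ tK (del H S) Sᶜ (bad H S)).card : ℤ)
        + ((N (del H S) x ∩ tT2 (del H S) Sᶜ (bad H S)).card : ℤ) := by exact_mod_cast h1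
    have h8 : (4 : ℤ) ≤ ((N (del H S) x ∩ tK (del H S) Sᶜ (bad H S)).card : ℤ) := by
      exact_mod_cast h6
    have h9 : ((N (del H S) x ∩ bdlB (del H S) Sᶜ (bad H S)).card : ℤ)
        ≤ ((N (del H S) x ∩ tT2 (del H S) Sᶜ (bad H S)).card : ℤ) := by exact_mod_cast h2
    push_cast
    linarith

theorem caseB22 (P : PreA H j S) (hH : Hyp H j) (hj : 2 ≤ j) (hS : S.card = j)
    (hg : ∑ s ∈ S, (miss H S s).card = 2 * (j / 2)) (hd : 3 ≤ (bad H S).card)
    (hp : (tZ (del H S) Sᶜ (bad H S) ∩ bad H S).card = 2)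
    (hh : (tZ (del H S) Sᶜ (bad H S)).card = 2) : -6 ≤ psi H S := by
  have C := P.C
  have hZD : tZ (del H S) Sᶜ (bad H S) ⊆ bad H S := by
    rw [← inter_eq_left]
    exact eq_of_subset_of_card_le inter_subset_left (by omega)
  obtain ⟨z1, z2, hz12, hZ⟩ := card_eq_two.1 hh
  have hz1 : z1 ∈ tZ (del H S) Sᶜ (bad H S) := by rw [hZ]; simp
  have hz2 : z2 ∈ tZ (del H S) Sᶜ (bad H S) := by rw [hZ]; simp
  obtain ⟨a, haS, ha0, hZa, hone, w0, hw0, hw0a⟩ := facts6 H P hH hj hS hg hz1 (hZD hz1)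
  obtain ⟨hw0Z, hw0T, -⟩ := factsE H P hH hS haS ha0 hZa hone hZD hw0 hw0a
  have gE : ∀ y ∈ bad H S, miss H S y ≠ {a} →
      1 + ((N (del H S) y ∩ bdlB (del H S) Sᶜ (bad H S)).card : ℤ)
        ≤ bdlg (del H S) Sᶜ (bad H S) y := by
    intro y hy hya
    have h2 := gainE H P hH hS haS ha0 hZa hone hZD hy hya
    rw [hh] at h2
    push_cast at h2
    linarith
  have h0 : (0 : ℤ) ≤ ((tTZ (del H S) Sᶜ (bad H S)).card : ℤ) := Int.natCast_nonneg _
  have hw0KZ : w0 ∈ tK (del H S) Sᶜ (bad H S) \ tZ (del H S) Sᶜ (bad H S) :=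
    mem_sdiff.2 ⟨C.D_sub_K hw0, hw0Z⟩
  -- a second gain suffices
  have key : ∀ x ∈ tK (del H S) Sᶜ (bad H S) \ tZ (del H S) Sᶜ (bad H S), x ≠ w0 →
      (1 + ((N (del H S) x ∩ bdlB (del H S) Sᶜ (bad H S)).card : ℤ)
        ≤ bdlg (del H S) Sᶜ (bad H S) x ∨
      (x ∉ tQ (del H S) Sᶜ (bad H S) ∧ 1 ≤ bdlg (del H S) Sᶜ (bad H S) x)) → -6 ≤ psi H S := by
    intro x hxKZ hxw hx
    have h1 := psi_gain C hd hp hh (by norm_num) (by norm_num)
      (fun w => if w = w0 ∨ w = x then 1 else 0) (by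
      intro w hw
      split_ifs with h
      · rcases h with rfl | rfl
        · exact Or.inr (Or.inl (gE _ hw0 hw0a))
        · exact Or.inr hx
      · exact Or.inl rfl)
    have h2 := sum_two hxKZ hw0KZ hxw (fun w => if w = w0 ∨ w = x then (1 : ℤ) else 0)
      (fun v _ => by split_ifs <;> norm_num) (by simp) (by simp)
    rw [psi]
    push_cast at h1
    push_cast
    linarith
  by_cases hE2 : ∃ y ∈ bad H S, miss H S y ≠ {a} ∧ y ≠ w0
  · obtain ⟨y, hy, hya, hyw⟩ := hE2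
    obtain ⟨hyZ, -, -⟩ := factsE H P hH hS haS ha0 hZa hone hZD hy hya
    exact key y (mem_sdiff.2 ⟨C.D_sub_K hy, hyZ⟩) hyw (Or.inl (gE y hy hya))
  push Not at hE2
  -- a common neighbour of `z1` and `w0`
  have hz1w : z1 ≠ w0 := fun h => hw0Z (h ▸ hz1)
  have hz1a := hZa z1 hz1 (hZD hz1)
  obtain ⟨s, hsS, hs, -⟩ := sing H P hw0
  have hsa : s ≠ a := by
    rintro rfl
    exact hw0a hs
  have h6 := codeg_del H hH.P2 (S := S) (u := z1) (v := w0) (by simpa using C.hD (hZD hz1))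
      (by simpa using C.hD hw0) hz1w
  rw [hs, hz1a, hS, show ({a} : Finset V) ∪ {s} = {a, s} from rfl, card_pair hsa.symm] at h6
  obtain ⟨x, hx, hxz2⟩ : ∃ x ∈ N (del H S) z1 ∩ N (del H S) w0, x ≠ z2 := by
    by_contra hcon
    push Not at hcon
    have h7 : N (del H S) z1 ∩ N (del H S) w0 ⊆ {z2} := fun x hx => mem_singleton.2 (hcon x hx)
    have := card_le_card h7
    rw [card_singleton] at this
    omega
  rw [mem_inter] at hx
  have hxz1 : x ≠ z1 := by
    rintro rfl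
    exact Cx.not_self hx.1
  have hxw0 : x ≠ w0 := by
    rintro rfl
    exact Cx.not_self hx.2
  have hxZ : x ∉ tZ (del H S) Sᶜ (bad H S) := by
    rw [hZ, mem_insert, mem_singleton, not_or]
    exact ⟨hxz1, hxz2⟩
  have hxK : x ∈ tK (del H S) Sᶜ (bad H S) :=
    Cx.notT_K (C.hU z1 (C.hD (hZD hz1)) hx.1) (fun h => hw0T x h (Cx.N_comm.1 hx.2))
  have hxKZ := mem_sdiff.2 ⟨hxK, hxZ⟩
  have hw0x : w0 ∈ N (del H S) x := Cx.N_comm.1 hx.2
  have hz1x : z1 ∈ N (del H S) x := Cx.N_comm.1 hx.1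
  by_cases hxD : x ∈ bad H S
  · have hxa : miss H S x = {a} := by
      by_contra h
      exact hxw0 (hE2 x hxD h)
    exact key x hxKZ hxw0 (Or.inl (gainA H P hH hS haS ha0 hZa hone hZD hd hh hw0 hw0a hxD hxa
      hxZ hw0x))
  -- `x ∉ D`
  have hk2 : ({z1, w0} : Finset V) ⊆ N (del H S) x ∩ tK (del H S) Sᶜ (bad H S) := by
    intro y hy
    rw [mem_insert, mem_singleton] at hy
    rcases hy with rfl | rfl
    · exact mem_inter.2 ⟨hz1x, Cx.Z_sub hz1⟩
    · exact mem_inter.2 ⟨hw0x, C.D_sub_K hw0⟩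
  have hk2c := card_le_card hk2
  rw [card_pair hz1w] at hk2c
  have hzx1 : 1 ≤ (N (del H S) x ∩ tZ (del H S) Sᶜ (bad H S)).card :=
    card_pos.2 ⟨z1, mem_inter.2 ⟨hz1x, hz1⟩⟩
  by_cases h4 : 4 ≤ (N (del H S) x ∩ tK (del H S) Sᶜ (bad H S)).card
      + (N (del H S) x ∩ tZ (del H S) Sᶜ (bad H S)).card
  · refine key x hxKZ hxw0 (Or.inl ?_)
    have h5 := strong_notD C hd hxKZ hxD
    have h4' : (4 : ℤ) ≤ ((N (del H S) x ∩ tK (del H S) Sᶜ (bad H S)).card : ℤ)
      + ((N (del H S) x ∩ tZ (del H S) Sᶜ (bad H S)).card : ℤ) := by exact_mod_cast h4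
    linarith
  have hNK : N (del H S) x ∩ tK (del H S) Sᶜ (bad H S) = {z1, w0} := by
    refine (eq_of_subset_of_card_le hk2 ?_).symm
    rw [card_pair hz1w]
    omega
  have hgx : 1 ≤ bdlg (del H S) Sᶜ (bad H S) x := by
    have h3 := C.dg_K hxK
    rw [bdlg, if_neg hxD]
    have : (3 : ℤ) ≤ dg (del H S) x := by exact_mod_cast h3
    have : (1 : ℤ) ≤ ((N (del H S) x ∩ tZ (del H S) Sᶜ (bad H S)).card : ℤ) := by
      exact_mod_cast hzx1
    linarith
  by_cases hlow : ∃ b ∈ tK (del H S) Sᶜ (bad H S) \ tZ (del H S) Sᶜ (bad H S),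
      bdlLow (del H S) Sᶜ (bad H S) b ∧ 1 ≤ bdlg (del H S) Sᶜ (bad H S) b
  · obtain ⟨b, hb, hbl, hbg⟩ := hlow
    refine key b hb ?_ (Or.inr ⟨fun h => (mem_filter.1 h).2 hbl, hbg⟩)
    rintro rfl
    exact hbl.1 hw0
  push Not at hlow
  -- `x` need not pay
  have h1 := psi_pay C hd hp hh (Q := (tQ (del H S) Sᶜ (bad H S)).erase x)
    ((erase_subset _ _).trans (filter_subset _ _)) (by
    intro v hv
    obtain ⟨w, hw, hwv⟩ := strong_nbr C hd (by omega) hv
    by_cases hwx : w = x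
    · subst hwx
      have hvT := bdl_B_T hv
      obtain ⟨b, hb, hN⟩ := Cx.T_pair hvT hwv
      have hbN : b ∈ N (del H S) v := by rw [hN]; simp
      have hbKZ := bdl_nbr hv hbN
      refine ⟨b, mem_erase.2 ⟨hb, ?_⟩, hbN⟩
      have hz2b : z2 ∈ N (del H S) b := by
        rcases cov_adj C hvT hN (hZD hz2) with h | h
        · exfalso
          have h5 : z2 ∈ N (del H S) w ∩ tK (del H S) Sᶜ (bad H S) :=
            mem_inter.2 ⟨h, Cx.Z_sub hz2⟩
          rw [hNK, mem_insert, mem_singleton] at h5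
          rcases h5 with h5 | h5
          · exact hz12 h5.symm
          · exact hw0Z (h5 ▸ hz2)
        · exact h
      refine mem_filter.2 ⟨hbKZ, fun hbl => ?_⟩
      have h7 := hlow b hbKZ hbl
      have h8 := C.dg_K (mem_sdiff.1 hbKZ).1
      have h9 : 1 ≤ (N (del H S) b ∩ tZ (del H S) Sᶜ (bad H S)).card :=
        card_pos.2 ⟨z2, mem_inter.2 ⟨hz2b, hz2⟩⟩
      rw [bdlg, if_neg hbl.1] at h7
      have : (3 : ℤ) ≤ dg (del H S) b := by exact_mod_cast h8
      have : (1 : ℤ) ≤ ((N (del H S) b ∩ tZ (del H S) Sᶜ (bad H S)).card : ℤ) := by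
        exact_mod_cast h9
      linarith
    · exact ⟨w, mem_erase.2 ⟨hwx, hw⟩, hwv⟩) (fun w => if w = w0 ∨ w = x then 1 else 0) (by
    intro w hw
    rw [mem_erase] at hw
    split_ifs with h
    · rcases h with rfl | rfl
      · exact gE _ hw0 hw0a
      · exact absurd rfl hw.1
    · rw [zero_add]
      exact Q_pay C hd (by omega) hw.2) (by
    intro w hw hwQ
    rw [mem_erase, not_and] at hwQ
    split_ifs with h
    · rcases h with rfl | rfl
      · have := gE w hw0 hw0a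
        have h2 : (0 : ℤ) ≤ ((N (del H S) w ∩ bdlB (del H S) Sᶜ (bad H S)).card : ℤ) :=
          Int.natCast_nonneg _
        linarith
      · exact hgx
    · have hwx : w ≠ x := fun h' => h (Or.inr h')
      exact low_nonneg C hw (notQ_low hw (hwQ hwx)))
  have h2 := sum_two hxKZ hw0KZ hxw0 (fun w => if w = w0 ∨ w = x then (1 : ℤ) else 0)
    (fun v _ => by split_ifs <;> norm_num) (by simp) (by simp)
  rw [psi]
  push_cast at h1
  push_cast
  linarith

end Pool.Agent.Helper38.RE
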