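import Pool.Agent.Helper38.RE.T2h

/-! Project RE2 (MP_cc4a3b_co), T2 for all `j ≥ 1`: the main case distinction. -/

set_option autoImplicit false
set_option linter.unusedSectionVars false
set_option linter.unusedVariables false

namespace Pool.Agent.Helper38.RE

open Finset

variable {V : Type*} [Fintype V] [DecidableEq V]

variable (H : SimpleGraph V) [DecidableRel H.Adj] {j : ℕ} {S : Finset V}

theorem t2_two (hj : 2 ≤ j) (hH : Hyp H j) (hS : S.card = j)
    (hD : 60 * (j + 1) * (bad H S).card + 40 * (j + 1) ^ 2 ≤ Fintype.card V) : Good H j := by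
  by_contra hbad
  have hlt : ∑ v, (dg H v : ℤ) < (2 * j + 3) * Fintype.card V - (j ^ 2 + 4 * j + 6) := by
    rw [Good, not_le] at hbad
    have : (0 : ℤ) ≤ ((j / 2 : ℕ) : ℤ) := Int.natCast_nonneg _
    linarith
  have P := prea H (by omega) hH hS hD hlt
  obtain ⟨g, hg⟩ : ∃ g, ∑ s ∈ S, (miss H S s).card = g := ⟨_, rfl⟩
  have hΨ : psi H S < (g : ℤ) - 6 - 2 * ((j / 2 : ℕ) : ℤ) := by
    have h1 := P.id
    rw [Good, not_le] at hbad
    rw [psi]
    rw [hg] at h1
    nlinarith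
  have hgj : g ≤ j := hg ▸ gam_le H P hS
  obtain ⟨q, hq⟩ : Even g := hg ▸ even_miss H S
  have hg2 : g ≤ 2 * (j / 2) := by omega
  have hg2' : (g : ℤ) ≤ 2 * ((j / 2 : ℕ) : ℤ) := by exact_mod_cast hg2
  have hjd := P.hd
  obtain ⟨d, hd⟩ : ∃ d, (bad H S).card = d := ⟨_, rfl⟩
  by_cases hd1 : d = 1
  · have := small1 H P (by omega)
    linarith
  by_cases hd2 : d = 2
  · have := small2' H P hH hj hS (by omega)
    linarith
  have hd3 : 3 ≤ (bad H S).card := by omega
  have hΨ0 : psi H S < ((∑ s ∈ S, (miss H S s).card : ℕ) : ℤ) := by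
    rw [hg]
    have : (0 : ℤ) ≤ ((j / 2 : ℕ) : ℤ) := Int.natCast_nonneg _
    linarith
  obtain ⟨p, hp⟩ : ∃ p, (tZ (del H S) Sᶜ (bad H S) ∩ bad H S).card = p := ⟨_, rfl⟩
  obtain ⟨h, hh⟩ : ∃ h, (tZ (del H S) Sᶜ (bad H S)).card = h := ⟨_, rfl⟩
  by_cases h0 : h = 0
  · exact case0 H P hS hD hΨ0 hd3 (by omega)
  by_cases h1 : h = 1
  · obtain ⟨Y, hY, hYD⟩ := case1 H P hS hD hΨ0 hd3 (by omega)
    exact hbad (r1_two H hj hH hY hYD)
  have hpd : p ≤ d := by
    rw [← hp, ← hd]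
    exact card_le_card inter_subset_right
  have hph : p ≤ h := by
    rw [← hp, ← hh]
    exact card_le_card inter_subset_left
  have hB := psi_base P.C hd3 hp hh (by omega)
  rw [← psi, hd] at hB
  have hdd : (3 : ℤ) ≤ d := by omega
  by_cases c2 : p = 2 ∧ h = 2
  · obtain ⟨rfl, rfl⟩ := c2
    by_cases hgg : g = 2 * (j / 2)
    · have := caseB22 H P hH hj hS (by rw [hg]; exact hgg) hd3 hp hh
      linarith
    · have : (g : ℤ) + 2 ≤ 2 * ((j / 2 : ℕ) : ℤ) := by omega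
      push_cast at hB
      linarith
  by_cases c3 : p = 3 ∧ h = 3
  · obtain ⟨rfl, rfl⟩ := c3
    by_cases hgg : g = 2 * (j / 2)
    · have := caseB33 H P hH hj hS (by rw [hg]; exact hgg) hd3 hp hh
      linarith
    · have : (g : ℤ) + 2 ≤ 2 * ((j / 2 : ℕ) : ℤ) := by omega
      by_cases hd4 : d = 3
      · have := caseD33 H P hH hj hS (by omega) hp hh
        linarith
      · have : (4 : ℤ) ≤ d := by omega
        push_cast at hB
        linarith
  by_cases c4 : p = 4 ∧ h = 4 ∧ d = 4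
  · obtain ⟨rfl, rfl, rfl⟩ := c4
    have hZD : tZ (del H S) Sᶜ (bad H S) = bad H S := by
      have h1 : tZ (del H S) Sᶜ (bad H S) ∩ bad H S = tZ (del H S) Sᶜ (bad H S) :=
        eq_of_subset_of_card_le inter_subset_left (by omega)
      exact eq_of_subset_of_card_le (inter_eq_left.1 h1) (by omega)
    by_cases hgg : g = 2 * (j / 2)
    · obtain ⟨z1, hz1⟩ := card_pos.1 (by omega : 0 < (tZ (del H S) Sᶜ (bad H S)).card)
      obtain ⟨a, haS, ha0, hZa, hone, y, hy, hya⟩ := facts6 H P hH hj hS (by rw [hg]; exact hgg)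
        hz1 (hZD ▸ hz1)
      exact hya (hZa y (by rw [hZD]; exact hy) hy)
    · have : (g : ℤ) + 2 ≤ 2 * ((j / 2 : ℕ) : ℤ) := by omega
      push_cast at hB
      linarith
  have hA := arith2 (d := (d : ℤ)) (p := (p : ℤ)) (h := (h : ℤ)) hdd (by omega) (by omega)
    (by omega) (by omega) (by omega) (by omega) (by omega)
  linarith

theorem t2_one (hH : Hyp H 1) (hS : S.card = 1)
    (hD : 60 * (1 + 1) * (bad H S).card + 40 * (1 + 1) ^ 2 ≤ Fintype.card V) :
    (5 : ℤ) * Fintype.card V - 14 ≤ ∑ v, (dg H v : ℤ) := by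
  by_contra hbad
  have hlt : ∑ v, (dg H v : ℤ) < (2 * ((1 : ℕ) : ℤ) + 3) * Fintype.card V
      - (((1 : ℕ) : ℤ) ^ 2 + 4 * ((1 : ℕ) : ℤ) + 6) := by
    push_cast
    linarith
  have P := prea H le_rfl hH hS hD hlt
  obtain ⟨g, hg⟩ : ∃ g, ∑ s ∈ S, (miss H S s).card = g := ⟨_, rfl⟩
  have hgj : g ≤ 1 := hg ▸ gam_le H P hS
  obtain ⟨q, hq⟩ : Even g := hg ▸ even_miss H S
  have hg0 : g = 0 := by omega
  have hΨ : psi H S < -9 := by
    have h1 := P.id
    rw [psi]
    rw [hg, hg0] at h1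
    push_cast at h1
    push_cast
    linarith
  have hjd := P.hd
  obtain ⟨d, hd⟩ : ∃ d, (bad H S).card = d := ⟨_, rfl⟩
  by_cases hd1 : d = 1
  · have := small1 H P (by omega)
    linarith
  by_cases hd2 : d = 2
  · have := small2 H P (by omega)
    linarith
  have hd3 : 3 ≤ (bad H S).card := by omega
  have hΨ0 : psi H S < ((∑ s ∈ S, (miss H S s).card : ℕ) : ℤ) := by
    rw [hg, hg0]
    push_cast
    linarith
  obtain ⟨p, hp⟩ : ∃ p, (tZ (del H S) Sᶜ (bad H S) ∩ bad H S).card = p := ⟨_, rfl⟩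
  obtain ⟨h, hh⟩ : ∃ h, (tZ (del H S) Sᶜ (bad H S)).card = h := ⟨_, rfl⟩
  by_cases h0 : h = 0
  · exact case0 H P hS hD hΨ0 hd3 (by omega)
  by_cases h1 : h = 1
  · obtain ⟨Y, hY, hYD⟩ := case1 H P hS hD hΨ0 hd3 (by omega)
    exact hbad (r1_one H hH hY (by omega))
  have hpd : p ≤ d := by
    rw [← hp, ← hd]
    exact card_le_card inter_subset_right
  have hph : p ≤ h := by
    rw [← hp, ← hh]
    exact card_le_card inter_subset_left
  have hB := psi_base P.C hd3 hp hh (by omega)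
  rw [← psi, hd] at hB
  have hA := arith9 (d := (d : ℤ)) (p := (p : ℤ)) (h := (h : ℤ)) (by omega) (by omega) (by omega)
    (by omega) (by omega)
  linarith

end Pool.Agent.Helper38.RE
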