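import Pool.Agent.Helper38.RE.T2
import Pool.Agent.Helper38.RE.T1
import Pool.Agent.Helper38.RE.Roman
import Pool.Agent.Helper38.RE.Str

/-! Project RE (MP_cc4a3b_co): the upper bound for the number of edges. -/

set_option autoImplicit false
set_option linter.unusedSectionVars false
set_option linter.unusedVariables false

namespace Pool.Agent.Helper38.RE

open Finset

theorem lower {V : Type*} [Fintype V] [DecidableEq V] (H : SimpleGraph V) [DecidableRel H.Adj]
    {j : ℕ} (hj : 10 ≤ j) (hH : Hyp H j) (hn : 10 ^ 8 * (j + 2) ^ 8 ≤ Fintype.card V) :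
    Good H j :=
  str H (by omega) hH.P1 hH.P2
    (fun _ hW h1 h2 => t1 H hH.P1 hW h1 h2) (fun _ hS hD => t2 H hj hH hS hD) hn

/-- the three properties of the complement -/
theorem hyp_compl {V : Type*} [Fintype V] [DecidableEq V] (G : SimpleGraph V)
    [DecidableRel G.Adj] {j : ℕ} (hG : G.Connected)
    (hr : ∀ f, IsRDF G f → j + 4 ≤ ∑ v, f v) : Hyp Gᶜ j := by
  have hadj : ∀ x v : V, x ≠ v → x ∉ N Gᶜ v → G.Adj x v := by
    intro x v hxv hx
    rw [mem_N, SimpleGraph.compl_adj, not_and, not_not] at hx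
    exact (hx hxv.symm).symm
  refine ⟨fun v => ?_, fun u v huv => ?_, fun X hX hX' => ?_⟩
  · have hv : v ∉ N Gᶜ v := by
      rw [mem_N]; exact fun h => (Gᶜ).loopless.irrefl v h
    have h := hr (fun x => (if x = v then 2 else 0) + (if x ∈ N Gᶜ v then 1 else 0)) (by
      refine ⟨fun x => ?_, fun x hx => ⟨v, ?_, ?_⟩⟩
      · beta_reduce
        by_cases h : x = v
        · subst h
          rw [if_pos rfl, if_neg hv]
        · rw [if_neg h]
          split_ifs <;> omega
      · beta_reduce at hx
        by_cases h : x = v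
        · rw [if_pos h] at hx
          omega
        · by_cases h' : x ∈ N Gᶜ v
          · rw [if_pos h'] at hx
            omega
          · exact hadj x v h h'
      · beta_reduce
        rw [if_pos rfl, if_neg hv])
    rw [sum_add_distrib, sum_ite_eq' univ v, if_pos (mem_univ v), ← card_filter,
      filter_mem_eq_inter, univ_inter] at h
    have : dg Gᶜ v = (N Gᶜ v).card := rfl
    omega
  · have hu : u ∉ N Gᶜ u ∩ N Gᶜ v := by
      rw [mem_inter, mem_N]; exact fun h => (Gᶜ).loopless.irrefl u h.1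
    have hv : v ∉ N Gᶜ u ∩ N Gᶜ v := by
      rw [mem_inter, mem_N Gᶜ (v := v)]; exact fun h => (Gᶜ).loopless.irrefl v h.2
    have h := hr (fun x => (if x = u then 2 else 0) + (if x = v then 2 else 0)
        + (if x ∈ N Gᶜ u ∩ N Gᶜ v then 1 else 0)) (by
      refine ⟨fun x => ?_, fun x hx => ?_⟩
      · beta_reduce
        by_cases h : x = u
        · subst h
          rw [if_pos rfl, if_neg huv, if_neg hu]
        · rw [if_neg h]
          by_cases h' : x = v
          · subst h'
            rw [if_pos rfl, if_neg hv]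
          · rw [if_neg h']
            split_ifs <;> omega
      · beta_reduce at hx
        have h1 : x ≠ u := by
          rintro rfl
          rw [if_pos rfl] at hx
          omega
        have h2 : x ≠ v := by
          rintro rfl
          rw [if_neg h1, if_pos rfl] at hx
          omega
        have h3 : x ∉ N Gᶜ u ∩ N Gᶜ v := by
          intro h
          rw [if_pos h] at hx
          omega
        rw [mem_inter, not_and_or] at h3
        rcases h3 with h3 | h3
        · refine ⟨u, hadj x u h1 h3, ?_⟩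
          beta_reduce
          rw [if_pos rfl, if_neg huv, if_neg hu]
        · refine ⟨v, hadj x v h2 h3, ?_⟩
          beta_reduce
          rw [if_neg huv.symm, if_pos rfl, if_neg hv])
    rw [sum_add_distrib, sum_add_distrib, sum_ite_eq' univ u, sum_ite_eq' univ v,
      if_pos (mem_univ v), if_pos (mem_univ u), ← card_filter, filter_mem_eq_inter,
      univ_inter] at h
    omega
  · obtain ⟨x, hx⟩ := hX
    obtain ⟨y, hy⟩ : ∃ y, y ∉ X := by
      by_contra h
      push Not at h
      exact hX' (eq_univ_iff_forall.2 h)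
    obtain ⟨p⟩ := hG.preconnected x y
    obtain ⟨d, -, hd1, hd2⟩ := p.exists_boundary_dart (X : Set V) (by exact_mod_cast hx)
      (by exact_mod_cast hy)
    refine ⟨d.fst, by exact_mod_cast hd1, d.snd, by exact_mod_cast hd2, ?_⟩
    rw [SimpleGraph.compl_adj]
    exact fun h => h.2 d.adj

/-- the upper bound for the number of edges -/
theorem upper {n k : ℕ} (hk : 14 ≤ k) (hn : 10 ^ 8 * k ^ 8 ≤ n) (G : SimpleGraph (Fin n))
    (hG : G.Connected) (hr : ∀ f, IsRDF G f → k ≤ ∑ v, f v) :
    G.edgeSet.ncard ≤ (n - k + 2) ^ 2 / 2 + (k - 2) / 2 := by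
  classical
  obtain ⟨j, rfl⟩ : ∃ j, k = j + 4 := ⟨k - 4, by omega⟩
  have hH := hyp_compl G (j := j) hG hr
  have hle : (j + 2) ^ 8 ≤ (j + 4) ^ 8 := Nat.pow_le_pow_left (by omega) 8
  have hgood := lower Gᶜ (j := j) (by omega) hH (by
    rw [Fintype.card_fin]
    exact le_trans (Nat.mul_le_mul_left _ hle) hn)
  have hkn : j + 4 ≤ n := by
    have h1 : j + 4 ≤ (j + 4) ^ 8 := Nat.le_self_pow (by norm_num) _
    have h2 : (j + 4) ^ 8 ≤ 10 ^ 8 * (j + 4) ^ 8 := Nat.le_mul_of_pos_left _ (by norm_num)
    omega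
  rw [Good, Fintype.card_fin] at hgood
  have hdeg : ∀ v, (dg Gᶜ v : ℤ) = (n : ℤ) - 1 - G.degree v := by
    intro v
    have h1 : dg Gᶜ v = (Gᶜ).degree v := by
      rw [dg, SimpleGraph.card_neighborFinset_eq_degree]
    have h2 := G.degree_compl v
    have h3 := G.degree_lt_card_verts v
    rw [Fintype.card_fin] at h2 h3
    rw [h1, h2]
    omega
  have hsum : ∑ v, (dg Gᶜ v : ℤ) = (n : ℤ) * (n - 1) - 2 * (G.edgeFinset.card : ℤ) := by
    have h1 := G.sum_degrees_eq_twice_card_edges
    have h2 : (∑ v, (G.degree v : ℤ)) = 2 * (G.edgeFinset.card : ℤ) := by exact_mod_cast h1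
    rw [sum_congr rfl fun v _ => hdeg v, sum_sub_distrib, h2, sum_const, card_univ,
      Fintype.card_fin, nsmul_eq_mul]
  have hcard : G.edgeSet.ncard = G.edgeFinset.card := by
    rw [Set.ncard_eq_toFinset_card', SimpleGraph.edgeFinset]
  rw [hcard]
  rw [hsum] at hgood
  obtain ⟨t, rfl⟩ : ∃ t, n = t + (j + 4) := ⟨n - (j + 4), by omega⟩
  have e1 : t + (j + 4) - (j + 4) + 2 = t + 2 := by omega
  rw [e1]
  generalize G.edgeFinset.card = e at *
  have e2 : j + 4 - 2 = j + 2 := by omega
  rw [e2]
  have e3 : (2 * e : ℤ) ≤ (t + 2) ^ 2 + 2 * ((j / 2 : ℕ) : ℤ) + 2 := by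
    generalize ((j / 2 : ℕ) : ℤ) = q at *
    push_cast at hgood
    nlinarith
  have e4 : 2 * e ≤ (t + 2) ^ 2 + 2 * (j / 2) + 2 := by exact_mod_cast e3
  generalize (t + 2) ^ 2 = X at *
  omega

end Pool.Agent.Helper38.RE
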