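import Pool.Agent.Helper38.RE.T2i
import Pool.Agent.Helper38.RE.Upper

/-! Project RE2 (MP_cc4a3b_co): the upper bound for the number of edges, all `k ≥ 5`. -/

set_option autoImplicit false
set_option linter.unusedSectionVars false
set_option linter.unusedVariables false

namespace Pool.Agent.Helper38.RE

open Finset

theorem lower_two {V : Type*} [Fintype V] [DecidableEq V] (H : SimpleGraph V)
    [DecidableRel H.Adj] {j : ℕ} (hj : 2 ≤ j) (hH : Hyp H j)
    (hn : 10 ^ 8 * (j + 2) ^ 8 ≤ Fintype.card V) : Good H j :=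
  str H (by omega) hH.P1 hH.P2
    (fun _ hW h1 h2 => t1 H hH.P1 hW h1 h2) (fun _ hS hD => t2_two H hj hH hS hD) hn

theorem lower_one {V : Type*} [Fintype V] [DecidableEq V] (H : SimpleGraph V)
    [DecidableRel H.Adj] (hH : Hyp H 1) (hn : 10 ^ 8 * (1 + 2) ^ 8 ≤ Fintype.card V) :
    (5 : ℤ) * Fintype.card V - 14 ≤ ∑ v, (dg H v : ℤ) := by
  by_contra hbad
  have h : Good H 1 := str H le_rfl hH.P1 hH.P2
    (fun _ hW h1 h2 => t1 H hH.P1 hW h1 h2)
    (fun _ hS hD => absurd (t2_one H hH hS hD) hbad) hn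
  apply hbad
  rw [Good, show ((1 / 2 : ℕ) : ℤ) = 0 from rfl] at h
  push_cast at h
  linarith

/-- the degree sum of the complement -/
theorem sum_compl {n : ℕ} (G : SimpleGraph (Fin n)) [DecidableRel G.Adj] :
    ∑ v, (dg Gᶜ v : ℤ) = (n : ℤ) * (n - 1) - 2 * (G.edgeSet.ncard : ℤ) := by
  have hdeg : ∀ v, (dg Gᶜ v : ℤ) = (n : ℤ) - 1 - G.degree v := by
    intro v
    have h1 : dg Gᶜ v = (Gᶜ).degree v := by
      rw [dg, SimpleGraph.card_neighborFinset_eq_degree]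
    have h2 := G.degree_compl v
    have h3 := G.degree_lt_card_verts v
    rw [Fintype.card_fin] at h2 h3
    rw [h1, h2]
    omega
  have hcard : G.edgeSet.ncard = G.edgeFinset.card := by
    rw [Set.ncard_eq_toFinset_card', SimpleGraph.edgeFinset]
  rw [hcard]
  have h1 := G.sum_degrees_eq_twice_card_edges
  have h2 : (∑ v, (G.degree v : ℤ)) = 2 * (G.edgeFinset.card : ℤ) := by exact_mod_cast h1
  rw [sum_congr rfl fun v _ => hdeg v, sum_sub_distrib, h2, sum_const, card_univ,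
    Fintype.card_fin, nsmul_eq_mul]

/-- the upper bound for the number of edges, `k ≥ 6` -/
theorem upper6 {n k : ℕ} (hk : 6 ≤ k) (hn : 10 ^ 8 * k ^ 8 ≤ n) (G : SimpleGraph (Fin n))
    (hG : G.Connected) (hr : ∀ f, IsRDF G f → k ≤ ∑ v, f v) :
    G.edgeSet.ncard ≤ (n - k + 2) ^ 2 / 2 + (k - 2) / 2 := by
  classical
  obtain ⟨j, rfl⟩ : ∃ j, k = j + 4 := ⟨k - 4, by omega⟩
  have hH := hyp_compl G (j := j) hG hr
  have hle : (j + 2) ^ 8 ≤ (j + 4) ^ 8 := Nat.pow_le_pow_left (by omega) 8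
  have hgood := lower_two Gᶜ (j := j) (by omega) hH (by
    rw [Fintype.card_fin]
    exact le_trans (Nat.mul_le_mul_left _ hle) hn)
  have hkn : j + 4 ≤ n := by
    have h1 : j + 4 ≤ (j + 4) ^ 8 := Nat.le_self_pow (by norm_num) _
    have h2 : (j + 4) ^ 8 ≤ 10 ^ 8 * (j + 4) ^ 8 := Nat.le_mul_of_pos_left _ (by norm_num)
    omega
  rw [Good, Fintype.card_fin, sum_compl] at hgood
  obtain ⟨t, rfl⟩ : ∃ t, n = t + (j + 4) := ⟨n - (j + 4), by omega⟩
  have e1 : t + (j + 4) - (j + 4) + 2 = t + 2 := by omega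
  rw [e1]
  generalize G.edgeSet.ncard = e at *
  have e2 : j + 4 - 2 = j + 2 := by omega
  rw [e2]
  have e3 : (2 * e : ℤ) ≤ (t + 2) ^ 2 + 2 * ((j / 2 : ℕ) : ℤ) + 2 := by
    generalize ((j / 2 : ℕ) : ℤ) = q at *
    push_cast at hgood
    nlinarith
  have e4 : 2 * e ≤ (t + 2) ^ 2 + 2 * (j / 2) + 2 := by exact_mod_cast e3
  generalize (t + 2) ^ 2 = X at *
  omega

/-- the upper bound for the number of edges, `k = 5` -/
theorem upper5 {n : ℕ} (hn : 10 ^ 8 * 5 ^ 8 ≤ n) (G : SimpleGraph (Fin n))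
    (hG : G.Connected) (hr : ∀ f, IsRDF G f → 5 ≤ ∑ v, f v) :
    G.edgeSet.ncard ≤ ((n - 3) ^ 2 + 5) / 2 := by
  classical
  have hH := hyp_compl G (j := 1) hG hr
  have hgood := lower_one Gᶜ hH (by
    rw [Fintype.card_fin]
    exact le_trans (Nat.mul_le_mul_left _ (by norm_num)) hn)
  rw [Fintype.card_fin, sum_compl] at hgood
  obtain ⟨t, rfl⟩ : ∃ t, n = t + 3 := ⟨n - 3, by omega⟩
  have e1 : t + 3 - 3 = t := by omega
  rw [e1]
  generalize G.edgeSet.ncard = e at *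
  have e3 : (2 * e : ℤ) ≤ t ^ 2 + 5 := by
    push_cast at hgood
    nlinarith
  have e4 : 2 * e ≤ t ^ 2 + 5 := by exact_mod_cast e3
  generalize t ^ 2 = X at *
  omega

end Pool.Agent.Helper38.RE
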